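import Mathlib

/-! TASK D2a: a plane homeomorphism interpolating between the identity and a circle map. -/

open Set Metric Topology Filter

noncomputable section

namespace Ends72

/-- The cutoff function: zero on `[0,1/2]`, one on `[1,∞)`. -/
def angChi (r : ℝ) : ℝ := max 0 (min 1 (2 * r - 1))

theorem angChi_cont : Continuous angChi := by
  unfold angChi
  fun_prop

theorem angChi_nonneg (r : ℝ) : 0 ≤ angChi r := le_max_left _ _

theorem angChi_le_one (r : ℝ) : angChi r ≤ 1 := max_le zero_le_one (min_le_left _ _)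

theorem angChi_zero {r : ℝ} (h : r ≤ 1 / 2) : angChi r = 0 := by
  unfold angChi
  rw [max_eq_left]
  exact (min_le_right _ _).trans (by linarith)

theorem angChi_one : angChi 1 = 1 := by
  unfold angChi
  norm_num

/-- The plane map. -/
def angMap (B : ℝ → ℝ) (z : ℂ) : ℂ :=
  z * Complex.exp ((angChi ‖z‖ * (B z.arg - z.arg) : ℝ) * Complex.I)

theorem ang_periodic {B : ℝ → ℝ} (hp : ∀ θ, B (θ + 2 * Real.pi) = B θ + 2 * Real.pi) :
    Function.Periodic (fun θ => B θ - θ) (2 * Real.pi) := by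
  intro θ
  simp only [hp]
  ring

theorem ang_norm (B : ℝ → ℝ) (z : ℂ) : ‖angMap B z‖ = ‖z‖ := by
  unfold angMap
  rw [norm_mul, Complex.norm_exp_ofReal_mul_I, mul_one]

theorem ang_small (B : ℝ → ℝ) (z : ℂ) (hz : ‖z‖ ≤ 1 / 2) : angMap B z = z := by
  unfold angMap
  rw [angChi_zero hz]
  simp

theorem ang_int {B : ℝ → ℝ} (hp : ∀ θ, B (θ + 2 * Real.pi) = B θ + 2 * Real.pi)
    (θ : ℝ) (n : ℤ) : B (θ + 2 * Real.pi * n) - (θ + 2 * Real.pi * n) = B θ - θ := by
  have h := (ang_periodic hp).int_mul n θ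
  rw [mul_comm (2 * Real.pi) (n : ℝ)]
  exact h

/-- In polar coordinates. -/
theorem ang_polar {B : ℝ → ℝ} (hp : ∀ θ, B (θ + 2 * Real.pi) = B θ + 2 * Real.pi)
    (r : ℝ) (hr : 0 < r) (θ : ℝ) :
    angMap B (r * Complex.exp (θ * Complex.I)) =
      r * Complex.exp ((θ + angChi r * (B θ - θ) : ℝ) * Complex.I) := by
  have h1 : ‖(r : ℂ) * Complex.exp (θ * Complex.I)‖ = r := by
    rw [norm_mul, Complex.norm_exp_ofReal_mul_I, mul_one, Complex.norm_real,
      Real.norm_of_nonneg hr.le]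
  obtain ⟨n, hn⟩ : ∃ n : ℤ, ((r : ℂ) * Complex.exp (θ * Complex.I)).arg =
      θ + 2 * Real.pi * n := by
    refine ⟨⌊(Real.pi - θ) / (2 * Real.pi)⌋, ?_⟩
    rw [Complex.exp_mul_I]
    linarith [Complex.arg_mul_cos_add_sin_mul_I_sub hr θ]
  unfold angMap
  rw [h1, hn, ang_int hp θ n, mul_assoc, ← Complex.exp_add]
  congr 2
  push_cast
  ring

theorem ang_F_mono {B : ℝ → ℝ} (hm : StrictMono B) (r : ℝ) :
    StrictMono (fun θ => θ + angChi r * (B θ - θ)) := by
  intro a b hab
  have h1 := angChi_nonneg r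
  have h2 := angChi_le_one r
  have h3 := hm hab
  show a + angChi r * (B a - a) < b + angChi r * (B b - b)
  rcases eq_or_lt_of_le h1 with h | h
  · rw [← h]; linarith
  · nlinarith

theorem ang_inj {B : ℝ → ℝ} (hm : StrictMono B)
    (hp : ∀ θ, B (θ + 2 * Real.pi) = B θ + 2 * Real.pi) : Function.Injective (angMap B) := by
  intro z w h
  have hn : ‖z‖ = ‖w‖ := by rw [← ang_norm B z, h, ang_norm]
  by_cases hz : z = 0
  · subst hz
    rw [norm_zero] at hn
    exact (norm_eq_zero.1 hn.symm).symm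
  · have hr : 0 < ‖z‖ := norm_pos_iff.2 hz
    have ez := Complex.norm_mul_exp_arg_mul_I z
    have ew := Complex.norm_mul_exp_arg_mul_I w
    rw [← hn] at ew
    have h1 := ang_polar hp ‖z‖ hr z.arg
    have h2 := ang_polar hp ‖z‖ hr w.arg
    rw [ez] at h1
    rw [ew, ← h, h1] at h2
    have hr' : ((‖z‖ : ℝ) : ℂ) ≠ 0 := by exact_mod_cast hr.ne'
    have h3 := mul_left_cancel₀ hr' h2
    obtain ⟨n, h4⟩ := Complex.exp_eq_exp_iff_exists_int.1 h3
    have h5 : z.arg + angChi ‖z‖ * (B z.arg - z.arg) =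
        (w.arg + 2 * Real.pi * n) +
          angChi ‖z‖ * (B (w.arg + 2 * Real.pi * n) - (w.arg + 2 * Real.pi * n)) := by
      rw [ang_int hp]
      have h6 := congrArg Complex.im h4
      simp at h6
      linarith
    have h7 := (ang_F_mono hm ‖z‖).injective h5
    rw [← ez, ← ew, h7]
    congr 1
    apply Complex.exp_eq_exp_iff_exists_int.2
    refine ⟨n, ?_⟩
    push_cast
    ring

theorem ang_surj {B : ℝ → ℝ} (hc : Continuous B)
    (hp : ∀ θ, B (θ + 2 * Real.pi) = B θ + 2 * Real.pi) : Function.Surjective (angMap B) := by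
  intro w
  by_cases hw : w = 0
  · exact ⟨0, by simp [angMap, hw]⟩
  · have hr : 0 < ‖w‖ := norm_pos_iff.2 hw
    set F : ℝ → ℝ := fun θ => θ + angChi ‖w‖ * (B θ - θ) with hF
    have hFc : Continuous F := by rw [hF]; fun_prop
    have hFp : ∀ n : ℤ, F (0 + 2 * Real.pi * n) = F 0 + 2 * Real.pi * n := by
      intro n
      rw [hF]
      simp only
      rw [ang_int hp]
      ring
    have hpi := Real.pi_pos
    obtain ⟨n, hn⟩ := exists_int_gt ((w.arg - F 0) / (2 * Real.pi))
    obtain ⟨n', hn'⟩ := exists_int_lt ((w.arg - F 0) / (2 * Real.pi))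
    rw [div_lt_iff₀ (by positivity)] at hn
    rw [lt_div_iff₀ (by positivity)] at hn'
    obtain ⟨θ, hθ⟩ : w.arg ∈ range F := by
      apply mem_range_of_exists_le_of_exists_ge hFc
      · exact ⟨0 + 2 * Real.pi * n', by rw [hFp]; linarith⟩
      · exact ⟨0 + 2 * Real.pi * n, by rw [hFp]; linarith⟩
    refine ⟨‖w‖ * Complex.exp (θ * Complex.I), ?_⟩
    rw [ang_polar hp ‖w‖ hr θ]
    have : θ + angChi ‖w‖ * (B θ - θ) = w.arg := hθ
    rw [this]
    exact Complex.norm_mul_exp_arg_mul_I w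

theorem ang_cont {B : ℝ → ℝ} (hc : Continuous B)
    (hp : ∀ θ, B (θ + 2 * Real.pi) = B θ + 2 * Real.pi) : Continuous (angMap B) := by
  rw [continuous_iff_continuousAt]
  intro z
  by_cases hz : z = 0
  · subst hz
    apply ContinuousAt.congr continuousAt_id
    filter_upwards [ball_mem_nhds (0 : ℂ) (by norm_num : (0 : ℝ) < 1 / 2)] with w hw
    rw [ang_small B w (by simpa using (mem_ball_zero_iff.1 hw).le)]
    rfl
  · have hL : Continuous (ang_periodic hp).lift := by
      apply Continuous.quotient_lift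
      fun_prop
    have h1 : ContinuousAt (fun z : ℂ => B z.arg - z.arg) z :=
      hL.continuousAt.comp (Complex.continuousAt_arg_coe_angle hz)
    unfold angMap
    have h2 : ContinuousAt (fun z : ℂ => angChi ‖z‖ * (B z.arg - z.arg)) z :=
      (angChi_cont.comp continuous_norm).continuousAt.mul h1
    have h3 : ContinuousAt
        (fun z : ℂ => ((angChi ‖z‖ * (B z.arg - z.arg) : ℝ) : ℂ)) z :=
      Complex.continuous_ofReal.continuousAt.comp h2
    exact continuousAt_id.mul (h3.mul continuousAt_const).cexp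

theorem angular {B : ℝ → ℝ} (hc : Continuous B) (hm : StrictMono B)
    (hp : ∀ θ, B (θ + 2 * Real.pi) = B θ + 2 * Real.pi) :
    ∃ A : ℂ ≃ₜ ℂ, (∀ z, ‖A z‖ = ‖z‖) ∧ (∀ z, ‖z‖ ≤ 1 / 2 → A z = z) ∧
      ∀ θ : ℝ, A (Complex.exp (θ * Complex.I)) = Complex.exp (B θ * Complex.I) := by
  have hcont := ang_cont hc hp
  have hprop : IsProperMap (angMap B) := by
    rw [isProperMap_iff_tendsto_cocompact]
    refine ⟨hcont, ?_⟩
    rw [← Metric.cobounded_eq_cocompact, ← comap_norm_atTop, tendsto_comap_iff]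
    have : norm ∘ angMap B = norm := funext (ang_norm B)
    rw [this]
    exact tendsto_comap
  let e : ℂ ≃ ℂ := Equiv.ofBijective (angMap B) ⟨ang_inj hm hp, ang_surj hc hp⟩
  refine ⟨e.toHomeomorphOfContinuousClosed hcont hprop.isClosedMap, ang_norm B,
    ang_small B, ?_⟩
  intro θ
  have h := ang_polar hp 1 one_pos θ
  rw [angChi_one] at h
  simp only [Complex.ofReal_one, one_mul] at h
  show angMap B _ = _
  rw [h]
  congr 3
  ring

end Ends72
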