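import Pool.Agent.LibEnds72.Pieces

/-! TASK L1, L2, L3: the flux. -/

open Set Topology Metric

noncomputable section

namespace Ends72

open T OnePoint

/-- sets of ends containing the end `∞` but not the end `0` -/
def IsHalf (E : Set ℝ) (A : Set (OnePoint ℂ)) : Prop :=
  A ⊆ EB E ∧ IsClosed A ∧ IsClosed (EB E \ A) ∧ (∞ : OnePoint ℂ) ∈ A ∧
    ((0 : ℂ) : OnePoint ℂ) ∉ A

/-- the ends outside the circle of radius `rad n` -/
def AA (E : Set ℝ) (n : ℤ) : Set (OnePoint ℂ) :=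
  {x ∈ EB E | x = ∞ ∨ ∃ z : ℂ, rad n < ‖z‖ ∧ x = (z : OnePoint ℂ)}

open Classical in
/-- the action on the sets of ends containing `∞` but not `0` -/
def act (E : Set ℝ) (F : OnePoint ℂ ≃ₜ OnePoint ℂ) (A : Set (OnePoint ℂ)) :
    Set (OnePoint ℂ) := if F ∞ = ∞ then F '' A else EB E \ F '' A

/-- the relative index -/
def dl (A B : Set (OnePoint ℂ)) : ℤ := idx ↥(A \ B) - idx ↥(B \ A)

open Classical in
/-- the sign: `1` if the special ends are fixed and `-1` if they are exchanged -/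
def sg (F : OnePoint ℂ ≃ₜ OnePoint ℂ) : ℤ := if F ∞ = ∞ then 1 else -1

/-- the flux -/
def mm (E : Set ℝ) (F : OnePoint ℂ ≃ₜ OnePoint ℂ) : ℤ := dl (AA E 0) (act E F (AA E 0))

variable {E : Set ℝ} (hE : EGap E) (hb : Nonempty (↥(E ∩ Icc 1 2) ≃ₜ XL blk))

/-! ### Auxiliary facts -/

theorem fx_rad_pos (n : ℤ) : 0 < rad n := by
  unfold rad
  positivity

theorem fx_rad_succ (n : ℤ) : rad (n + 1) = 4 * rad n := by
  unfold rad
  rw [zpow_add_one₀ (by norm_num)]
  ring

theorem fx_rad_lt {m n : ℤ} (h : m < n) : rad m < rad n := by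
  unfold rad
  have : (4 : ℝ) ^ m < 4 ^ n := zpow_lt_zpow_right₀ (by norm_num) h
  linarith

theorem fx_rad_le {m n : ℤ} (h : m ≤ n) : rad m ≤ rad n := by
  unfold rad
  have : (4 : ℝ) ^ m ≤ 4 ^ n := zpow_le_zpow_right₀ (by norm_num) h
  linarith

theorem fx_rad_unbounded (C : ℝ) : ∃ k : ℤ, C < rad k := by
  obtain ⟨n, hn⟩ := pow_unbounded_of_one_lt (4 / 3 * C) (by norm_num : (1 : ℝ) < 4)
  refine ⟨n, ?_⟩
  unfold rad
  rw [zpow_natCast]
  linarith

theorem fx_scale_zpow (hE : EGap E) (n : ℤ) (x : ℝ) : (4 : ℝ) ^ n * x ∈ E ↔ x ∈ E := by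
  induction n using Int.induction_on with
  | zero => simp
  | succ n ih =>
    rw [zpow_add_one₀ (by norm_num), ← ih, ← hE.scale ((4 : ℝ) ^ (n : ℤ) * x)]
    ring_nf
  | pred n ih =>
    rw [← ih, ← hE.scale ((4 : ℝ) ^ (-(n : ℤ) - 1) * x)]
    have : 4 * ((4 : ℝ) ^ (-(n : ℤ) - 1) * x) = 4 ^ (-(n : ℤ)) * x := by
      rw [zpow_sub_one₀ (by norm_num)]
      ring
    rw [this]

/-- no points of `E` in the open annuli around the gap circles -/
theorem fx_gap_rad (hE : EGap E) (n : ℤ) {x : ℝ} (hx : x ∈ E) :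
    ¬ (2 / 3 * rad n < x ∧ x < 4 / 3 * rad n) := by
  rintro ⟨h1, h2⟩
  have h := (fx_scale_zpow hE (-n + 1) x).2 hx
  have e : (4 : ℝ) ^ (-n + 1) * rad n = 3 := by
    unfold rad
    rw [zpow_add_one₀ (by norm_num), zpow_neg]
    have : (4 : ℝ) ^ n ≠ 0 := by positivity
    field_simp
  have hp : (0 : ℝ) < 4 ^ (-n + 1) := by positivity
  refine hE.gap _ h ⟨?_, ?_⟩
  · have := mul_lt_mul_of_pos_left h1 hp
    nlinarith
  · have := mul_lt_mul_of_pos_left h2 hp
    nlinarith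

theorem fx_EC_gap (hE : EGap E) (n : ℤ) {z : ℂ} (hz : z ∈ EC E) :
    ¬ (2 / 3 * rad n < ‖z‖ ∧ ‖z‖ < 4 / 3 * rad n) := by
  obtain ⟨x, hx, rfl⟩ := hz
  rcases hx with rfl | hx
  · have := fx_rad_pos n
    simp only [Complex.ofReal_zero, norm_zero]
    rintro ⟨h, -⟩
    linarith
  · have hp := hE.pos x hx
    simp only [Complex.norm_real, Real.norm_eq_abs, abs_of_pos hp]
    exact fx_gap_rad hE n hx

theorem fx_EC_ne (hE : EGap E) (n : ℤ) {z : ℂ} (hz : z ∈ EC E) : ‖z‖ ≠ rad n := by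
  intro h
  have := fx_rad_pos n
  exact fx_EC_gap hE n hz ⟨by linarith, by linarith⟩

theorem fx_coe_mem_EB {z : ℂ} : (z : OnePoint ℂ) ∈ EB E ↔ z ∈ EC E := by
  unfold EB UE
  rw [mem_compl_iff, not_iff_comm]
  constructor
  · intro h
    exact ⟨z, h, rfl⟩
  · rintro ⟨w, hw, hwz⟩
    rw [coe_eq_coe] at hwz
    rwa [← hwz]

theorem fx_infty_mem_EB : (∞ : OnePoint ℂ) ∈ EB E := by
  unfold EB
  rw [mem_compl_iff]
  exact infty_notMem_image_coe

theorem fx_zero_mem_EC : (0 : ℂ) ∈ EC E := ⟨0, mem_insert _ _, by simp⟩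

theorem fx_zero_mem_EB : ((0 : ℂ) : OnePoint ℂ) ∈ EB E := fx_coe_mem_EB.2 fx_zero_mem_EC

theorem fx_EB_closed (hE : EGap E) : IsClosed (EB E) :=
  (isOpen_image_coe.2 (UE_open hE)).isClosed_compl

theorem fx_coe_mem_AA {n : ℤ} {z : ℂ} : (z : OnePoint ℂ) ∈ AA E n ↔ z ∈ EC E ∧ rad n < ‖z‖ := by
  unfold AA
  simp only [mem_ofPred_eq, fx_coe_mem_EB, coe_ne_infty, false_or, coe_eq_coe]
  constructor
  · rintro ⟨h, w, hw, rfl⟩
    exact ⟨h, hw⟩
  · rintro ⟨h, hw⟩
    exact ⟨h, z, hw, rfl⟩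

theorem fx_infty_mem_AA {n : ℤ} : (∞ : OnePoint ℂ) ∈ AA E n := ⟨fx_infty_mem_EB, Or.inl rfl⟩

theorem fx_op_cases (x : OnePoint ℂ) : x = ∞ ∨ ∃ z : ℂ, x = (z : OnePoint ℂ) := by
  rcases eq_or_ne x ∞ with rfl | h
  · exact Or.inl rfl
  · obtain ⟨z, rfl⟩ := ne_infty_iff_exists.1 h
    exact Or.inr ⟨z, rfl⟩

theorem fx_AA_eq (hE : EGap E) (n : ℤ) :
    AA E n = EB E ∩ ((↑) '' ball (0 : ℂ) (rad n) : Set (OnePoint ℂ))ᶜ := by
  ext x
  obtain rfl | ⟨z, rfl⟩ := fx_op_cases x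
  · exact iff_of_true fx_infty_mem_AA ⟨fx_infty_mem_EB, infty_notMem_image_coe⟩
  · rw [fx_coe_mem_AA, mem_inter_iff, fx_coe_mem_EB, mem_compl_iff]
    refine and_congr_right fun hz => ?_
    rw [coe_injective.mem_set_image, mem_ball_zero_iff, not_lt]
    exact ⟨fun h => h.le, fun h => lt_of_le_of_ne h (fx_EC_ne hE n hz).symm⟩

theorem fx_EB_diff_AA (n : ℤ) :
    EB E \ AA E n = EB E ∩ ((↑) '' closedBall (0 : ℂ) (rad n) : Set (OnePoint ℂ)) := by
  ext x
  obtain rfl | ⟨z, rfl⟩ := fx_op_cases x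
  · exact iff_of_false (fun h => h.2 fx_infty_mem_AA) (fun h => infty_notMem_image_coe h.2)
  · rw [mem_sdiff, fx_coe_mem_AA, mem_inter_iff, fx_coe_mem_EB, coe_injective.mem_set_image,
      mem_closedBall_zero_iff]
    constructor
    · rintro ⟨h1, h2⟩
      exact ⟨h1, not_lt.1 (fun h => h2 ⟨h1, h⟩)⟩
    · rintro ⟨h1, h2⟩
      exact ⟨h1, fun h => absurd h.2 (not_lt.2 h2)⟩

include hE in
theorem AA_half (n : ℤ) : IsHalf E (AA E n) := by
  refine ⟨fun x hx => hx.1, ?_, ?_, fx_infty_mem_AA, ?_⟩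
  · rw [fx_AA_eq hE]
    exact (fx_EB_closed hE).inter (isOpen_image_coe.2 isOpen_ball).isClosed_compl
  · rw [fx_EB_diff_AA]
    exact (fx_EB_closed hE).inter
      (isClosed_image_coe.2 ⟨isClosed_closedBall, isCompact_closedBall _ _⟩)
  · rw [fx_coe_mem_AA, norm_zero]
    exact fun h => absurd h.2 (not_lt.2 (fx_rad_pos n).le)

theorem fx_image_diff_EB {F : OnePoint ℂ ≃ₜ OnePoint ℂ} (hF : F '' EB E = EB E)
    (A : Set (OnePoint ℂ)) : EB E \ F '' A = F '' (EB E \ A) := by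
  rw [image_sdiff F.injective, hF]

include hE hb in
theorem act_half {F : OnePoint ℂ ≃ₜ OnePoint ℂ} (hF : F '' EB E = EB E)
    {A : Set (OnePoint ℂ)} (hA : IsHalf E A) : IsHalf E (act E F A) := by
  obtain ⟨h1, h2, h3, h4, h5⟩ := hA
  have hsub : F '' A ⊆ EB E := by
    rw [← hF]
    exact image_mono h1
  have c1 : IsClosed (F '' A) := F.isClosed_image.2 h2
  have c2 : IsClosed (EB E \ F '' A) := by
    rw [fx_image_diff_EB hF]
    exact F.isClosed_image.2 h3
  rcases ends_pres hE hb F hF with ⟨e1, e2⟩ | ⟨e1, e2⟩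
  · have : act E F A = F '' A := if_pos e1
    rw [this]
    refine ⟨hsub, c1, c2, ⟨∞, h4, e1⟩, ?_⟩
    rintro ⟨y, hy, hy'⟩
    rw [← e2] at hy'
    exact h5 (F.injective hy' ▸ hy)
  · have : act E F A = EB E \ F '' A := by
      refine if_neg ?_
      rw [e1]
      exact coe_ne_infty _
    rw [this]
    refine ⟨sdiff_subset, c2, ?_, ⟨fx_infty_mem_EB, ?_⟩, ?_⟩
    · rwa [sdiff_sdiff_cancel_left hsub]
    · rintro ⟨y, hy, hy'⟩
      rw [← e2] at hy'
      exact h5 (F.injective hy' ▸ hy)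
    · exact fun h => h.2 ⟨∞, h4, e1⟩

/-- differences of halves are pieces -/
theorem fx_half_diff_piece {A B : Set (OnePoint ℂ)} (hA : IsHalf E A) (hB : IsHalf E B) :
    IsPiece E (A \ B) := by
  obtain ⟨a1, a2, a3, a4, a5⟩ := hA
  obtain ⟨b1, b2, b3, b4, b5⟩ := hB
  refine ⟨fun x hx => a1 hx.1, ?_, ?_, fun h => h.2 b4, fun h => a5 h.1⟩
  · have : A \ B = A ∩ (EB E \ B) := by
      ext x
      simp only [mem_sdiff, mem_inter_iff]
      exact ⟨fun h => ⟨h.1, a1 h.1, h.2⟩, fun h => ⟨h.1, h.2.2⟩⟩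
    rw [this]
    exact a2.inter b3
  · have : EB E \ (A \ B) = (EB E \ A) ∪ B := by
      ext x
      simp only [mem_sdiff, mem_union]
      constructor
      · rintro ⟨h, h'⟩
        by_cases hx : x ∈ A
        · exact Or.inr (by_contra fun hb => h' ⟨hx, hb⟩)
        · exact Or.inl ⟨h, hx⟩
      · rintro (⟨h, h'⟩ | h)
        · exact ⟨h, fun h'' => h' h''.1⟩
        · exact ⟨b1 h, fun h'' => h''.2 h⟩
    rw [this]
    exact a3.union b2

theorem fx_piece_inter {P C : Set (OnePoint ℂ)} (hP : IsPiece E P) (hC : IsHalf E C) :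
    IsPiece E (P ∩ C) := by
  obtain ⟨a1, a2, a3, a4, a5⟩ := hP
  obtain ⟨b1, b2, b3, b4, b5⟩ := hC
  refine ⟨fun x hx => a1 hx.1, a2.inter b2, ?_, fun h => a4 h.1, fun h => a5 h.1⟩
  rw [sdiff_inter]
  exact a3.union b3

theorem fx_piece_diff {P C : Set (OnePoint ℂ)} (hP : IsPiece E P) (hC : IsHalf E C) :
    IsPiece E (P \ C) := by
  obtain ⟨a1, a2, a3, a4, a5⟩ := hP
  obtain ⟨b1, b2, b3, b4, b5⟩ := hC
  refine ⟨fun x hx => a1 hx.1, ?_, ?_, fun h => a4 h.1, fun h => a5 h.1⟩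
  · have : P \ C = P ∩ (EB E \ C) := by
      ext x
      simp only [mem_sdiff, mem_inter_iff]
      exact ⟨fun h => ⟨h.1, a1 h.1, h.2⟩, fun h => ⟨h.1, h.2.2⟩⟩
    rw [this]
    exact a2.inter b3
  · have : EB E \ (P \ C) = (EB E \ P) ∪ C := by
      ext x
      simp only [mem_sdiff, mem_union]
      constructor
      · rintro ⟨h, h'⟩
        by_cases hx : x ∈ P
        · exact Or.inr (by_contra fun hb => h' ⟨hx, hb⟩)
        · exact Or.inl ⟨h, hx⟩
      · rintro (⟨h, h'⟩ | h)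
        · exact ⟨h, fun h'' => h' h''.1⟩
        · exact ⟨b1 h, fun h'' => h''.2 h⟩
    rw [this]
    exact a3.union b2

include hE hb in
theorem fx_piece_split {P C : Set (OnePoint ℂ)} (hP : IsPiece E P) (hC : IsHalf E C) :
    idx ↥P = idx ↥(P ∩ C) + idx ↥(P \ C) := by
  have h := piece_add hE hb (fx_piece_inter hP hC) (fx_piece_diff hP hC)
    (disjoint_left.2 fun x hx hx' => hx'.2 hx.2)
  rw [inter_union_sdiff] at h
  exact h

include hE hb in
theorem dl_add {A B C : Set (OnePoint ℂ)} (hA : IsHalf E A) (hB : IsHalf E B)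
    (hC : IsHalf E C) : dl A C = dl A B + dl B C := by
  unfold dl
  rw [fx_piece_split hE hb (fx_half_diff_piece hA hC) hB, fx_piece_split hE hb (fx_half_diff_piece hC hA) hB,
    fx_piece_split hE hb (fx_half_diff_piece hA hB) hC, fx_piece_split hE hb (fx_half_diff_piece hB hA) hC,
    fx_piece_split hE hb (fx_half_diff_piece hB hC) hA, fx_piece_split hE hb (fx_half_diff_piece hC hB) hA]
  have e1 : A \ C ∩ B = B \ C ∩ A := by ext x; simp only [mem_inter_iff, mem_sdiff]; tauto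
  have e2 : (A \ C) \ B = (A \ B) \ C := by ext x; simp only [mem_sdiff]; tauto
  have e3 : C \ A ∩ B = B \ A ∩ C := by ext x; simp only [mem_inter_iff, mem_sdiff]; tauto
  have e4 : (C \ A) \ B = (C \ B) \ A := by ext x; simp only [mem_sdiff]; tauto
  have e5 : A \ B ∩ C = C \ B ∩ A := by ext x; simp only [mem_inter_iff, mem_sdiff]; tauto
  have e6 : (B \ A) \ C = (B \ C) \ A := by ext x; simp only [mem_sdiff]; tauto
  rw [e1, e2, e3, e4, e5, e6]
  ring

include hE hb in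
theorem fx_idx_image {P : Set (OnePoint ℂ)} (hP : IsPiece E P) (F : OnePoint ℂ ≃ₜ OnePoint ℂ) :
    idx ↥(F '' P) = idx ↥P := by
  obtain ⟨α, hα⟩ := piece_dec hE hb hP
  have h2 : Dec ↥(F '' P) α := by
    obtain ⟨l, hl, ⟨e⟩⟩ := hα
    exact ⟨l, hl, ⟨(F.image P).symm.trans e⟩⟩
  rw [idx_Dec hα, idx_Dec h2]

include hE hb in
theorem dl_act {F : OnePoint ℂ ≃ₜ OnePoint ℂ} (hF : F '' EB E = EB E)
    {A B : Set (OnePoint ℂ)} (hA : IsHalf E A) (hB : IsHalf E B) :
    dl (act E F A) (act E F B) = sg F * dl A B := by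
  by_cases h : F ∞ = ∞
  · have e1 : act E F A = F '' A := if_pos h
    have e2 : act E F B = F '' B := if_pos h
    have e3 : sg F = 1 := if_pos h
    unfold dl
    rw [e1, e2, e3, ← image_sdiff F.injective, ← image_sdiff F.injective,
      fx_idx_image hE hb (fx_half_diff_piece hA hB), fx_idx_image hE hb (fx_half_diff_piece hB hA)]
    ring
  · have e1 : act E F A = F '' (EB E \ A) := (if_neg h).trans (fx_image_diff_EB hF A)
    have e2 : act E F B = F '' (EB E \ B) := (if_neg h).trans (fx_image_diff_EB hF B)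
    have e3 : sg F = -1 := if_neg h
    have e4 : (EB E \ A) \ (EB E \ B) = B \ A := by
      ext x
      simp only [mem_sdiff]
      have := @hB.1 x
      tauto
    have e5 : (EB E \ B) \ (EB E \ A) = A \ B := by
      ext x
      simp only [mem_sdiff]
      have := @hA.1 x
      tauto
    unfold dl
    rw [e1, e2, e3, ← image_sdiff F.injective, ← image_sdiff F.injective, e4, e5,
      fx_idx_image hE hb (fx_half_diff_piece hA hB), fx_idx_image hE hb (fx_half_diff_piece hB hA)]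
    ring

theorem fx_mul_image (F G : OnePoint ℂ ≃ₜ OnePoint ℂ) (A : Set (OnePoint ℂ)) :
    (F * G) '' A = F '' (G '' A) := by
  rw [← image_comp]
  rfl

include hE hb in
theorem act_mul {F G : OnePoint ℂ ≃ₜ OnePoint ℂ} (hF : F '' EB E = EB E)
    (hG : G '' EB E = EB E) {A : Set (OnePoint ℂ)} (hA : IsHalf E A) :
    act E (F * G) A = act E F (act E G A) := by
  have hm : (F * G) ∞ = F (G ∞) := rfl
  have hsub : ∀ {H : OnePoint ℂ ≃ₜ OnePoint ℂ}, H '' EB E = EB E →
      ∀ {A : Set (OnePoint ℂ)}, A ⊆ EB E → H '' A ⊆ EB E := by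
    intro H hH A hA
    conv_rhs => rw [← hH]
    exact image_mono hA
  rcases ends_pres hE hb G hG with ⟨g1, g2⟩ | ⟨g1, g2⟩
  · have a1 : act E G A = G '' A := if_pos g1
    rcases ends_pres hE hb F hF with ⟨f1, f2⟩ | ⟨f1, f2⟩
    · have a2 : act E F (G '' A) = F '' (G '' A) := if_pos f1
      have a3 : act E (F * G) A = (F * G) '' A := if_pos (by rw [hm, g1, f1])
      rw [a1, a2, a3, fx_mul_image]
    · have a2 : act E F (G '' A) = EB E \ F '' (G '' A) :=
        if_neg (by rw [f1]; exact coe_ne_infty _)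
      have a3 : act E (F * G) A = EB E \ (F * G) '' A :=
        if_neg (by rw [hm, g1, f1]; exact coe_ne_infty _)
      rw [a1, a2, a3, fx_mul_image]
  · have a1 : act E G A = EB E \ G '' A := if_neg (by rw [g1]; exact coe_ne_infty _)
    rcases ends_pres hE hb F hF with ⟨f1, f2⟩ | ⟨f1, f2⟩
    · have a2 : act E F (EB E \ G '' A) = F '' (EB E \ G '' A) := if_pos f1
      have a3 : act E (F * G) A = EB E \ (F * G) '' A :=
        if_neg (by rw [hm, g1, f2]; exact coe_ne_infty _)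
      rw [a1, a2, a3, fx_mul_image, ← fx_image_diff_EB hF]
    · have a2 : act E F (EB E \ G '' A) = EB E \ F '' (EB E \ G '' A) :=
        if_neg (by rw [f1]; exact coe_ne_infty _)
      have a3 : act E (F * G) A = (F * G) '' A := if_pos (by rw [hm, g1, f2])
      rw [a1, a2, a3, fx_mul_image, ← fx_image_diff_EB hF,
        sdiff_sdiff_cancel_left (hsub hF (hsub hG hA.1))]

include hE hb in
theorem sg_mul {F G : OnePoint ℂ ≃ₜ OnePoint ℂ} (hF : F '' EB E = EB E)
    (hG : G '' EB E = EB E) : sg (F * G) = sg F * sg G := by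
  have hm : (F * G) ∞ = F (G ∞) := rfl
  unfold sg
  rcases ends_pres hE hb G hG with ⟨g1, g2⟩ | ⟨g1, g2⟩ <;>
    rcases ends_pres hE hb F hF with ⟨f1, f2⟩ | ⟨f1, f2⟩ <;>
    simp [hm, g1, f1, f2]

include hE hb in
theorem mm_mul {F G : OnePoint ℂ ≃ₜ OnePoint ℂ} (hF : F '' EB E = EB E)
    (hG : G '' EB E = EB E) : mm E (F * G) = mm E F + sg F * mm E G := by
  unfold mm
  have h0 := AA_half hE 0
  rw [act_mul hE hb hF hG h0, dl_add hE hb h0 (act_half hE hb hF h0)
    (act_half hE hb hF (act_half hE hb hG h0)), dl_act hE hb hF h0 (act_half hE hb hG h0)]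

theorem fx_dl_self (A : Set (OnePoint ℂ)) : dl A A = 0 := sub_self _

theorem mm_one : mm E 1 = 0 := by
  unfold mm
  have : act E 1 (AA E 0) = AA E 0 := by
    have h : act E 1 (AA E 0) = (1 : OnePoint ℂ ≃ₜ OnePoint ℂ) '' AA E 0 := if_pos rfl
    rw [h]
    exact image_id _
  rw [this, fx_dl_self]

theorem fx_Blk_eq (hE : EGap E) (m n : ℤ) : Blk E m n = AA E m \ AA E n := by
  ext x
  obtain rfl | ⟨z, rfl⟩ := fx_op_cases x
  · exact iff_of_false infty_notMem_image_coe (fun h => h.2 fx_infty_mem_AA)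
  · unfold Blk
    rw [coe_injective.mem_set_image, mem_sdiff, fx_coe_mem_AA, fx_coe_mem_AA]
    constructor
    · rintro ⟨h1, h2, h3⟩
      exact ⟨⟨h1, h2⟩, fun h => absurd h.2 (not_lt.2 h3.le)⟩
    · rintro ⟨⟨h1, h2⟩, h3⟩
      exact ⟨h1, h2, lt_of_le_of_ne (not_lt.1 fun h => h3 ⟨h1, h⟩) (fx_EC_ne hE n h1)⟩

include hE hb in
theorem fx_idx_empty {P : Set (OnePoint ℂ)} (h : P = ∅) : idx ↥P = 0 := by
  have h1 := idx_Blk hE hb (le_refl (0 : ℤ))
  have h2 : Blk E 0 0 = ∅ := by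
    rw [fx_Blk_eq hE, sdiff_self]
  rw [h2] at h1
  rw [h]
  simpa using h1

theorem fx_AA_anti {m n : ℤ} (h : m ≤ n) : AA E n ⊆ AA E m := by
  intro x
  obtain rfl | ⟨z, rfl⟩ := fx_op_cases x
  · exact fun _ => fx_infty_mem_AA
  · rw [fx_coe_mem_AA, fx_coe_mem_AA]
    exact fun hz => ⟨hz.1, lt_of_le_of_lt (fx_rad_le h) hz.2⟩

include hE hb in
/-- the flux of the multiplication by `4` -/
theorem mm_scale (F : OnePoint ℂ ≃ₜ OnePoint ℂ)
    (hF : ∀ z : ℂ, F (z : OnePoint ℂ) = ((4 * z : ℂ) : OnePoint ℂ)) : mm E F = 1 := by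
  have hinf : F ∞ = ∞ := by
    by_contra h
    obtain ⟨w, hw⟩ := ne_infty_iff_exists.1 h
    have h2 := hF (w / 4)
    have e : 4 * (w / 4) = w := by ring
    rw [e, hw] at h2
    exact coe_ne_infty _ (F.injective h2)
  have hEC : ∀ z : ℂ, 4 * z ∈ EC E ↔ z ∈ EC E := by
    intro z
    constructor
    · rintro ⟨x, hx, hxz⟩
      have hz : z = ((x / 4 : ℝ) : ℂ) := by
        have : z = (x : ℂ) / 4 := by
          rw [show (x : ℂ) = 4 * z from hxz]
          ring
        rw [this]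
        push_cast
        ring
      refine ⟨x / 4, ?_, hz.symm⟩
      rcases hx with rfl | hx
      · simp
      · refine Or.inr ((hE.scale _).1 ?_)
        have : 4 * (x / 4) = x := by ring
        rwa [this]
    · rintro ⟨x, hx, rfl⟩
      refine ⟨4 * x, ?_, by push_cast; ring⟩
      rcases hx with rfl | hx
      · simp
      · exact Or.inr ((hE.scale _).2 hx)
  have hact : act E F (AA E 0) = AA E 1 := by
    have h1 : act E F (AA E 0) = F '' AA E 0 := if_pos hinf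
    rw [h1]
    ext x
    obtain rfl | ⟨z, rfl⟩ := fx_op_cases x
    · exact iff_of_true ⟨∞, fx_infty_mem_AA, hinf⟩ fx_infty_mem_AA
    · have hr : rad 1 = 4 * rad 0 := by
        have := fx_rad_succ 0
        simpa using this
      have hz : (z : OnePoint ℂ) = F ((z / 4 : ℂ) : OnePoint ℂ) := by
        rw [hF]
        congr 1
        ring
      rw [hz, F.injective.mem_set_image, fx_coe_mem_AA, hF, fx_coe_mem_AA, hEC, hr]
      refine and_congr_right fun _ => ?_
      rw [norm_mul]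
      simp only [Complex.norm_ofNat]
      constructor <;> intro h <;> linarith
  unfold mm
  rw [hact]
  unfold dl
  rw [← fx_Blk_eq hE, idx_Blk hE hb (by norm_num),
    fx_idx_empty hE hb (sdiff_eq_empty.2 (fx_AA_anti (by norm_num)))]
  norm_num

include hE hb in
/-- flux zero gives the homeomorphisms needed in the surgery -/
theorem surg_homeo (F : OnePoint ℂ ≃ₜ OnePoint ℂ) (f : ℂ ≃ₜ ℂ)
    (hFf : ∀ z : ℂ, F (z : OnePoint ℂ) = (f z : OnePoint ℂ)) (h0 : f 0 = 0)
    (hf : f '' EC E = EC E) (hm : mm E F = 0) (n : ℤ) :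
    ∃ M : ℤ, ∀ m ≥ M, Nonempty (↥(EC E ∩ Ann (rad n) (rad m)) ≃ₜ
          ↥((EC E ∩ ball 0 (rad m)) \ f '' closedBall 0 (rad n))) := by
  have hinf : F ∞ = ∞ := by
    by_contra h
    obtain ⟨w, hw⟩ := ne_infty_iff_exists.1 h
    have h2 := hFf (f.symm w)
    rw [f.apply_symm_apply, hw] at h2
    exact coe_ne_infty _ (F.injective h2)
  have hfz : ∀ z : ℂ, f z ∈ EC E ↔ z ∈ EC E := by
    intro z
    conv_lhs => rw [← hf]
    exact f.injective.mem_set_image
  have hF : F '' EB E = EB E := by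
    ext x
    obtain rfl | ⟨z, rfl⟩ := fx_op_cases x
    · exact iff_of_true ⟨∞, fx_infty_mem_EB, hinf⟩ fx_infty_mem_EB
    · have hz : (z : OnePoint ℂ) = F ((f.symm z : ℂ) : OnePoint ℂ) := by
        rw [hFf, f.apply_symm_apply]
      rw [hz, F.injective.mem_set_image, hFf, fx_coe_mem_EB, fx_coe_mem_EB, hfz]
  have hact : ∀ A, act E F A = F '' A := fun A => if_pos hinf
  have hsg : sg F = 1 := if_pos hinf
  have hA := fun k : ℤ => AA_half hE k
  have hFA := fun k : ℤ => act_half hE hb hF (hA k)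
  have hd : dl (AA E n) (act E F (AA E n)) = 0 := by
    rw [dl_add hE hb (hA n) (hA 0) (hFA n), dl_add hE hb (hA 0) (hFA 0) (hFA n),
      dl_act hE hb hF (hA 0) (hA n), hsg]
    have h1 : dl (AA E 0) (act E F (AA E 0)) = 0 := hm
    rw [h1, zero_add, one_mul, ← dl_add hE hb (hA n) (hA 0) (hA n), fx_dl_self]
  have hd' : dl (act E F (AA E n)) (AA E n) = 0 := by
    have := dl_add hE hb (hFA n) (hA n) (hFA n)
    rw [hd, fx_dl_self] at this
    linarith
  -- a large radius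
  obtain ⟨R, hR⟩ := ((isCompact_closedBall (0 : ℂ) (rad n)).image f.continuous).isBounded.subset_closedBall 0
  obtain ⟨k, hk⟩ := fx_rad_unbounded R
  have hsub : ∀ z, ‖z‖ ≤ rad n → ‖f z‖ < rad k := by
    intro z hz
    have h1 : f z ∈ closedBall (0 : ℂ) R := hR ⟨z, by simpa using hz, rfl⟩
    rw [mem_closedBall_zero_iff] at h1
    linarith
  refine ⟨max n k + 1, fun m hm' => ?_⟩
  have hnm : n + 1 ≤ m := le_trans (by have := le_max_left n k; omega) hm'
  have hkm : k + 1 ≤ m := le_trans (by have := le_max_right n k; omega) hm'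
  set P := AA E n \ AA E m with hP
  set Q := act E F (AA E n) \ AA E m with hQ
  have memFA : ∀ z : ℂ, (z : OnePoint ℂ) ∈ act E F (AA E n) ↔ z ∈ EC E ∧ rad n < ‖f.symm z‖ := by
    intro z
    have hz : (z : OnePoint ℂ) = F ((f.symm z : ℂ) : OnePoint ℂ) := by
      rw [hFf, f.apply_symm_apply]
    rw [hact, hz, F.injective.mem_set_image, fx_coe_mem_AA, ← hfz, f.apply_symm_apply]
  have hsub2 : AA E k ⊆ act E F (AA E n) := by
    intro x
    obtain rfl | ⟨z, rfl⟩ := fx_op_cases x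
    · exact fun _ => (hFA n).2.2.2.1
    · rw [fx_coe_mem_AA, memFA]
      rintro ⟨h1, h2⟩
      refine ⟨h1, not_le.1 fun h3 => ?_⟩
      have := hsub _ h3
      rw [f.apply_symm_apply] at this
      linarith
  have hPe : P = ((↑) '' (EC E ∩ Ann (rad n) (rad m)) : Set (OnePoint ℂ)) := (fx_Blk_eq hE n m).symm
  have hQe : Q = ((↑) '' ((EC E ∩ ball 0 (rad m)) \ f '' closedBall 0 (rad n)) :
      Set (OnePoint ℂ)) := by
    ext x
    obtain rfl | ⟨z, rfl⟩ := fx_op_cases x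
    · exact iff_of_false (fun h => h.2 fx_infty_mem_AA) infty_notMem_image_coe
    · have e1 : z ∈ f '' closedBall 0 (rad n) ↔ ‖f.symm z‖ ≤ rad n := by
        constructor
        · rintro ⟨w, hw, rfl⟩
          rw [f.symm_apply_apply]
          simpa using hw
        · intro h
          exact ⟨f.symm z, by simpa using h, f.apply_symm_apply z⟩
      rw [hQ, mem_sdiff, memFA, fx_coe_mem_AA, coe_injective.mem_set_image, mem_sdiff,
        mem_inter_iff, mem_ball_zero_iff, e1, not_le]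
      constructor
      · rintro ⟨⟨h1, h2⟩, h3⟩
        exact ⟨⟨h1, lt_of_le_of_ne (not_lt.1 fun h => h3 ⟨h1, h⟩) (fx_EC_ne hE m h1)⟩, h2⟩
      · rintro ⟨⟨h1, h2⟩, h3⟩
        exact ⟨⟨h1, h3⟩, fun h => absurd h.2 (not_lt.2 h2.le)⟩
  have hidx : idx ↥P = idx ↥Q := by
    have e1 : idx ↥P = dl (AA E n) (AA E m) := by
      unfold dl
      rw [fx_idx_empty hE hb (sdiff_eq_empty.2 (fx_AA_anti (by omega : n ≤ m)))]
      ring
    have e2 : idx ↥Q = dl (act E F (AA E n)) (AA E m) := by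
      unfold dl
      rw [fx_idx_empty hE hb (sdiff_eq_empty.2 ((fx_AA_anti (by omega : k ≤ m)).trans hsub2))]
      ring
    rw [e1, e2, dl_add hE hb (hFA n) (hA n) (hA m), hd', zero_add]
  have sP : ST ↥P := by
    refine ST_of_Blk_sub hE hb (fx_half_diff_piece (hA n) (hA m)) (n := n) ?_
    rw [fx_Blk_eq hE]
    exact sdiff_subset_sdiff_right (fx_AA_anti hnm)
  have sQ : ST ↥Q := by
    refine ST_of_Blk_sub hE hb (fx_half_diff_piece (hFA n) (hA m)) (n := k) ?_
    rw [fx_Blk_eq hE]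
    exact sdiff_subset_sdiff hsub2 (fx_AA_anti hkm)
  obtain ⟨e⟩ := homeo_of_idx sP sQ hidx
  have coeH : ∀ S : Set ℂ, Nonempty (↥S ≃ₜ ↥((↑) '' S : Set (OnePoint ℂ))) := fun S =>
    ⟨(isOpenEmbedding_coe.isEmbedding).homeomorphImage S⟩
  obtain ⟨a⟩ := coeH (EC E ∩ Ann (rad n) (rad m))
  obtain ⟨b⟩ := coeH ((EC E ∩ ball 0 (rad m)) \ f '' closedBall 0 (rad n))
  rw [← hPe] at a
  rw [← hQe] at b
  exact ⟨(a.trans e).trans b.symm⟩

theorem fx_preconn_out (r : ℝ) (hr : 0 < r) :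
    IsPreconnected (insert ∞ ((↑) '' {z : ℂ | r ≤ ‖z‖}) : Set (OnePoint ℂ)) := by
  have h1 : IsPreconnected {z : ℂ | r ≤ ‖z‖} := by
    have h2 : {z : ℂ | r ≤ ‖z‖} =
        (fun p : ℝ × ℝ => (p.1 : ℂ) * Complex.exp (p.2 * Complex.I)) '' (Ici r ×ˢ univ) := by
      ext z
      constructor
      · intro hz
        refine ⟨(‖z‖, Complex.arg z), ⟨hz, mem_univ _⟩, ?_⟩
        exact Complex.norm_mul_exp_arg_mul_I z
      · rintro ⟨⟨a, b⟩, ⟨ha, -⟩, rfl⟩
        have ha' : r ≤ a := ha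
        simp only [mem_ofPred_eq, norm_mul, Complex.norm_real, Real.norm_eq_abs,
          Complex.norm_exp_ofReal_mul_I, mul_one]
        exact le_trans ha' (le_abs_self a)
    rw [h2]
    refine IsPreconnected.image (isPreconnected_Ici.prod isPreconnected_univ) _ ?_
    fun_prop
  have h3 : IsPreconnected ((↑) '' {z : ℂ | r ≤ ‖z‖} : Set (OnePoint ℂ)) :=
    h1.image _ continuous_coe.continuousOn
  refine h3.subset_closure (subset_insert _ _) ?_
  rw [insert_subset_iff]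
  refine ⟨?_, subset_closure⟩
  have h4 : Filter.Tendsto (fun n : ℕ => ((n : ℂ) : OnePoint ℂ)) Filter.atTop (𝓝 ∞) := by
    refine tendsto_coe_infty.comp ?_
    rw [Filter.coclosedCompact_eq_cocompact]
    refine tendsto_norm_atTop_iff_cobounded.1 ?_ |>.mono_right ?_
    · simp only [Complex.norm_natCast]
      exact tendsto_natCast_atTop_atTop
    · rw [Metric.cobounded_eq_cocompact]
  refine mem_closure_of_tendsto h4 ?_
  filter_upwards [Filter.eventually_ge_atTop ⌈r⌉₊] with n hn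
  refine ⟨n, ?_, rfl⟩
  simp only [mem_ofPred_eq, Complex.norm_natCast]
  exact Nat.ceil_le.1 hn

include hE hb in
/-- the flux vanishes on homeomorphisms which are close to the identity on one circle -/
theorem mm_small (F : OnePoint ℂ ≃ₜ OnePoint ℂ) (hF : F '' EB E = EB E)
    (h : ∀ z : ℂ, ‖z‖ = rad 0 → ∃ w : ℂ, F (z : OnePoint ℂ) = (w : OnePoint ℂ) ∧
      ‖w - z‖ < 1 / 4) : mm E F = 0 := by
  have hr0 : rad 0 = 3 / 4 := by simp [rad]
  rw [hr0] at h
  set P : Set (OnePoint ℂ) := insert ∞ ((↑) '' {z : ℂ | 1 ≤ ‖z‖}) with hP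
  set Q : Set (OnePoint ℂ) := (↑) '' closedBall (0 : ℂ) (1 / 2) with hQ
  set Ou : Set (OnePoint ℂ) := ((↑) '' closedBall (0 : ℂ) (3 / 4))ᶜ with hOu
  set In : Set (OnePoint ℂ) := (↑) '' ball (0 : ℂ) (3 / 4) with hIn
  have oIn : IsOpen In := isOpen_image_coe.2 isOpen_ball
  have oOu : IsOpen Ou :=
    (isClosed_image_coe.2 ⟨isClosed_closedBall, isCompact_closedBall _ _⟩).isOpen_compl
  have hdisj : Disjoint In Ou := by
    rw [disjoint_left]
    rintro x ⟨z, hz, rfl⟩ h2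
    exact h2 ⟨z, ball_subset_closedBall hz, rfl⟩
  -- a point outside of `F C` is in `F In` or `F Ou`
  have hcov : ∀ y, (∀ z : ℂ, ‖z‖ = 3 / 4 → F z ≠ y) → y ∈ F '' In ∪ F '' Ou := by
    intro y hy
    obtain ⟨x, rfl⟩ := F.surjective y
    obtain rfl | ⟨z, rfl⟩ := fx_op_cases x
    · exact Or.inr ⟨∞, infty_notMem_image_coe, rfl⟩
    · rcases lt_trichotomy ‖z‖ (3 / 4) with h1 | h1 | h1
      · exact Or.inl ⟨z, ⟨z, by simpa using h1, rfl⟩, rfl⟩
      · exact absurd rfl (hy z h1)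
      · refine Or.inr ⟨z, ?_, rfl⟩
        rw [hOu, mem_compl_iff, coe_injective.mem_set_image, mem_closedBall_zero_iff]
        exact not_le.2 h1
  have hCw : ∀ z : ℂ, ‖z‖ = 3 / 4 → ∀ w : ℂ, F z = w → 1 / 2 < ‖w‖ ∧ ‖w‖ < 1 := by
    intro z hz w hw
    obtain ⟨w', h1, h2⟩ := h z hz
    have : w' = w := by
      rw [hw] at h1
      exact (coe_injective h1).symm
    subst this
    have h3 : ‖w'‖ ≤ ‖w' - z‖ + ‖z‖ := by
      calc ‖w'‖ = ‖(w' - z) + z‖ := by ring_nf
        _ ≤ _ := norm_add_le _ _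
    have h4 : ‖z‖ ≤ ‖w' - z‖ + ‖w'‖ := by
      calc ‖z‖ = ‖w' - (w' - z)‖ := by ring_nf
        _ ≤ ‖w'‖ + ‖w' - z‖ := norm_sub_le _ _
        _ = _ := by ring
    constructor <;> linarith
  have hPcov : P ⊆ F '' In ∪ F '' Ou := by
    intro y hy
    refine hcov y fun z hz hzy => ?_
    rcases hy with rfl | ⟨w, hw, rfl⟩
    · obtain ⟨w', h1, -⟩ := h z hz
      rw [hzy] at h1
      exact infty_ne_coe _ h1
    · have := (hCw z hz w hzy).2
      have hw' : 1 ≤ ‖w‖ := hw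
      linarith
  have hQcov : Q ⊆ F '' In ∪ F '' Ou := by
    rintro y ⟨w, hw, rfl⟩
    refine hcov _ fun z hz hzy => ?_
    have := (hCw z hz w hzy).1
    rw [mem_closedBall_zero_iff] at hw
    linarith
  have hEBPQ : EB E ⊆ P ∪ Q := by
    intro x hx
    obtain rfl | ⟨z, rfl⟩ := fx_op_cases x
    · exact Or.inl (mem_insert _ _)
    · have hz := fx_coe_mem_EB.1 hx
      have hg := fx_EC_gap hE 0 hz
      rw [hr0] at hg
      rcases le_or_gt ‖z‖ (1 / 2) with h1 | h1
      · exact Or.inr ⟨z, by simpa using h1, rfl⟩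
      · refine Or.inl (Or.inr ⟨z, ?_, rfl⟩)
        by_contra h2
        have h2' : ‖z‖ < 1 := not_le.1 h2
        exact hg ⟨by linarith, by linarith⟩
  have oFIn : IsOpen (F '' In) := F.isOpen_image.2 oIn
  have oFOu : IsOpen (F '' Ou) := F.isOpen_image.2 oOu
  have dF : Disjoint (F '' In) (F '' Ou) := (disjoint_image_iff F.injective).2 hdisj
  have cP : IsPreconnected P := fx_preconn_out 1 one_pos
  have cQ : IsPreconnected Q :=
    (convex_closedBall (0 : ℂ) (1 / 2)).isPreconnected.image _ continuous_coe.continuousOn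
  have hsep : ∀ {S : Set (OnePoint ℂ)}, IsPreconnected S → S ⊆ F '' In ∪ F '' Ou →
      S ⊆ F '' In ∨ S ⊆ F '' Ou := fun hS hc =>
    hS.subset_or_subset oFIn oFOu dF hc
  have z0In : ((0 : ℂ) : OnePoint ℂ) ∈ In := ⟨0, by simp, rfl⟩
  have infOu : (∞ : OnePoint ℂ) ∈ Ou := infty_notMem_image_coe
  have F0 : F ((0 : ℂ) : OnePoint ℂ) ∈ P ∪ Q := hEBPQ (by
    rw [← hF]
    exact ⟨_, fx_zero_mem_EB, rfl⟩)
  have Finf : F ∞ ∈ P ∪ Q := hEBPQ (by
    rw [← hF]
    exact ⟨_, fx_infty_mem_EB, rfl⟩)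
  have infP : (∞ : OnePoint ℂ) ∈ P := mem_insert _ _
  have zQ : ((0 : ℂ) : OnePoint ℂ) ∈ Q := ⟨0, by simp, rfl⟩
  have dd : ∀ x, x ∈ F '' In → x ∈ F '' Ou → False := fun x h1 h2 => disjoint_left.1 dF h1 h2
  have AAP : ∀ y, y ∈ AA E 0 ↔ y ∈ EB E ∧ y ∈ P := by
    intro y
    obtain rfl | ⟨z, rfl⟩ := fx_op_cases y
    · exact iff_of_true fx_infty_mem_AA ⟨fx_infty_mem_EB, infP⟩
    · rw [fx_coe_mem_AA, fx_coe_mem_EB, hr0]
      refine and_congr_right fun hz => ?_
      have hg := fx_EC_gap hE 0 hz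
      rw [hr0] at hg
      have e : ((z : OnePoint ℂ) ∈ P) ↔ 1 ≤ ‖z‖ := by
        constructor
        · rintro (h1 | ⟨w, hw, hwz⟩)
          · exact absurd h1 (coe_ne_infty _)
          · rw [coe_eq_coe] at hwz
            rw [← hwz]
            exact hw
        · exact fun h1 => Or.inr ⟨z, h1, rfl⟩
      rw [e]
      constructor
      · intro h1
        by_contra h2
        exact hg ⟨by linarith, by linarith [not_le.1 h2]⟩
      · intro h1
        linarith
  have AAO : ∀ x, x ∈ AA E 0 ↔ x ∈ EB E ∧ x ∈ Ou := by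
    intro y
    obtain rfl | ⟨z, rfl⟩ := fx_op_cases y
    · exact iff_of_true fx_infty_mem_AA ⟨fx_infty_mem_EB, infOu⟩
    · rw [fx_coe_mem_AA, fx_coe_mem_EB, hr0, hOu, mem_compl_iff, coe_injective.mem_set_image,
        mem_closedBall_zero_iff, not_le]
  have hact : act E F (AA E 0) = AA E 0 := by
    rcases hsep cP hPcov with hp | hp
    · -- `P ⊆ F In`, `Q ⊆ F Ou`
      have hq : Q ⊆ F '' Ou := by
        rcases hsep cQ hQcov with hq | hq
        · exfalso
          rcases Finf with h1 | h1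
          · exact dd _ (hp h1) ⟨_, infOu, rfl⟩
          · exact dd _ (hq h1) ⟨_, infOu, rfl⟩
        · exact hq
      have hne : F ∞ ≠ ∞ := by
        intro h1
        exact dd ∞ (hp infP) ⟨∞, infOu, h1⟩
      have h1 : act E F (AA E 0) = EB E \ F '' AA E 0 := if_neg hne
      rw [h1]
      ext y
      rw [mem_sdiff, AAP]
      refine and_congr_right fun hy => ?_
      constructor
      · intro h2
        rcases hEBPQ hy with h3 | h3
        · exact h3
        · exfalso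
          obtain ⟨x, hx, rfl⟩ := hq h3
          have hxE : x ∈ EB E := by
            rw [← hF] at hy
            exact (F.injective.mem_set_image).1 hy
          exact h2 ⟨x, (AAO x).2 ⟨hxE, hx⟩, rfl⟩
      · rintro h2 ⟨x, hx, rfl⟩
        exact dd _ (hp h2) ⟨x, ((AAO x).1 hx).2, rfl⟩
    · -- `P ⊆ F Ou`, `Q ⊆ F In`
      have hq : Q ⊆ F '' In := by
        rcases hsep cQ hQcov with hq | hq
        · exact hq
        · exfalso
          rcases F0 with h1 | h1
          · exact dd _ ⟨_, z0In, rfl⟩ (hp h1)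
          · exact dd _ ⟨_, z0In, rfl⟩ (hq h1)
      have he : F ∞ = ∞ := by
        rcases ends_pres hE hb F hF with h1 | h1
        · exact h1.1
        · exfalso
          have h2 : ((0 : ℂ) : OnePoint ℂ) ∈ F '' Ou := ⟨∞, infOu, h1.1⟩
          exact dd _ (hq zQ) h2
      have h1 : act E F (AA E 0) = F '' AA E 0 := if_pos he
      rw [h1]
      ext y
      rw [AAP]
      constructor
      · rintro ⟨x, hx, rfl⟩
        have hxx := (AAO x).1 hx
        have hy : F x ∈ EB E := by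
          rw [← hF]
          exact ⟨x, hxx.1, rfl⟩
        refine ⟨hy, ?_⟩
        rcases hEBPQ hy with h3 | h3
        · exact h3
        · exact (dd _ (hq h3) ⟨x, hxx.2, rfl⟩).elim
      · rintro ⟨hy, hyP⟩
        obtain ⟨x, hx, rfl⟩ := hp hyP
        have hxE : x ∈ EB E := by
          rw [← hF] at hy
          exact (F.injective.mem_set_image).1 hy
        exact ⟨x, (AAO x).2 ⟨hxE, hx⟩, rfl⟩
  unfold mm
  rw [hact, fx_dl_self]

end Ends72
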