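import Pool.Agent.LibEnds72.Plane

/-! TASK E1: a homeomorphism of the plane with local degree one at one point has local degree one
at all points. -/

open Set Metric Topology

noncomputable section

namespace Ends72

/-- A continuous function `f` with `exp f = 1` is constant on preconnected sets. -/
theorem const_of_exp_eq_one {X : Type*} [TopologicalSpace X] {S : Set X} (hS : IsPreconnected S)
    {f : X → ℂ} (hf : ContinuousOn f S) (h1 : ∀ x ∈ S, Complex.exp (f x) = 1) {x y : X}
    (hx : x ∈ S) (hy : y ∈ S) : f x = f y := by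
  have hT : IsDiscrete {z : ℂ | Complex.exp z = 1} := by
    rw [isDiscrete_iff_discreteTopology]
    refine DiscreteTopology.of_forall_le_dist (r := 1) one_pos ?_
    rintro ⟨a, ha⟩ ⟨b, hb⟩ hab
    rw [Subtype.dist_eq]
    change 1 ≤ dist a b
    have hab' : a ≠ b := fun h => hab (Subtype.ext h)
    change Complex.exp a = 1 at ha
    change Complex.exp b = 1 at hb
    rw [Complex.exp_eq_one_iff] at ha hb
    obtain ⟨n, hn⟩ := ha
    obtain ⟨m, hm⟩ := hb
    have hnm : n ≠ m := by
      rintro rfl
      exact hab' (by rw [hn, hm])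
    rw [hn, hm, Complex.dist_eq, ← sub_mul, norm_mul]
    have h2 : (1 : ℝ) ≤ ‖((n : ℂ) - m)‖ := by
      rw [← Int.cast_sub, Complex.norm_intCast]
      have : 1 ≤ |n - m| := Int.one_le_abs (sub_ne_zero.2 hnm)
      exact_mod_cast this
    have h3 : (1 : ℝ) ≤ ‖(2 * (Real.pi : ℂ) * Complex.I)‖ := by
      simp only [norm_mul, Complex.norm_I, mul_one, Complex.norm_ofNat, Complex.norm_real,
        Real.norm_eq_abs]
      rw [abs_of_pos Real.pi_pos]
      linarith [Real.pi_gt_three]
    nlinarith
  exact hS.constant_of_mapsTo hT hf (fun z hz => h1 z hz) hx hy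

/-- A continuous logarithm of the difference quotients of a homeomorphism of the plane. -/
theorem exists_log_quot (g : ℂ ≃ₜ ℂ) : ∃ Λ : ℂ × ℂ → ℂ, Continuous Λ ∧
    ∀ x w : ℂ, g (x + Complex.exp w) - g x = Complex.exp w * Complex.exp (Λ (x, w)) := by
  have hc : Continuous fun p : ℂ × ℂ => (g (p.1 + Complex.exp p.2) - g p.1) / Complex.exp p.2 := by
    refine Continuous.div ?_ ?_ fun p => Complex.exp_ne_zero _
    · exact (g.continuous.comp (continuous_fst.add (Complex.continuous_exp.comp
        continuous_snd))).sub (g.continuous.comp continuous_fst)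
    · exact Complex.continuous_exp.comp continuous_snd
  have : ContractibleSpace (univ : Set (ℂ × ℂ)) :=
    (convex_univ (𝕜 := ℝ)).contractibleSpace ⟨0, mem_univ _⟩
  have hsc : IsSimplyConnected (univ : Set (ℂ × ℂ)) := by
    unfold IsSimplyConnected
    infer_instance
  obtain ⟨Λ, hΛ, hΛe⟩ := Complex.exists_continuousOn_eqOn_exp_comp hsc isOpen_univ
    hc.continuousOn (by
      rintro ⟨p, -, hp⟩
      rw [div_eq_zero_iff, sub_eq_zero, g.injective.eq_iff] at hp
      rcases hp with hp | hp
      · simp at hp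
      · exact Complex.exp_ne_zero _ hp)
  refine ⟨Λ, continuousOn_univ.1 hΛ, fun x w => ?_⟩
  have := hΛe (mem_univ (x, w))
  simp only [Function.comp_apply] at this
  rw [this, mul_div_cancel₀ _ (Complex.exp_ne_zero w)]

theorem OPat_all (g : ℂ ≃ₜ ℂ) {x : ℂ} (h : OPat g x) (y : ℂ) : OPat g y := by
  obtain ⟨Λ, hΛ, hΛe⟩ := exists_log_quot g
  -- the period
  have hper0 : ∀ p q : ℂ × ℂ, Λ (p.1, p.2 + 2 * Real.pi * Complex.I) - Λ p =
      Λ (q.1, q.2 + 2 * Real.pi * Complex.I) - Λ q := by
    intro p q
    refine const_of_exp_eq_one (S := (univ : Set (ℂ × ℂ))) isPreconnected_univ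
      (f := fun p => Λ (p.1, p.2 + 2 * Real.pi * Complex.I) - Λ p) ?_ ?_ (mem_univ _) (mem_univ _)
    · refine Continuous.continuousOn ?_
      exact (hΛ.comp (by fun_prop)).sub hΛ
    · intro p _
      have h1 := hΛe p.1 p.2
      have h2 := hΛe p.1 (p.2 + 2 * Real.pi * Complex.I)
      rw [Complex.exp_add, Complex.exp_two_pi_mul_I, mul_one, h1] at h2
      have h3 := mul_left_cancel₀ (Complex.exp_ne_zero _) h2
      rw [Complex.exp_sub, ← h3, div_self (Complex.exp_ne_zero _)]
  -- the period is zero, because of the point `x`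
  obtain ⟨V, hV, L, hL, hLe⟩ := h
  obtain ⟨r, hr, hrV⟩ := Metric.mem_nhds_iff.1 hV
  have hmem : ∀ w : ℂ, w.re < Real.log r → x + Complex.exp w ∈ V \ {x} := by
    intro w hw
    refine ⟨hrV ?_, ?_⟩
    · rw [mem_ball, dist_eq_norm, add_sub_cancel_left, Complex.norm_exp]
      exact (Real.lt_log_iff_exp_lt hr).1 hw
    · simp [Complex.exp_ne_zero]
  have hS : IsPreconnected {w : ℂ | w.re < Real.log r} :=
    (convex_halfSpace_re_lt _).isPreconnected
  have hconst : ∀ w ∈ {w : ℂ | w.re < Real.log r}, ∀ w' ∈ {w : ℂ | w.re < Real.log r},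
      Λ (x, w) - L (x + Complex.exp w) = Λ (x, w') - L (x + Complex.exp w') := by
    intro w hw w' hw'
    refine const_of_exp_eq_one hS (f := fun w => Λ (x, w) - L (x + Complex.exp w)) ?_ ?_ hw hw'
    · refine ContinuousOn.sub ?_ ?_
      · exact (hΛ.comp (by fun_prop)).continuousOn
      · exact hL.comp (by fun_prop) fun w hw => hmem w hw
    · intro w hw
      have h1 := hΛe x w
      have h2 := hLe _ (hmem w hw)
      rw [add_sub_cancel_left, h1] at h2
      have h3 := mul_left_cancel₀ (Complex.exp_ne_zero _) h2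
      rw [Complex.exp_sub, h3, div_self (Complex.exp_ne_zero _)]
  have hper1 : ∀ p : ℂ × ℂ, Λ (p.1, p.2 + 2 * Real.pi * Complex.I) = Λ p := by
    intro p
    set w : ℂ := ((Real.log r - 1 : ℝ) : ℂ) with hw
    have hw1 : w.re < Real.log r := by rw [hw, Complex.ofReal_re]; linarith
    have hw2 : (w + 2 * Real.pi * Complex.I).re < Real.log r := by
      simpa using hw1
    have h1 := hconst _ hw1 _ hw2
    rw [Complex.exp_add, Complex.exp_two_pi_mul_I, mul_one] at h1
    have h2 := hper0 p (x, w)
    simp only at h2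
    rw [← sub_eq_zero, h2]
    linear_combination -h1
  have hper : ∀ (z u v : ℂ), Complex.exp u = Complex.exp v → Λ (z, u) = Λ (z, v) := by
    have hnat : ∀ (n : ℕ) (z u : ℂ), Λ (z, u + n * (2 * Real.pi * Complex.I)) = Λ (z, u) := by
      intro n
      induction n with
      | zero => intro z u; simp
      | succ n ih =>
        intro z u
        rw [Nat.cast_succ, add_mul, one_mul, ← add_assoc, hper1 (z, _), ih]
    intro z u v huv
    obtain ⟨n, hn⟩ := Complex.exp_eq_exp_iff_exists_int.1 huv
    rcases Int.eq_nat_or_neg n with ⟨m, rfl | rfl⟩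
    · rw [hn]
      simpa using hnat m z v
    · have : v = u + m * (2 * Real.pi * Complex.I) := by
        rw [hn]; push_cast; ring
      rw [this]
      exact (hnat m z u).symm
  refine ⟨univ, Filter.univ_mem, fun z => Λ (y, Complex.log (z - y)), ?_, ?_⟩
  · intro z₀ hz₀
    have hz₀' : z₀ - y ≠ 0 := sub_ne_zero.2 (by simpa using hz₀.2)
    refine ContinuousAt.continuousWithinAt ?_
    have hev : (fun z => Λ (y, Complex.log (z - y))) =ᶠ[𝓝 z₀]
        fun z => Λ (y, Complex.log ((z - y) / (z₀ - y)) + Complex.log (z₀ - y)) := by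
      have : ∀ᶠ z in 𝓝 z₀, z ≠ y := by
        refine (isOpen_ne (x := y)).mem_nhds ?_
        simpa using hz₀.2
      filter_upwards [this] with z hz
      have hz' : z - y ≠ 0 := sub_ne_zero.2 hz
      apply hper
      rw [Complex.exp_add, Complex.exp_log (div_ne_zero hz' hz₀'), Complex.exp_log hz₀',
        Complex.exp_log hz', div_mul_cancel₀ _ hz₀']
    refine ContinuousAt.congr ?_ hev.symm
    refine hΛ.continuousAt.comp (f := fun z : ℂ =>
      ((y, Complex.log ((z - y) / (z₀ - y)) + Complex.log (z₀ - y)) : ℂ × ℂ)) ?_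
    refine continuousAt_const.prodMk (ContinuousAt.add ?_ continuousAt_const)
    refine ContinuousAt.clog ?_ ?_
    · fun_prop
    · rw [div_self hz₀']
      exact Complex.one_mem_slitPlane
  · intro z hz
    have hz' : z - y ≠ 0 := sub_ne_zero.2 (by simpa using hz.2)
    have := hΛe y (Complex.log (z - y))
    rw [Complex.exp_log hz', add_sub_cancel] at this
    exact this

end Ends72
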