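import Mathlib

/-!
# The plane minus a closed subset of the half line: definitions
-/

open Set Metric Topology

noncomputable section

namespace Ends72

/-- `g` has local degree one at `x`: on a punctured neighbourhood of `x` the difference quotient
has a continuous logarithm. -/
def OPat (g : ℂ → ℂ) (x : ℂ) : Prop :=
  ∃ V ∈ 𝓝 x, ∃ L : ℂ → ℂ, ContinuousOn L (V \ {x}) ∧
    ∀ y ∈ V \ {x}, g y - g x = (y - x) * Complex.exp (L y)

/-- The radii `3/4 * 4^n` of circles missing the set. -/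
def rad (n : ℤ) : ℝ := 3 / 4 * (4 : ℝ) ^ n

/-- The open annulus `r < |z| < s`. -/
def Ann (r s : ℝ) : Set ℂ := {z | r < ‖z‖ ∧ ‖z‖ < s}

/-- Standing assumptions on the set `E ⊆ (0,∞)`: invariant under multiplication by `4`, missing
`(2,4)`, closed away from `0`, with empty interior. -/
structure EGap (E : Set ℝ) : Prop where
  pos : ∀ x ∈ E, 0 < x
  scale : ∀ x, 4 * x ∈ E ↔ x ∈ E
  gap : ∀ x ∈ E, ¬ (2 < x ∧ x < 4)
  closed : IsClosed (insert 0 E)
  td : ∀ a b : ℝ, a < b → ∃ c, a < c ∧ c < b ∧ c ∉ E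

/-- The set `{0} ∪ E` in the plane. -/
def EC (E : Set ℝ) : Set ℂ := (fun x : ℝ => (x : ℂ)) '' insert 0 E

/-- The surface: the complement of `{0} ∪ E`. -/
def UE (E : Set ℝ) : Set ℂ := (EC E)ᶜ

end Ends72
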