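import Pool.Agent.LibEnds72.Defs
import Pool.Agent.LibEnds72.Plane

/-! TASK E2: small lemmas on local degree one. -/

open Set Metric Topology

noncomputable section

namespace Ends72

theorem OPat_congr {f g : ℂ → ℂ} {x : ℂ} (h : f =ᶠ[𝓝 x] g) (hf : OPat f x) : OPat g x := by
  obtain ⟨V, hV, L, hL, hLe⟩ := hf
  refine ⟨V ∩ {y | f y = g y}, Filter.inter_mem hV h, L, hL.mono ?_, ?_⟩
  · intro y hy
    exact ⟨hy.1.1, hy.2⟩
  · intro y hy
    have h1 := hLe y ⟨hy.1.1, hy.2⟩
    have h2 : f y = g y := hy.1.2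
    have h3 : f x = g x := h.self_of_nhds
    rw [← h2, ← h3, h1]

theorem OPat_id (x : ℂ) : OPat (fun z => z) x := by
  refine ⟨univ, Filter.univ_mem, fun _ => 0, continuousOn_const, ?_⟩
  intro y _
  simp

theorem OPat_comp {f g : ℂ → ℂ} {x : ℂ} (hf : OPat f x) (hc : ContinuousAt f x)
    (hg : OPat g (f x)) : OPat (fun z => g (f z)) x := by
  obtain ⟨V, hV, L, hL, hLe⟩ := hf
  obtain ⟨V', hV', L', hL', hLe'⟩ := hg
  -- f is continuous on V \ {x}, since f y = f x + (y - x) exp (L y)
  have hfc : ContinuousOn f (V \ {x}) := by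
    have : ContinuousOn (fun y => f x + (y - x) * Complex.exp (L y)) (V \ {x}) :=
      continuousOn_const.add ((continuousOn_id.sub continuousOn_const).mul hL.cexp)
    refine this.congr ?_
    intro y hy
    change f y = f x + (y - x) * Complex.exp (L y)
    rw [← hLe y hy]; ring
  have hne : ∀ y ∈ V \ {x}, f y ≠ f x := by
    intro y hy h
    have h1 := hLe y hy
    rw [h, sub_self] at h1
    have h2 : y - x ≠ 0 := sub_ne_zero.2 hy.2
    exact (mul_ne_zero h2 (Complex.exp_ne_zero _)) h1.symm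
  refine ⟨V ∩ f ⁻¹' V', Filter.inter_mem hV (hc.preimage_mem_nhds hV'),
    fun y => L' (f y) + L y, ?_, ?_⟩
  · refine ContinuousOn.add ?_ (hL.mono ?_)
    · refine hL'.comp (hfc.mono ?_) ?_
      · intro y hy
        exact ⟨hy.1.1, hy.2⟩
      · intro y hy
        exact ⟨hy.1.2, hne y ⟨hy.1.1, hy.2⟩⟩
    · intro y hy
      exact ⟨hy.1.1, hy.2⟩
  · intro y hy
    have h1 := hLe y ⟨hy.1.1, hy.2⟩
    have h2 := hLe' (f y) ⟨hy.1.2, hne y ⟨hy.1.1, hy.2⟩⟩
    rw [h2, h1, Complex.exp_add]
    ring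

theorem OPat_symm (g : ℂ ≃ₜ ℂ) {x : ℂ} (h : OPat g x) : OPat g.symm (g x) := by
  obtain ⟨V, hV, L, hL, hLe⟩ := h
  refine ⟨g.symm ⁻¹' V, ?_, fun y => - L (g.symm y), ?_, ?_⟩
  · refine g.symm.continuous.continuousAt.preimage_mem_nhds ?_
    rwa [g.symm_apply_apply]
  · refine ContinuousOn.neg (hL.comp g.symm.continuous.continuousOn ?_)
    intro y hy
    refine ⟨hy.1, fun h => hy.2 ?_⟩
    have h' : g.symm y = x := h
    rw [mem_singleton_iff, ← h', g.apply_symm_apply]
  · intro y hy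
    have h1 := hLe (g.symm y) ⟨hy.1, fun h => hy.2 (by
      have h' : g.symm y = x := h
      rw [mem_singleton_iff, ← h', g.apply_symm_apply])⟩
    rw [g.apply_symm_apply] at h1
    rw [g.symm_apply_apply, h1, mul_assoc, ← Complex.exp_add]
    simp

theorem OPat_of_hasDerivAt {g : ℂ → ℂ} {x g' : ℂ} (hg : HasDerivAt g g' x) (hne : g' ≠ 0)
    (hc : ∀ᶠ z in 𝓝 x, ContinuousAt g z) : OPat g x := by
  have ht := hasDerivAt_iff_tendsto_slope.1 hg
  have ht2 : Filter.Tendsto (fun y => slope g x y / g') (𝓝[≠] x) (𝓝 1) := by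
    have := ht.div_const g'
    rwa [div_self hne] at this
  have h1 : ∀ᶠ y in 𝓝[≠] x, slope g x y / g' ∈ Complex.slitPlane :=
    ht2.eventually (Complex.isOpen_slitPlane.mem_nhds Complex.one_mem_slitPlane)
  rw [eventually_nhdsWithin_iff] at h1
  refine ⟨{y | (y ∈ ({x}ᶜ : Set ℂ) → slope g x y / g' ∈ Complex.slitPlane) ∧ ContinuousAt g y},
    h1.and hc, fun y => Complex.log (slope g x y / g') + Complex.log g', ?_, ?_⟩
  · intro y hy
    have hy2 : y ≠ x := hy.2
    have hs := hy.1.1 hy2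
    have hcy := hy.1.2
    have hsl : ContinuousAt (fun y => slope g x y / g') y := by
      have : ContinuousAt (fun y => (y - x)⁻¹ * (g y - g x) / g') y := by
        refine ContinuousAt.div_const (ContinuousAt.mul (ContinuousAt.inv₀ ?_ ?_) ?_) _
        · exact continuousAt_id.sub continuousAt_const
        · exact sub_ne_zero.2 hy2
        · exact hcy.sub continuousAt_const
      refine this.congr ?_
      refine Filter.Eventually.of_forall ?_
      intro z
      simp [slope, smul_eq_mul]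
    exact ((hsl.clog hs).add continuousAt_const).continuousWithinAt
  · intro y hy
    have hy2 : y ≠ x := hy.2
    have hs := hy.1.1 hy2
    have hne' : slope g x y / g' ≠ 0 := Complex.slitPlane_ne_zero hs
    rw [Complex.exp_add, Complex.exp_log hne', Complex.exp_log hne]
    have h3 : y - x ≠ 0 := sub_ne_zero.2 hy2
    rw [slope_def_field]
    field_simp

/-- For an open set `U` the two notions agree. -/
theorem OPAt_iff {U : Set ℂ} (hU : IsOpen U) (f : U ≃ₜ U) (F : ℂ → ℂ)
    (hF : ∀ x : U, F x = f x) (x : U) : OPAt f x ↔ OPat F x := by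
  classical
  constructor
  · rintro ⟨V, hV, L, hL, hLe⟩
    refine ⟨Subtype.val '' V, hU.isOpenMap_subtype_val.image_mem_nhds hV,
      fun y => if h : y ∈ U then L ⟨y, h⟩ else 0, ?_, ?_⟩
    · have hind : Topology.IsOpenEmbedding (Subtype.val : U → ℂ) := hU.isOpenEmbedding_subtypeVal
      rintro y ⟨⟨v, hv, rfl⟩, hy⟩
      have hvx : v ≠ x := fun h => hy (by rw [h]; rfl)
      have h1 : ContinuousWithinAt L (V \ {x}) v := hL v ⟨hv, hvx⟩
      have himg : Subtype.val '' V \ {(x : ℂ)} = Subtype.val '' (V \ {x}) := by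
        ext z
        constructor
        · rintro ⟨⟨w, hw, rfl⟩, hz⟩
          exact ⟨w, ⟨hw, fun h => hz (by rw [mem_singleton_iff.1 h]; rfl)⟩, rfl⟩
        · rintro ⟨w, ⟨hw, hwx⟩, rfl⟩
          refine ⟨⟨w, hw, rfl⟩, fun h => hwx ?_⟩
          exact Subtype.ext h
      rw [himg]
      rw [ContinuousWithinAt, ← hind.isInducing.map_nhdsWithin_eq] at *
      rw [Filter.tendsto_map'_iff]
      have hcomp : ((fun y => if h : y ∈ U then L ⟨y, h⟩ else 0) ∘ (Subtype.val : U → ℂ)) = L := by
        funext w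
        simp
      rw [hcomp]
      simpa using h1
    · rintro y ⟨⟨v, hv, rfl⟩, hy⟩
      have hvx : v ≠ x := fun h => hy (by rw [h]; rfl)
      have := hLe v ⟨hv, hvx⟩
      rw [hF, hF]
      simpa using this
  · rintro ⟨V, hV, L, hL, hLe⟩
    refine ⟨Subtype.val ⁻¹' V, continuous_subtype_val.continuousAt.preimage_mem_nhds hV,
      fun y => L y, ?_, ?_⟩
    · refine hL.comp continuous_subtype_val.continuousOn ?_
      intro y hy
      exact ⟨hy.1, fun h => hy.2 (Subtype.ext h)⟩
    · intro y hy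
      have := hLe y ⟨hy.1, fun h => hy.2 (Subtype.ext h)⟩
      rw [hF, hF] at this
      exact this

end Ends72
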