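import Pool.Agent.LibEnds72.Defs
import Pool.Agent.LibEnds72.Flux
import Pool.Agent.LibEnds72.OPLemmas
import Pool.Agent.LibEnds72.OPAll

/-! Passage between homeomorphisms of the surface, of the plane and of the sphere. -/

open Set Metric Topology Filter OnePoint
open scoped Pointwise

noncomputable section

namespace Ends72

variable {E : Set ℝ} (hE : EGap E)

/-- the extension of a homeomorphism of the surface to the sphere -/
def extF (f : UE E ≃ₜ UE E) : OnePoint ℂ ≃ₜ OnePoint ℂ := (ext_exists hE f).choose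

theorem extF_apply (f : UE E ≃ₜ UE E) (x : UE E) :
    extF hE f ((x : ℂ) : OnePoint ℂ) = ((f x : ℂ) : OnePoint ℂ) :=
  (ext_exists hE f).choose_spec x

include hE in
theorem homeo_ext {F G : OnePoint ℂ ≃ₜ OnePoint ℂ}
    (h : ∀ x : UE E, F ((x : ℂ) : OnePoint ℂ) = G ((x : ℂ) : OnePoint ℂ)) : F = G := by
  apply Homeomorph.ext
  have hd := UE_dense hE
  have := Continuous.ext_on hd F.continuous G.continuous (by
    rintro _ ⟨x, hx, rfl⟩
    exact h ⟨x, hx⟩)
  intro x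
  exact congrFun this x

theorem extF_mul (f g : UE E ≃ₜ UE E) : extF hE (f * g) = extF hE f * extF hE g := by
  apply homeo_ext hE
  intro x
  rw [extF_apply]
  change _ = extF hE f (extF hE g _)
  rw [extF_apply, extF_apply]
  rfl

theorem extF_one : extF hE 1 = 1 := by
  apply homeo_ext hE
  intro x
  rw [extF_apply]
  rfl

theorem extF_inv (f : UE E ≃ₜ UE E) : extF hE f⁻¹ = (extF hE f)⁻¹ := by
  apply eq_inv_of_mul_eq_one_left
  rw [← extF_mul, inv_mul_cancel, extF_one]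

theorem extF_EB (f : UE E ≃ₜ UE E) : extF hE f '' EB E = EB E := by
  have h1 : extF hE f '' ((↑) '' UE E : Set (OnePoint ℂ)) = (↑) '' UE E := by
    ext y
    constructor
    · rintro ⟨_, ⟨x, hx, rfl⟩, rfl⟩
      exact ⟨(f ⟨x, hx⟩ : ℂ), (f ⟨x, hx⟩).2, (extF_apply hE f ⟨x, hx⟩).symm⟩
    · rintro ⟨y, hy, rfl⟩
      refine ⟨((f.symm ⟨y, hy⟩ : UE E) : ℂ), ⟨_, (f.symm ⟨y, hy⟩).2, rfl⟩, ?_⟩
      rw [extF_apply, f.apply_symm_apply]
  unfold EB
  rw [image_compl_eq (extF hE f).bijective, h1]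

/-- the flux of a homeomorphism of the surface -/
def mI (f : UE E ≃ₜ UE E) : ℤ := mm E (extF hE f)

variable (hb : Nonempty (↥(E ∩ Icc 1 2) ≃ₜ XL blk))

include hb in
theorem mI_mul (f g : UE E ≃ₜ UE E) :
    mI hE (f * g) = mI hE f + sg (extF hE f) * mI hE g := by
  unfold mI
  rw [extF_mul, mm_mul hE hb (extF_EB hE f) (extF_EB hE g)]

theorem sg_abs (F : OnePoint ℂ ≃ₜ OnePoint ℂ) : |sg F| = 1 := by
  unfold sg
  split_ifs <;> simp

include hb in
theorem mI_abs (f g : UE E ≃ₜ UE E) : |mI hE (f * g) - mI hE f| = |mI hE g| := by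
  rw [mI_mul hE hb, add_sub_cancel_left, abs_mul, sg_abs, one_mul]

theorem mI_one : mI hE 1 = 0 := by
  unfold mI
  rw [extF_one, mm_one]

include hb in
theorem mI_inv_abs (f : UE E ≃ₜ UE E) : |mI hE f⁻¹| = |mI hE f| := by
  have := mI_abs hE hb f f⁻¹
  rw [mul_inv_cancel, mI_one, zero_sub, abs_neg] at this
  exact this.symm

/-- restriction of a homeomorphism of the plane -/
def ofPlane (F : ℂ ≃ₜ ℂ) (hF : F '' EC E = EC E) : UE E ≃ₜ UE E :=
  Homeomorph.subtype F (fun x => by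
    change x ∉ EC E ↔ F x ∉ EC E
    rw [not_iff_not]
    constructor
    · intro hx
      rw [← hF]
      exact mem_image_of_mem _ hx
    · intro hx
      rw [← hF] at hx
      obtain ⟨y, hy, hyx⟩ := hx
      rwa [← F.injective hyx])

theorem ofPlane_apply (F : ℂ ≃ₜ ℂ) (hF : F '' EC E = EC E) (x : UE E) :
    (ofPlane F hF x : ℂ) = F x := rfl

theorem extF_ofPlane (F : ℂ ≃ₜ ℂ) (hF : F '' EC E = EC E) :
    extF hE (ofPlane F hF) = F.onePointCongr := by
  apply homeo_ext hE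
  intro x
  rw [extF_apply, ofPlane_apply]
  rfl

include hE in
theorem ofPlane_mem (F : ℂ ≃ₜ ℂ) (hF : F '' EC E = EC E) {x : ℂ} (h : OPat F x) :
    ofPlane F hF ∈ HomeoPlus (UE E) := by
  intro y
  rw [OPAt_iff (UE_open hE) (ofPlane F hF) F (fun x => rfl)]
  exact OPat_all F h y

theorem OPat_of_eventually_id {F : ℂ ≃ₜ ℂ} {R : ℝ} (h : ∀ z, R ≤ ‖z‖ → F z = z) :
    ∃ x, OPat F x := by
  refine ⟨((|R| + 1 : ℝ) : ℂ), OPat_congr (f := fun z => z) ?_ (OPat_id _)⟩
  have h1 : {z : ℂ | R < ‖z‖} ∈ 𝓝 (((|R| + 1 : ℝ)) : ℂ) := by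
    refine (isOpen_lt continuous_const continuous_norm).mem_nhds ?_
    have : (0 : ℝ) ≤ |R| + 1 := by positivity
    simp only [mem_setOf_eq, Complex.norm_real, Real.norm_eq_abs, abs_of_nonneg this]
    linarith [le_abs_self R]
  filter_upwards [h1] with z hz
  exact (h z (le_of_lt hz)).symm

/-- homeomorphisms whose extension fixes `∞` come from the plane -/
theorem exists_plane (f : UE E ≃ₜ UE E) (h : extF hE f ∞ = ∞) :
    ∃ F : ℂ ≃ₜ ℂ, (∀ z : ℂ, extF hE f (z : OnePoint ℂ) = (F z : OnePoint ℂ)) := by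
  have h1 : ∀ G : OnePoint ℂ ≃ₜ OnePoint ℂ, G ∞ = ∞ → ∃ g : ℂ → ℂ, Continuous g ∧
      ∀ z : ℂ, G (z : OnePoint ℂ) = (g z : OnePoint ℂ) := by
    intro G hG
    have : ∀ z : ℂ, ∃ w : ℂ, G (z : OnePoint ℂ) = (w : OnePoint ℂ) := by
      intro z
      have hne : G (z : OnePoint ℂ) ≠ ∞ := by
        intro hz
        rw [← hG] at hz
        exact OnePoint.coe_ne_infty z (G.injective hz)
      obtain ⟨w, hw⟩ := OnePoint.ne_infty_iff_exists.mp hne
      exact ⟨w, hw.symm⟩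
    choose g hg using this
    refine ⟨g, ?_, hg⟩
    rw [OnePoint.isOpenEmbedding_coe.isEmbedding.continuous_iff]
    have : ((↑) ∘ g : ℂ → OnePoint ℂ) = G ∘ (↑) := by
      funext z
      exact (hg z).symm
    rw [this]
    exact G.continuous.comp OnePoint.continuous_coe
  obtain ⟨g, hg, hg'⟩ := h1 (extF hE f) h
  obtain ⟨k, hk, hk'⟩ := h1 (extF hE f).symm (by rw [Homeomorph.symm_apply_eq, h])
  refine ⟨⟨⟨g, k, ?_, ?_⟩, hg, hk⟩, hg'⟩
  · intro z
    have := hk' (g z)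
    rw [← hg', Homeomorph.symm_apply_apply] at this
    exact (OnePoint.coe_injective this).symm
  · intro z
    have := hg' (k z)
    rw [← hk', Homeomorph.apply_symm_apply] at this
    exact (OnePoint.coe_injective this).symm

theorem plane_eq {f : UE E ≃ₜ UE E} {F : ℂ ≃ₜ ℂ}
    (h : ∀ z : ℂ, extF hE f (z : OnePoint ℂ) = (F z : OnePoint ℂ)) (x : UE E) :
    F x = (f x : ℂ) := by
  have := h x
  rw [extF_apply] at this
  exact (OnePoint.coe_injective this).symm

include hE in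
theorem plane_EC {f : UE E ≃ₜ UE E} {F : ℂ ≃ₜ ℂ}
    (h : ∀ z : ℂ, extF hE f (z : OnePoint ℂ) = (F z : OnePoint ℂ)) : F '' EC E = EC E := by
  have h2 : F '' UE E = UE E := by
    ext y
    constructor
    · rintro ⟨x, hx, rfl⟩
      rw [plane_eq hE h ⟨x, hx⟩]
      exact (f ⟨x, hx⟩).2
    · intro hy
      refine ⟨(f.symm ⟨y, hy⟩ : UE E), (f.symm ⟨y, hy⟩).2, ?_⟩
      rw [plane_eq hE h, f.apply_symm_apply]
  have : (EC E) = (UE E)ᶜ := by simp [UE]
  rw [this, image_compl_eq F.bijective, h2]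

end Ends72
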