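import Pool.Agent.LibEnds72.Kappa

/-! The theorem `cara` is proved in `Kappa.lean`. -/
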