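import Pool.Agent.LibEnds72.Defs

/-! TASK M: the abstract computation of the number of ends. -/

open Set Metric Topology Filter
open scoped Pointwise

noncomputable section

namespace Ends72

section cayends

variable {G : Type*} [Group G] (A : Set G) (m : G → ℤ)
    (hm : ∀ g h, |m (g * h) - m g| = |m h|) (D : ℤ) (hD : ∀ a ∈ A, |m a| ≤ D) (hD0 : 0 ≤ D)

include hm in
theorem ce_diff (g h : G) : |m h - m g| = |m (g⁻¹ * h)| := by
  have := hm g (g⁻¹ * h)
  rwa [mul_inv_cancel_left] at this

include hm hD in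
theorem ce_adj {g h : G} (hgh : (Cay A).Adj g h) : |m h - m g| ≤ D := by
  rcases hgh.2 with h1 | h1
  · rw [ce_diff m hm]
    exact hD _ h1
  · rw [abs_sub_comm, ce_diff m hm]
    exact hD _ h1

include hm hD in
theorem ce_walk {g h : G} (p : (Cay A).Walk g h) : |m h - m g| ≤ p.length * D := by
  induction p with
  | nil => simp
  | cons hadj p ih =>
    rename_i u v w
    have h1 := ce_adj A m hm D hD hadj
    have h2 : |m w - m u| ≤ |m w - m v| + |m v - m u| := by
      have := abs_add_le (m w - m v) (m v - m u)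
      simpa using this
    rw [SimpleGraph.Walk.length_cons]
    push_cast
    linarith

include hm hD hD0 in
theorem ce_reach (B : Set G) (n : ℕ) : ∀ (g h : G) (hg : g ∈ Bᶜ) (hh : h ∈ Bᶜ),
    g⁻¹ * h ∈ (insert 1 A : Set G) ^ n → (∀ x, |m x - m g| ≤ n * D → x ∈ Bᶜ) →
    ((Cay A).induce Bᶜ).Reachable ⟨g, hg⟩ ⟨h, hh⟩ := by
  induction n with
  | zero =>
    intro g h hg hh hgh hx
    rw [pow_zero, Set.mem_one] at hgh
    have : g = h := by
      rw [inv_mul_eq_one] at hgh
      exact hgh
    subst this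
    exact SimpleGraph.Reachable.refl _
  | succ n ih =>
    intro g h hg hh hgh hx
    rw [pow_succ, Set.mem_mul] at hgh
    obtain ⟨w, hw, a, ha, hwa⟩ := hgh
    have hD1 : ∀ a ∈ (insert 1 A : Set G), |m a| ≤ D := by
      intro a ha
      rcases ha with rfl | ha
      · have := hm 1 1
        rw [mul_one, sub_self, abs_zero] at this
        rw [← this]
        exact hD0
      · exact hD a ha
    have hDn : ∀ (n : ℕ), ∀ w ∈ (insert 1 A : Set G) ^ n, |m w| ≤ n * D := by
      intro n
      induction n with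
      | zero =>
        intro w hw
        rw [pow_zero, Set.mem_one] at hw
        subst hw
        have := hm 1 1
        rw [mul_one, sub_self, abs_zero] at this
        rw [← this]
        simp
      | succ n ih2 =>
        intro w hw
        rw [pow_succ, Set.mem_mul] at hw
        obtain ⟨w', hw', a', ha', hwa'⟩ := hw
        have h1 := ih2 w' hw'
        have h2 := hm w' a'
        rw [hwa'] at h2
        have h3 := hD1 a' ha'
        have h4 : |m w| ≤ |m w - m w'| + |m w'| := by
          have := abs_add_le (m w - m w') (m w')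
          simpa using this
        push_cast
        linarith
    have hmid : g * w ∈ Bᶜ := by
      apply hx
      rw [hm]
      have := hDn n w hw
      push_cast
      linarith
    have r1 := ih g (g * w) hg hmid (by rwa [inv_mul_cancel_left]) (by
      intro x hx'
      apply hx
      push_cast
      linarith)
    refine r1.trans ?_
    have hh2 : h = g * w * a := by
      rw [mul_assoc, hwa]
      group
    by_cases he : g * w = h
    · subst he
      exact SimpleGraph.Reachable.refl _
    · apply SimpleGraph.Adj.reachable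
      refine ⟨he, Or.inl ?_⟩
      change (g * w)⁻¹ * h ∈ A
      rw [hh2, inv_mul_cancel_left]
      rcases ha with rfl | ha
      · exact absurd (by rw [hh2, mul_one]) he
      · exact ha

theorem ce_len (n : ℕ) (g h : G) (hgh : g⁻¹ * h ∈ (insert 1 A : Set G) ^ n) :
    ∃ p : (Cay A).Walk g h, p.length ≤ n := by
  induction n generalizing h with
  | zero =>
    rw [pow_zero, Set.mem_one] at hgh
    have : g = h := by
      rw [inv_mul_eq_one] at hgh
      exact hgh
    subst this
    exact ⟨SimpleGraph.Walk.nil, by simp⟩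
  | succ n ih =>
    rw [pow_succ, Set.mem_mul] at hgh
    obtain ⟨w, hw, a, ha, hwa⟩ := hgh
    obtain ⟨p, hp⟩ := ih (g * w) (by rwa [inv_mul_cancel_left])
    have hh2 : h = g * w * a := by
      rw [mul_assoc, hwa]
      group
    by_cases he : g * w = h
    · subst he
      exact ⟨p, by omega⟩
    · have hadj : (Cay A).Adj (g * w) h := by
        refine ⟨he, Or.inl ?_⟩
        rw [hh2, inv_mul_cancel_left]
        rcases ha with rfl | ha
        · exact absurd (by rw [hh2, mul_one]) he
        · exact ha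
      refine ⟨p.concat hadj, ?_⟩
      rw [SimpleGraph.Walk.length_concat]
      omega

end cayends

theorem numEnds_eq_two {G : Type*} [Group G] (A : Set G) (hA : A⁻¹ = A) (m : G → ℤ)
    (hm : ∀ g h, |m (g * h) - m g| = |m h|) (τ : G) (hτ : ∀ n : ℤ, m (τ ^ n) = n) (C : ℤ)
    (hC : ∀ a ∈ A, |m a| ≤ C) (hb : ∀ k : ℤ, ∃ n : ℕ, ∀ g, |m g| ≤ k → g ∈ (insert 1 A) ^ n) :
    numEnds A = 2 := by
  classical
  -- a nonnegative bound
  obtain ⟨D, hD0, hD⟩ : ∃ D : ℤ, 0 ≤ D ∧ ∀ a ∈ A, |m a| ≤ D :=
    ⟨max C 0, le_max_right _ _, fun a ha => (hC a ha).trans (le_max_left _ _)⟩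
  obtain ⟨n0, hn0⟩ := hb 0
  obtain ⟨n1, hn1⟩ := hb 1
  have hbdd : ∀ (B : Set G) (K : ℤ), (∀ g ∈ B, |m g| ≤ K) → Bdd A B := by
    intro B K hK
    obtain ⟨n, hn⟩ := hb (K + K)
    refine ⟨n, fun g hg h hh => ?_⟩
    apply ce_len A
    apply hn
    rw [← ce_diff m hm]
    calc |m h - m g| ≤ |m h| + |m g| := abs_sub _ _
      _ ≤ K + K := add_le_add (hK h hh) (hK g hg)
  have hbdd' : ∀ B : Set G, Bdd A B → ∃ K : ℤ, 0 ≤ K ∧ ∀ g ∈ B, |m g| ≤ K := by
    rintro B ⟨n, hn⟩
    rcases B.eq_empty_or_nonempty with rfl | ⟨g0, hg0⟩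
    · exact ⟨0, le_rfl, fun g hg => absurd hg (notMem_empty g)⟩
    · refine ⟨|m g0| + n * D, by positivity, fun g hg => ?_⟩
      obtain ⟨p, hp⟩ := hn g0 hg0 g hg
      have h1 := ce_walk A m hm D hD p
      have h2 : |m g| ≤ |m g - m g0| + |m g0| := by
        have := abs_add_le (m g - m g0) (m g0)
        simpa using this
      have h3 : (p.length : ℤ) * D ≤ n * D := by
        apply mul_le_mul_of_nonneg_right _ hD0
        exact_mod_cast hp
      linarith
  -- the two rays
  have hstep : ∀ (B : Set G) (K : ℤ), 0 ≤ K → (∀ g ∈ B, |m g| ≤ K) →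
      ∀ (n n' : ℤ) (hn : τ ^ n ∈ Bᶜ) (hn' : τ ^ n' ∈ Bᶜ), |n' - n| ≤ 1 →
        K + n1 * D < |n| →
        ((Cay A).induce Bᶜ).Reachable ⟨τ ^ n, hn⟩ ⟨τ ^ n', hn'⟩ := by
    intro B K hK0 hK n n' hn hn' hnn hnK
    refine ce_reach A m hm D hD hD0 B n1 _ _ _ _ ?_ ?_
    · apply hn1
      rw [← ce_diff m hm, hτ, hτ]
      exact hnn
    · intro x hx hxB
      have h1 := hK x hxB
      rw [hτ] at hx
      have h2 : |n| ≤ |m x - n| + |m x| := by
        rw [abs_sub_comm]
        have := abs_add_le (n - m x) (m x)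
        simpa using this
      linarith
  have hout : ∀ (B : Set G) (K : ℤ), (∀ g ∈ B, |m g| ≤ K) → ∀ g, K < |m g| → g ∈ Bᶜ := by
    intro B K hK g hg hgB
    exact absurd (hK g hgB) (not_le.2 hg)
  have hray : ∀ (B : Set G) (K : ℤ) (hK0 : 0 ≤ K) (hK : ∀ g ∈ B, |m g| ≤ K) (N : ℤ)
      (hN : K + n1 * D < N) (ε : ℤ) (hε : |ε| = 1) (j : ℕ) (h1 : τ ^ (ε * N) ∈ Bᶜ)
      (h2 : τ ^ (ε * (N + j)) ∈ Bᶜ),
      ((Cay A).induce Bᶜ).Reachable ⟨τ ^ (ε * N), h1⟩ ⟨τ ^ (ε * (N + j)), h2⟩ := by
    intro B K hK0 hK N hN ε hε j h1 h2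
    have hn1D : 0 ≤ (n1 : ℤ) * D := by positivity
    have hN0 : 0 ≤ N := by linarith
    induction j with
    | zero =>
      have : (⟨τ ^ (ε * (N + (0 : ℕ))), h2⟩ : ↥Bᶜ) = ⟨τ ^ (ε * N), h1⟩ := by
        apply Subtype.ext
        simp
      rw [this]
    | succ j ih =>
      have hj : τ ^ (ε * (N + j)) ∈ Bᶜ := by
        apply hout B K hK
        rw [hτ, abs_mul, hε, one_mul, abs_of_nonneg (by positivity)]
        have : (0 : ℤ) ≤ j := by positivity
        linarith
      refine (ih hj).trans (hstep B K hK0 hK _ _ _ _ ?_ ?_)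
      · rw [← mul_sub, abs_mul, hε, one_mul]
        push_cast
        simp
      · rw [abs_mul, hε, one_mul, abs_of_nonneg (by positivity)]
        have : (0 : ℤ) ≤ j := by positivity
        linarith
  apply le_antisymm
  · -- at most two
    refine iSup₂_le fun B hB => ?_
    obtain ⟨K, hK0, hK⟩ := hbdd' B hB
    have hn1D : 0 ≤ (n1 : ℤ) * D := by positivity
    have hn0D : 0 ≤ (n0 : ℤ) * D := by positivity
    set N : ℤ := K + n0 * D + n1 * D + 1 with hN
    have hNp : τ ^ ((1 : ℤ) * N) ∈ Bᶜ := by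
      apply hout B K hK
      rw [hτ, one_mul, abs_of_nonneg (by linarith)]
      linarith
    have hNm : τ ^ ((-1 : ℤ) * N) ∈ Bᶜ := by
      apply hout B K hK
      rw [hτ, abs_mul, abs_neg, abs_one, one_mul, abs_of_nonneg (by linarith)]
      linarith
    let cp := ((Cay A).induce Bᶜ).connectedComponentMk ⟨_, hNp⟩
    let cm := ((Cay A).induce Bᶜ).connectedComponentMk ⟨_, hNm⟩
    have hsub : {C : ((Cay A).induce Bᶜ).ConnectedComponent |
        ¬ Bdd A (Subtype.val '' C.supp)} ⊆ {cp, cm} := by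
      intro c hc
      obtain ⟨g, hg, hgN⟩ : ∃ g ∈ (Subtype.val '' c.supp : Set G), N ≤ |m g| := by
        by_contra hcon
        push Not at hcon
        exact hc (hbdd _ N fun g hg => (hcon g hg).le)
      obtain ⟨⟨g', hgB⟩, hgc, rfl⟩ := hg
      change N ≤ |m g'| at hgN
      have hcg : ((Cay A).induce Bᶜ).connectedComponentMk ⟨g', hgB⟩ = c := hgc
      have hmB : τ ^ (m g') ∈ Bᶜ := by
        apply hout B K hK
        rw [hτ]
        linarith
      have hr1 : ((Cay A).induce Bᶜ).Reachable ⟨g', hgB⟩ ⟨τ ^ (m g'), hmB⟩ := by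
        refine ce_reach A m hm D hD hD0 B n0 _ _ _ _ ?_ ?_
        · apply hn0
          rw [← ce_diff m hm, hτ]
          simp
        · intro x hx hxB
          have h1 := hK x hxB
          have h2 : |m g'| ≤ |m x - m g'| + |m x| := by
            rw [abs_sub_comm]
            have := abs_add_le (m g' - m x) (m x)
            simpa using this
          linarith
      rcases le_total 0 (m g') with hs | hs
      · left
        rw [abs_of_nonneg hs] at hgN
        obtain ⟨j, hj⟩ : ∃ j : ℕ, m g' = 1 * (N + j) := ⟨(m g' - N).toNat, by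
          rw [Int.toNat_of_nonneg (by linarith)]; ring⟩
        have h2 : τ ^ ((1 : ℤ) * (N + j)) ∈ Bᶜ := by rw [← hj]; exact hmB
        have hr2 := hray B K hK0 hK N (by linarith) 1 (by simp) j hNp h2
        have he : (⟨τ ^ ((1 : ℤ) * (N + j)), h2⟩ : ↥Bᶜ) = ⟨τ ^ (m g'), hmB⟩ :=
          Subtype.ext (congrArg (fun i : ℤ => τ ^ i) hj.symm)
        rw [he] at hr2
        rw [← hcg]
        exact SimpleGraph.ConnectedComponent.sound (hr1.trans hr2.symm)
      · right
        rw [abs_of_nonpos hs] at hgN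
        obtain ⟨j, hj⟩ : ∃ j : ℕ, m g' = (-1) * (N + j) := ⟨(-m g' - N).toNat, by
          rw [Int.toNat_of_nonneg (by linarith)]; ring⟩
        have h2 : τ ^ ((-1 : ℤ) * (N + j)) ∈ Bᶜ := by rw [← hj]; exact hmB
        have hr2 := hray B K hK0 hK N (by linarith) (-1) (by simp) j hNm h2
        have he : (⟨τ ^ ((-1 : ℤ) * (N + j)), h2⟩ : ↥Bᶜ) = ⟨τ ^ (m g'), hmB⟩ :=
          Subtype.ext (congrArg (fun i : ℤ => τ ^ i) hj.symm)
        rw [he] at hr2
        rw [mem_singleton_iff, ← hcg]
        exact SimpleGraph.ConnectedComponent.sound (hr1.trans hr2.symm)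
    calc _ ≤ ({cp, cm} : Set _).encard := Set.encard_le_encard hsub
      _ ≤ 2 := by
        refine (Set.encard_insert_le _ _).trans ?_
        rw [Set.encard_singleton]
        norm_num
  · -- at least two
    let B : Set G := {g | |m g| ≤ D}
    have hK : ∀ g ∈ B, |m g| ≤ D := fun g hg => hg
    have hB : Bdd A B := hbdd B D hK
    have hn1D : 0 ≤ (n1 : ℤ) * D := by positivity
    set N : ℤ := D + n1 * D + 1 with hN
    have hNp : τ ^ ((1 : ℤ) * N) ∈ Bᶜ := by
      apply hout B D hK
      rw [hτ, one_mul, abs_of_nonneg (by linarith)]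
      linarith
    have hNm : τ ^ ((-1 : ℤ) * N) ∈ Bᶜ := by
      apply hout B D hK
      rw [hτ, abs_mul, abs_neg, abs_one, one_mul, abs_of_nonneg (by linarith)]
      linarith
    have hsign : ∀ x y : ↥Bᶜ, ((Cay A).induce Bᶜ).Reachable x y → 0 < m x.1 → 0 < m y.1 := by
      rintro x y ⟨p⟩
      induction p with
      | nil => exact id
      | cons hadj p ih =>
        rename_i u v w
        intro hu
        apply ih
        have h1 : |m v.1 - m u.1| ≤ D := ce_adj A m hm D hD hadj
        have h2 : ¬ |m u.1| ≤ D := u.2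
        have h3 : ¬ |m v.1| ≤ D := v.2
        by_contra hv
        push Not at hv h2 h3
        rw [abs_of_pos hu] at h2
        rw [abs_of_nonpos hv] at h3
        have := (abs_le.1 h1).1
        linarith
    let cp := ((Cay A).induce Bᶜ).connectedComponentMk ⟨_, hNp⟩
    let cm := ((Cay A).induce Bᶜ).connectedComponentMk ⟨_, hNm⟩
    have hne : cp ≠ cm := by
      intro h
      have h1 := SimpleGraph.ConnectedComponent.exact h
      have h2 := hsign _ _ h1 (by rw [hτ]; linarith)
      rw [hτ] at h2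
      linarith
    have hunb : ∀ (ε : ℤ) (hε : |ε| = 1) (h1 : τ ^ (ε * N) ∈ Bᶜ),
        ¬ Bdd A (Subtype.val '' (((Cay A).induce Bᶜ).connectedComponentMk ⟨_, h1⟩).supp) := by
      intro ε hε h1 hbd
      obtain ⟨K, hK0, hK'⟩ := hbdd' _ hbd
      have h2 : τ ^ (ε * (N + K.toNat)) ∈ Bᶜ := by
        apply hout B D hK
        rw [hτ, abs_mul, hε, one_mul, Int.toNat_of_nonneg hK0, abs_of_nonneg (by linarith)]
        linarith
      have hr := hray B D hD0 hK N (by linarith) ε hε K.toNat h1 h2
      have h3 := hK' (τ ^ (ε * (N + K.toNat))) ⟨⟨_, h2⟩, by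
        rw [SimpleGraph.ConnectedComponent.mem_supp_iff]
        exact (SimpleGraph.ConnectedComponent.sound hr).symm, rfl⟩
      rw [hτ, abs_mul, hε, one_mul, Int.toNat_of_nonneg hK0, abs_of_nonneg (by linarith)] at h3
      linarith
    have hsub : ({cp, cm} : Set _) ⊆ {C : ((Cay A).induce Bᶜ).ConnectedComponent |
        ¬ Bdd A (Subtype.val '' C.supp)} := by
      rintro c (rfl | rfl)
      · exact hunb 1 (by simp) hNp
      · exact hunb (-1) (by simp) hNm
    refine le_iSup₂_of_le B hB ?_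
    calc (2 : ℕ∞) = ({cp, cm} : Set _).encard := (Set.encard_pair hne).symm
      _ ≤ _ := Set.encard_le_encard hsub

end Ends72
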