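import Pool.Agent.LibEnds72.Plane
import Pool.Agent.LibEnds72.OPAll

/-! TASK D1: the boundary map of a disc homeomorphism of degree one lifts to an increasing map. -/

open Set Metric Topology Filter

noncomputable section

namespace Ends72

/-- The retraction of the plane onto the left half plane. -/
def halfRetr (w : ℂ) : ℂ := ((min w.re 0 : ℝ) : ℂ) + (w.im : ℂ) * Complex.I

theorem halfRetr_continuous : Continuous halfRetr := by
  unfold halfRetr
  fun_prop

theorem halfRetr_re (w : ℂ) : (halfRetr w).re = min w.re 0 := by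
  simp [halfRetr]

theorem halfRetr_of_re_le {w : ℂ} (h : w.re ≤ 0) : halfRetr w = w := by
  rw [halfRetr, min_eq_left h, Complex.re_add_im]

theorem halfRetr_period (w : ℂ) :
    halfRetr (w + 2 * Real.pi * Complex.I) = halfRetr w + 2 * Real.pi * Complex.I := by
  apply Complex.ext <;> simp [halfRetr]

theorem circle_lift {κ : ℂ → ℂ} (hc : ContinuousOn κ (closedBall 0 1))
    (hinj : InjOn κ (closedBall 0 1)) (h0 : κ 0 = 0)
    (hs : MapsTo κ (sphere 0 1) (sphere 0 1)) (hop : OPat κ 0) :
    ∃ B : ℝ → ℝ, Continuous B ∧ StrictMono B ∧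
      (∀ θ, B (θ + 2 * Real.pi) = B θ + 2 * Real.pi) ∧
      ∀ θ : ℝ, κ (Complex.exp (θ * Complex.I)) = Complex.exp (B θ * Complex.I) := by
  -- the exponential of the retraction lies in the closed disc
  have hmem : ∀ w, Complex.exp (halfRetr w) ∈ closedBall (0 : ℂ) 1 := by
    intro w
    rw [mem_closedBall_zero_iff, Complex.norm_exp, halfRetr_re]
    exact Real.exp_le_one_iff.2 (min_le_right _ _)
  have hce : Continuous fun w => Complex.exp (halfRetr w) :=
    Complex.continuous_exp.comp halfRetr_continuous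
  have hne : ∀ w, κ (Complex.exp (halfRetr w)) ≠ 0 := by
    intro w hw
    rw [← h0] at hw
    exact Complex.exp_ne_zero _ (hinj (hmem w) (by simp) hw)
  have hq : Continuous fun w => κ (Complex.exp (halfRetr w)) / Complex.exp (halfRetr w) := by
    refine Continuous.div ?_ hce fun w => Complex.exp_ne_zero _
    exact hc.comp_continuous hce hmem
  have : ContractibleSpace (univ : Set ℂ) :=
    (convex_univ (𝕜 := ℝ)).contractibleSpace ⟨0, mem_univ _⟩
  have hsc : IsSimplyConnected (univ : Set ℂ) := by
    unfold IsSimplyConnected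
    infer_instance
  obtain ⟨Λ, hΛ, hΛe⟩ := Complex.exists_continuousOn_eqOn_exp_comp hsc isOpen_univ
    hq.continuousOn (by
      rintro ⟨w, -, hw⟩
      exact div_ne_zero (hne w) (Complex.exp_ne_zero _) hw)
  rw [continuousOn_univ] at hΛ
  have hΛ1 : ∀ w, κ (Complex.exp (halfRetr w)) = Complex.exp (halfRetr w) * Complex.exp (Λ w) := by
    intro w
    have := hΛe (mem_univ w)
    simp only [Function.comp_apply] at this
    rw [this, mul_div_cancel₀ _ (Complex.exp_ne_zero _)]
  -- the period
  have hper0 : ∀ p q : ℂ, Λ (p + 2 * Real.pi * Complex.I) - Λ p =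
      Λ (q + 2 * Real.pi * Complex.I) - Λ q := by
    intro p q
    refine const_of_exp_eq_one (S := (univ : Set ℂ)) isPreconnected_univ
      (f := fun p => Λ (p + 2 * Real.pi * Complex.I) - Λ p) ?_ ?_ (mem_univ _) (mem_univ _)
    · refine Continuous.continuousOn ?_
      exact (hΛ.comp (by fun_prop)).sub hΛ
    · intro p _
      have h1 := hΛ1 p
      have h2 := hΛ1 (p + 2 * Real.pi * Complex.I)
      rw [halfRetr_period, Complex.exp_add, Complex.exp_two_pi_mul_I, mul_one, h1] at h2
      have h3 := mul_left_cancel₀ (Complex.exp_ne_zero _) h2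
      rw [Complex.exp_sub, ← h3, div_self (Complex.exp_ne_zero _)]
  obtain ⟨V, hV, L, hL, hLe⟩ := hop
  obtain ⟨r, hr, hrV⟩ := Metric.mem_nhds_iff.1 hV
  set R : ℝ := min (Real.log r) 0 with hR
  have hmemV : ∀ w : ℂ, w.re < R → Complex.exp w ∈ V \ {0} := by
    intro w hw
    refine ⟨hrV ?_, ?_⟩
    · rw [mem_ball_zero_iff, Complex.norm_exp]
      exact (Real.lt_log_iff_exp_lt hr).1 (hw.trans_le (min_le_left _ _))
    · simp [Complex.exp_ne_zero]
  have hS : IsPreconnected {w : ℂ | w.re < R} := (convex_halfSpace_re_lt _).isPreconnected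
  have hconst : ∀ w ∈ {w : ℂ | w.re < R}, ∀ w' ∈ {w : ℂ | w.re < R},
      Λ w - L (Complex.exp w) = Λ w' - L (Complex.exp w') := by
    intro w hw w' hw'
    refine const_of_exp_eq_one hS (f := fun w => Λ w - L (Complex.exp w)) ?_ ?_ hw hw'
    · refine ContinuousOn.sub hΛ.continuousOn ?_
      exact hL.comp (by fun_prop) fun w hw => hmemV w hw
    · intro w hw
      have h1 := hΛ1 w
      have hw0 : w.re ≤ 0 := (lt_of_lt_of_le hw (min_le_right _ _)).le
      rw [halfRetr_of_re_le hw0] at h1
      have h2 := hLe _ (hmemV w hw)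
      rw [h0, sub_zero, sub_zero, h1] at h2
      have h3 := mul_left_cancel₀ (Complex.exp_ne_zero _) h2
      rw [Complex.exp_sub, h3, div_self (Complex.exp_ne_zero _)]
  have hper : ∀ p : ℂ, Λ (p + 2 * Real.pi * Complex.I) = Λ p := by
    intro p
    set w : ℂ := ((R - 1 : ℝ) : ℂ) with hw
    have hw1 : w.re < R := by rw [hw, Complex.ofReal_re]; linarith
    have hw2 : (w + 2 * Real.pi * Complex.I).re < R := by
      simpa using hw1
    have h1 := hconst _ hw1 _ hw2
    rw [Complex.exp_add, Complex.exp_two_pi_mul_I, mul_one] at h1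
    have h2 := hper0 p w
    rw [← sub_eq_zero, h2]
    linear_combination -h1
  -- the lift
  have hcirc : ∀ θ : ℝ, κ (Complex.exp (θ * Complex.I)) =
      Complex.exp (θ * Complex.I) * Complex.exp (Λ (θ * Complex.I)) := by
    intro θ
    have h1 := hΛ1 (θ * Complex.I)
    rwa [halfRetr_of_re_le (by simp)] at h1
  have hre : ∀ θ : ℝ, (Λ (θ * Complex.I)).re = 0 := by
    intro θ
    have h1 : ‖κ (Complex.exp (θ * Complex.I))‖ = 1 := by
      have := hs (x := Complex.exp (θ * Complex.I)) (by
        rw [mem_sphere_zero_iff_norm, Complex.norm_exp_ofReal_mul_I])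
      rwa [mem_sphere_zero_iff_norm] at this
    rw [hcirc, norm_mul, Complex.norm_exp_ofReal_mul_I, one_mul, Complex.norm_exp,
      Real.exp_eq_one_iff] at h1
    exact h1
  have hB4 : ∀ θ : ℝ, κ (Complex.exp (θ * Complex.I)) =
      Complex.exp ((θ + (Λ (θ * Complex.I)).im : ℝ) * Complex.I) := by
    intro θ
    rw [hcirc, ← Complex.exp_add]
    congr 1
    rw [← Complex.re_add_im (Λ (θ * Complex.I)), hre]
    simp
    ring
  have hB3 : ∀ θ : ℝ, (θ + 2 * Real.pi) + (Λ ((θ + 2 * Real.pi : ℝ) * Complex.I)).im =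
      (θ + (Λ (θ * Complex.I)).im) + 2 * Real.pi := by
    intro θ
    have : (((θ + 2 * Real.pi : ℝ) : ℂ) * Complex.I) = θ * Complex.I + 2 * Real.pi * Complex.I := by
      push_cast
      ring
    rw [this, hper]
    ring
  have hB1 : Continuous fun θ : ℝ => θ + (Λ (θ * Complex.I)).im := by
    refine continuous_id.add (Complex.continuous_im.comp (hΛ.comp ?_))
    fun_prop
  have hB3n : ∀ (n : ℕ) (θ : ℝ), (θ + n * (2 * Real.pi)) +
      (Λ ((θ + n * (2 * Real.pi) : ℝ) * Complex.I)).im =
      (θ + (Λ (θ * Complex.I)).im) + n * (2 * Real.pi) := by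
    intro n
    induction n with
    | zero => intro θ; simp
    | succ n ih =>
      intro θ
      have h1 := hB3 (θ + n * (2 * Real.pi))
      have h2 := ih θ
      have h3 : θ + ((n + 1 : ℕ) : ℝ) * (2 * Real.pi) = θ + n * (2 * Real.pi) + 2 * Real.pi := by
        push_cast
        ring
      rw [h3, h1, h2]
      push_cast
      ring
  have hBinj : Function.Injective fun θ : ℝ => θ + (Λ (θ * Complex.I)).im := by
    intro a b hab
    simp only at hab
    have h1 : κ (Complex.exp (a * Complex.I)) = κ (Complex.exp (b * Complex.I)) := by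
      rw [hB4, hB4, hab]
    have hcl : ∀ θ : ℝ, Complex.exp (θ * Complex.I) ∈ closedBall (0 : ℂ) 1 := by
      intro θ
      rw [mem_closedBall_zero_iff, Complex.norm_exp_ofReal_mul_I]
    have h2 := hinj (hcl a) (hcl b) h1
    obtain ⟨n, hn⟩ := Complex.exp_eq_exp_iff_exists_int.1 h2
    have hn' : a = b + n * (2 * Real.pi) := by
      have h3 : ((a : ℝ) : ℂ) * Complex.I = ((b + n * (2 * Real.pi) : ℝ) : ℂ) * Complex.I := by
        rw [hn]
        push_cast
        ring
      exact_mod_cast mul_right_cancel₀ Complex.I_ne_zero h3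
    have hpi := Real.pi_pos
    rcases Int.eq_nat_or_neg n with ⟨m, rfl | rfl⟩
    · have h4 := hB3n m b
      have h5 : a = b + m * (2 * Real.pi) := by
        rw [hn']; push_cast; ring
      rw [← h5, hab] at h4
      have : (m : ℝ) * (2 * Real.pi) = 0 := by linarith
      rw [h5, this, add_zero]
    · have h4 := hB3n m a
      have h5 : b = a + m * (2 * Real.pi) := by
        rw [hn']; push_cast; ring
      rw [← h5, ← hab] at h4
      have : (m : ℝ) * (2 * Real.pi) = 0 := by linarith
      rw [h5, this, add_zero]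
  refine ⟨fun θ => θ + (Λ (θ * Complex.I)).im, hB1, ?_, fun θ => hB3 θ, fun θ => ?_⟩
  · rcases hB1.strictMono_of_inj hBinj with h | h
    · exact h
    · exfalso
      have h1 := h (show (0 : ℝ) < 0 + 2 * Real.pi by linarith [Real.pi_pos])
      have h2 := hB3 0
      simp only at h1
      rw [h2] at h1
      linarith [Real.pi_pos]
  · exact hB4 θ

end Ends72
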