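import Pool.Agent.LibEnds72.PathSpace

/-! TASK J3: clopen subsets of path spaces are path spaces. -/

open Set Topology

noncomputable section

namespace Ends72

open T

namespace J3

/-! ### Unfolding and addition -/

theorem cd_Stp_add_right {α β : Multiset T} (h : Stp α β) (γ : Multiset T) :
    Stp (α + γ) (β + γ) := by
  obtain ⟨x, δ, rfl, rfl⟩ := h
  exact ⟨x, δ + γ, Multiset.cons_add _ _ _, add_assoc _ _ _⟩

theorem cd_Unf_add_right {α β : Multiset T} (h : Unf α β) (γ : Multiset T) :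
    Unf (α + γ) (β + γ) := by
  induction h with
  | refl => exact Relation.ReflTransGen.refl
  | tail _ h2 ih => exact ih.tail (cd_Stp_add_right h2 γ)

theorem cd_Unf_add {α β γ δ : Multiset T} (h : Unf α β) (h' : Unf γ δ) :
    Unf (α + γ) (β + δ) := by
  refine (cd_Unf_add_right h γ).trans ?_
  rw [add_comm β γ, add_comm β δ]
  exact cd_Unf_add_right h' β

theorem Unf_ofFn : ∀ (n : ℕ) (v : Fin n → T) (L₁ L₂ : Fin n → List T),
    (∀ i, Unf ({v i} : Multiset T) ((L₁ i : Multiset T) + (L₂ i : Multiset T))) →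
    Unf ((List.ofFn v : List T) : Multiset T)
      (((List.ofFn L₁).flatten : Multiset T) + ((List.ofFn L₂).flatten : Multiset T)) := by
  intro n
  induction n with
  | zero => intro v L₁ L₂ _; simp [Unf, Relation.ReflTransGen.refl]
  | succ n ih =>
    intro v L₁ L₂ h
    have h1 := ih (fun i => v i.succ) (fun i => L₁ i.succ) (fun i => L₂ i.succ)
      (fun i => h i.succ)
    have h2 := cd_Unf_add (h 0) h1
    simp only [List.ofFn_succ, List.flatten_cons]
    have e1 : ((v 0 :: List.ofFn fun i => v i.succ : List T) : Multiset T) =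
        {v 0} + ((List.ofFn fun i : Fin n => v i.succ : List T) : Multiset T) := by
      rw [Multiset.singleton_add]; rfl
    rw [e1]
    convert h2 using 1
    rw [← Multiset.coe_add, ← Multiset.coe_add]
    abel

/-! ### Sums of path spaces -/

theorem sum_homeo {n : ℕ} {Z : Fin (n + 1) → Type} [∀ i, TopologicalSpace (Z i)]
    [∀ i, CompactSpace (Z i)] [∀ i, T2Space (Z i)] :
    Nonempty ((Z 0 ⊕ Σ i : Fin n, Z i.succ) ≃ₜ (Σ i, Z i)) := by
  let f : (Z 0 ⊕ Σ i : Fin n, Z i.succ) → (Σ i, Z i) :=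
    Sum.elim (fun z => ⟨0, z⟩) (fun z => ⟨z.1.succ, z.2⟩)
  have hf : Continuous f := by
    refine Continuous.sumElim continuous_sigmaMk ?_
    exact continuous_sigma fun i => continuous_sigmaMk
  have hb : Function.Bijective f := by
    constructor
    · rintro (x | ⟨i, x⟩) (y | ⟨j, y⟩) h
      · have := (Sigma.mk.inj_iff.1 h).2
        rw [eq_of_heq this]
      · exact absurd (Sigma.mk.inj_iff.1 h).1.symm (Fin.succ_ne_zero j)
      · exact absurd (Sigma.mk.inj_iff.1 h).1 (Fin.succ_ne_zero i)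
      · obtain ⟨h1, h2⟩ := Sigma.mk.inj_iff.1 h
        have h3 : i = j := Fin.succ_injective _ h1
        subst h3
        have h4 : x = y := eq_of_heq h2
        rw [h4]
    · rintro ⟨i, z⟩
      refine Fin.cases (motive := fun i => ∀ z : Z i, ∃ a, f a = ⟨i, z⟩) ?_ ?_ i z
      · intro z; exact ⟨Sum.inl z, rfl⟩
      · intro i z; exact ⟨Sum.inr ⟨i, z⟩, rfl⟩
  exact ⟨hf.homeoOfEquivCompactToT2 (f := Equiv.ofBijective f hb)⟩

theorem sigma_flatten : ∀ (n : ℕ) (L : Fin n → List T),
    Nonempty ((Σ i, XL (L i)) ≃ₜ XL (List.ofFn L).flatten) := by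
  intro n
  induction n with
  | zero =>
    intro L
    have h2 : IsEmpty (XL (List.ofFn L).flatten) := by
      have : (List.ofFn L).flatten = [] := by simp
      rw [this]; exact XL_nil
    have h1 : IsEmpty (Σ i, XL (L i)) := ⟨fun x => x.1.elim0⟩
    exact ⟨{ toFun := fun x => h1.elim x
             invFun := fun x => h2.elim x
             left_inv := fun x => h1.elim x
             right_inv := fun x => h2.elim x
             continuous_toFun := continuous_iff_continuousAt.2 fun x => h1.elim x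
             continuous_invFun := continuous_iff_continuousAt.2 fun x => h2.elim x }⟩
  | succ n ih =>
    intro L
    obtain ⟨e1⟩ := ih (fun i => L i.succ)
    obtain ⟨e2⟩ := sum_homeo (n := n) (Z := fun i => XL (L i))
    obtain ⟨e3⟩ := XL_append (L 0) (List.ofFn fun i => L i.succ).flatten
    have e4 : XL (List.ofFn L).flatten ≃ₜ XL (L 0 ++ (List.ofFn fun i => L i.succ).flatten) := by
      have : (List.ofFn L).flatten = L 0 ++ (List.ofFn fun i => L i.succ).flatten := by
        rw [List.ofFn_succ, List.flatten_cons]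
      rw [this]
      exact Homeomorph.refl _
    exact ⟨e2.symm.trans (((Homeomorph.refl _).sumCongr e1).trans (e3.symm.trans e4.symm))⟩

/-- A set and its complement are path spaces of the two parts of an unfolding. -/
def SD {Z : Type} [TopologicalSpace Z] (A : Set Z) (α : Multiset T) : Prop :=
  ∃ l₁ l₂ : List T, Unf α ((l₁ : Multiset T) + (l₂ : Multiset T)) ∧
      Nonempty (↥A ≃ₜ XL l₁) ∧ Nonempty (↥Aᶜ ≃ₜ XL l₂)

theorem SD_preimage {Z Z' : Type} [TopologicalSpace Z] [TopologicalSpace Z'] (e : Z ≃ₜ Z')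
    {A : Set Z'} {α : Multiset T} (h : SD A α) : SD (e ⁻¹' A) α := by
  obtain ⟨l₁, l₂, h1, ⟨h2⟩, ⟨h3⟩⟩ := h
  have e1 : ↥(e ⁻¹' A) ≃ₜ ↥A := e.subtype (fun x => Iff.rfl)
  have e2 : ↥(e ⁻¹' A)ᶜ ≃ₜ ↥Aᶜ := e.subtype (fun x => Iff.rfl)
  exact ⟨l₁, l₂, h1, ⟨e1.trans h2⟩, ⟨e2.trans h3⟩⟩

theorem slice_homeo {n : ℕ} {Z : Fin n → Type} [∀ i, TopologicalSpace (Z i)]
    [∀ i, CompactSpace (Z i)] [∀ i, T2Space (Z i)] (A : Set (Σ i, Z i)) (hA : IsClopen A) :
    Nonempty ((Σ i, ↥{b : Z i | (⟨i, b⟩ : Σ i, Z i) ∈ A}) ≃ₜ ↥A) := by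
  have hc : ∀ i, CompactSpace ↥{b : Z i | (⟨i, b⟩ : Σ i, Z i) ∈ A} := by
    intro i
    rw [← isCompact_iff_compactSpace]
    exact (hA.isClosed.preimage continuous_sigmaMk).isCompact
  let f : (Σ i, ↥{b : Z i | (⟨i, b⟩ : Σ i, Z i) ∈ A}) → ↥A := fun x => ⟨⟨x.1, x.2.1⟩, x.2.2⟩
  have hf : Continuous f := by
    refine Continuous.subtype_mk ?_ _
    refine continuous_sigma fun i => ?_
    exact continuous_sigmaMk.comp continuous_subtype_val
  have hb : Function.Bijective f := by
    constructor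
    · rintro ⟨i, x⟩ ⟨j, y⟩ h
      have h' := congrArg Subtype.val h
      obtain ⟨h1, h2⟩ := Sigma.mk.inj_iff.1 h'
      subst h1
      have h3 : x = y := Subtype.ext (eq_of_heq h2)
      rw [h3]
    · rintro ⟨⟨i, b⟩, hb⟩
      exact ⟨⟨i, ⟨b, hb⟩⟩, rfl⟩
  exact ⟨hf.homeoOfEquivCompactToT2 (f := Equiv.ofBijective f hb)⟩

theorem sigma_congr {n : ℕ} {Z Z' : Fin n → Type} [∀ i, TopologicalSpace (Z i)]
    [∀ i, TopologicalSpace (Z' i)] (e : ∀ i, Z i ≃ₜ Z' i) :
    Nonempty ((Σ i, Z i) ≃ₜ (Σ i, Z' i)) := by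
  refine ⟨{ toFun := fun x => ⟨x.1, e x.1 x.2⟩
            invFun := fun x => ⟨x.1, (e x.1).symm x.2⟩
            left_inv := fun x => by simp
            right_inv := fun x => by simp
            continuous_toFun := ?_
            continuous_invFun := ?_ }⟩
  · exact continuous_sigma fun i => continuous_sigmaMk.comp (e i).continuous
  · exact continuous_sigma fun i => continuous_sigmaMk.comp (e i).symm.continuous

theorem SD_sigma {n : ℕ} (v : Fin n → T) (A : Set (Σ i, Pth (v i))) (hA : IsClopen A)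
    (h : ∀ i, SD {b : Pth (v i) | (⟨i, b⟩ : Σ i, Pth (v i)) ∈ A} {v i}) :
    SD A ((List.ofFn v : List T) : Multiset T) := by
  choose L₁ L₂ h1 h2 h3 using h
  refine ⟨(List.ofFn L₁).flatten, (List.ofFn L₂).flatten, Unf_ofFn n v L₁ L₂ h1, ?_, ?_⟩
  · obtain ⟨s1⟩ := slice_homeo A hA
    obtain ⟨s2⟩ := sigma_congr (fun i => (h2 i).some)
    obtain ⟨s3⟩ := sigma_flatten n L₁
    exact ⟨s1.symm.trans (s2.trans s3)⟩
  · obtain ⟨s1⟩ := slice_homeo Aᶜ hA.compl
    obtain ⟨s2⟩ := sigma_congr (fun i => (h3 i).some)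
    obtain ⟨s3⟩ := sigma_flatten n L₂
    exact ⟨s1.symm.trans (s2.trans s3)⟩

/-! ### The explicit unfolding of a path space -/

theorem cd_ty_shift (v : T) (a : ℕ → ℕ) (n : ℕ) :
    ty v a (n + 1) = ty ((ch v).getD (a 0) c) (fun k => a (k + 1)) n := by
  induction n with
  | zero => rfl
  | succ n ih =>
    show (ch (ty v a (n + 1))).getD (a (n + 1)) c = _
    rw [ih]; rfl

/-- Prepending a digit. -/
def consD (i : ℕ) (b : ℕ → ℕ) : ℕ → ℕ
  | 0 => i
  | n + 1 => b n

theorem consD_mem (v : T) (i : Fin (ch v).length) (b : Pth ((ch v).get i)) (n : ℕ) :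
    consD i b.1 n < (ch (ty v (consD i b.1) n)).length := by
  cases n with
  | zero => exact i.2
  | succ n =>
    rw [cd_ty_shift]
    have h1 : (ch v).getD (consD i b.1 0) c = (ch v).get i := by
      show (ch v).getD i c = _
      rw [List.getD_eq_getElem _ _ i.2]; rfl
    rw [h1]
    exact b.2 n

/-- The map from the unfolded space. -/
def consP (v : T) (x : Σ i : Fin (ch v).length, Pth ((ch v).get i)) : Pth v :=
  ⟨consD x.1 x.2.1, consD_mem v x.1 x.2⟩

theorem consP_cont (v : T) : Continuous (consP v) := by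
  refine Continuous.subtype_mk ?_ _
  refine continuous_sigma fun i => ?_
  refine continuous_pi fun n => ?_
  cases n with
  | zero => exact (continuous_const : Continuous fun _ : Pth ((ch v).get i) => (i : ℕ))
  | succ n =>
    exact ((continuous_apply n).comp continuous_subtype_val :
      Continuous fun b : Pth ((ch v).get i) => b.1 n)

theorem consP_bij (v : T) : Function.Bijective (consP v) := by
  constructor
  · rintro ⟨i, x⟩ ⟨j, y⟩ h
    have h' : consD i x.1 = consD j y.1 := congrArg Subtype.val h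
    have hij : i = j := Fin.ext (congrFun h' 0)
    subst hij
    have h2 : x = y := Subtype.ext (funext fun n => congrFun h' (n + 1))
    rw [h2]
  · intro a
    have h0 : a.1 0 < (ch v).length := a.2 0
    have hg : (ch v).getD (a.1 0) c = (ch v).get ⟨a.1 0, h0⟩ := by
      rw [List.getD_eq_getElem _ _ h0]; rfl
    refine ⟨⟨⟨a.1 0, h0⟩, ⟨fun n => a.1 (n + 1), fun n => ?_⟩⟩, ?_⟩
    · have := a.2 (n + 1)
      rw [cd_ty_shift, hg] at this
      exact this
    · apply Subtype.ext
      funext n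
      cases n <;> rfl

/-- The unfolding homeomorphism. -/
def consH (v : T) : (Σ i : Fin (ch v).length, Pth ((ch v).get i)) ≃ₜ Pth v :=
  (consP_cont v).homeoOfEquivCompactToT2 (f := Equiv.ofBijective _ (consP_bij v))

theorem consH_apply (v : T) (x) : consH v x = consP v x := rfl

theorem SD_univ (v : T) : SD (univ : Set (Pth v)) {v} := by
  obtain ⟨e⟩ := XL_singleton v
  refine ⟨[v], [], ?_, ⟨(Homeomorph.Set.univ (Pth v)).trans e.symm⟩, ?_⟩
  · simp [Unf, Relation.ReflTransGen.refl]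
  · have h1 : IsEmpty ↥((univ : Set (Pth v))ᶜ) := ⟨fun x => x.2 trivial⟩
    have h2 : IsEmpty (XL []) := XL_nil
    exact ⟨{ toFun := fun x => h1.elim x
             invFun := fun x => h2.elim x
             left_inv := fun x => h1.elim x
             right_inv := fun x => h2.elim x
             continuous_toFun := continuous_iff_continuousAt.2 fun x => h1.elim x
             continuous_invFun := continuous_iff_continuousAt.2 fun x => h2.elim x }⟩

theorem SD_compl {Z : Type} [TopologicalSpace Z] {A : Set Z} {α : Multiset T} (h : SD A α) :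
    SD Aᶜ α := by
  obtain ⟨l₁, l₂, h1, h2, h3⟩ := h
  refine ⟨l₂, l₁, ?_, h3, ?_⟩
  · rwa [add_comm]
  · rwa [compl_compl]

theorem SD_depth : ∀ (n : ℕ) (v : T) (A : Set (Pth v)), IsClopen A →
    (∀ a b : Pth v, (∀ k < n, a.1 k = b.1 k) → (a ∈ A ↔ b ∈ A)) → SD A {v} := by
  intro n
  induction n with
  | zero =>
    intro v A _ h
    rcases A.eq_empty_or_nonempty with hA | ⟨x, hx⟩
    · rw [hA, ← compl_univ]
      exact SD_compl (SD_univ v)
    · have : A = univ := by
        ext y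
        exact ⟨fun _ => trivial, fun _ => (h x y (fun k hk => absurd hk (by omega))).1 hx⟩
      rw [this]
      exact SD_univ v
  | succ n ih =>
    intro v A hA h
    have hA' : IsClopen (consH v ⁻¹' A) := hA.preimage (consH v).continuous
    have h1 : SD (consH v ⁻¹' A) ((List.ofFn (ch v).get : List T) : Multiset T) := by
      refine SD_sigma (ch v).get _ hA' fun i => ?_
      refine ih _ _ (hA'.preimage continuous_sigmaMk) ?_
      intro a b hab
      refine h _ _ ?_
      intro k hk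
      cases k with
      | zero => rfl
      | succ k => exact hab k (by omega)
    rw [List.ofFn_get] at h1
    have h2 := SD_preimage (consH v).symm h1
    have h3 : (consH v).symm ⁻¹' (consH v ⁻¹' A) = A := by
      ext x; simp
    rw [h3] at h2
    obtain ⟨l₁, l₂, g1, g2, g3⟩ := h2
    refine ⟨l₁, l₂, Relation.ReflTransGen.head ?_ g1, g2, g3⟩
    exact ⟨v, 0, rfl, (add_zero _).symm⟩

theorem depth_of_clopen (v : T) (A : Set (Pth v)) (hA : IsClopen A) :
    ∃ n, ∀ a b : Pth v, (∀ k < n, a.1 k = b.1 k) → (a ∈ A ↔ b ∈ A) := by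
  have hloc : ∀ a : Pth v, ∃ n, ∀ b : Pth v, (∀ k < n, a.1 k = b.1 k) → (a ∈ A ↔ b ∈ A) := by
    have key : ∀ (B : Set (Pth v)), IsOpen B → ∀ a ∈ B, ∃ n, ∀ b : Pth v,
        (∀ k < n, a.1 k = b.1 k) → b ∈ B := by
      intro B hB a ha
      obtain ⟨O, hO, hOB⟩ := isOpen_induced_iff.1 hB
      rw [isOpen_pi_iff] at hO
      subst hOB
      have haO : a.1 ∈ O := ha
      obtain ⟨I, u, hu, hI⟩ := hO a.1 haO
      refine ⟨I.sup id + 1, fun b hb => ?_⟩
      show b.1 ∈ O
      apply hI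
      intro i hi
      have h1 : i ≤ I.sup id := Finset.le_sup (f := id) hi
      rw [← hb i (by omega)]
      exact (hu i hi).2
    intro a
    by_cases ha : a ∈ A
    · obtain ⟨n, hn⟩ := key A hA.isOpen a ha
      exact ⟨n, fun b hb => ⟨fun _ => hn b hb, fun _ => ha⟩⟩
    · obtain ⟨n, hn⟩ := key Aᶜ hA.compl.isOpen a ha
      exact ⟨n, fun b hb => ⟨fun h => absurd h ha, fun h => absurd h (hn b hb)⟩⟩
  choose N hN using hloc
  have hcyl : ∀ a : Pth v, {b : Pth v | ∀ k < N a, a.1 k = b.1 k} ∈ 𝓝 a := by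
    intro a
    refine IsOpen.mem_nhds ?_ (fun k _ => rfl)
    have : {b : Pth v | ∀ k < N a, a.1 k = b.1 k} =
        ⋂ k ∈ Finset.range (N a), {b : Pth v | a.1 k = b.1 k} := by
      ext b; simp
    rw [this]
    refine isOpen_biInter_finset fun k _ => ?_
    have hc : Continuous fun b : Pth v => b.1 k := (continuous_apply k).comp continuous_subtype_val
    exact (isOpen_discrete {x : ℕ | a.1 k = x}).preimage hc
  obtain ⟨s, hs⟩ := CompactSpace.elim_nhds_subcover _ hcyl
  refine ⟨s.sup N, fun a b hab => ?_⟩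
  have ha : a ∈ ⋃ x ∈ s, {b : Pth v | ∀ k < N x, x.1 k = b.1 k} := by rw [hs]; trivial
  simp only [mem_iUnion, exists_prop] at ha
  obtain ⟨x, hxs, hx⟩ := ha
  have hle : N x ≤ s.sup N := Finset.le_sup hxs
  have h1 := hN x a hx
  have h2 := hN x b (fun k hk => (hx k hk).trans (hab k (lt_of_lt_of_le hk hle)))
  exact h1.symm.trans h2

end J3

open J3

/-- A clopen subset of a path space and its complement are path spaces of the two parts of an
unfolding. -/
theorem clopen_dec (l : List T) (A : Set (XL l)) (hA : IsClopen A) :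
    ∃ l₁ l₂ : List T, Unf (l : Multiset T) ((l₁ : Multiset T) + (l₂ : Multiset T)) ∧
      Nonempty (↥A ≃ₜ XL l₁) ∧ Nonempty (↥Aᶜ ≃ₜ XL l₂) := by
  have h : SD (Z := Σ i : Fin l.length, Pth (l.get i)) A
      ((List.ofFn l.get : List T) : Multiset T) := by
    refine SD_sigma l.get A hA fun i => ?_
    have hc : IsClopen {b : Pth (l.get i) | (⟨i, b⟩ : Σ i : Fin l.length, Pth (l.get i)) ∈ A} :=
      IsClopen.preimage (s := (A : Set (Σ i : Fin l.length, Pth (l.get i)))) hA
        continuous_sigmaMk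
    obtain ⟨n, hn⟩ := depth_of_clopen _ _ hc
    exact SD_depth n _ _ hc hn
  rw [List.ofFn_get] at h
  exact h

/-- Splitting of decomposed sets. -/
theorem Dec_split {X : Type*} [TopologicalSpace X] {P Q : Set X} (hP : IsClosed P)
    (hQ : IsClosed Q) (hd : Disjoint P Q) {α : Multiset T} (h : Dec ↥(P ∪ Q) α) :
    ∃ β γ, Unf α (β + γ) ∧ Dec ↥P β ∧ Dec ↥Q γ := by
  obtain ⟨l, rfl, ⟨e⟩⟩ := h
  let P' : Set ↥(P ∪ Q) := {x | x.1 ∈ P}
  have hP' : IsClosed P' := hP.preimage continuous_subtype_val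
  have hQ' : P'ᶜ = {x | x.1 ∈ Q} := by
    ext x
    simp only [P', mem_compl_iff, mem_ofPred_eq]
    constructor
    · intro hx; exact x.2.resolve_left hx
    · intro hx hx'; exact Set.disjoint_left.1 hd hx' hx
  have hQ'' : IsClosed P'ᶜ := by rw [hQ']; exact hQ.preimage continuous_subtype_val
  have hcl : IsClopen P' := ⟨hP', isClosed_compl_iff.1 hQ''⟩
  have hcl' : IsClopen (e.symm ⁻¹' P') := hcl.preimage e.symm.continuous
  obtain ⟨l₁, l₂, h1, ⟨h2⟩, ⟨h3⟩⟩ := clopen_dec l (e.symm ⁻¹' P') hcl'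
  have e1 : ↥(e.symm ⁻¹' P') ≃ₜ ↥P' := e.symm.subtype (fun x => Iff.rfl)
  have e2 : ↥(e.symm ⁻¹' P')ᶜ ≃ₜ ↥P'ᶜ := e.symm.subtype (fun x => Iff.rfl)
  have e3 : ↥P' ≃ₜ ↥P :=
    { toFun := fun x => ⟨x.1.1, x.2⟩
      invFun := fun y => ⟨⟨y.1, Or.inl y.2⟩, y.2⟩
      left_inv := fun x => rfl
      right_inv := fun x => rfl
      continuous_toFun :=
        (continuous_subtype_val.comp continuous_subtype_val).subtype_mk _
      continuous_invFun := (continuous_subtype_val.subtype_mk _).subtype_mk _ }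
  have e4 : ↥P'ᶜ ≃ₜ ↥Q :=
    { toFun := fun x => ⟨x.1.1, (Set.ext_iff.1 hQ' x.1).1 x.2⟩
      invFun := fun y => ⟨⟨y.1, Or.inr y.2⟩, (Set.ext_iff.1 hQ' ⟨y.1, Or.inr y.2⟩).2 y.2⟩
      left_inv := fun x => rfl
      right_inv := fun x => rfl
      continuous_toFun :=
        (continuous_subtype_val.comp continuous_subtype_val).subtype_mk _
      continuous_invFun := by
        refine Continuous.subtype_mk ?_ _
        exact Continuous.subtype_mk continuous_subtype_val _ }
  exact ⟨l₁, l₂, h1, ⟨l₁, rfl, ⟨e3.symm.trans (e1.symm.trans h2)⟩⟩,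
    ⟨l₂, rfl, ⟨e4.symm.trans (e2.symm.trans h3)⟩⟩⟩

/-- Conversely a decomposition of the type is realised by a splitting of the space. -/
theorem Dec_realise {X : Type*} [TopologicalSpace X] {P : Set X} {α β γ : Multiset T}
    (hP : IsClosed P) (h : Dec ↥P α) (hu : Unf α (β + γ)) :
    ∃ Q R : Set X, IsClosed Q ∧ IsClosed R ∧ Disjoint Q R ∧ Q ∪ R = P ∧ Dec ↥Q β ∧ Dec ↥R γ := by
  obtain ⟨l, rfl, ⟨e⟩⟩ := h
  obtain ⟨lb, rfl⟩ := Quot.exists_rep β
  obtain ⟨lg, rfl⟩ := Quot.exists_rep γ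
  have hu' : Unf (l : Multiset T) ((lb ++ lg : List T) : Multiset T) := by
    rw [← Multiset.coe_add]; exact hu
  obtain ⟨e1⟩ := XL_unf hu'
  obtain ⟨e2⟩ := XL_append lb lg
  let g : ↥P ≃ₜ XL lb ⊕ XL lg := e.trans (e1.trans e2)
  let fb : XL lb → X := fun x => (g.symm (Sum.inl x)).1
  let fg : XL lg → X := fun x => (g.symm (Sum.inr x)).1
  have hb : IsClosedEmbedding fb :=
    hP.isClosedEmbedding_subtypeVal.comp (g.symm.isClosedEmbedding.comp IsClosedEmbedding.inl)
  have hg : IsClosedEmbedding fg :=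
    hP.isClosedEmbedding_subtypeVal.comp (g.symm.isClosedEmbedding.comp IsClosedEmbedding.inr)
  refine ⟨range fb, range fg, hb.isClosed_range, hg.isClosed_range, ?_, ?_, ?_, ?_⟩
  · rw [Set.disjoint_left]
    rintro _ ⟨x, rfl⟩ ⟨y, hy⟩
    have h1 : g.symm (Sum.inr y) = g.symm (Sum.inl x) := Subtype.ext hy
    have h2 := g.symm.injective h1
    exact Sum.inr_ne_inl h2
  · ext x
    constructor
    · rintro (⟨y, rfl⟩ | ⟨y, rfl⟩)
      · exact (g.symm (Sum.inl y)).2
      · exact (g.symm (Sum.inr y)).2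
    · intro hx
      rcases hgx : g ⟨x, hx⟩ with y | y
      · left
        refine ⟨y, ?_⟩
        show (g.symm (Sum.inl y)).1 = x
        rw [← hgx, Homeomorph.symm_apply_apply]
      · right
        refine ⟨y, ?_⟩
        show (g.symm (Sum.inr y)).1 = x
        rw [← hgx, Homeomorph.symm_apply_apply]
  · exact ⟨lb, rfl, ⟨hb.isEmbedding.toHomeomorph.symm⟩⟩
  · exact ⟨lg, rfl, ⟨hg.isEmbedding.toHomeomorph.symm⟩⟩

end Ends72
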