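import Mathlib

/-!
# Types, typed trees and their path spaces
-/

open Set Topology

noncomputable section

namespace Ends72

/-- The types of vertices. -/
inductive T
  | w (i : ℕ) | c | p (j : ℕ) | u (k : ℕ) | r (k : ℕ) | s (k : ℕ) | t
  deriving DecidableEq

namespace T

/-- The children of a vertex. -/
def ch : T → List T
  | w 0 => [w 0]
  | w (i + 1) => [w (i + 1), w i]
  | c => [c, c]
  | p j => [p j, c, w j]
  | u k => [u (k + 1), p k]
  | r k => [r (k + 1), r (k + 1), r (k + 1), r (k + 1), p k]
  | s k => [s (k + 1), s (k + 1), r k, r k, u k]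
  | t => [t, t, r 0]

end T

open T

/-- The type reached after `n` steps from a vertex of type `v` with the choices `a`. -/
def ty (v : T) (a : ℕ → ℕ) : ℕ → T
  | 0 => v
  | n + 1 => (ch (ty v a n)).getD (a n) c

/-- The space of infinite paths from a vertex of type `v`. -/
def Pth (v : T) : Type := {a : ℕ → ℕ // ∀ n, a n < (ch (ty v a n)).length}

instance (v : T) : TopologicalSpace (Pth v) := instTopologicalSpaceSubtype

/-- The disjoint union of the path spaces of the types in the list `l`. -/
def XL (l : List T) : Type := Σ i : Fin l.length, Pth (l.get i)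

instance (l : List T) : TopologicalSpace (XL l) :=
  inferInstanceAs (TopologicalSpace (Σ i : Fin l.length, Pth (l.get i)))

/-- One step of unfolding: a type is replaced by its children. -/
def Stp (α β : Multiset T) : Prop := ∃ x γ, α = x ::ₘ γ ∧ β = (ch x : Multiset T) + γ

/-- Unfolding. -/
def Unf : Multiset T → Multiset T → Prop := Relation.ReflTransGen Stp

/-- The block. -/
def blk : List T := [s 0, t, u 0, u 0]

/-- The value of a type: `u` counts `1`, `s` counts `-1`. -/
def val : T → ℤ
  | u _ => 1
  | s _ => -1
  | _ => 0

/-- The combinatorial index. -/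
def iota (α : Multiset T) : ℤ := (α.map val).sum

/-- The number of marked points of level `j` in the path space of a type other than `t`
(for `t` this is a junk value). -/
def cnt (j : ℕ) : T → ℕ
  | w _ => 0
  | c => 0
  | p i => if i = j then 1 else 0
  | u k => if k ≤ j then 1 else 0
  | r k => if k ≤ j then 4 ^ (j - k) else 0
  | s k => if k ≤ j then 4 ^ (j - k + 1) - 1 else 0
  | t => 0

/-- `n_j` of a multiset. -/
def cntM (j : ℕ) (α : Multiset T) : ℕ := (α.map (cnt j)).sum

def isS : T → Prop
  | s _ => True
  | _ => False

def isU : T → Prop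
  | u _ => True
  | _ => False

instance : DecidablePred isS := fun x => by cases x <;> simp only [isS] <;> infer_instance
instance : DecidablePred isU := fun x => by cases x <;> simp only [isU] <;> infer_instance

/-- the multiset contains a type `s k`. -/
def hasS (α : Multiset T) : Prop := ∃ x ∈ α, isS x

/-- the number of types `u k`. -/
def numU (α : Multiset T) : ℕ := α.countP isU

/-- The equivalence of multisets of types. -/
def Rel (α β : Multiset T) : Prop :=
  (hasS α ↔ hasS β) ∧ (t ∈ α ↔ t ∈ β) ∧
  (¬ hasS α → t ∉ α → ∃ γ, Unf α γ ∧ Unf β γ) ∧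
  (hasS α → t ∉ α → ∀ j, cntM j α = cntM j β) ∧
  (¬ hasS α → t ∈ α → numU α = numU β) ∧
  (hasS α → t ∈ α → iota α = iota β)

/-- `Z` is homeomorphic to the path space of the multiset `α`. -/
def Dec (Z : Type*) [TopologicalSpace Z] (α : Multiset T) : Prop :=
  ∃ l : List T, (l : Multiset T) = α ∧ Nonempty (Z ≃ₜ XL l)

/-- `Z` is homeomorphic to a path space containing types `s k` and `t`. -/
def ST (Z : Type*) [TopologicalSpace Z] : Prop :=
  ∃ α, Dec Z α ∧ hasS α ∧ t ∈ α

end Ends72
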