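import Mathlib

/-! TASK I0: covering compact subsets of the line by disjoint intervals. -/

open Set Metric Topology Filter

noncomputable section

namespace Ends72

theorem cover_merge {O : Set ℝ} (ε : ℝ → ℝ) (t : Finset ℝ)
    (hε : ∀ x ∈ t, 0 < ε x ∧ Icc (x - ε x) (x + ε x) ⊆ O) :
    ∃ S : Set (Set ℝ), S.Finite ∧ (∀ I ∈ S, ∀ J ∈ S, I ≠ J → Disjoint I J) ∧
      (∀ I ∈ S, I ⊆ O ∧ ∃ a b : ℝ, a < b ∧ I = Icc a b) ∧
      ∀ x ∈ t, ∃ I ∈ S, Icc (x - ε x) (x + ε x) ⊆ I := by
  classical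
  induction t using Finset.induction_on with
  | empty => exact ⟨∅, finite_empty, by simp, by simp, by simp⟩
  | insert x t _ ih =>
    obtain ⟨S, hfin, hdis, hI, hcov⟩ := ih (fun y hy => hε y (Finset.mem_insert_of_mem hy))
    obtain ⟨hx0, hxO⟩ := hε x (Finset.mem_insert_self x t)
    set J : Set ℝ := Icc (x - ε x) (x + ε x) with hJ
    have hxJ : x ∈ J := ⟨by linarith, by linarith⟩
    have hJconn : IsPreconnected J := isPreconnected_Icc
    set S1 : Set (Set ℝ) := {I | I ∈ S ∧ (J ∩ I).Nonempty} with hS1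
    have hS1fin : S1.Finite := hfin.subset (fun I hI => hI.1)
    set M : Set ℝ := J ∪ ⋃₀ S1 with hM
    have hMcomp : IsCompact M := by
      refine isCompact_Icc.union ?_
      refine hS1fin.isCompact_sUnion ?_
      intro I hI1
      obtain ⟨_, a, b, _, rfl⟩ := hI I hI1.1
      exact isCompact_Icc
    have hMconn : IsPreconnected M := by
      have h1 : M = ⋃₀ (insert J ((fun I => J ∪ I) '' S1)) := by
        ext y
        simp only [hM, mem_union, mem_sUnion, sUnion_insert, mem_image]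
        constructor
        · rintro (h | ⟨I, h2, h3⟩)
          · exact Or.inl h
          · exact Or.inr ⟨J ∪ I, ⟨I, h2, rfl⟩, Or.inr h3⟩
        · rintro (h | ⟨_, ⟨I, h2, rfl⟩, h3⟩)
          · exact Or.inl h
          · rcases h3 with h3 | h3
            · exact Or.inl h3
            · exact Or.inr ⟨I, h2, h3⟩
      rw [h1]
      refine isPreconnected_sUnion x _ ?_ ?_
      · rintro s (rfl | ⟨I, _, rfl⟩)
        · exact hxJ
        · exact Or.inl hxJ
      · rintro s (rfl | ⟨I, h2, rfl⟩)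
        · exact hJconn
        · obtain ⟨_, a, b, _, hab⟩ := hI I h2.1
          obtain ⟨z, hz1, hz2⟩ := h2.2
          refine IsPreconnected.union z hz1 hz2 hJconn ?_
          rw [hab]
          exact isPreconnected_Icc
    have hMeq : M = Icc (sInf M) (sSup M) :=
      eq_Icc_of_connected_compact ⟨⟨x, Or.inl hxJ⟩, hMconn⟩ hMcomp
    have hlt : sInf M < sSup M := by
      have h1 : x - ε x ∈ M := Or.inl ⟨le_refl _, by linarith⟩
      have h2 : x + ε x ∈ M := Or.inl ⟨by linarith, le_refl _⟩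
      rw [hMeq] at h1 h2
      have := h1.1
      have := h2.2
      linarith
    have hMO : M ⊆ O := by
      refine union_subset hxO (sUnion_subset ?_)
      intro I hI1
      exact (hI I hI1.1).1
    have hMdis : ∀ I ∈ S, I ∉ S1 → Disjoint M I := by
      intro I hIS hI1
      refine Disjoint.union_left ?_ ?_
      · rw [Set.disjoint_iff_inter_eq_empty]
        by_contra h
        exact hI1 ⟨hIS, nonempty_iff_ne_empty.2 h⟩
      · rw [disjoint_sUnion_left]
        intro I' hI'
        refine hdis I' hI'.1 I hIS ?_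
        rintro rfl
        exact hI1 hI'
    refine ⟨insert M {I | I ∈ S ∧ I ∉ S1}, (hfin.subset (fun I hI => hI.1)).insert _, ?_, ?_, ?_⟩
    · rintro I (rfl | ⟨h1, h2⟩) I' (rfl | ⟨h1', h2'⟩) hne
      · exact absurd rfl hne
      · exact hMdis I' h1' h2'
      · exact (hMdis I h1 h2).symm
      · exact hdis I h1 I' h1' hne
    · rintro I (rfl | ⟨h1, _⟩)
      · exact ⟨hMO, sInf M, sSup M, hlt, hMeq⟩
      · exact hI I h1
    · intro y hy
      rw [Finset.mem_insert] at hy
      rcases hy with rfl | hy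
      · exact ⟨M, Or.inl rfl, subset_union_left⟩
      · obtain ⟨I, hIS, hyI⟩ := hcov y hy
        by_cases h : I ∈ S1
        · exact ⟨M, Or.inl rfl, hyI.trans ((subset_sUnion_of_mem h).trans subset_union_right)⟩
        · exact ⟨I, Or.inr ⟨hIS, h⟩, hyI⟩

/-- A compact subset `F` of an open `O ⊆ ℝ` is covered by finitely many disjoint nondegenerate
compact intervals contained in `O`. -/
theorem cover_intervals {O F : Set ℝ} (hO : IsOpen O) (hF : IsCompact F) (hFO : F ⊆ O) :
    ∃ (n : ℕ) (a b : Fin n → ℝ), (∀ i, a i < b i) ∧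
      (∀ i j, i ≠ j → Disjoint (Icc (a i) (b i)) (Icc (a j) (b j))) ∧
      (∀ i, Icc (a i) (b i) ⊆ O) ∧ F ⊆ ⋃ i, Icc (a i) (b i) := by
  classical
  have h1 : ∀ x : ℝ, ∃ ε : ℝ, x ∈ F → 0 < ε ∧ Icc (x - ε) (x + ε) ⊆ O := by
    intro x
    by_cases hx : x ∈ F
    · obtain ⟨ε, hε, h⟩ := Metric.nhds_basis_closedBall.mem_iff.1 (hO.mem_nhds (hFO hx))
      exact ⟨ε, fun _ => ⟨hε, by rwa [Real.closedBall_eq_Icc] at h⟩⟩
    · exact ⟨0, fun h => absurd h hx⟩
  choose ε hε using h1
  obtain ⟨t, htF, ht⟩ := hF.elim_nhds_subcover (fun x => Icc (x - ε x) (x + ε x))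
    (fun x hx => Icc_mem_nhds (by linarith [(hε x hx).1]) (by linarith [(hε x hx).1]))
  obtain ⟨S, hfin, hdis, hI, hcov⟩ := cover_merge (O := O) ε t (fun x hx => hε x (htF x hx))
  have hfin' : Finite S := hfin
  obtain ⟨n, ⟨e⟩⟩ := Finite.exists_equiv_fin S
  choose a b hab hIeq using fun i : Fin n => (hI _ (e.symm i).2).2
  refine ⟨n, a, b, hab, ?_, ?_, ?_⟩
  · intro i j hij
    rw [← hIeq, ← hIeq]
    refine hdis _ (e.symm i).2 _ (e.symm j).2 ?_
    intro h
    exact hij (e.symm.injective (Subtype.ext h))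
  · intro i
    rw [← hIeq]
    exact (hI _ (e.symm i).2).1
  · intro x hx
    obtain ⟨y, hy, hxy⟩ := mem_iUnion₂.1 (ht hx)
    obtain ⟨I, hIS, hyI⟩ := hcov y hy
    refine mem_iUnion.2 ⟨e ⟨I, hIS⟩, ?_⟩
    rw [← hIeq, e.symm_apply_apply]
    exact hyI hxy

/-- The same for two disjoint compact sets: each interval is labelled by the set it may meet. -/
theorem cover_two {O F₁ F₂ : Set ℝ} (hO : IsOpen O) (hF₁ : IsCompact F₁) (hF₂ : IsCompact F₂)
    (hd : Disjoint F₁ F₂) (h1 : F₁ ⊆ O) (h2 : F₂ ⊆ O) :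
    ∃ (n : ℕ) (a b : Fin n → ℝ) (lab : Fin n → Bool), (∀ i, a i < b i) ∧
      (∀ i j, i ≠ j → Disjoint (Icc (a i) (b i)) (Icc (a j) (b j))) ∧
      (∀ i, Icc (a i) (b i) ⊆ O) ∧
      (∀ x ∈ F₁, ∃ i, lab i = true ∧ x ∈ Icc (a i) (b i)) ∧
      (∀ x ∈ F₂, ∃ i, lab i = false ∧ x ∈ Icc (a i) (b i)) := by
  obtain ⟨U, V, hU, hV, hU1, hV2, hUV⟩ := SeparatedNhds.of_isCompact_isCompact hF₁ hF₂ hd
  obtain ⟨n, a, b, hab, hdis, hsub, hcov⟩ := cover_intervals (hO.inter hU) hF₁
    (subset_inter h1 hU1)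
  obtain ⟨n', a', b', hab', hdis', hsub', hcov'⟩ := cover_intervals (hO.inter hV) hF₂
    (subset_inter h2 hV2)
  have hx : ∀ i j, Disjoint (Icc (a i) (b i)) (Icc (a' j) (b' j)) := fun i j =>
    hUV.mono ((hsub i).trans inter_subset_right) ((hsub' j).trans inter_subset_right)
  let e : Fin (n + n') ≃ Fin n ⊕ Fin n' := finSumFinEquiv.symm
  refine ⟨n + n', fun i => Sum.elim a a' (e i), fun i => Sum.elim b b' (e i),
    fun i => Sum.elim (fun _ => true) (fun _ => false) (e i), ?_, ?_, ?_, ?_, ?_⟩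
  · intro i
    rcases h : e i with j | j
    · simpa [h] using hab j
    · simpa [h] using hab' j
  · intro i i' hne
    have hne' : e i ≠ e i' := fun h => hne (e.injective h)
    rcases h : e i with j | j <;> rcases h' : e i' with j' | j'
    · simp only [Sum.elim_inl, h, h']
      refine hdis j j' ?_
      rintro rfl
      exact hne' (h.trans h'.symm)
    · simpa only [Sum.elim_inl, Sum.elim_inr, h, h'] using hx j j'
    · simpa only [Sum.elim_inl, Sum.elim_inr, h, h'] using (hx j' j).symm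
    · simp only [Sum.elim_inr, h, h']
      refine hdis' j j' ?_
      rintro rfl
      exact hne' (h.trans h'.symm)
  · intro i
    rcases h : e i with j | j
    · simpa only [Sum.elim_inl, h] using (hsub j).trans inter_subset_left
    · simpa only [Sum.elim_inr, h] using (hsub' j).trans inter_subset_left
  · intro x hxF
    obtain ⟨i, hi⟩ := mem_iUnion.1 (hcov hxF)
    exact ⟨e.symm (Sum.inl i), by simp, by simpa using hi⟩
  · intro x hxF
    obtain ⟨i, hi⟩ := mem_iUnion.1 (hcov' hxF)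
    exact ⟨e.symm (Sum.inr i), by simp, by simpa using hi⟩

end Ends72
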