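import Mathlib

/-!
# Mapping class groups of open subsets of the plane: definitions

`U : Set ℂ` is (for the application) an open connected subset of the plane, hence a surface.
-/

open Set Metric Topology
open scoped unitInterval Pointwise

noncomputable section

namespace Ends72

/-- `f` preserves the orientation at `x` (local degree `+1`): on a punctured neighbourhood of `x`
the quotient `(f y - f x) / (y - x)` has a continuous logarithm. -/
def OPAt {U : Set ℂ} (f : U ≃ₜ U) (x : U) : Prop :=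
  ∃ V ∈ 𝓝 x, ∃ L : U → ℂ, ContinuousOn L (V \ {x}) ∧
    ∀ y ∈ V \ {x}, (f y : ℂ) - (f x : ℂ) = ((y : ℂ) - (x : ℂ)) * Complex.exp (L y)

/-- The group `Homeo⁺(U)` of orientation preserving self-homeomorphisms of `U`. -/
def HomeoPlus (U : Set ℂ) : Subgroup (U ≃ₜ U) where
  carrier := {f | ∀ x, OPAt f x}
  one_mem' := by
    intro x
    refine ⟨univ, Filter.univ_mem, fun _ => 0, continuousOn_const, ?_⟩
    intro y _
    simp
  mul_mem' := by
    intro f g hf hg x
    obtain ⟨V, hV, L, hL, hLe⟩ := hg x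
    obtain ⟨V', hV', L', hL', hLe'⟩ := hf (g x)
    refine ⟨V ∩ g ⁻¹' V', Filter.inter_mem hV (g.continuous.continuousAt.preimage_mem_nhds hV'),
      fun y => L' (g y) + L y, ?_, ?_⟩
    · refine ContinuousOn.add ?_ (hL.mono ?_)
      · refine hL'.comp g.continuous.continuousOn ?_
        intro y hy
        refine ⟨hy.1.2, ?_⟩
        intro h
        exact hy.2 (g.injective h)
      · intro y hy
        exact ⟨hy.1.1, hy.2⟩
    · intro y hy
      have h1 := hLe y ⟨hy.1.1, hy.2⟩
      have h2 := hLe' (g y) ⟨hy.1.2, fun h => hy.2 (g.injective h)⟩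
      change (f (g y) : ℂ) - (f (g x) : ℂ) = _
      rw [h2, h1, Complex.exp_add]
      ring
  inv_mem' := by
    intro f hf x
    obtain ⟨V, hV, L, hL, hLe⟩ := hf (f.symm x)
    refine ⟨f.symm ⁻¹' V, f.symm.continuous.continuousAt.preimage_mem_nhds hV,
      fun y => - L (f.symm y), ?_, ?_⟩
    · refine ContinuousOn.neg (hL.comp f.symm.continuous.continuousOn ?_)
      intro y hy
      exact ⟨hy.1, fun h => hy.2 (f.symm.injective h)⟩
    · intro y hy
      have h1 := hLe (f.symm y) ⟨hy.1, fun h => hy.2 (f.symm.injective h)⟩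
      change (f.symm y : ℂ) - (f.symm x : ℂ) = _
      rw [f.apply_symm_apply, f.apply_symm_apply] at h1
      rw [h1, mul_assoc, ← Complex.exp_add]
      simp

/-- The compact-open topology on `Homeo⁺(U)`. -/
instance (U : Set ℂ) : TopologicalSpace (HomeoPlus U) :=
  TopologicalSpace.induced (fun f => (⟨f.1, f.1.continuous⟩ : C(U, U))) inferInstance

/-- `Homeo₀(U)`: the elements of `Homeo⁺(U)` isotopic to the identity, i.e. the end maps of
homeomorphisms `Φ` of `[0,1] × U` over `[0,1]` starting at the identity. -/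
def Homeo0 (U : Set ℂ) : Subgroup (HomeoPlus U) where
  carrier := {f | ∃ Φ : (I × U) ≃ₜ (I × U), (∀ p, (Φ p).1 = p.1) ∧
    (∀ x, (Φ (0, x)).2 = x) ∧ ∀ x, (Φ (1, x)).2 = f.1 x}
  one_mem' := ⟨Homeomorph.refl _, fun _ => rfl, fun _ => rfl, fun _ => rfl⟩
  mul_mem' := by
    rintro f g ⟨Φ, h1, h2, h3⟩ ⟨Ψ, k1, k2, k3⟩
    have e : ∀ t x, Ψ (t, x) = (t, (Ψ (t, x)).2) := fun t x => Prod.ext (k1 _) rfl
    refine ⟨Ψ.trans Φ, fun p => ?_, fun x => ?_, fun x => ?_⟩
    · change (Φ (Ψ p)).1 = _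
      rw [h1, k1]
    · change (Φ (Ψ (0, x))).2 = _
      rw [e, k2, h2]
    · change (Φ (Ψ (1, x))).2 = _
      rw [e, k3, h3]
      rfl
  inv_mem' := by
    rintro f ⟨Φ, h1, h2, h3⟩
    have k1 : ∀ p, (Φ.symm p).1 = p.1 := by
      intro p
      have := h1 (Φ.symm p)
      rw [Φ.apply_symm_apply] at this
      exact this.symm
    refine ⟨Φ.symm, k1, fun x => ?_, fun x => ?_⟩
    · have : Φ (0, x) = (0, x) := Prod.ext (h1 _) (h2 _)
      rw [← this, Φ.symm_apply_apply]
    · have : Φ (1, f.1.symm x) = (1, x) := by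
        refine Prod.ext (h1 _) ?_
        rw [h3, f.1.apply_symm_apply]
      rw [← this, Φ.symm_apply_apply]
      rfl

instance (U : Set ℂ) : (Homeo0 U).Normal where
  conj_mem := by
    rintro f ⟨Φ, h1, h2, h3⟩ g
    let G : (I × U) ≃ₜ (I × U) := (Homeomorph.refl I).prodCongr g.1
    have e : ∀ t x, Φ (t, x) = (t, (Φ (t, x)).2) := fun t x => Prod.ext (h1 _) rfl
    refine ⟨(G.symm.trans Φ).trans G, fun p => ?_, fun x => ?_, fun x => ?_⟩
    · change (Φ (G.symm p)).1 = _
      rw [h1]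
      rfl
    · change g.1 (Φ (0, g.1.symm x)).2 = _
      rw [h2]
      exact g.1.apply_symm_apply x
    · change g.1 (Φ (1, g.1.symm x)).2 = _
      rw [h3]
      rfl

/-- The mapping class group `Map(U) = Homeo⁺(U) / Homeo₀(U)`, with the quotient of the
compact-open topology. -/
abbrev MCG (U : Set ℂ) : Type := HomeoPlus U ⧸ Homeo0 U

section Coarse

variable {G : Type*} [Group G]

/-- `A` is coarsely bounded: every continuous left-invariant pseudometric on `G` gives `A`
finite diameter. -/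
def CoarselyBounded [TopologicalSpace G] (A : Set G) : Prop :=
  ∀ d : G → G → ℝ, (∀ x, d x x = 0) → (∀ x y, d x y = d y x) →
    (∀ x y z, d x z ≤ d x y + d y z) → (∀ g x y, d (g * x) (g * y) = d x y) →
    (Continuous fun p : G × G => d p.1 p.2) → ∃ C : ℝ, ∀ x ∈ A, ∀ y ∈ A, d x y ≤ C

/-- The Cayley graph of `G` with respect to `A`: `g` is joined to `g * a`, `a ∈ A`. -/
def Cay (A : Set G) : SimpleGraph G where
  Adj g h := g ≠ h ∧ (g⁻¹ * h ∈ A ∨ h⁻¹ * g ∈ A)
  symm := ⟨fun _ _ h => ⟨h.1.symm, h.2.symm⟩⟩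
  loopless := ⟨fun _ h => h.1 rfl⟩

/-- `B` is a bounded set of vertices of the Cayley graph. -/
def Bdd (A B : Set G) : Prop :=
  ∃ n : ℕ, ∀ g ∈ B, ∀ h ∈ B, ∃ p : (Cay A).Walk g h, p.length ≤ n

/-- The number of ends of `Cay(G, A)`: the supremum, over bounded sets `B`, of the number of
unbounded connected components of `Cay(G, A) \ B`. -/
def numEnds (A : Set G) : ℕ∞ :=
  ⨆ (B : Set G) (_ : Bdd A B),
    {C : ((Cay A).induce Bᶜ).ConnectedComponent | ¬ Bdd A (Subtype.val '' C.supp)}.encard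

/-- `Cay(G, A)` is quasi-isometric to `ℤ`: there is a coarsely surjective map `q : G → ℤ` which
distorts distances at most linearly in both directions. -/
def QIToInt (A : Set G) : Prop :=
  ∃ (q : G → ℤ) (C : ℕ), (∀ n : ℤ, ∃ g, |q g - n| ≤ C) ∧
    ∀ g h, (∀ p : (Cay A).Walk g h, |q h - q g| ≤ C * p.length + C) ∧
      ∃ p : (Cay A).Walk g h, (p.length : ℤ) ≤ C * |q h - q g| + C

end Coarse

end Ends72
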