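import Pool.Agent.LibEnds72.PathSpace
import Pool.Agent.LibEnds72.Plane

/-! TASK K: the set `E`. -/

open Set Topology

noncomputable section

namespace Ends72

/-- A compact totally disconnected second countable Hausdorff space embeds in `[1,2]`. -/
theorem embed_Icc (X : Type) [TopologicalSpace X] [CompactSpace X] [T2Space X]
    [TotallyDisconnectedSpace X] [SecondCountableTopology X] :
    ∃ h : X → ℝ, IsClosedEmbedding h ∧ ∀ x, h x ∈ Icc (1 : ℝ) 2 := by
  have hcount : Countable (TopologicalSpace.Clopens X) :=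
    TopologicalSpace.Clopens.countable_iff_secondCountable.2 inferInstance
  obtain ⟨A, hA⟩ := exists_surjective_nat (TopologicalSpace.Clopens X)
  classical
  let φ : X → (ℕ → Bool) := fun x n => decide (x ∈ (A n : Set X))
  have hφ : Continuous φ := by
    refine continuous_pi fun n => ?_
    rw [continuous_discrete_rng]
    intro b
    have hc : IsClopen (A n : Set X) := (A n).isClopen
    cases b
    · convert hc.compl.isOpen using 1
      ext x
      simp [φ]
    · convert hc.isOpen using 1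
      ext x
      simp [φ]
  have hφi : Function.Injective φ := by
    intro x y hxy
    by_contra hne
    obtain ⟨U, hU, hx, hy⟩ := exists_isClopen_of_totally_separated hne
    obtain ⟨n, hn⟩ := hA ⟨U, hU⟩
    have := congrFun hxy n
    simp only [φ, hn] at this
    simp only [TopologicalSpace.Clopens.coe_mk, decide_eq_decide] at this
    exact hy (this.1 hx)
  let ψ : X → ℝ := fun x => 1 + ((cantorSetHomeomorphNatToBool.symm (φ x) : cantorSet) : ℝ)
  have hψ : Continuous ψ := by
    refine continuous_const.add (continuous_subtype_val.comp ?_)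
    exact cantorSetHomeomorphNatToBool.symm.continuous.comp hφ
  refine ⟨ψ, hψ.isClosedEmbedding ?_, ?_⟩
  · intro x y hxy
    have := add_left_cancel hxy
    exact hφi (cantorSetHomeomorphNatToBool.symm.injective (Subtype.ext this))
  · intro x
    have := cantorSet_subset_unitInterval (cantorSetHomeomorphNatToBool.symm (φ x)).2
    simp only [ψ, mem_Icc] at this ⊢
    constructor <;> linarith [this.1, this.2]

theorem EGap_of {S : Set ℝ} (hS : IsClosed S) (hS12 : S ⊆ Icc 1 2) (hSt : IsTotallyDisconnected S)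
    {E : Set ℝ} (hE : E = {x | ∃ k : ℤ, ∃ y ∈ S, x = 4 ^ k * y}) : EGap E ∧ E ∩ Icc 1 2 = S := by
  have h4 : (1 : ℝ) < 4 := by norm_num
  have hpos : ∀ k : ℤ, (0 : ℝ) < 4 ^ k := fun k => zpow_pos (by norm_num) k
  have hbd : ∀ k : ℤ, ∀ y ∈ S, (4 : ℝ) ^ k ≤ 4 ^ k * y ∧ 4 ^ k * y ≤ 2 * 4 ^ k := by
    intro k y hy
    have := hS12 hy
    have h := hpos k
    constructor
    · nlinarith [this.1]
    · nlinarith [this.2]
  -- localisation
  have hloc : ∀ n : ℤ, ∀ x ∈ E, (4 : ℝ) ^ n / 2 < x → x < 4 ^ (n + 1) →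
      ∃ y ∈ S, x = 4 ^ n * y := by
    intro n x hx h1 h2
    rw [hE] at hx
    obtain ⟨k, y, hy, rfl⟩ := hx
    obtain ⟨h3, h4'⟩ := hbd k y hy
    have hk1 : k < n + 1 := by
      have : (4 : ℝ) ^ k < 4 ^ (n + 1) := lt_of_le_of_lt h3 h2
      exact (zpow_lt_zpow_iff_right₀ h4).1 this
    have hk2 : n - 1 < k := by
      have h5 : (4 : ℝ) ^ (n - 1) < 4 ^ k := by
        rw [zpow_sub_one₀ (by norm_num)]
        linarith
      exact (zpow_lt_zpow_iff_right₀ h4).1 h5
    have : k = n := by omega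
    subst this
    exact ⟨y, hy, rfl⟩
  have hclosed : ∀ n : ℤ, IsClosed {x : ℝ | ∃ y ∈ S, x = 4 ^ n * y} := by
    intro n
    have : {x : ℝ | ∃ y ∈ S, x = 4 ^ n * y} = (fun y => (4 : ℝ) ^ n * y) '' S := by
      ext x
      simp only [Set.mem_ofPred_eq, mem_image]
      constructor
      · rintro ⟨y, hy, rfl⟩
        exact ⟨y, hy, rfl⟩
      · rintro ⟨y, hy, rfl⟩
        exact ⟨y, hy, rfl⟩
    rw [this]
    exact (Homeomorph.mulLeft₀ _ (hpos n).ne').isClosedMap _ hS
  have hposE : ∀ x ∈ E, 0 < x := by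
    intro x hx
    rw [hE] at hx
    obtain ⟨k, y, hy, rfl⟩ := hx
    exact lt_of_lt_of_le (hpos k) (hbd k y hy).1
  refine ⟨⟨hposE, ?_, ?_, ?_, ?_⟩, ?_⟩
  · intro x
    rw [hE]
    constructor
    · rintro ⟨k, y, hy, h⟩
      refine ⟨k - 1, y, hy, ?_⟩
      rw [zpow_sub_one₀ (by norm_num)]
      linarith
    · rintro ⟨k, y, hy, rfl⟩
      refine ⟨k + 1, y, hy, ?_⟩
      rw [zpow_add_one₀ (by norm_num)]
      ring
  · rintro x hx ⟨h1, h2⟩
    obtain ⟨y, hy, h⟩ := hloc 0 x hx (by norm_num; linarith) (by norm_num; linarith)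
    have := hS12 hy
    rw [zpow_zero, one_mul] at h
    rw [h] at h1
    linarith [this.2]
  · rw [← closure_subset_iff_isClosed]
    intro x hx
    rcases lt_trichotomy x 0 with h | h | h
    · exfalso
      rw [mem_closure_iff] at hx
      obtain ⟨y, hy1, hy2⟩ := hx (Iio 0) isOpen_Iio h
      rcases hy2 with rfl | hy2
      · exact absurd hy1 (lt_irrefl (0 : ℝ))
      · exact lt_asymm (hposE y hy2) hy1
    · left
      exact h
    · right
      obtain ⟨n, hn1, hn2⟩ := exists_mem_Ico_zpow h h4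
      have hmem : x ∈ closure {x : ℝ | ∃ y ∈ S, x = 4 ^ n * y} := by
        rw [mem_closure_iff] at hx ⊢
        intro O hO hxO
        obtain ⟨y, ⟨hyO, hy1, hy2⟩, hyE⟩ := hx (O ∩ Ioo (4 ^ n / 2) (4 ^ (n + 1)))
          (hO.inter isOpen_Ioo) ⟨hxO, by linarith [hpos n], hn2⟩
        rcases hyE with rfl | hyE
        · exfalso
          linarith [hpos n]
        · exact ⟨y, hyO, hloc n y hyE hy1 hy2⟩
      rw [(hclosed n).closure_eq] at hmem
      rw [hE]
      exact ⟨n, hmem⟩
  · intro a b hab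
    by_contra hcon
    push Not at hcon
    have hsub : Ioo a b ⊆ E := fun c hc => hcon c hc.1 hc.2
    set x := (a + b) / 2 with hx
    have hx1 : x ∈ Ioo a b := ⟨by linarith, by linarith⟩
    obtain ⟨n, hn1, hn2⟩ := exists_mem_Ico_zpow (hposE x (hsub hx1)) h4
    -- the interval [x, y]
    set y := min ((x + b) / 2) ((x + 4 ^ (n + 1)) / 2) with hy
    have hxy : x < y := by
      rw [hy, lt_min_iff]
      constructor <;> linarith [hx1.2]
    have hyb : y < b := lt_of_le_of_lt (min_le_left _ _) (by linarith [hx1.2])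
    have hy4 : y < 4 ^ (n + 1) := lt_of_le_of_lt (min_le_right _ _) (by linarith)
    have hin : ∀ z ∈ Icc x y, 4 ^ (-n) * z ∈ S := by
      intro z hz
      obtain ⟨w, hw, hzw⟩ := hloc n z (hsub ⟨lt_of_lt_of_le hx1.1 hz.1, lt_of_le_of_lt hz.2 hyb⟩)
        (by linarith [hpos n, hz.1]) (lt_of_le_of_lt hz.2 hy4)
      rw [hzw, ← mul_assoc, ← zpow_add₀ (by norm_num), neg_add_cancel, zpow_zero, one_mul]
      exact hw
    have hpre : IsPreconnected ((fun z => (4 : ℝ) ^ (-n) * z) '' Icc x y) :=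
      isPreconnected_Icc.image _ (continuous_const.mul continuous_id).continuousOn
    have hss := hSt _ (by
      rintro _ ⟨z, hz, rfl⟩
      exact hin z hz) hpre
    have := hss ⟨x, ⟨le_rfl, hxy.le⟩, rfl⟩ ⟨y, ⟨hxy.le, le_rfl⟩, rfl⟩
    have := mul_left_cancel₀ (hpos (-n)).ne' this
    linarith
  · ext x
    constructor
    · rintro ⟨hx, h1, h2⟩
      obtain ⟨y, hy, h⟩ := hloc 0 x hx (by norm_num; linarith) (by norm_num; linarith)
      rw [zpow_zero, one_mul] at h
      rwa [h]
    · intro hx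
      refine ⟨?_, hS12 hx⟩
      rw [hE]
      exact ⟨0, x, hx, by simp⟩

theorem exists_E : ∃ E : Set ℝ, EGap E ∧ Nonempty (↥(E ∩ Icc 1 2) ≃ₜ XL blk) := by
  obtain ⟨h, hh, h12⟩ := embed_Icc (XL blk)
  have h1 := EGap_of (S := range h) hh.isClosed_range (by rintro _ ⟨x, rfl⟩; exact h12 x)
    (hh.isEmbedding.isTotallyDisconnected_range.2 inferInstance) rfl
  refine ⟨_, h1.1, ⟨?_⟩⟩
  exact (Homeomorph.setCongr h1.2).trans hh.isEmbedding.toHomeomorph.symm

end Ends72
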