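import Pool.Agent.LibEnds72.Plane

/-! TASK F: basic topology of the surface and extension of its homeomorphisms to the sphere. -/

open Set Metric Topology Filter

noncomputable section

namespace Ends72

/-- the ends of the surface inside the sphere: `{∞} ∪ {0} ∪ E`. -/
def EB (E : Set ℝ) : Set (OnePoint ℂ) := ((↑) '' UE E : Set (OnePoint ℂ))ᶜ

theorem mem_EC_iff {E : Set ℝ} {z : ℂ} : z ∈ EC E ↔ z.im = 0 ∧ z.re ∈ insert 0 E := by
  constructor
  · rintro ⟨x, hx, rfl⟩
    exact ⟨Complex.ofReal_im x, by simpa using hx⟩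
  · rintro ⟨h1, h2⟩
    exact ⟨z.re, h2, Complex.ext (by simp) (by simp [h1])⟩

theorem EC_closed {E : Set ℝ} (hE : EGap E) : IsClosed (EC E) := by
  have : EC E = {z : ℂ | z.im = 0} ∩ Complex.re ⁻¹' (insert 0 E) := by
    ext z
    rw [mem_EC_iff]
    rfl
  rw [this]
  exact (isClosed_eq Complex.continuous_im continuous_const).inter
    (hE.closed.preimage Complex.continuous_re)

theorem UE_open {E : Set ℝ} (hE : EGap E) : IsOpen (UE E) := (EC_closed hE).isOpen_compl

theorem mem_UE_of_im {E : Set ℝ} {z : ℂ} (h : z.im ≠ 0) : z ∈ UE E := by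
  intro hz
  exact h (mem_EC_iff.1 hz).1

theorem EC_nonneg {E : Set ℝ} (hE : EGap E) {x : ℝ} (hx : x ∈ insert 0 E) : 0 ≤ x := by
  rcases hx with rfl | hx
  · exact le_rfl
  · exact (hE.pos x hx).le

theorem real_mem_UE {E : Set ℝ} {x : ℝ} (hx : x ∉ insert 0 E) : (x : ℂ) ∈ UE E := by
  intro hz
  apply hx
  simpa using (mem_EC_iff.1 hz).2

theorem half_aux {E : Set ℝ} {D : Set ℂ} (ho : IsOpen D)
    (h1 : IsPreconnected (D ∩ {z | 0 < z.im})) :
    IsPreconnected (D ∩ UE E ∩ {z | 0 ≤ z.im}) := by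
  refine h1.subset_closure ?_ ?_
  · rintro z ⟨hz, hi⟩
    have hi' : 0 < z.im := hi
    exact ⟨⟨hz, mem_UE_of_im (ne_of_gt hi')⟩, hi'.le⟩
  · rintro z ⟨⟨hz, -⟩, hi⟩
    have ht : Tendsto (fun t : ℝ => z + t * Complex.I) (𝓝[>] 0) (𝓝 z) := by
      have : ContinuousAt (fun t : ℝ => z + t * Complex.I) 0 := by fun_prop
      have h2 := this.tendsto
      simp only [Complex.ofReal_zero, zero_mul, add_zero] at h2
      exact h2.mono_left nhdsWithin_le_nhds
    refine mem_closure_of_tendsto ht ?_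
    filter_upwards [ht (ho.mem_nhds hz), self_mem_nhdsWithin] with t h3 h4
    refine ⟨h3, ?_⟩
    have h4' : 0 < t := h4
    have hi' : 0 ≤ z.im := hi
    simp only [Set.mem_ofPred_eq, Complex.add_im, Complex.mul_im, Complex.ofReal_re, Complex.I_im,
      mul_one, Complex.ofReal_im, Complex.I_re, mul_zero, add_zero]
    linarith

theorem half_aux' {E : Set ℝ} {D : Set ℂ} (ho : IsOpen D)
    (h1 : IsPreconnected (D ∩ {z | z.im < 0})) :
    IsPreconnected (D ∩ UE E ∩ {z | z.im ≤ 0}) := by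
  refine h1.subset_closure ?_ ?_
  · rintro z ⟨hz, hi⟩
    have hi' : z.im < 0 := hi
    exact ⟨⟨hz, mem_UE_of_im (ne_of_lt hi')⟩, hi'.le⟩
  · rintro z ⟨⟨hz, -⟩, hi⟩
    have ht : Tendsto (fun t : ℝ => z - t * Complex.I) (𝓝[>] 0) (𝓝 z) := by
      have : ContinuousAt (fun t : ℝ => z - t * Complex.I) 0 := by fun_prop
      have h2 := this.tendsto
      simp only [Complex.ofReal_zero, zero_mul, sub_zero] at h2
      exact h2.mono_left nhdsWithin_le_nhds
    refine mem_closure_of_tendsto ht ?_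
    filter_upwards [ht (ho.mem_nhds hz), self_mem_nhdsWithin] with t h3 h4
    refine ⟨h3, ?_⟩
    have h4' : 0 < t := h4
    have hi' : z.im ≤ 0 := hi
    simp only [Set.mem_ofPred_eq, Complex.sub_im, Complex.mul_im, Complex.ofReal_re, Complex.I_im,
      mul_one, Complex.ofReal_im, Complex.I_re, mul_zero, add_zero]
    linarith

theorem half_preconn {E : Set ℝ} {D : Set ℂ} (ho : IsOpen D)
    (h1 : IsPreconnected (D ∩ {z | 0 < z.im})) (h2 : IsPreconnected (D ∩ {z | z.im < 0}))
    {c : ℂ} (hc : c ∈ D ∩ UE E) (him : c.im = 0) : IsPreconnected (D ∩ UE E) := by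
  have : D ∩ UE E = (D ∩ UE E ∩ {z | 0 ≤ z.im}) ∪ (D ∩ UE E ∩ {z | z.im ≤ 0}) := by
    rw [← inter_union_distrib_left]
    symm
    apply inter_eq_left.2
    intro z _
    exact le_total 0 z.im
  rw [this]
  exact IsPreconnected.union c ⟨hc, him.ge⟩ ⟨hc, him.le⟩ (half_aux ho h1) (half_aux' ho h2)

theorem UE_connected {E : Set ℝ} (hE : EGap E) : IsConnected (UE E) := by
  refine ⟨⟨Complex.I, mem_UE_of_im (by simp)⟩, ?_⟩
  have h := half_preconn (E := E) (D := univ) (c := ((-1 : ℝ) : ℂ)) isOpen_univ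
    (by rw [univ_inter]; exact (convex_halfSpace_im_gt 0).isPreconnected)
    (by rw [univ_inter]; exact (convex_halfSpace_im_lt 0).isPreconnected)
    ⟨mem_univ _, real_mem_UE (fun h => by
      have := EC_nonneg hE h
      linarith)⟩ (by simp)
  rwa [univ_inter] at h

theorem UE_dense' {E : Set ℝ} : Dense (UE E) := by
  intro z
  by_cases hz : z.im = 0
  · have ht : Tendsto (fun t : ℝ => z + t * Complex.I) (𝓝[>] 0) (𝓝 z) := by
      have : ContinuousAt (fun t : ℝ => z + t * Complex.I) 0 := by fun_prop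
      have h2 := this.tendsto
      simp only [Complex.ofReal_zero, zero_mul, add_zero] at h2
      exact h2.mono_left nhdsWithin_le_nhds
    refine mem_closure_of_tendsto ht ?_
    filter_upwards [self_mem_nhdsWithin] with t h4
    have h4' : 0 < t := h4
    apply mem_UE_of_im
    simp [hz]
    exact h4'.ne'
  · exact subset_closure (mem_UE_of_im hz)

theorem UE_dense {E : Set ℝ} (hE : EGap E) : Dense ((↑) '' UE E : Set (OnePoint ℂ)) := by
  have := (OnePoint.denseRange_coe (X := ℂ)).dense_image OnePoint.continuous_coe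
    (UE_dense' (E := E))
  exact this

/-- the inclusion of the surface in the sphere -/
def inc (E : Set ℝ) (x : UE E) : OnePoint ℂ := ((x : ℂ) : OnePoint ℂ)

theorem inc_emb {E : Set ℝ} (hE : EGap E) : IsOpenEmbedding (inc E) :=
  OnePoint.isOpenEmbedding_coe.comp (UE_open hE).isOpenEmbedding_subtypeVal

theorem range_inc {E : Set ℝ} : range (inc E) = ((↑) '' UE E : Set (OnePoint ℂ)) := by
  ext y
  constructor
  · rintro ⟨x, rfl⟩
    exact ⟨x, x.2, rfl⟩
  · rintro ⟨x, hx, rfl⟩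
    exact ⟨⟨x, hx⟩, rfl⟩

theorem inc_dense {E : Set ℝ} (hE : EGap E) : IsDenseInducing (inc E) := by
  refine ⟨(inc_emb hE).isInducing, ?_⟩
  rw [DenseRange, range_inc]
  exact UE_dense hE

theorem preconn_subtype {E : Set ℝ} {D : Set ℂ} (h : IsPreconnected (D ∩ UE E)) :
    IsPreconnected (Subtype.val ⁻¹' D : Set (UE E)) := by
  rw [← IsInducing.subtypeVal.isPreconnected_image]
  have : (Subtype.val '' (Subtype.val ⁻¹' D : Set (UE E)) : Set ℂ) = D ∩ UE E := by
    rw [Subtype.image_preimage_coe, inter_comm]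
  exact this ▸ h

theorem outer_half {R : ℝ} (hR : 0 < R) :
    IsPreconnected ({z : ℂ | R < ‖z‖} ∩ {z | 0 < z.im}) := by
  have : ({z : ℂ | R < ‖z‖} ∩ {z | 0 < z.im}) =
      Complex.exp '' ({w : ℂ | Real.log R < w.re} ∩ ({w : ℂ | 0 < w.im} ∩
        {w : ℂ | w.im < Real.pi})) := by
    ext z
    constructor
    · rintro ⟨h1, h2⟩
      have hz : z ≠ 0 := by
        rintro rfl
        simp at h2
      have h1' : R < ‖z‖ := h1
      have h2' : 0 < z.im := h2
      refine ⟨Complex.log z, ⟨?_, ?_, ?_⟩, Complex.exp_log hz⟩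
      · change Real.log R < (Complex.log z).re
        rw [Complex.log_re]
        exact Real.log_lt_log hR h1'
      · change 0 < (Complex.log z).im
        rw [Complex.log_im]
        rcases (Complex.arg_nonneg_iff.2 h2'.le).lt_or_eq with h | h
        · exact h
        · exfalso
          have := Complex.arg_eq_zero_iff.1 h.symm
          linarith [this.2]
      · change (Complex.log z).im < Real.pi
        rw [Complex.log_im]
        rcases (Complex.arg_le_pi z).lt_or_eq with h | h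
        · exact h
        · exfalso
          have := Complex.arg_eq_pi_iff.1 h
          linarith [this.2]
    · rintro ⟨w, ⟨h1, h2, h3⟩, rfl⟩
      have h1' : Real.log R < w.re := h1
      refine ⟨?_, ?_⟩
      · change R < ‖Complex.exp w‖
        rw [Complex.norm_exp]
        calc R = Real.exp (Real.log R) := (Real.exp_log hR).symm
          _ < _ := Real.exp_lt_exp.2 h1'
      · change 0 < (Complex.exp w).im
        rw [Complex.exp_im]
        exact mul_pos (Real.exp_pos _) (Real.sin_pos_of_pos_of_lt_pi h2 h3)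
  rw [this]
  refine IsPreconnected.image ?_ _ Complex.continuous_exp.continuousOn
  exact ((convex_halfSpace_re_gt _).inter
    ((convex_halfSpace_im_gt _).inter (convex_halfSpace_im_lt _))).isPreconnected

theorem outer_half' {R : ℝ} (hR : 0 < R) :
    IsPreconnected ({z : ℂ | R < ‖z‖} ∩ {z | z.im < 0}) := by
  have : ({z : ℂ | R < ‖z‖} ∩ {z | z.im < 0}) =
      (starRingEnd ℂ) '' ({z : ℂ | R < ‖z‖} ∩ {z | 0 < z.im}) := by
    ext z
    constructor
    · rintro ⟨h1, h2⟩
      have h1' : R < ‖z‖ := h1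
      have h2' : z.im < 0 := h2
      refine ⟨(starRingEnd ℂ) z, ⟨?_, ?_⟩, Complex.conj_conj z⟩
      · change R < ‖(starRingEnd ℂ) z‖
        rwa [Complex.norm_conj]
      · change 0 < ((starRingEnd ℂ) z).im
        rw [Complex.conj_im]
        linarith
    · rintro ⟨w, ⟨h1, h2⟩, rfl⟩
      have h1' : R < ‖w‖ := h1
      have h2' : 0 < w.im := h2
      refine ⟨?_, ?_⟩
      · change R < ‖(starRingEnd ℂ) w‖
        rwa [Complex.norm_conj]
      · change ((starRingEnd ℂ) w).im < 0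
        rw [Complex.conj_im]
        linarith
  rw [this]
  exact (outer_half hR).image _ Complex.continuous_conj.continuousOn

/-- Points of `EB` have arbitrarily small neighbourhoods with connected trace on the surface. -/
theorem basis_preconn {E : Set ℝ} (hE : EGap E) {e : OnePoint ℂ} (he : e ∈ EB E)
    {S : Set (UE E)} (hS : S ∈ comap (inc E) (𝓝 e)) :
    ∃ W ∈ comap (inc E) (𝓝 e), W ⊆ S ∧ IsPreconnected W := by
  have hcomp : comap (inc E) (𝓝 e) = comap (Subtype.val : UE E → ℂ)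
      (comap ((↑) : ℂ → OnePoint ℂ) (𝓝 e)) := by
    rw [comap_comap]
    rfl
  rw [hcomp] at hS ⊢
  induction e using OnePoint.rec with
  | infty =>
    rw [OnePoint.comap_coe_nhds_infty, coclosedCompact_eq_cocompact,
      ← Metric.cobounded_eq_cocompact] at hS ⊢
    obtain ⟨T, hT, hTS⟩ := hS
    obtain ⟨R, -, hR⟩ := (Metric.hasBasis_cobounded_compl_closedBall (0 : ℂ)).mem_iff.1 hT
    set R' : ℝ := max R 1
    have hR' : 0 < R' := lt_of_lt_of_le one_pos (le_max_right _ _)
    have ho : IsOpen {z : ℂ | R' < ‖z‖} := isOpen_lt continuous_const continuous_norm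
    refine ⟨Subtype.val ⁻¹' {z : ℂ | R' < ‖z‖}, preimage_mem_comap ?_, ?_, ?_⟩
    · rw [(Metric.hasBasis_cobounded_compl_closedBall (0 : ℂ)).mem_iff]
      refine ⟨R', trivial, ?_⟩
      intro z hz
      simpa using hz
    · intro x hx
      apply hTS
      apply hR
      have hx' : R' < ‖(x : ℂ)‖ := hx
      simp only [mem_compl_iff, mem_closedBall, dist_zero_right, not_le]
      exact lt_of_le_of_lt (le_max_left _ _) hx'
    · apply preconn_subtype
      refine half_preconn ho (outer_half hR') (outer_half' hR') (c := ((-(R' + 1) : ℝ) : ℂ))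
        ⟨?_, real_mem_UE ?_⟩ (Complex.ofReal_im _)
      · change R' < ‖((-(R' + 1) : ℝ) : ℂ)‖
        rw [Complex.norm_real, Real.norm_eq_abs, abs_neg, abs_of_pos (by linarith)]
        linarith
      · intro h
        have := EC_nonneg hE h
        linarith
  | coe z =>
    rw [OnePoint.comap_coe_nhds] at hS ⊢
    obtain ⟨T, hT, hTS⟩ := hS
    obtain ⟨r, hr, hrT⟩ := Metric.mem_nhds_iff.1 hT
    have hz : z ∈ EC E := by
      by_contra h
      exact he ⟨z, h, rfl⟩
    obtain ⟨a, ha, rfl⟩ := hz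
    have ha0 := EC_nonneg hE ha
    refine ⟨Subtype.val ⁻¹' ball ((a : ℝ) : ℂ) r, preimage_mem_comap (ball_mem_nhds _ hr), ?_, ?_⟩
    · intro x hx
      exact hTS (hrT hx)
    · apply preconn_subtype
      obtain ⟨c, hc1, hc2, hc3⟩ := hE.td a (a + r) (by linarith)
      refine half_preconn isOpen_ball
        ((convex_ball _ _).inter (convex_halfSpace_im_gt 0)).isPreconnected
        ((convex_ball _ _).inter (convex_halfSpace_im_lt 0)).isPreconnected
        (c := ((c : ℝ) : ℂ)) ⟨?_, real_mem_UE ?_⟩ (Complex.ofReal_im _)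
      · rw [mem_ball, Complex.dist_eq, ← Complex.ofReal_sub, Complex.norm_real, Real.norm_eq_abs,
          abs_of_pos (by linarith)]
        linarith
      · rintro (h | h)
        · linarith
        · exact hc3 h

/-- two distinct ends are separated by a circle of radius outside `E` -/
theorem sep_circle {E : Set ℝ} (hE : EGap E) {y₁ y₂ : OnePoint ℂ} (h1 : y₁ ∈ EB E)
    (h2 : y₂ ∈ EB E) (hne : y₁ ≠ y₂) : ∃ c : ℝ, 0 < c ∧ c ∉ E ∧
      ((y₁ ∈ ((↑) '' ball (0 : ℂ) c : Set (OnePoint ℂ)) ∧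
        y₂ ∈ ((↑) '' closedBall (0 : ℂ) c : Set (OnePoint ℂ))ᶜ) ∨
      (y₂ ∈ ((↑) '' ball (0 : ℂ) c : Set (OnePoint ℂ)) ∧
        y₁ ∈ ((↑) '' closedBall (0 : ℂ) c : Set (OnePoint ℂ))ᶜ)) := by
  have key : ∀ a b : ℝ, a ∈ insert 0 E → b ∈ insert 0 E → a < b → ∃ c : ℝ, 0 < c ∧ c ∉ E ∧
      (((a : ℂ) : OnePoint ℂ) ∈ ((↑) '' ball (0 : ℂ) c : Set (OnePoint ℂ)) ∧
        ((b : ℂ) : OnePoint ℂ) ∈ ((↑) '' closedBall (0 : ℂ) c : Set (OnePoint ℂ))ᶜ) := by
    intro a b ha hb hab
    have ha0 := EC_nonneg hE ha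
    obtain ⟨c, hc1, hc2, hc3⟩ := hE.td a b hab
    refine ⟨c, by linarith, hc3, ⟨(a : ℂ), ?_, rfl⟩, ?_⟩
    · rw [mem_ball_zero_iff, Complex.norm_real, Real.norm_eq_abs, abs_of_nonneg ha0]
      exact hc1
    · rintro ⟨w, hw, hwb⟩
      have : w = (b : ℂ) := OnePoint.coe_injective hwb
      rw [this, mem_closedBall_zero_iff, Complex.norm_real, Real.norm_eq_abs,
        abs_of_nonneg (by linarith)] at hw
      linarith
  have keyinf : ∀ a : ℝ, a ∈ insert 0 E → ∃ c : ℝ, 0 < c ∧ c ∉ E ∧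
      (((a : ℂ) : OnePoint ℂ) ∈ ((↑) '' ball (0 : ℂ) c : Set (OnePoint ℂ)) ∧
        (OnePoint.infty : OnePoint ℂ) ∈ ((↑) '' closedBall (0 : ℂ) c : Set (OnePoint ℂ))ᶜ) := by
    intro a ha
    have ha0 := EC_nonneg hE ha
    obtain ⟨c, hc1, hc2, hc3⟩ := hE.td a (a + 1) (by linarith)
    refine ⟨c, by linarith, hc3, ⟨(a : ℂ), ?_, rfl⟩, ?_⟩
    · rw [mem_ball_zero_iff, Complex.norm_real, Real.norm_eq_abs, abs_of_nonneg ha0]
      exact hc1
    · rintro ⟨w, _, hwb⟩
      exact OnePoint.coe_ne_infty _ hwb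
  have hmem : ∀ z : ℂ, ((z : ℂ) : OnePoint ℂ) ∈ EB E → ∃ a ∈ insert 0 E, z = (a : ℂ) := by
    intro z hz
    have : z ∈ EC E := by
      by_contra h
      exact hz ⟨z, h, rfl⟩
    obtain ⟨a, ha, rfl⟩ := this
    exact ⟨a, ha, rfl⟩
  induction y₁ using OnePoint.rec with
  | infty =>
    induction y₂ using OnePoint.rec with
    | infty => exact absurd rfl hne
    | coe z =>
      obtain ⟨a, ha, rfl⟩ := hmem z h2
      obtain ⟨c, h3, h4, h5⟩ := keyinf a ha
      exact ⟨c, h3, h4, Or.inr h5⟩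
  | coe w =>
    obtain ⟨a, ha, rfl⟩ := hmem w h1
    induction y₂ using OnePoint.rec with
    | infty =>
      obtain ⟨c, h3, h4, h5⟩ := keyinf a ha
      exact ⟨c, h3, h4, Or.inl h5⟩
    | coe z =>
      obtain ⟨b, hb, rfl⟩ := hmem z h2
      have hab : a ≠ b := by
        rintro rfl
        exact hne rfl
      rcases lt_or_gt_of_ne hab with h | h
      · obtain ⟨c, h3, h4, h5⟩ := key a b ha hb h
        exact ⟨c, h3, h4, Or.inl h5⟩
      · obtain ⟨c, h3, h4, h5⟩ := key b a hb ha h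
        exact ⟨c, h3, h4, Or.inr h5⟩

/-- near an end the image avoids any given compact subset of the surface -/
theorem avoid {E : Set ℝ} (hE : EGap E) (f : UE E ≃ₜ UE E) {e : OnePoint ℂ} (he : e ∈ EB E)
    {Z : Set (UE E)} (hZ : IsCompact Z) : {x | f x ∉ Z} ∈ comap (inc E) (𝓝 e) := by
  have h1 : IsCompact (f ⁻¹' Z) := by
    have h0 : f ⁻¹' Z = f.symm '' Z := by
      rw [f.symm.image_eq_preimage_symm]
      rfl
    rw [h0]
    exact hZ.image f.symm.continuous
  have h2 : IsClosed (inc E '' (f ⁻¹' Z)) := (h1.image (inc_emb hE).continuous).isClosed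
  have h3 : e ∉ inc E '' (f ⁻¹' Z) := by
    rintro ⟨x, -, rfl⟩
    exact he ⟨x, x.2, rfl⟩
  refine ⟨_, h2.isOpen_compl.mem_nhds h3, ?_⟩
  intro x hx hfx
  exact hx ⟨x, hfx, rfl⟩

theorem circle_compact {E : Set ℝ} (hE : EGap E) {c : ℝ} (hc : 0 < c) (hcE : c ∉ E) :
    IsCompact {x : UE E | ‖(x : ℂ)‖ = c} := by
  rw [Subtype.isCompact_iff]
  have : (Subtype.val '' {x : UE E | ‖(x : ℂ)‖ = c} : Set ℂ) = sphere 0 c := by
    ext z
    constructor
    · rintro ⟨x, hx, rfl⟩
      simpa using hx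
    · intro hz
      have hz' : ‖z‖ = c := by simpa using hz
      refine ⟨⟨z, ?_⟩, hz', rfl⟩
      rintro ⟨a, ha, rfl⟩
      have ha0 := EC_nonneg hE ha
      have : a = c := by
        simpa [abs_of_nonneg ha0] using hz'
      rcases ha with h | h
      · linarith
      · exact hcE (this ▸ h)
  rw [this]
  exact isCompact_sphere 0 c

theorem ext_lim {E : Set ℝ} (hE : EGap E) (f : UE E ≃ₜ UE E) (e : OnePoint ℂ) :
    ∃ y, Tendsto (fun x => inc E (f x)) (comap (inc E) (𝓝 e)) (𝓝 y) := by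
  by_cases he : e ∈ EB E
  · set F : Filter (OnePoint ℂ) := map (fun x => inc E (f x)) (comap (inc E) (𝓝 e)) with hF
    have : (comap (inc E) (𝓝 e)).NeBot := (inc_dense hE).comap_nhds_neBot e
    have : F.NeBot := map_neBot
    obtain ⟨y, hy⟩ := exists_clusterPt_of_compactSpace F
    have hEB : ∀ y, ClusterPt y F → y ∈ EB E := by
      intro y hy hyU
      obtain ⟨z, hz, rfl⟩ := hyU
      have : LocallyCompactSpace (UE E) := (UE_open hE).locallyCompactSpace
      obtain ⟨Z, hZc, hZn⟩ := exists_compact_mem_nhds (⟨z, hz⟩ : UE E)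
      have h1 : inc E '' Z ∈ 𝓝 ((z : ℂ) : OnePoint ℂ) :=
        (inc_emb hE).isOpenMap.image_mem_nhds hZn
      have h2 : (fun x => inc E (f x)) '' {x | f x ∉ Z} ∈ F := image_mem_map (avoid hE f he hZc)
      obtain ⟨p, ⟨x, hx, hxp⟩, ⟨x', hx', hxp'⟩⟩ := clusterPt_iff_nonempty.1 hy h1 h2
      have : x = f x' := (inc_emb hE).injective (hxp.trans hxp'.symm)
      exact hx' (this ▸ hx)
    have hsub : ∀ y₁ y₂, ClusterPt y₁ F → ClusterPt y₂ F → ∀ c : ℝ, 0 < c → c ∉ E →
        y₁ ∈ ((↑) '' ball (0 : ℂ) c : Set (OnePoint ℂ)) →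
        y₂ ∈ ((↑) '' closedBall (0 : ℂ) c : Set (OnePoint ℂ))ᶜ → False := by
      intro y₁ y₂ h1 h2 c hc hcE hy1 hy2
      obtain ⟨W, hW, hWs, hWc⟩ := basis_preconn hE he (avoid hE f he (circle_compact hE hc hcE))
      have hfW : IsPreconnected (f '' W) := hWc.image _ f.continuous.continuousOn
      have hOi : IsOpen {x : UE E | ‖(x : ℂ)‖ < c} :=
        isOpen_lt (continuous_norm.comp continuous_subtype_val) continuous_const
      have hOo : IsOpen {x : UE E | c < ‖(x : ℂ)‖} :=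
        isOpen_lt continuous_const (continuous_norm.comp continuous_subtype_val)
      have hd : Disjoint {x : UE E | ‖(x : ℂ)‖ < c} {x : UE E | c < ‖(x : ℂ)‖} := by
        rw [Set.disjoint_left]
        intro x h3 h4
        have h3' : ‖(x : ℂ)‖ < c := h3
        have h4' : c < ‖(x : ℂ)‖ := h4
        exact lt_asymm h3' h4'
      have hcov : f '' W ⊆ {x : UE E | ‖(x : ℂ)‖ < c} ∪ {x : UE E | c < ‖(x : ℂ)‖} := by
        rintro _ ⟨x, hx, rfl⟩
        rcases lt_trichotomy ‖(f x : ℂ)‖ c with h | h | h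
        · exact Or.inl h
        · exact absurd h (hWs hx)
        · exact Or.inr h
      have hWF : (fun x => inc E (f x)) '' W ∈ F := image_mem_map hW
      have hn1 : ((↑) '' ball (0 : ℂ) c : Set (OnePoint ℂ)) ∈ 𝓝 y₁ :=
        (OnePoint.isOpenEmbedding_coe.isOpenMap _ isOpen_ball).mem_nhds hy1
      have hn2 : ((↑) '' closedBall (0 : ℂ) c : Set (OnePoint ℂ))ᶜ ∈ 𝓝 y₂ := by
        refine IsOpen.mem_nhds ?_ hy2
        rw [OnePoint.isOpen_compl_image_coe]
        exact ⟨isClosed_closedBall, isCompact_closedBall 0 c⟩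
      obtain ⟨p, ⟨w, hw, hwp⟩, ⟨x, hx, hxp⟩⟩ := clusterPt_iff_nonempty.1 h1 hn1 hWF
      obtain ⟨p', hp', ⟨x', hx', hxp'⟩⟩ := clusterPt_iff_nonempty.1 h2 hn2 hWF
      have e1 : w = (f x : ℂ) := OnePoint.coe_injective (hwp.trans hxp.symm)
      have e2 : ‖(f x : ℂ)‖ < c := by
        rw [← e1]
        simpa using hw
      have e3 : c < ‖(f x' : ℂ)‖ := by
        by_contra h
        apply hp'
        exact ⟨(f x' : ℂ), by simpa using h, hxp'⟩
      rcases hfW.subset_or_subset hOi hOo hd hcov with h | h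
      · exact lt_asymm e3 (h ⟨x', hx', rfl⟩)
      · exact lt_asymm e2 (h ⟨x, hx, rfl⟩)
    refine ⟨y, ?_⟩
    change F ≤ 𝓝 y
    refine le_nhds_of_unique_clusterPt ?_
    intro y' hy'
    by_contra hne
    obtain ⟨c, hc, hcE, h | h⟩ := sep_circle hE (hEB y' hy') (hEB y hy) hne
    · exact hsub y' y hy' hy c hc hcE h.1 h.2
    · exact hsub y y' hy hy' c hc hcE h.1 h.2
  · have : e ∈ ((↑) '' UE E : Set (OnePoint ℂ)) := by
      by_contra h
      exact he h
    obtain ⟨z, hz, rfl⟩ := this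
    refine ⟨inc E (f ⟨z, hz⟩), ?_⟩
    have h1 : comap (inc E) (𝓝 ((z : ℂ) : OnePoint ℂ)) = 𝓝 (⟨z, hz⟩ : UE E) :=
      ((inc_emb hE).isInducing.nhds_eq_comap ⟨z, hz⟩).symm
    rw [h1]
    exact ((inc_emb hE).continuous.comp f.continuous).tendsto _

/-- Every homeomorphism of the surface extends to the sphere. -/
theorem ext_exists {E : Set ℝ} (hE : EGap E) (f : UE E ≃ₜ UE E) :
    ∃ F : OnePoint ℂ ≃ₜ OnePoint ℂ,
      ∀ x : UE E, F ((x : ℂ) : OnePoint ℂ) = ((f x : ℂ) : OnePoint ℂ) := by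
  have hd := inc_dense hE
  have key : ∀ g : UE E ≃ₜ UE E, Continuous (hd.extend (fun x => inc E (g x))) ∧
      ∀ x, hd.extend (fun x => inc E (g x)) (inc E x) = inc E (g x) := by
    intro g
    have hc : Continuous (fun x => inc E (g x)) := (inc_emb hE).continuous.comp g.continuous
    exact ⟨hd.continuous_extend (ext_lim hE g), fun x => hd.extend_eq hc x⟩
  obtain ⟨c1, e1⟩ := key f
  obtain ⟨c2, e2⟩ := key f.symm
  refine ⟨⟨⟨hd.extend (fun x => inc E (f x)), hd.extend (fun x => inc E (f.symm x)), ?_, ?_⟩,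
    c1, c2⟩, fun x => e1 x⟩
  · intro y
    have : (hd.extend (fun x => inc E (f.symm x))) ∘ (hd.extend (fun x => inc E (f x))) = id := by
      refine hd.dense.equalizer (c2.comp c1) continuous_id ?_
      funext x
      simp only [Function.comp, e1, e2, Homeomorph.symm_apply_apply, id]
    exact congrFun this y
  · intro y
    have : (hd.extend (fun x => inc E (f x))) ∘ (hd.extend (fun x => inc E (f.symm x))) = id := by
      refine hd.dense.equalizer (c1.comp c2) continuous_id ?_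
      funext x
      simp only [Function.comp, e1, e2, Homeomorph.apply_symm_apply, id]
    exact congrFun this y

end Ends72
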