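import Pool.Agent.LibEnds72.Defs

/-! TASK L4: continuity of the flux and triviality on `Homeo₀`. -/

open Set Metric Topology Filter

noncomputable section

namespace Ends72

theorem flux_cont {U : Set ℂ} (m : (U ≃ₜ U) → ℤ)
    (hm : ∀ f g, |m (f * g) - m f| = |m g|) (C : Set U) (hC : IsCompact C) {δ : ℝ}
    (hδ : 0 < δ) (hs : ∀ f : U ≃ₜ U, (∀ z ∈ C, ‖(f z : ℂ) - z‖ < δ) → m f = 0) :
    Continuous (fun f : HomeoPlus U => m f.1) ∧ ∀ f ∈ Homeo0 U, m f.1 = 0 := by
  -- closeness implies equality of `m`
  have hclose : ∀ f g : U ≃ₜ U, (∀ z ∈ C, ‖(f.symm (g z) : ℂ) - z‖ < δ) → m g = m f := by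
    intro f g h
    have h1 := hs (f⁻¹ * g) h
    have h2 := hm f (f⁻¹ * g)
    rw [mul_inv_cancel_left, h1, abs_zero, abs_eq_zero, sub_eq_zero] at h2
    exact h2
  constructor
  · rw [continuous_iff_continuousAt]
    intro f
    have hind : Continuous (fun f : HomeoPlus U => (⟨f.1, f.1.continuous⟩ : C(U, U))) :=
      continuous_induced_dom
    have hcoe : Continuous (fun z : U => (z : ℂ)) := continuous_subtype_val
    let P : C(U, ℂ) := ⟨fun z => ((f.1.symm z : U) : ℂ), hcoe.comp f.1.symm.continuous⟩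
    let ι : C(U, ℂ) := ⟨fun z => (z : ℂ), hcoe⟩
    have hG : Continuous (fun g : HomeoPlus U => P.comp (⟨g.1, g.1.continuous⟩ : C(U, U)) - ι) := by
      exact ((ContinuousMap.continuous_postcomp P).comp hind).sub continuous_const
    have hev : ∀ᶠ g in 𝓝 f, MapsTo (P.comp (⟨g.1, g.1.continuous⟩ : C(U, U)) - ι) C
        (ball (0 : ℂ) δ) := by
      refine (hG.tendsto f).eventually (ContinuousMap.eventually_mapsTo hC isOpen_ball ?_)
      intro z hz
      have : (P.comp (⟨f.1, f.1.continuous⟩ : C(U, U)) - ι) z = 0 := by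
        simp [P, ι]
      rw [this]
      exact mem_ball_self hδ
    refine tendsto_const_nhds.congr' (hev.mono fun g hg => ?_)
    refine (hclose _ _ fun z hz => ?_).symm
    have := hg hz
    rw [mem_ball_zero_iff] at this
    exact this
  · rintro f ⟨Φ, h1, h2, h3⟩
    have k1 : ∀ p, (Φ.symm p).1 = p.1 := by
      intro p
      have := h1 (Φ.symm p)
      rw [Φ.apply_symm_apply] at this
      exact this.symm
    have e1 : ∀ t x, Φ (t, x) = (t, (Φ (t, x)).2) := fun t x => Prod.ext (h1 _) rfl
    have e2 : ∀ t x, Φ.symm (t, x) = (t, (Φ.symm (t, x)).2) := fun t x => Prod.ext (k1 _) rfl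
    let F : unitInterval → (U ≃ₜ U) := fun t =>
      { toFun := fun x => (Φ (t, x)).2
        invFun := fun x => (Φ.symm (t, x)).2
        left_inv := fun x => by
          change (Φ.symm (t, (Φ (t, x)).2)).2 = x
          rw [← e1, Φ.symm_apply_apply]
        right_inv := fun x => by
          change (Φ (t, (Φ.symm (t, x)).2)).2 = x
          rw [← e2, Φ.apply_symm_apply]
        continuous_toFun := by fun_prop
        continuous_invFun := by fun_prop }
    have hF : ∀ t x, F t x = (Φ (t, x)).2 := fun t x => rfl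
    have hcont : Continuous fun t => m (F t) := by
      rw [continuous_iff_continuousAt]
      intro t₀
      have hopen : IsOpen {p : unitInterval × U | ‖((F t₀).symm (Φ p).2 : ℂ) - (p.2 : ℂ)‖ < δ} := by
        refine isOpen_lt ?_ continuous_const
        fun_prop
      obtain ⟨u, v, hu, hv, hsu, hCv, huv⟩ := generalized_tube_lemma
        (isCompact_singleton (x := t₀)) hC hopen (by
          rintro ⟨t, z⟩ ⟨ht, hz⟩
          simp only [mem_singleton_iff] at ht
          subst ht
          simp only [Set.mem_ofPred_eq]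
          have : (F t).symm (Φ (t, z)).2 = z := (F t).symm_apply_apply z
          rw [this, sub_self, norm_zero]
          exact hδ)
      have : ∀ᶠ t in 𝓝 t₀, m (F t) = m (F t₀) := by
        filter_upwards [hu.mem_nhds (hsu rfl)] with t ht
        refine hclose _ _ fun z hz => ?_
        exact huv (mk_mem_prod ht (hCv hz))
      exact tendsto_const_nhds.congr' (this.mono fun t ht => ht.symm)
    have h01 : m (F 0) = m (F 1) := PreconnectedSpace.constant inferInstance hcont
    have hF0 : F 0 = 1 := by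
      ext x
      rw [hF, h2]
      rfl
    have hF1 : F 1 = f.1 := by
      ext x
      rw [hF, h3]
    rw [← hF1, ← h01, hF0]
    have := hm 1 1
    rw [mul_one, sub_self, abs_zero] at this
    exact abs_eq_zero.1 this.symm

/-- A neighbourhood of the identity of `Homeo⁺(U)` contains all elements which are the identity on
a suitable compact set. -/
theorem nhds_one_supp {U : Set ℂ} (hU : IsOpen U) {N : Set (HomeoPlus U)}
    (hN : N ∈ 𝓝 (1 : HomeoPlus U)) :
    ∃ K : Set U, IsCompact K ∧ ∀ f : HomeoPlus U, (∀ z ∈ K, f.1 z = z) → f ∈ N := by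
  rw [nhds_induced, mem_comap] at hN
  obtain ⟨W, hW, hWN⟩ := hN
  rw [ContinuousMap.mem_nhds_iff] at hW
  obtain ⟨S, hSf, hS, hSW⟩ := hW
  refine ⟨⋃ p ∈ S, p.1, hSf.isCompact_biUnion fun p hp => (hS p.1 p.2 hp).1, fun f hf => ?_⟩
  refine hWN (hSW ?_)
  intro K V hKV z hz
  have h1 : f.1 z = z := hf z (mem_biUnion hKV hz)
  have h2 := (hS K V hKV).2.2 hz
  change f.1 z ∈ V
  rw [h1]
  exact h2

end Ends72
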