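import Pool.Agent.LibEnds72.Plane

/-! TASK N: the surface has infinite type. -/

open Set Metric Topology Filter
open scoped unitInterval

noncomputable section

namespace Ends72

theorem pi_mon {X Y : Type*} [TopologicalSpace X] [TopologicalSpace Y] {p : Y → X}
    (cov : IsCoveringMap p) {x y : X} (γ : Path x y) (e : p ⁻¹' {x}) (Γ : C(I, Y))
    (h1 : ∀ t, p (Γ t) = γ t) (h0 : Γ 0 = e) :
    (cov.monodromy (Path.Homotopic.Quotient.mk γ) e : Y) = Γ 1 := by
  have h : Γ = cov.liftPath γ e (γ.source.trans e.2.symm) :=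
    (cov.eq_liftPath_iff' _).2 ⟨funext h1, h0⟩
  change (cov.liftPath γ e _) 1 = _
  rw [← h]

/-- translation by `-e` into the punctured plane -/
def piS {E : Set ℝ} {e : ℝ} (he : e ∈ E) : C(UE E, {z : ℂ // z ≠ 0}) where
  toFun z := ⟨(z : ℂ) - e, fun h => z.2 ⟨e, Or.inr he, (sub_eq_zero.1 h).symm⟩⟩
  continuous_toFun := by fun_prop

theorem piS_val {E : Set ℝ} {e : ℝ} (he : e ∈ E) (z : UE E) : (piS he z : ℂ) = (z : ℂ) - e := rfl

theorem pi_ne {E : Set ℝ} {e : ℝ} (he : e ∈ E) (z : UE E) : (z : ℂ) - e ≠ 0 := (piS he z).2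

/-- base point of the fibre -/
def piB {E : Set ℝ} {e : ℝ} (he : e ∈ E) (x : UE E) :
    (fun z : ℂ ↦ (⟨_, z.exp_ne_zero⟩ : {z : ℂ // z ≠ 0})) ⁻¹' {piS he x} :=
  ⟨Complex.log (e - x) + Real.pi * Complex.I, by
    have h : (e : ℂ) - x ≠ 0 := by
      have := pi_ne he x
      intro h
      exact this (by linear_combination -h)
    refine Subtype.ext ?_
    change Complex.exp _ = (piS he x : ℂ)
    rw [Complex.exp_add, Complex.exp_log h, Complex.exp_pi_mul_I, piS_val]
    ring⟩

/-- the monodromy homomorphism -/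
def piW {E : Set ℝ} {e : ℝ} (he : e ∈ E) (x : UE E) :
    FundamentalGroup (UE E) x →*
      Equiv.Perm ((fun z : ℂ ↦ (⟨_, z.exp_ne_zero⟩ : {z : ℂ // z ≠ 0})) ⁻¹' {piS he x}) :=
  (Complex.isCoveringMap_exp.monodromyPerm (piS he x)).comp (FundamentalGroup.map (piS he) x)

theorem piW_apply {E : Set ℝ} {e : ℝ} (he : e ∈ E) (x : UE E) (γ : Path x x) (b) :
    piW he x (Path.Homotopic.Quotient.mk γ) b = Complex.isCoveringMap_exp.monodromy
      (Path.Homotopic.Quotient.mk (γ.map (piS he).continuous)) b := rfl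

theorem piW_far {E : Set ℝ} (x : UE E) (g : FundamentalGroup (UE E) x) :
    ∃ R : ℝ, ∀ (e : ℝ) (he : e ∈ E), R < e → piW he x g (piB he x) = piB he x := by
  obtain ⟨γ, rfl⟩ := Path.Homotopic.Quotient.mk_surjective g
  obtain ⟨R, hR⟩ : ∃ R : ℝ, ∀ t, ‖((γ t : UE E) : ℂ)‖ ≤ R := by
    have hc : IsCompact (range fun t => ((γ t : UE E) : ℂ)) :=
      isCompact_range (by fun_prop)
    obtain ⟨R, hR⟩ := hc.isBounded.exists_norm_le
    exact ⟨R, fun t => hR _ ⟨t, rfl⟩⟩
  refine ⟨R, fun e he hRe => ?_⟩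
  rw [piW_apply]
  have hsl : ∀ t, (e : ℂ) - (γ t : UE E) ∈ Complex.slitPlane := by
    intro t
    left
    rw [Complex.sub_re, Complex.ofReal_re]
    have := Complex.re_le_norm ((γ t : UE E) : ℂ)
    linarith [hR t]
  have hcont : Continuous fun t : I => Complex.log ((e : ℂ) - (γ t : UE E)) + Real.pi * Complex.I :=
    (Continuous.clog (by fun_prop) hsl).add continuous_const
  apply Subtype.ext
  rw [pi_mon Complex.isCoveringMap_exp _ _ ⟨_, hcont⟩]
  · change Complex.log ((e : ℂ) - (γ 1 : UE E)) + Real.pi * Complex.I = _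
    rw [γ.target]
    rfl
  · intro t
    refine Subtype.ext ?_
    change Complex.exp (Complex.log ((e : ℂ) - (γ t : UE E)) + Real.pi * Complex.I) =
      (γ t : UE E) - (e : ℂ)
    rw [Complex.exp_add, Complex.exp_log (Complex.slitPlane_ne_zero (hsl t)),
      Complex.exp_pi_mul_I]
    ring
  · change Complex.log ((e : ℂ) - (γ 0 : UE E)) + Real.pi * Complex.I = _
    rw [γ.source]
    rfl

theorem pi_rad_notMem {E : Set ℝ} (hE : EGap E) (n : ℤ) : rad n ∉ insert 0 E := by
  have hpos : 0 < rad n := by unfold rad; positivity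
  intro h
  rcases h with h | h
  · exact hpos.ne' h
  · have hsc : ∀ k : ℕ, ∀ x : ℝ, (4 : ℝ) ^ k * x ∈ E ↔ x ∈ E := by
      intro k
      induction k with
      | zero => intro x; simp
      | succ k ih => intro x; rw [pow_succ, mul_assoc, ih, hE.scale]
    have hz : ∀ k : ℤ, ∀ x : ℝ, (4 : ℝ) ^ k * x ∈ E ↔ x ∈ E := by
      intro k x
      rcases Int.eq_nat_or_neg k with ⟨m, rfl | rfl⟩
      · rw [zpow_natCast]; exact hsc m x
      · rw [← hsc m, ← mul_assoc, ← zpow_natCast, ← zpow_add₀ (by norm_num)]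
        simp
    have h2 : rad n = (4 : ℝ) ^ (n - 1) * 3 := by
      unfold rad
      rw [zpow_sub_one₀ (by norm_num)]
      ring
    rw [h2, hz] at h
    exact hE.gap 3 h ⟨by norm_num, by norm_num⟩

theorem pi_circle {E : Set ℝ} (hE : EGap E) {n : ℤ} {z : ℂ} (hz : ‖z‖ = rad n) : z ∈ UE E := by
  rintro ⟨a, ha, rfl⟩
  have h0 : 0 ≤ a := by
    rcases ha with rfl | ha
    · exact le_rfl
    · exact (hE.pos a ha).le
  rw [Complex.norm_real, Real.norm_of_nonneg h0] at hz
  exact pi_rad_notMem hE n (hz ▸ ha)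

theorem pi_im {E : Set ℝ} {z : ℂ} (hz : z.im ≠ 0) : z ∈ UE E := by
  rintro ⟨a, _, rfl⟩
  exact hz (by simp)

theorem pi_joined {E : Set ℝ} (hE : EGap E) (x : UE E) (n : ℤ) :
    ∃ y : UE E, ‖(y : ℂ)‖ = rad n ∧ Joined x y := by
  have hpos : 0 < rad n := by unfold rad; positivity
  obtain ⟨s, hs, hx⟩ : ∃ s : ℝ, (s = 1 ∨ s = -1) ∧ 0 ≤ s * (x : ℂ).im := by
    rcases le_total 0 (x : ℂ).im with h | h
    · exact ⟨1, Or.inl rfl, by linarith⟩
    · exact ⟨-1, Or.inr rfl, by linarith⟩
  have hs1 : s * s = 1 := by rcases hs with rfl | rfl <;> norm_num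
  have hs0 : s ≠ 0 := by rcases hs with rfl | rfl <;> norm_num
  have hy : ‖((rad n * s : ℝ) : ℂ) * Complex.I‖ = rad n := by
    rw [norm_mul, Complex.norm_I, Complex.norm_real, Real.norm_eq_abs, abs_mul,
      abs_of_pos hpos, mul_one]
    rcases hs with rfl | rfl <;> simp
  refine ⟨⟨((rad n * s : ℝ) : ℂ) * Complex.I, pi_circle hE hy⟩, hy, ?_⟩
  -- first a vertical segment, then a segment in the half plane
  have hU : ∀ w : ℂ, 0 < s * w.im → w ∈ UE E := by
    intro w hw
    apply pi_im
    intro h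
    rw [h] at hw
    simp at hw
  have j1 : JoinedIn (UE E) (x : ℂ) ((x : ℂ) + s * Complex.I) := by
    refine JoinedIn.of_segment_subset ?_
    rw [segment_subset_iff]
    intro a b ha hb hab
    rcases hb.eq_or_lt with hb0 | hb0
    · have ha1 : a = 1 := by linarith
      rw [← hb0, ha1]
      simp
    · apply hU
      have : (a • (x : ℂ) + b • ((x : ℂ) + s * Complex.I)).im = (x : ℂ).im + b * s := by
        simp only [Complex.add_im, Complex.real_smul, Complex.mul_im, Complex.ofReal_re,
          Complex.ofReal_im, Complex.I_re, Complex.I_im, zero_mul, add_zero, mul_one, mul_zero]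
        have : a = 1 - b := by linarith
        rw [this]
        ring
      rw [this]
      nlinarith
  have j2 : JoinedIn (UE E) ((x : ℂ) + s * Complex.I) (((rad n * s : ℝ) : ℂ) * Complex.I) := by
    refine JoinedIn.of_segment_subset ?_
    rw [segment_subset_iff]
    intro a b ha hb hab
    apply hU
    have : (a • ((x : ℂ) + s * Complex.I) + b • (((rad n * s : ℝ) : ℂ) * Complex.I)).im =
        a * ((x : ℂ).im + s) + b * (rad n * s) := by
      simp only [Complex.add_im, Complex.real_smul, Complex.mul_im, Complex.ofReal_re,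
        Complex.ofReal_im, Complex.I_re, Complex.I_im, zero_mul, add_zero, mul_one, mul_zero]
    rw [this]
    have e : s * (a * ((x : ℂ).im + s) + b * (rad n * s)) =
        a * (s * (x : ℂ).im) + (a + b * rad n) * (s * s) := by ring
    rw [e, hs1]
    have h1 : 0 ≤ a * (s * (x : ℂ).im) := mul_nonneg ha hx
    have h2 : 0 < a + b * rad n := by
      rcases ha.eq_or_lt with h | h
      · have : b = 1 := by linarith
        rw [← h, this]
        simpa using hpos
      · have := mul_nonneg hb hpos.le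
        linarith
    linarith
  have j := j1.trans j2
  exact j.joined_subtype

theorem pi_loop {E : Set ℝ} (hE : EGap E) {n : ℤ} {e : ℝ} (he : e ∈ E) (hen : e < rad n)
    (y : UE E) (hy : ‖(y : ℂ)‖ = rad n) :
    ∃ γ : Path y y, ∀ b, Complex.isCoveringMap_exp.monodromy
      (Path.Homotopic.Quotient.mk (γ.map (piS he).continuous)) b ≠ b := by
  have hpos : 0 < rad n := by unfold rad; positivity
  have he0 := hE.pos e he
  have hy0 : (y : ℂ) ≠ 0 := by
    intro h
    rw [h, norm_zero] at hy
    exact hpos.ne hy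
  have hn : ∀ t : ℝ, ‖(y : ℂ) * Complex.exp ((2 * Real.pi * t : ℝ) * Complex.I)‖ = rad n := by
    intro t
    rw [norm_mul, Complex.norm_exp_ofReal_mul_I, mul_one, hy]
  let γ : Path y y :=
    { toFun := fun t => ⟨(y : ℂ) * Complex.exp ((2 * Real.pi * (t : ℝ) : ℝ) * Complex.I),
        pi_circle hE (hn t)⟩
      continuous_toFun := by fun_prop
      source' := by
        refine Subtype.ext ?_
        simp
      target' := by
        refine Subtype.ext ?_
        simp [Complex.exp_two_pi_mul_I] }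
  have hγ : ∀ t, ((γ t : UE E) : ℂ) = (y : ℂ) * Complex.exp ((2 * Real.pi * (t : ℝ) : ℝ) * Complex.I) :=
    fun t => rfl
  refine ⟨γ, fun b => ?_⟩
  have hγ0 : ∀ t, ((γ t : UE E) : ℂ) ≠ 0 := by
    intro t h
    have := hn t
    rw [← hγ, h, norm_zero] at this
    exact hpos.ne this
  have hsl : ∀ t, 1 - (e : ℂ) / (γ t : UE E) ∈ Complex.slitPlane := by
    intro t
    left
    rw [Complex.sub_re, Complex.one_re]
    have h1 := Complex.re_le_norm ((e : ℂ) / ((γ t : UE E) : ℂ))
    have h2 : ‖(e : ℂ) / ((γ t : UE E) : ℂ)‖ < 1 := by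
      rw [norm_div, hγ, hn, Complex.norm_real, Real.norm_of_nonneg he0.le, div_lt_one hpos]
      exact hen
    linarith
  have hcont : Continuous fun t : I => (b : ℂ) - Complex.log (1 - (e : ℂ) / y) +
      ((2 * Real.pi * (t : ℝ) : ℝ) * Complex.I) + Complex.log (1 - (e : ℂ) / (γ t : UE E)) := by
    refine Continuous.add (by fun_prop) (Continuous.clog ?_ hsl)
    refine continuous_const.sub (continuous_const.div (by fun_prop) hγ0)
  have hb : Complex.exp (b : ℂ) = (y : ℂ) - e := congrArg Subtype.val b.2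
  have key := pi_mon Complex.isCoveringMap_exp (γ.map (piS he).continuous) b ⟨_, hcont⟩ (by
    intro t
    refine Subtype.ext ?_
    change Complex.exp _ = (γ t : UE E) - (e : ℂ)
    simp only [ContinuousMap.coe_mk]
    have h1 : 1 - (e : ℂ) / y ≠ 0 := by
      have := Complex.slitPlane_ne_zero (hsl 0)
      rwa [γ.source] at this
    rw [Complex.exp_add, Complex.exp_add, Complex.exp_sub, Complex.exp_log h1,
      Complex.exp_log (Complex.slitPlane_ne_zero (hsl t)), hb]
    have h2 : ((y : ℂ) - e) / (1 - (e : ℂ) / y) = y := by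
      rw [div_eq_iff h1]
      field_simp
    rw [h2, ← hγ]
    have := hγ0 t
    field_simp) (by
    simp [γ.source])
  intro h
  rw [h] at key
  simp only [ContinuousMap.coe_mk, Set.Icc.coe_one, mul_one, γ.target] at key
  refine Complex.two_pi_I_ne_zero ?_
  push_cast at key
  linear_combination -key

theorem pi1_not_fg {E : Set ℝ} (hE : EGap E) (hne : E.Nonempty) (x : UE E) :
    ¬ Group.FG (FundamentalGroup (UE E) x) := by
  intro hfg
  obtain ⟨S, hS⟩ := hfg.out
  choose R hR using fun g => piW_far x (E := E) g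
  -- a large element of `E`
  obtain ⟨e₀, he₀⟩ := hne
  have hlarge : ∃ e ∈ E, ∀ g ∈ S, R g < e := by
    obtain ⟨B, hB⟩ := (S.image R).bddAbove
    have hp := hE.pos e₀ he₀
    obtain ⟨k, hk⟩ := pow_unbounded_of_one_lt (B / e₀) (by norm_num : (1 : ℝ) < 4)
    refine ⟨4 ^ k * e₀, ?_, ?_⟩
    · clear hk
      induction k with
      | zero => simpa using he₀
      | succ k ih => rw [pow_succ', mul_assoc]; exact (hE.scale _).2 ih
    · intro g hg
      have h1 : R g ≤ B := hB (by simpa using ⟨g, hg, rfl⟩)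
      rw [div_lt_iff₀ hp] at hk
      linarith
  obtain ⟨e, he, hbig⟩ := hlarge
  -- all elements fix the base point
  have hfix : ∀ g, piW he x g (piB he x) = piB he x := by
    intro g
    have hg : g ∈ Subgroup.closure (S : Set (FundamentalGroup (UE E) x)) := by
      rw [hS]; trivial
    induction hg using Subgroup.closure_induction with
    | mem g hg => exact hR g e he (hbig g hg)
    | one => rw [map_one]; rfl
    | mul a b _ _ ha hb => rw [map_mul, Equiv.Perm.mul_apply, hb, ha]
    | inv a _ ha => rw [map_inv, Equiv.Perm.inv_eq_iff_eq]; exact ha.symm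
  -- a large circle
  obtain ⟨k, hk⟩ := pow_unbounded_of_one_lt (e / (3 / 4)) (by norm_num : (1 : ℝ) < 4)
  have hek : e < rad k := by
    rw [div_lt_iff₀ (by norm_num)] at hk
    unfold rad
    rw [zpow_natCast]
    linarith
  obtain ⟨y, hy, ⟨δ⟩⟩ := pi_joined hE x k
  obtain ⟨γ, hγ⟩ := pi_loop hE he hek y hy
  have h1 := hfix (Path.Homotopic.Quotient.mk ((δ.trans γ).trans δ.symm))
  rw [piW_apply] at h1
  rw [Path.map_trans, Path.map_trans, Path.Homotopic.Quotient.mk_trans,
    Path.Homotopic.Quotient.mk_trans, IsCoveringMap.monodromy_trans_apply,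
    IsCoveringMap.monodromy_trans_apply] at h1
  set b := Complex.isCoveringMap_exp.monodromy
    (Path.Homotopic.Quotient.mk (δ.map (piS he).continuous)) (piB he x) with hb
  have h2 : Complex.isCoveringMap_exp.monodromy
      (Path.Homotopic.Quotient.mk (δ.symm.map (piS he).continuous)) b = piB he x := by
    have h3 := hfix (Path.Homotopic.Quotient.mk (δ.trans δ.symm))
    rw [piW_apply, Path.map_trans, Path.Homotopic.Quotient.mk_trans,
      IsCoveringMap.monodromy_trans_apply] at h3
    exact h3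
  have hinj := (Complex.isCoveringMap_exp.monodromy_bijective
    (Path.Homotopic.Quotient.mk (δ.symm.map (piS he).continuous))).injective
  exact hγ b (hinj (h1.trans h2.symm))

end Ends72
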