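import Pool.Agent.LibEnds72.KeyMain
import Pool.Agent.LibEnds72.Isotopy
import Pool.Agent.LibEnds72.CayEnds
import Pool.Agent.LibEnds72.Pi1

/-! The mapping class group: final assembly. -/

open Set Metric Topology Filter OnePoint
open scoped Pointwise

noncomputable section

namespace Ends72

theorem HomeoPlus_mul_left_cont {U : Set ℂ} (f₀ : HomeoPlus U) :
    Continuous (fun f : HomeoPlus U => f₀ * f) := by
  rw [continuous_induced_rng]
  have h1 : Continuous (fun f : HomeoPlus U => (⟨f.1, f.1.continuous⟩ : C(U, U))) :=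
    continuous_induced_dom
  exact (ContinuousMap.continuous_postcomp (⟨f₀.1, f₀.1.continuous⟩ : C(U, U))).comp h1

theorem gen_mem_pow {G : Type*} [Group G] {A : Set G} (hA : A⁻¹ = A)
    (hg : Subgroup.closure A = ⊤) (g : G) : ∃ n : ℕ, g ∈ (insert 1 A) ^ n := by
  have h1 : (1 : G) ∈ insert 1 A := mem_insert _ _
  have hinv : ∀ s ∈ insert 1 A, s⁻¹ ∈ insert 1 A := by
    intro s hs
    rcases hs with rfl | hs
    · left; simp
    · right
      rw [← hA]
      simpa using hs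
  have hmem : g ∈ Subgroup.closure A := by rw [hg]; trivial
  induction hmem using Subgroup.closure_induction with
  | mem x hx => exact ⟨1, by rw [pow_one]; exact Or.inr hx⟩
  | one => exact ⟨0, by simp⟩
  | mul x y _ _ hx hy =>
    obtain ⟨m, hm⟩ := hx
    obtain ⟨n, hn⟩ := hy
    exact ⟨m + n, pow_mem_mul hm hn⟩
  | inv x _ hx =>
    obtain ⟨m, hm⟩ := hx
    exact ⟨m, pow_inv_mem hinv m hm⟩

variable {E : Set ℝ} (hE : EGap E) (hb : Nonempty (↥(E ∩ Icc 1 2) ≃ₜ XL blk))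

/-- the flux on homeomorphisms is continuous and vanishes on `Homeo₀` -/
theorem mI_cont (hE : EGap E) (hb : Nonempty (↥(E ∩ Icc 1 2) ≃ₜ XL blk)) :
    Continuous (fun f : HomeoPlus (UE E) => mI hE f.1) ∧
      ∀ f ∈ Homeo0 (UE E), mI hE f.1 = 0 := by
  have hcirc : ∀ z : ℂ, ‖z‖ = rad 0 → z ∈ UE E := by
    rintro z hz ⟨x, hx, rfl⟩
    have hr : rad 0 = 3 / 4 := by unfold rad; norm_num
    rw [hr, Complex.norm_real, Real.norm_eq_abs] at hz
    rcases hx with rfl | hx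
    · norm_num at hz
    · have hpos := hE.pos x hx
      rw [abs_of_pos hpos] at hz
      have := hE.gap (4 * x) ((hE.scale x).mpr hx)
      apply this
      constructor <;> linarith
  refine flux_cont (U := UE E) (fun f => mI hE f) (fun f g => mI_abs hE hb f g)
    (Subtype.val ⁻¹' sphere (0 : ℂ) (rad 0)) ?_ (δ := 1 / 4) (by norm_num) ?_
  · refine Topology.IsInducing.subtypeVal.isCompact_preimage' (isCompact_sphere _ _) ?_
    intro z hz
    rw [Subtype.range_coe]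
    exact hcirc z (by simpa using hz)
  · intro f hf
    refine mm_small hE hb _ (extF_EB hE f) ?_
    intro z hz
    refine ⟨(f ⟨z, hcirc z hz⟩ : ℂ), extF_apply hE f ⟨z, hcirc z hz⟩, ?_⟩
    exact hf ⟨z, hcirc z hz⟩ (by simpa using hz)

/-- the flux on the mapping class group -/
def mQ (hE : EGap E) (hb : Nonempty (↥(E ∩ Icc 1 2) ≃ₜ XL blk)) : MCG (UE E) → ℤ :=
  Quotient.lift (fun f : HomeoPlus (UE E) => mI hE f.1) (by
    intro f g hfg
    have h1 : f⁻¹ * g ∈ Homeo0 (UE E) := QuotientGroup.leftRel_apply.mp hfg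
    have h2 := (mI_cont hE hb).2 _ h1
    have h3 : mI hE g.1 = mI hE (f.1 * (f⁻¹ * g).1) := by
      congr 1
      change g.1 = (f * (f⁻¹ * g)).1
      rw [mul_inv_cancel_left]
    change mI hE f.1 = mI hE g.1
    rw [h3, mI_mul hE hb, h2, mul_zero, add_zero])

theorem mQ_mk (f : HomeoPlus (UE E)) :
    mQ hE hb (QuotientGroup.mk f) = mI hE f.1 := rfl

theorem mQ_cont : Continuous (mQ hE hb) :=
  Continuous.quotient_lift (mI_cont hE hb).1 _

theorem mQ_abs (g h : MCG (UE E)) : |mQ hE hb (g * h) - mQ hE hb g| = |mQ hE hb h| := by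
  obtain ⟨f, rfl⟩ := QuotientGroup.mk_surjective g
  obtain ⟨k, rfl⟩ := QuotientGroup.mk_surjective h
  exact mI_abs hE hb f.1 k.1

theorem mQ_tau (n : ℤ) : mQ hE hb ((QuotientGroup.mk (tau hE) : MCG (UE E)) ^ n) = n := by
  have : (QuotientGroup.mk (tau hE) : MCG (UE E)) ^ n = QuotientGroup.mk ((tau hE) ^ n) := rfl
  rw [this, mQ_mk, mI_tau_zpow hE hb]

theorem mQ_inv (g h : MCG (UE E)) :
    |mQ hE hb (g⁻¹ * h)| = |mQ hE hb h - mQ hE hb g| := by
  have := mQ_abs hE hb g (g⁻¹ * h)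
  rw [mul_inv_cancel_left] at this
  exact this.symm

omit hb in
/-- the choice of an element exchanging the special ends, if there is one -/
theorem exists_sigma : ∃ σ : HomeoPlus (UE E),
    extF hE σ.1 ∞ ≠ ∞ ∨ ∀ f : HomeoPlus (UE E), extF hE f.1 ∞ = ∞ := by
  by_cases h : ∃ σ : HomeoPlus (UE E), extF hE σ.1 ∞ ≠ ∞
  · obtain ⟨σ, hσ⟩ := h
    exact ⟨σ, Or.inl hσ⟩
  · push Not at h
    exact ⟨1, Or.inr h⟩

/-- sets of bounded flux and neighbourhoods of the identity -/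
theorem key_nhds (hE : EGap E) (hb : Nonempty (↥(E ∩ Icc 1 2) ≃ₜ XL blk))
    {N : Set (HomeoPlus (UE E))} (hN : N ∈ 𝓝 (1 : HomeoPlus (UE E)))
    {σ : HomeoPlus (UE E)}
    (hσ : extF hE σ.1 ∞ ≠ ∞ ∨ ∀ f : HomeoPlus (UE E), extF hE f.1 ∞ = ∞) (k : ℕ) :
    ∃ n : ℕ, ∀ f : HomeoPlus (UE E), |mI hE f.1| ≤ k →
      f ∈ (N ∪ {tau hE, (tau hE)⁻¹, σ, σ⁻¹}) ^ n := by
  obtain ⟨K, hK, hKN⟩ := nhds_one_supp (UE_open hE) hN
  obtain ⟨n, hn⟩ := key hE hb (K := Subtype.val '' K) (hK.image continuous_subtype_val)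
    (by rintro _ ⟨x, -, rfl⟩; exact x.2) σ hσ k
  refine ⟨n, fun f hf => ?_⟩
  refine pow_subset_pow_left ?_ (hn f hf)
  apply union_subset_union_left
  intro g hg
  apply hKN
  intro z hz
  exact hg z (mem_image_of_mem _ hz)

theorem main_hb (hE : EGap E) (hb : Nonempty (↥(E ∩ Icc 1 2) ≃ₜ XL blk))
    {A : Set (MCG (UE E))} (hA : (interior A).Nonempty) (hAi : A⁻¹ = A)
    (hAg : Subgroup.closure A = ⊤) (k : ℤ) :
    ∃ n : ℕ, ∀ g, |mQ hE hb g| ≤ k → g ∈ (insert 1 A) ^ n := by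
  obtain ⟨σ, hσ⟩ := exists_sigma hE
  obtain ⟨g₀, hg₀⟩ := hA
  obtain ⟨f₀, rfl⟩ := QuotientGroup.mk_surjective g₀
  have hcont : Continuous (fun f : HomeoPlus (UE E) =>
      (QuotientGroup.mk (f₀ * f) : MCG (UE E))) :=
    QuotientGroup.continuous_mk.comp (HomeoPlus_mul_left_cont f₀)
  have hN : {f : HomeoPlus (UE E) | (QuotientGroup.mk (f₀ * f) : MCG (UE E)) ∈ interior A} ∈
      𝓝 (1 : HomeoPlus (UE E)) := by
    refine (isOpen_interior.preimage hcont).mem_nhds ?_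
    change (QuotientGroup.mk (f₀ * 1) : MCG (UE E)) ∈ interior A
    rwa [mul_one]
  obtain ⟨n, hn⟩ := key_nhds hE hb hN hσ k.toNat
  obtain ⟨i₁, hi₁⟩ := gen_mem_pow hAi hAg (QuotientGroup.mk (tau hE))
  obtain ⟨i₂, hi₂⟩ := gen_mem_pow hAi hAg (QuotientGroup.mk σ)
  have h1 : (1 : MCG (UE E)) ∈ insert 1 A := mem_insert _ _
  have hinv : ∀ s ∈ insert (1 : MCG (UE E)) A, s⁻¹ ∈ insert (1 : MCG (UE E)) A := by
    intro s hs
    rcases hs with rfl | hs
    · left; simp
    · right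
      rw [← hAi]
      simpa using hs
  set i := 2 + i₁ + i₂ with hi
  refine ⟨i * n, fun g hg => ?_⟩
  obtain ⟨f, rfl⟩ := QuotientGroup.mk_surjective g
  have h2 := hn f (by
    have h0 : (0 : ℤ) ≤ k := (abs_nonneg _).trans hg
    rw [Int.toNat_of_nonneg h0]
    exact hg)
  have himg : ∀ s ∈ ({f : HomeoPlus (UE E) |
      (QuotientGroup.mk (f₀ * f) : MCG (UE E)) ∈ interior A} ∪
        {tau hE, (tau hE)⁻¹, σ, σ⁻¹}), (QuotientGroup.mk s : MCG (UE E)) ∈ (insert 1 A) ^ i := by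
    intro s hs
    rcases hs with hs | hs | hs | hs | hs
    · have h3 : (QuotientGroup.mk s : MCG (UE E)) =
          (QuotientGroup.mk f₀)⁻¹ * QuotientGroup.mk (f₀ * s) := by
        rw [QuotientGroup.mk_mul, inv_mul_cancel_left]
      rw [h3]
      refine pow_mem_mono h1 (show 1 + 1 ≤ i by omega) (pow_mem_mul ?_ ?_)
      · rw [pow_one]
        exact hinv _ (Or.inr (interior_subset hg₀))
      · rw [pow_one]
        exact Or.inr (interior_subset hs)
    · subst hs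
      exact pow_mem_mono h1 (by omega) hi₁
    · subst hs
      exact pow_mem_mono h1 (by omega) (pow_inv_mem hinv _ hi₁)
    · subst hs
      exact pow_mem_mono h1 (by omega) hi₂
    · rw [mem_singleton_iff] at hs
      subst hs
      exact pow_mem_mono h1 (by omega) (pow_inv_mem hinv _ hi₂)
  clear hg hn
  induction n generalizing f with
  | zero =>
    rw [pow_zero, Set.mem_one] at h2
    rw [h2, mul_zero, pow_zero, Set.mem_one]
    rfl
  | succ n ih =>
    rw [pow_succ] at h2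
    obtain ⟨a, ha, b, hb', rfl⟩ := h2
    rw [Nat.mul_succ]
    exact pow_mem_mul (ih a ha) (himg b hb')

theorem mQ_bound (hE : EGap E) (hb : Nonempty (↥(E ∩ Icc 1 2) ≃ₜ XL blk))
    {A : Set (MCG (UE E))} (hA : CoarselyBounded A) : ∃ C : ℤ, ∀ a ∈ A, |mQ hE hb a| ≤ C := by
  obtain ⟨C, hC⟩ := hA (fun g h => |((mQ hE hb g : ℤ) : ℝ) - ((mQ hE hb h : ℤ) : ℝ)|)
    (fun x => by simp) (fun x y => abs_sub_comm _ _) (fun x y z => abs_sub_le _ _ _)
    (fun g x y => by
      have h1 := mQ_inv hE hb (g * x) (g * y)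
      have h2 := mQ_inv hE hb x y
      rw [mul_inv_rev, mul_assoc, inv_mul_cancel_left, h2] at h1
      have h3 : |(mQ hE hb (g * x) : ℤ) - mQ hE hb (g * y)| =
          |(mQ hE hb x : ℤ) - mQ hE hb y| := by
        rw [abs_sub_comm, ← h1, abs_sub_comm]
      exact_mod_cast h3)
    (by
      have h1 : Continuous (fun g : MCG (UE E) => ((mQ hE hb g : ℤ) : ℝ)) :=
        continuous_of_discreteTopology.comp (mQ_cont hE hb)
      exact ((h1.comp continuous_fst).sub (h1.comp continuous_snd)).abs)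
  rcases A.eq_empty_or_nonempty with rfl | ⟨a₀, ha₀⟩
  · exact ⟨0, by simp⟩
  · refine ⟨⌈C⌉ + |mQ hE hb a₀|, fun a ha => ?_⟩
    have h1 := hC a ha a₀ ha₀
    have h2 : |mQ hE hb a - mQ hE hb a₀| ≤ ⌈C⌉ := by
      have h3 : ((|mQ hE hb a - mQ hE hb a₀| : ℤ) : ℝ) ≤ C := by
        push_cast
        exact h1
      exact_mod_cast h3.trans (Int.le_ceil C)
    have h3 := abs_add_le (mQ hE hb a - mQ hE hb a₀) (mQ hE hb a₀)
    rw [sub_add_cancel] at h3
    linarith

theorem main_numEnds (hE : EGap E) (hb : Nonempty (↥(E ∩ Icc 1 2) ≃ₜ XL blk))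
    {A : Set (MCG (UE E))} (hA : (interior A).Nonempty) (hAi : A⁻¹ = A)
    (hAc : CoarselyBounded A) (hAg : Subgroup.closure A = ⊤) : numEnds A = 2 := by
  obtain ⟨C, hC⟩ := mQ_bound hE hb hAc
  exact numEnds_eq_two A hAi (mQ hE hb) (mQ_abs hE hb) (QuotientGroup.mk (tau hE))
    (mQ_tau hE hb) C hC (main_hb hE hb hA hAi hAg)

theorem main_QI (hE : EGap E) (hb : Nonempty (↥(E ∩ Icc 1 2) ≃ₜ XL blk))
    {A : Set (MCG (UE E))} (hA : (interior A).Nonempty) (hAi : A⁻¹ = A)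
    (hAc : CoarselyBounded A) (hAg : Subgroup.closure A = ⊤) : QIToInt A := by
  obtain ⟨D, hD⟩ := mQ_bound hE hb hAc
  obtain ⟨n₀, hn₀⟩ := main_hb hE hb hA hAi hAg 0
  obtain ⟨i, hi⟩ := gen_mem_pow hAi hAg (QuotientGroup.mk (tau hE))
  have h1 : (1 : MCG (UE E)) ∈ insert 1 A := mem_insert _ _
  have hinv : ∀ s ∈ insert (1 : MCG (UE E)) A, s⁻¹ ∈ insert (1 : MCG (UE E)) A := by
    intro s hs
    rcases hs with rfl | hs
    · left; simp
    · right
      rw [← hAi]
      simpa using hs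
  have hzp : ∀ b : ℤ, (QuotientGroup.mk (tau hE) : MCG (UE E)) ^ b ∈
      (insert 1 A : Set (MCG (UE E))) ^ (i * b.natAbs) := by
    intro b
    rcases Int.eq_nat_or_neg b with ⟨k, rfl | rfl⟩
    · rw [zpow_natCast, Int.natAbs_natCast, pow_mul]
      exact pow_mem_pow hi
    · rw [zpow_neg, zpow_natCast, Int.natAbs_neg, Int.natAbs_natCast]
      refine pow_inv_mem hinv _ ?_
      rw [pow_mul]
      exact pow_mem_pow hi
  refine ⟨mQ hE hb, i + n₀ + D.toNat, fun n => ?_, fun g h => ⟨fun p => ?_, ?_⟩⟩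
  · refine ⟨(QuotientGroup.mk (tau hE) : MCG (UE E)) ^ n, ?_⟩
    rw [mQ_tau, sub_self, abs_zero]
    positivity
  · have h2 := ce_walk A (mQ hE hb) (mQ_abs hE hb) D.toNat
      (fun a ha => (hD a ha).trans (Int.self_le_toNat D)) p
    refine h2.trans ?_
    push_cast
    have h3 : (0 : ℤ) ≤ (i : ℤ) + n₀ := by positivity
    have h4 : (0 : ℤ) ≤ p.length := by positivity
    nlinarith
  · set x := g⁻¹ * h with hx
    set b := mQ hE hb x with hbx
    have h2 : |b| = |mQ hE hb h - mQ hE hb g| := mQ_inv hE hb g h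
    have h3 : ((QuotientGroup.mk (tau hE) : MCG (UE E)) ^ b)⁻¹ * x ∈
        (insert 1 A : Set (MCG (UE E))) ^ n₀ := by
      apply hn₀
      rw [mQ_inv, mQ_tau, ← hbx, sub_self, abs_zero]
    have h4 : x ∈ (insert 1 A : Set (MCG (UE E))) ^ (i * b.natAbs + n₀) := by
      have h5 : x = (QuotientGroup.mk (tau hE) : MCG (UE E)) ^ b *
          (((QuotientGroup.mk (tau hE) : MCG (UE E)) ^ b)⁻¹ * x) := by group
      rw [h5]
      exact pow_mem_mul (hzp b) h3
    obtain ⟨p, hp⟩ := ce_len A _ g h h4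
    refine ⟨p, ?_⟩
    rw [← h2, Int.abs_eq_natAbs]
    have h6 : (p.length : ℤ) ≤ i * b.natAbs + n₀ := by exact_mod_cast hp
    refine h6.trans ?_
    push_cast
    have h7 : (0 : ℤ) ≤ (n₀ : ℤ) + D.toNat := by positivity
    have h8 : (0 : ℤ) ≤ |b| := abs_nonneg _
    have h9 : (0 : ℤ) ≤ (i : ℤ) + D.toNat := by positivity
    nlinarith

/-- the standard generating set -/
def A1 (hE : EGap E) (hb : Nonempty (↥(E ∩ Icc 1 2) ≃ₜ XL blk)) : Set (MCG (UE E)) :=
  {g | |mQ hE hb g| ≤ 1}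

theorem A1_open : IsOpen (A1 hE hb) := by
  have : A1 hE hb = mQ hE hb ⁻¹' {n : ℤ | |n| ≤ 1} := rfl
  rw [this]
  exact (isOpen_discrete _).preimage (mQ_cont hE hb)

theorem mQ_one : mQ hE hb 1 = 0 := by
  have := mQ_tau hE hb 0
  rwa [zpow_zero] at this

theorem A1_inv : (A1 hE hb)⁻¹ = A1 hE hb := by
  ext g
  have := mQ_inv hE hb g 1
  rw [mul_one, mQ_one, zero_sub, abs_neg] at this
  change |mQ hE hb g⁻¹| ≤ 1 ↔ |mQ hE hb g| ≤ 1
  rw [this]

theorem A1_gen : Subgroup.closure (A1 hE hb) = ⊤ := by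
  rw [eq_top_iff]
  intro g _
  have h1 : (QuotientGroup.mk (tau hE) : MCG (UE E)) ∈ Subgroup.closure (A1 hE hb) := by
    apply Subgroup.subset_closure
    have := mQ_tau hE hb 1
    rw [zpow_one] at this
    change |mQ hE hb _| ≤ 1
    rw [this]
    norm_num
  set n := mQ hE hb g with hn
  have h2 : (QuotientGroup.mk (tau hE) : MCG (UE E)) ^ (-n) * g ∈
      Subgroup.closure (A1 hE hb) := by
    apply Subgroup.subset_closure
    change |mQ hE hb _| ≤ 1
    have h3 := mQ_inv hE hb ((QuotientGroup.mk (tau hE) : MCG (UE E)) ^ n) g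
    rw [mQ_tau, ← hn, sub_self, abs_zero] at h3
    rw [zpow_neg, h3]
    norm_num
  have h3 : g = (QuotientGroup.mk (tau hE) : MCG (UE E)) ^ n *
      ((QuotientGroup.mk (tau hE) : MCG (UE E)) ^ (-n) * g) := by group
  rw [h3]
  exact mul_mem (zpow_mem h1 _) h2

theorem A1_CB : CoarselyBounded (A1 hE hb) := by
  intro d h0 hsymm htri hinv hcont
  obtain ⟨σ, hσ⟩ := exists_sigma hE
  have hc : Continuous (fun f : HomeoPlus (UE E) =>
      d 1 (QuotientGroup.mk f : MCG (UE E))) := by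
    have : Continuous (fun f : HomeoPlus (UE E) =>
        ((1 : MCG (UE E)), (QuotientGroup.mk f : MCG (UE E)))) :=
      continuous_const.prodMk QuotientGroup.continuous_mk
    exact hcont.comp this
  have hN : {f : HomeoPlus (UE E) | d 1 (QuotientGroup.mk f : MCG (UE E)) < 1} ∈
      𝓝 (1 : HomeoPlus (UE E)) := by
    refine (isOpen_lt hc continuous_const).mem_nhds ?_
    change d 1 (QuotientGroup.mk 1 : MCG (UE E)) < 1
    rw [QuotientGroup.mk_one, h0]
    exact one_pos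
  obtain ⟨n, hn⟩ := key_nhds hE hb hN hσ 1
  have hdinv : ∀ g : MCG (UE E), d 1 g⁻¹ = d 1 g := by
    intro g
    have := hinv g 1 g⁻¹
    rw [mul_one, mul_inv_cancel] at this
    rw [← this, hsymm]
  have hdmul : ∀ g h : MCG (UE E), d 1 (g * h) ≤ d 1 g + d 1 h := by
    intro g h
    refine (htri 1 g (g * h)).trans ?_
    have := hinv g 1 h
    rw [mul_one] at this
    rw [this]
  set C₀ := max 1 (max (d 1 (QuotientGroup.mk (tau hE))) (d 1 (QuotientGroup.mk σ))) with hC₀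
  have hs : ∀ s ∈ ({f : HomeoPlus (UE E) | d 1 (QuotientGroup.mk f : MCG (UE E)) < 1} ∪
        {tau hE, (tau hE)⁻¹, σ, σ⁻¹}), d 1 (QuotientGroup.mk s : MCG (UE E)) ≤ C₀ := by
    intro s hs
    rcases hs with hs | hs | hs | hs | hs
    · exact (le_of_lt hs).trans (le_max_left _ _)
    · subst hs
      exact (le_max_left _ _).trans (le_max_right _ _)
    · subst hs
      rw [QuotientGroup.mk_inv, hdinv]
      exact (le_max_left _ _).trans (le_max_right _ _)
    · subst hs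
      exact (le_max_right _ _).trans (le_max_right _ _)
    · rw [mem_singleton_iff] at hs
      subst hs
      rw [QuotientGroup.mk_inv, hdinv]
      exact (le_max_right _ _).trans (le_max_right _ _)
  have hpow : ∀ (n : ℕ) (f : HomeoPlus (UE E)),
      f ∈ ({f : HomeoPlus (UE E) | d 1 (QuotientGroup.mk f : MCG (UE E)) < 1} ∪
        {tau hE, (tau hE)⁻¹, σ, σ⁻¹}) ^ n → d 1 (QuotientGroup.mk f : MCG (UE E)) ≤ n * C₀ := by
    intro n
    induction n with
    | zero =>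
      intro f hf
      rw [pow_zero, Set.mem_one] at hf
      subst hf
      rw [QuotientGroup.mk_one, h0]
      simp
    | succ n ih =>
      intro f hf
      rw [pow_succ] at hf
      obtain ⟨a, ha, b, hb', rfl⟩ := hf
      have h1 := hdmul (QuotientGroup.mk a) (QuotientGroup.mk b)
      have h2 := ih a ha
      have h3 := hs b hb'
      change d 1 (QuotientGroup.mk a * QuotientGroup.mk b : MCG (UE E)) ≤ _
      push_cast
      linarith
  refine ⟨n * C₀ + n * C₀, fun x hx y hy => ?_⟩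
  have hxy : ∀ x ∈ A1 hE hb, d 1 x ≤ n * C₀ := by
    intro x hx
    obtain ⟨f, rfl⟩ := QuotientGroup.mk_surjective x
    exact hpow n f (hn f (by exact_mod_cast hx))
  have h1 := htri x 1 y
  rw [hsymm x 1] at h1
  linarith [hxy x hx, hxy y hy]

/-- The main theorem. -/
theorem main : ∃ U : Set ℂ, IsOpen U ∧ IsConnected U ∧
    (∀ x : U, ¬ Group.FG (FundamentalGroup U x)) ∧
    (∃ A : Set (MCG U), IsOpen A ∧ A⁻¹ = A ∧ CoarselyBounded A ∧ Subgroup.closure A = ⊤) ∧
    ∀ A : Set (MCG U), (interior A).Nonempty → A⁻¹ = A → CoarselyBounded A →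
      Subgroup.closure A = ⊤ → numEnds A = 2 ∧ QIToInt A := by
  obtain ⟨E, hE, hb⟩ := exists_E
  have hne : E.Nonempty := by
    obtain ⟨h⟩ := hb
    obtain ⟨x⟩ : Nonempty (XL blk) := ⟨⟨⟨0, by simp [blk]⟩, Classical.arbitrary _⟩⟩
    exact ⟨(h.symm x : ℝ), (h.symm x).2.1⟩
  exact ⟨UE E, UE_open hE, UE_connected hE, pi1_not_fg hE hne,
    ⟨A1 hE hb, A1_open hE hb, A1_inv hE hb, A1_CB hE hb, A1_gen hE hb⟩,
    fun A h1 h2 h3 h4 => ⟨main_numEnds hE hb h1 h2 h3 h4, main_QI hE hb h1 h2 h3 h4⟩⟩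

end Ends72
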