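import Mathlib

/-! Shear homeomorphisms of the plane. -/

open Set Metric Topology Filter

noncomputable section

namespace Ends72

/-- A horizontal shear: `(x, y) ↦ (x + D x y, y)`. -/
theorem shearH {D : ℝ → ℝ → ℝ} (hc : Continuous fun p : ℝ × ℝ => D p.1 p.2) {C : ℝ}
    (hC : ∀ x y, |D x y| ≤ C) (hm : ∀ y, StrictMono fun x => x + D x y) :
    ∃ H : ℂ ≃ₜ ℂ, ∀ z : ℂ, H z = ⟨z.re + D z.re z.im, z.im⟩ := by
  have hcx : ∀ y, Continuous fun x => x + D x y := fun y =>
    continuous_id.add (hc.comp (continuous_id.prodMk continuous_const))
  have hsurj : ∀ y, Function.Surjective fun x => x + D x y := by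
    intro y
    refine (hcx y).surjective ?_ ?_
    · refine tendsto_atTop_mono (f := fun x => x + (-C)) (fun x => ?_) ?_
      · have := (abs_le.1 (hC x y)).1
        linarith
      · exact tendsto_atTop_add_const_right _ _ tendsto_id
    · refine tendsto_atBot_mono (f := fun x => x + C) (fun x => ?_) ?_
      · have := (abs_le.1 (hC x y)).2
        linarith
      · exact tendsto_atBot_add_const_right _ _ tendsto_id
  choose g hg using hsurj
  have hg' : ∀ x y, g y (x + D x y) = x := fun x y => (hm y).injective (hg y _)
  refine ⟨⟨⟨fun z => ⟨z.re + D z.re z.im, z.im⟩, fun z => ⟨g z.im z.re, z.im⟩, ?_, ?_⟩, ?_, ?_⟩,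
    fun z => rfl⟩
  · intro z
    apply Complex.ext
    · exact hg' z.re z.im
    · rfl
  · intro z
    apply Complex.ext
    · exact hg z.im z.re
    · rfl
  · have h1 : Continuous fun z : ℂ => z.re + D z.re z.im :=
      Complex.continuous_re.add (hc.comp (Complex.continuous_re.prodMk Complex.continuous_im))
    have h2 : Continuous fun z : ℂ => ((z.re + D z.re z.im : ℝ) : ℂ) + (z.im : ℂ) * Complex.I := by
      exact (Complex.continuous_ofReal.comp h1).add
        ((Complex.continuous_ofReal.comp Complex.continuous_im).mul continuous_const)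
    refine h2.congr fun z => ?_
    apply Complex.ext <;> simp
  · have h1 : Continuous fun z : ℂ => g z.im z.re := by
      rw [continuous_iff_continuousAt]
      intro z₀
      refine tendsto_order.2 ⟨fun a ha => ?_, fun a ha => ?_⟩
      · have h0 : a + D a z₀.im < z₀.re := by
          have h3 := hm z₀.im ha
          have h4 := hg z₀.im z₀.re
          simp only at h3 h4
          rwa [h4] at h3
        have hcont : Continuous fun z : ℂ => a + D a z.im :=
          continuous_const.add (hc.comp (continuous_const.prodMk Complex.continuous_im))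
        filter_upwards [hcont.continuousAt.eventually_lt Complex.continuous_re.continuousAt h0]
          with z hz
        have h4 := hg z.im z.re
        simp only at h4
        rw [← h4] at hz
        exact (hm z.im).lt_iff_lt.1 hz
      · have h0 : z₀.re < a + D a z₀.im := by
          have h3 := hm z₀.im ha
          have h4 := hg z₀.im z₀.re
          simp only at h3 h4
          rwa [h4] at h3
        have hcont : Continuous fun z : ℂ => a + D a z.im :=
          continuous_const.add (hc.comp (continuous_const.prodMk Complex.continuous_im))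
        filter_upwards [Complex.continuous_re.continuousAt.eventually_lt hcont.continuousAt h0]
          with z hz
        have h4 := hg z.im z.re
        simp only at h4
        rw [← h4] at hz
        exact (hm z.im).lt_iff_lt.1 hz
    have h2 : Continuous fun z : ℂ => ((g z.im z.re : ℝ) : ℂ) + (z.im : ℂ) * Complex.I := by
      exact (Complex.continuous_ofReal.comp h1).add
        ((Complex.continuous_ofReal.comp Complex.continuous_im).mul continuous_const)
    refine h2.congr fun z => ?_
    apply Complex.ext <;> simp

/-- The reflection exchanging the two coordinates. -/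
def swapC : ℂ ≃ₜ ℂ where
  toFun z := ⟨z.im, z.re⟩
  invFun z := ⟨z.im, z.re⟩
  left_inv z := rfl
  right_inv z := rfl
  continuous_toFun := by
    have h2 : Continuous fun z : ℂ => (z.im : ℂ) + (z.re : ℂ) * Complex.I := by fun_prop
    refine h2.congr fun z => ?_
    apply Complex.ext <;> simp
  continuous_invFun := by
    have h2 : Continuous fun z : ℂ => (z.im : ℂ) + (z.re : ℂ) * Complex.I := by fun_prop
    refine h2.congr fun z => ?_
    apply Complex.ext <;> simp

/-- A vertical shear: `(x, y) ↦ (x, y + D x y)`. -/
theorem shearV {D : ℝ → ℝ → ℝ} (hc : Continuous fun p : ℝ × ℝ => D p.1 p.2) {C : ℝ}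
    (hC : ∀ x y, |D x y| ≤ C) (hm : ∀ x, StrictMono fun y => y + D x y) :
    ∃ H : ℂ ≃ₜ ℂ, ∀ z : ℂ, H z = ⟨z.re, z.im + D z.re z.im⟩ := by
  obtain ⟨H, hH⟩ := shearH (D := fun x y => D y x)
    (hc.comp (continuous_snd.prodMk continuous_fst)) (fun x y => hC y x) hm
  refine ⟨(swapC.trans H).trans swapC, fun z => ?_⟩
  change swapC (H (swapC z)) = _
  rw [hH]
  rfl

end Ends72
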