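import Pool.Agent.LibEnds72.Push
import Pool.Agent.LibEnds72.Shear

/-! TASK H3: moving finitely many real intervals close to given real points. -/

open Set Metric Topology Filter

noncomputable section

namespace Ends72

/-- the displacement profile of `shrink_box` -/
def gpsi (a b η : ℝ) (x : ℝ) : ℝ :=
  max (min (x - (a + b) / 2) (max 0 ((b - a) / (2 * η) * (b + η - x))))
    (min 0 (-((b - a) / (2 * η) * (x - (a - η)))))

theorem gpsi_cont (a b η : ℝ) : Continuous (gpsi a b η) := by
  unfold gpsi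
  fun_prop

theorem gpsi_le {a b η : ℝ} (hab : a < b) (hη : 0 < η) {x x' : ℝ} (hxx' : x ≤ x') :
    gpsi a b η x' ≤ gpsi a b η x + (x' - x) := by
  have hr : 0 < (b - a) / (2 * η) := div_pos (by linarith) (by linarith)
  set r := (b - a) / (2 * η) with hrdef
  have hmul : 0 ≤ r * (x' - x) := mul_nonneg hr.le (by linarith)
  unfold gpsi
  rw [← hrdef, ← max_add_add_right, ← min_add_add_right, ← min_add_add_right, ← max_add_add_right]
  refine max_le_max (min_le_min (by linarith) (max_le_max (by linarith) (by nlinarith)))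
    (min_le_min (by linarith) (by nlinarith))

theorem gpsi_left {a b η : ℝ} (hab : a < b) (hη : 0 < η) {x : ℝ} (hx : x ≤ a - η) :
    gpsi a b η x = 0 := by
  have hr : 0 < (b - a) / (2 * η) := div_pos (by linarith) (by linarith)
  unfold gpsi
  set r := (b - a) / (2 * η) with hrdef
  have h1 : 0 ≤ -(r * (x - (a - η))) := by nlinarith
  rw [min_eq_left h1]
  apply max_eq_right
  exact (min_le_left _ _).trans (by linarith)

theorem gpsi_right {a b η : ℝ} (hab : a < b) (hη : 0 < η) {x : ℝ} (hx : b + η ≤ x) :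
    gpsi a b η x = 0 := by
  have hr : 0 < (b - a) / (2 * η) := div_pos (by linarith) (by linarith)
  unfold gpsi
  set r := (b - a) / (2 * η) with hrdef
  have h1 : r * (b + η - x) ≤ 0 := by nlinarith
  rw [max_eq_left h1, min_eq_right (by linarith : (0 : ℝ) ≤ x - (a + b) / 2)]
  exact max_eq_left (min_le_left _ _)

theorem gpsi_mid {a b η : ℝ} (hab : a < b) (hη : 0 < η) {x : ℝ} (hx : x ∈ Icc a b) :
    gpsi a b η x = x - (a + b) / 2 := by
  have hr : 0 < (b - a) / (2 * η) := div_pos (by linarith) (by linarith)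
  unfold gpsi
  set r := (b - a) / (2 * η) with hrdef
  have hrη : r * η = (b - a) / 2 := by rw [hrdef]; field_simp
  obtain ⟨hx1, hx2⟩ := hx
  have h1 : x - (a + b) / 2 ≤ r * (b + η - x) := by
    have : 0 ≤ r * (b - x) := mul_nonneg hr.le (by linarith)
    nlinarith
  have h2 : -(r * (x - (a - η))) ≤ x - (a + b) / 2 := by
    have : 0 ≤ r * (x - a) := mul_nonneg hr.le (by linarith)
    nlinarith
  rw [min_eq_left (h1.trans (le_max_right _ _))]
  exact max_eq_left ((min_le_right _ _).trans h2)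

theorem gpsi_bound {a b η : ℝ} (hab : a < b) (hη : 0 < η) (x : ℝ) :
    |gpsi a b η x| ≤ b - a := by
  have hr : 0 < (b - a) / (2 * η) := div_pos (by linarith) (by linarith)
  unfold gpsi
  set r := (b - a) / (2 * η) with hrdef
  have hrη : r * η = (b - a) / 2 := by rw [hrdef]; field_simp
  rw [abs_le]
  constructor
  · rcases le_total x a with h | h
    · refine le_trans ?_ (le_max_right _ _)
      refine le_min (by linarith) ?_
      have : 0 ≤ r * (a - x) := mul_nonneg hr.le (by linarith)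
      nlinarith
    · refine le_trans ?_ (le_max_left _ _)
      refine le_min (by linarith) (le_trans (by linarith) (le_max_left _ _))
  · refine max_le ?_ ((min_le_left _ _).trans (by linarith))
    rcases le_total x b with h | h
    · exact (min_le_left _ _).trans (by linarith)
    · refine (min_le_right _ _).trans (max_le (by linarith) ?_)
      have : 0 ≤ r * (x - b) := mul_nonneg hr.le (by linarith)
      nlinarith

/-- shrinking an interval inside a box -/
theorem shrink_box {a b η ε : ℝ} (hab : a < b) (hη : 0 < η) (hε : 0 < ε) :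
    ∃ g : ℂ ≃ₜ ℂ, (∀ z : ℂ, ¬ (z.re ∈ Ioo (a - η) (b + η) ∧ |z.im| < η) → g z = z) ∧
      ∀ x ∈ Icc a b, ∃ y : ℝ, |y - (a + b) / 2| < ε ∧ g ((x : ℝ) : ℂ) = (y : ℂ) := by
  -- the contraction factor
  obtain ⟨l, hl0, hl1, hl2⟩ : ∃ l : ℝ, 0 < l ∧ l ≤ 1 ∧ l * (b - a) < ε := by
    refine ⟨min 1 (ε / (2 * (b - a))), ?_, min_le_left _ _, ?_⟩
    · exact lt_min one_pos (div_pos hε (by linarith))
    · have h1 : min 1 (ε / (2 * (b - a))) ≤ ε / (2 * (b - a)) := min_le_right _ _
      have h2 : ε / (2 * (b - a)) * (b - a) = ε / 2 := by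
        have : b - a ≠ 0 := by linarith
        field_simp
      have h3 := mul_le_mul_of_nonneg_right h1 (by linarith : (0 : ℝ) ≤ b - a)
      linarith
  let χ : ℝ → ℝ := fun y => max 0 (1 - |y| / η)
  have hχ0 : ∀ y, 0 ≤ χ y := fun y => le_max_left _ _
  have hχ1 : ∀ y, χ y ≤ 1 := fun y => max_le (by norm_num) (by
    have : 0 ≤ |y| / η := div_nonneg (abs_nonneg _) hη.le
    linarith)
  let D : ℝ → ℝ → ℝ := fun x y => -(χ y * (1 - l) * gpsi a b η x)
  have hDc : Continuous fun p : ℝ × ℝ => D p.1 p.2 := by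
    have h1 : Continuous fun p : ℝ × ℝ => χ p.2 := by
      show Continuous fun p : ℝ × ℝ => max 0 (1 - |p.2| / η)
      fun_prop
    have h2 : Continuous fun p : ℝ × ℝ => gpsi a b η p.1 := (gpsi_cont a b η).comp continuous_fst
    exact ((h1.mul continuous_const).mul h2).neg
  have hDb : ∀ x y, |D x y| ≤ b - a := by
    intro x y
    show |-(χ y * (1 - l) * gpsi a b η x)| ≤ b - a
    rw [abs_neg, abs_mul, abs_of_nonneg (mul_nonneg (hχ0 y) (by linarith))]
    have h1 : χ y * (1 - l) ≤ 1 := mul_le_one₀ (hχ1 y) (by linarith) (by linarith)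
    calc χ y * (1 - l) * |gpsi a b η x| ≤ 1 * |gpsi a b η x| :=
          mul_le_mul_of_nonneg_right h1 (abs_nonneg _)
      _ ≤ b - a := by rw [one_mul]; exact gpsi_bound hab hη x
  have hDm : ∀ y, StrictMono fun x => x + D x y := by
    intro y x x' hxx'
    show x + -(χ y * (1 - l) * gpsi a b η x) < x' + -(χ y * (1 - l) * gpsi a b η x')
    have h1 := gpsi_le hab hη hxx'.le
    have h2 : 0 ≤ χ y * (1 - l) := mul_nonneg (hχ0 y) (by linarith)
    have h3 : χ y * (1 - l) ≤ 1 - l := by
      have := mul_le_mul_of_nonneg_right (hχ1 y) (by linarith : (0 : ℝ) ≤ 1 - l)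
      linarith
    have h4 : χ y * (1 - l) * (gpsi a b η x' - gpsi a b η x) ≤ (1 - l) * (x' - x) := by
      calc χ y * (1 - l) * (gpsi a b η x' - gpsi a b η x) ≤ χ y * (1 - l) * (x' - x) :=
            mul_le_mul_of_nonneg_left (by linarith) h2
        _ ≤ (1 - l) * (x' - x) := mul_le_mul_of_nonneg_right h3 (by linarith)
    have h5 : 0 < l * (x' - x) := mul_pos hl0 (by linarith)
    nlinarith
  obtain ⟨g, hg⟩ := shearH hDc hDb hDm
  refine ⟨g, ?_, ?_⟩
  · intro z hz
    rw [hg]
    have hD0 : D z.re z.im = 0 := by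
      show -(χ z.im * (1 - l) * gpsi a b η z.re) = 0
      rw [not_and_or] at hz
      rcases hz with hz | hz
      · have : gpsi a b η z.re = 0 := by
          rw [mem_Ioo, not_and_or, not_lt, not_lt] at hz
          rcases hz with hz | hz
          · exact gpsi_left hab hη hz
          · exact gpsi_right hab hη hz
        rw [this]; ring
      · have : χ z.im = 0 := by
          apply max_eq_left
          rw [not_lt] at hz
          have : 1 ≤ |z.im| / η := by rwa [le_div_iff₀ hη, one_mul]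
          linarith
        rw [this]; ring
    rw [hD0]
    apply Complex.ext <;> simp
  · intro x hx
    refine ⟨x + D x 0, ?_, ?_⟩
    · have h1 : D x 0 = -((1 - l) * (x - (a + b) / 2)) := by
        show -(χ 0 * (1 - l) * gpsi a b η x) = _
        have : χ 0 = 1 := by simp [χ]
        rw [this, gpsi_mid hab hη hx, one_mul]
      rw [h1]
      have h2 : x + -((1 - l) * (x - (a + b) / 2)) - (a + b) / 2 = l * (x - (a + b) / 2) := by ring
      rw [h2, abs_mul, abs_of_pos hl0]
      refine lt_of_le_of_lt ?_ hl2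
      refine mul_le_mul_of_nonneg_left ?_ hl0.le
      rw [abs_le]
      constructor <;> linarith [hx.1, hx.2]
    · rw [hg]
      apply Complex.ext <;> simp

theorem gather {Ω : Set ℂ} (ho : IsOpen Ω) (hc : IsPreconnected Ω) {n : ℕ} (a b : Fin n → ℝ)
    (hab : ∀ i, a i < b i)
    (hdisj : ∀ i j, i ≠ j → Disjoint (Icc (a i) (b i)) (Icc (a j) (b j)))
    (hΩ : ∀ i, ∀ x ∈ Icc (a i) (b i), ((x : ℝ) : ℂ) ∈ Ω) (d : Fin n → ℝ)
    (hd : Function.Injective d) (hdΩ : ∀ i, ((d i : ℝ) : ℂ) ∈ Ω) {ε : ℝ} (hε : 0 < ε) :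
    ∃ (g : ℂ ≃ₜ ℂ) (K : Set ℂ), IsCompact K ∧ K ⊆ Ω ∧ (∀ z, z ∉ K → g z = z) ∧
      ∀ i, ∀ x ∈ Icc (a i) (b i), ∃ y : ℝ, |y - d i| < ε ∧ g ((x : ℝ) : ℂ) = (y : ℂ) := by
  classical
  set c : Fin n → ℝ := fun i => (a i + b i) / 2 with hcdef
  have hcI : ∀ i, c i ∈ Icc (a i) (b i) := fun i => by
    constructor <;> simp only [hcdef] <;> linarith [hab i]
  have hcinj : Function.Injective fun i => ((c i : ℝ) : ℂ) := by
    intro i j hij
    by_contra hne
    have h1 : c i = c j := Complex.ofReal_injective hij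
    exact Set.disjoint_left.1 (hdisj i j hne) (hcI i) (h1 ▸ hcI j)
  obtain ⟨g₀, K₀, hK₀, hK₀Ω, hg₀, hg₀c⟩ := multipush ho hc (fun i => ((c i : ℝ) : ℂ))
    (fun i => ((d i : ℝ) : ℂ)) hcinj (Complex.ofReal_injective.comp hd) (fun i => hΩ i _ (hcI i))
    hdΩ
  -- the closed boxes
  let Bx : ℝ → Fin n → Set ℂ := fun η i => Icc (a i - η) (b i + η) ×ℂ Icc (-η) η
  have e1 : ∀ᶠ η in 𝓝[>] (0 : ℝ), ∀ i, Bx η i ⊆ Ω := by
    rw [Filter.eventually_all]
    intro i
    have hcomp : IsCompact ((fun x : ℝ => (x : ℂ)) '' Icc (a i) (b i)) :=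
      isCompact_Icc.image Complex.continuous_ofReal
    have hsub : (fun x : ℝ => (x : ℂ)) '' Icc (a i) (b i) ⊆ Ω := by
      rintro _ ⟨x, hx, rfl⟩
      exact hΩ i x hx
    obtain ⟨δ, hδ, hδΩ⟩ := hcomp.exists_cthickening_subset_open ho hsub
    have : ∀ᶠ η in 𝓝[>] (0 : ℝ), η < δ / 2 ∧ 0 < η :=
      (Filter.Tendsto.eventually_lt_const (by linarith) tendsto_id).filter_mono
        nhdsWithin_le_nhds |>.and self_mem_nhdsWithin
    filter_upwards [this] with η hη
    intro z hz
    apply hδΩ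
    rw [Complex.mem_reProdIm] at hz
    obtain ⟨⟨h1, h2⟩, h3, h4⟩ := hz
    set x : ℝ := max (a i) (min z.re (b i)) with hx
    have hxI : x ∈ Icc (a i) (b i) := ⟨le_max_left _ _, max_le (hab i).le (min_le_right _ _)⟩
    have hxz : |z.re - x| ≤ η := by
      rw [hx]
      rcases le_total z.re (b i) with h5 | h5
      · rw [min_eq_left h5]
        rcases le_total (a i) z.re with h6 | h6
        · rw [max_eq_right h6, sub_self, abs_zero]; exact hη.2.le
        · rw [max_eq_left h6, abs_le]; constructor <;> linarith [hη.2]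
      · rw [min_eq_right h5, max_eq_right (hab i).le, abs_le]
        constructor <;> linarith [hη.2]
    refine mem_cthickening_of_dist_le z ((x : ℝ) : ℂ) δ _ ⟨x, hxI, rfl⟩ ?_
    rw [dist_eq_norm]
    calc ‖z - (x : ℂ)‖ ≤ |(z - (x : ℂ)).re| + |(z - (x : ℂ)).im| := Complex.norm_le_abs_re_add_abs_im _
      _ = |z.re - x| + |z.im| := by simp
      _ ≤ η + η := add_le_add hxz (abs_le.2 ⟨h3, h4⟩)
      _ ≤ δ := by linarith [hη.1]
  have e2 : ∀ᶠ η in 𝓝[>] (0 : ℝ), ∀ i j, i ≠ j → b i + η < a j ∨ b j < a i - η := by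
    rw [Filter.eventually_all]
    intro i
    rw [Filter.eventually_all]
    intro j
    by_cases hij : i = j
    · exact Filter.Eventually.of_forall fun η h => absurd hij h
    · rcases lt_or_ge (b i) (a j) with h | h
      · have : ∀ᶠ η in 𝓝[>] (0 : ℝ), η < a j - b i :=
          (Filter.Tendsto.eventually_lt_const (by linarith) tendsto_id).filter_mono
            nhdsWithin_le_nhds
        filter_upwards [this] with η hη _
        left; linarith
      · have hlt : b j < a i := by
          by_contra hcon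
          rw [not_lt] at hcon
          have h1 : max (a i) (a j) ∈ Icc (a i) (b i) := ⟨le_max_left _ _, max_le (hab i).le h⟩
          have h2 : max (a i) (a j) ∈ Icc (a j) (b j) := ⟨le_max_right _ _, max_le hcon (hab j).le⟩
          exact Set.disjoint_left.1 (hdisj i j hij) h1 h2
        have : ∀ᶠ η in 𝓝[>] (0 : ℝ), η < a i - b j :=
          (Filter.Tendsto.eventually_lt_const (by linarith) tendsto_id).filter_mono
            nhdsWithin_le_nhds
        filter_upwards [this] with η hη _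
        right; linarith
  obtain ⟨η, ⟨hηΩ, hηd⟩, hη⟩ := ((e1.and e2).and self_mem_nhdsWithin).exists
  -- the size of the shrunk intervals
  have e3 : ∀ᶠ e in 𝓝[>] (0 : ℝ), ∀ i, (∀ z : ℂ, dist z (c i : ℂ) < e →
      g₀ z = z + ((d i : ℂ) - (c i : ℂ))) ∧ e < (b i - a i) / 2 := by
    rw [Filter.eventually_all]
    intro i
    obtain ⟨δ, hδ, hδ'⟩ := Metric.eventually_nhds_iff.1 (hg₀c i)
    have h1 : ∀ᶠ e in 𝓝[>] (0 : ℝ), e < min δ ((b i - a i) / 2) :=
      (Filter.Tendsto.eventually_lt_const (lt_min hδ (by linarith [hab i])) tendsto_id).filter_mono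
        nhdsWithin_le_nhds
    filter_upwards [h1] with e he
    exact ⟨fun z hz => hδ' (hz.trans (he.trans_le (min_le_left _ _))),
      he.trans_le (min_le_right _ _)⟩
  have e4 : ∀ᶠ e in 𝓝[>] (0 : ℝ), e < ε :=
    (Filter.Tendsto.eventually_lt_const hε tendsto_id).filter_mono nhdsWithin_le_nhds
  obtain ⟨e, ⟨he1, he2⟩, he⟩ := ((e3.and e4).and self_mem_nhdsWithin).exists
  choose s hs1 hs2 using fun i => shrink_box (η := η) (hab i) hη he
  have hout : ∀ i (z : ℂ), z ∉ Bx η i → s i z = z := by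
    intro i z hz
    apply hs1
    rintro ⟨h1, h2⟩
    apply hz
    rw [Complex.mem_reProdIm]
    exact ⟨⟨h1.1.le, h1.2.le⟩, abs_le.1 h2.le⟩
  have hIout : ∀ i j, i ≠ j → ∀ x ∈ Icc (a j) (b j), ((x : ℝ) : ℂ) ∉ Bx η i := by
    intro i j hij x hx hxB
    rw [Complex.mem_reProdIm, Complex.ofReal_re] at hxB
    rcases hηd i j hij with h | h
    · linarith [hx.1, hxB.1.2]
    · linarith [hx.2, hxB.1.1]
  have hind : ∀ S : Finset (Fin n), ∃ G : ℂ ≃ₜ ℂ, (∀ z, (∀ i ∈ S, z ∉ Bx η i) → G z = z) ∧
      ∀ i ∈ S, ∀ x ∈ Icc (a i) (b i), ∃ y : ℝ, |y - c i| < e ∧ G ((x : ℝ) : ℂ) = (y : ℂ) := by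
    intro S
    induction S using Finset.induction_on with
    | empty => exact ⟨Homeomorph.refl ℂ, fun z _ => rfl, fun i hi => by simp at hi⟩
    | insert j S hj ih =>
      obtain ⟨G, hG1, hG2⟩ := ih
      refine ⟨G.trans (s j), ?_, ?_⟩
      · intro z hz
        show s j (G z) = z
        rw [hG1 z (fun i hi => hz i (Finset.mem_insert_of_mem hi))]
        exact hout j z (hz j (Finset.mem_insert_self _ _))
      · intro i hi x hx
        rcases Finset.mem_insert.1 hi with rfl | hi
        · obtain ⟨y, hy1, hy2⟩ := hs2 i x hx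
          refine ⟨y, hy1, ?_⟩
          show s i (G x) = y
          rw [hG1 _ (fun k hk => hIout k i (fun h => hj (h ▸ hk)) x hx)]
          exact hy2
        · obtain ⟨y, hy1, hy2⟩ := hG2 i hi x hx
          refine ⟨y, hy1, ?_⟩
          show s j (G x) = y
          rw [hy2]
          apply hout
          refine hIout j i (fun h => hj (h ▸ hi)) y ?_
          have h1 := (he1 i).2
          rw [abs_lt] at hy1
          simp only [hcdef] at hy1
          constructor <;> linarith [hy1.1, hy1.2]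
  obtain ⟨G, hG1, hG2⟩ := hind Finset.univ
  refine ⟨G.trans g₀, K₀ ∪ ⋃ i, Bx η i, ?_, ?_, ?_, ?_⟩
  · refine hK₀.union (isCompact_iUnion fun i => ?_)
    exact isCompact_Icc.reProdIm isCompact_Icc
  · exact union_subset hK₀Ω (iUnion_subset hηΩ)
  · intro z hz
    rw [mem_union, not_or, mem_iUnion, not_exists] at hz
    show g₀ (G z) = z
    rw [hG1 z (fun i _ => hz.2 i)]
    exact hg₀ z hz.1
  · intro i x hx
    obtain ⟨y, hy1, hy2⟩ := hG2 i (Finset.mem_univ _) x hx
    refine ⟨y + (d i - c i), ?_, ?_⟩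
    · have : y + (d i - c i) - d i = y - c i := by ring
      rw [this]; exact hy1.trans he2
    · show g₀ (G x) = _
      rw [hy2, (he1 i).1]
      · push_cast; ring
      · rw [Complex.dist_of_im_eq (by simp), Complex.ofReal_re, Complex.ofReal_re, Real.dist_eq]
        exact hy1

end Ends72
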