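import Mathlib

/-! TASK D2b: a conformal germ extends to a homeomorphism which is the identity outside a disc. -/

open Set Metric Topology Filter

noncomputable section

namespace Ends72

/-- A perturbation of the identity with Lipschitz constant `3/4` is a homeomorphism. -/
theorem exists_homeo_of_lip {u : ℂ → ℂ} (hu : ∀ z w, ‖u z - u w‖ ≤ 3 / 4 * ‖z - w‖) :
    ∃ H : ℂ ≃ₜ ℂ, ∀ z, H z = z + u z := by
  have h1 : ApproximatesLinearOn (fun z => z + u z)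
      ((ContinuousLinearEquiv.refl ℂ ℂ : ℂ ≃L[ℂ] ℂ) : ℂ →L[ℂ] ℂ) univ (3 / 4 : NNReal) := by
    intro z _ w _
    have : z + u z - (w + u w) - ((ContinuousLinearEquiv.refl ℂ ℂ : ℂ ≃L[ℂ] ℂ) : ℂ →L[ℂ] ℂ) (z - w)
        = u z - u w := by
      simp only [ContinuousLinearEquiv.coe_refl, ContinuousLinearMap.id_apply]
      ring
    rw [this]
    simpa using hu z w
  refine ⟨h1.toHomeomorph _ (Or.inr ?_), fun z => rfl⟩
  have h2 : ‖(((ContinuousLinearEquiv.refl ℂ ℂ : ℂ ≃L[ℂ] ℂ).symm : ℂ ≃L[ℂ] ℂ) : ℂ →L[ℂ] ℂ)‖₊ = 1 := by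
    have : (((ContinuousLinearEquiv.refl ℂ ℂ : ℂ ≃L[ℂ] ℂ).symm : ℂ ≃L[ℂ] ℂ) : ℂ →L[ℂ] ℂ)
        = ContinuousLinearMap.id ℂ ℂ := rfl
    rw [this]
    ext
    simp
  rw [h2, inv_one]
  rw [div_lt_one (by norm_num)]
  norm_num

/-- The cutoff function. -/
def cut (ρ t : ℝ) : ℝ := min 1 (max 0 (2 - 2 * t / ρ))

theorem cut_nonneg (ρ t : ℝ) : 0 ≤ cut ρ t := le_min zero_le_one (le_max_left _ _)

theorem cut_le_one (ρ t : ℝ) : cut ρ t ≤ 1 := min_le_left _ _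

theorem cut_eq_zero {ρ t : ℝ} (hρ : 0 < ρ) (h : ρ ≤ t) : cut ρ t = 0 := by
  have h1 : 2 - 2 * t / ρ ≤ 0 := by
    have : 2 ≤ 2 * t / ρ := by rw [le_div_iff₀ hρ]; linarith
    linarith
  rw [cut, max_eq_left h1]
  exact min_eq_right zero_le_one

theorem cut_eq_one {ρ t : ℝ} (hρ : 0 < ρ) (h : t ≤ ρ / 2) : cut ρ t = 1 := by
  have h1 : 1 ≤ 2 - 2 * t / ρ := by
    have : 2 * t / ρ ≤ 1 := by rw [div_le_one hρ]; linarith
    linarith
  rw [cut]
  exact min_eq_left (h1.trans (le_max_right _ _))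

theorem cut_lip {ρ : ℝ} (hρ : 0 < ρ) (s t : ℝ) : |cut ρ s - cut ρ t| ≤ 2 / ρ * |s - t| := by
  have h1 : |cut ρ s - cut ρ t| ≤ |max 0 (2 - 2 * s / ρ) - max 0 (2 - 2 * t / ρ)| := by
    have := abs_min_sub_min_le_max 1 (max 0 (2 - 2 * s / ρ)) 1 (max 0 (2 - 2 * t / ρ))
    rw [sub_self, abs_zero] at this
    exact this.trans (max_le (abs_nonneg _) le_rfl)
  have h2 : |max 0 (2 - 2 * s / ρ) - max 0 (2 - 2 * t / ρ)|
      ≤ |(2 - 2 * s / ρ) - (2 - 2 * t / ρ)| := by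
    have := abs_max_sub_max_le_max 0 (2 - 2 * s / ρ) 0 (2 - 2 * t / ρ)
    rw [sub_self, abs_zero] at this
    exact this.trans (max_le (abs_nonneg _) le_rfl)
  have h3 : (2 - 2 * s / ρ) - (2 - 2 * t / ρ) = -(2 / ρ * (s - t)) := by ring
  rw [h3, abs_neg, abs_mul, abs_of_pos (div_pos two_pos hρ)] at h2
  exact h1.trans h2

/-- Germs with derivative close to `1`. -/
theorem germ_small {φ : ℂ → ℂ} {b : ℂ} (h0 : φ 0 = 0) (hd : HasStrictDerivAt φ b 0)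
    (hb : ‖b - 1‖ < 1 / 4) :
    ∃ G : ℂ ≃ₜ ℂ, (∀ z, 1 / 2 ≤ ‖z‖ → G z = z) ∧ ∀ᶠ z in 𝓝 0, G z = φ z := by
  have hr : HasStrictDerivAt (fun z => φ z - z) (b - 1) 0 := hd.sub (hasStrictDerivAt_id 0)
  have hK : ‖ContinuousLinearMap.toSpanSingleton ℂ (b - 1)‖₊ < (1 / 4 : NNReal) := by
    rw [← NNReal.coe_lt_coe, coe_nnnorm, ContinuousLinearMap.norm_toSpanSingleton]
    simpa using hb
  obtain ⟨s, hs, hL⟩ := hr.hasStrictFDerivAt.exists_lipschitzOnWith_of_nnnorm_lt (1 / 4) hK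
  obtain ⟨ρ0, hρ0, hball⟩ := Metric.mem_nhds_iff.1 hs
  set ρ : ℝ := min ρ0 (1 / 2) with hρdef
  have hρ : 0 < ρ := lt_min hρ0 (by norm_num)
  have hsub : ∀ z : ℂ, ‖z‖ < ρ → z ∈ s := fun z hz => hball (by
    rw [mem_ball_zero_iff]; exact hz.trans_le (min_le_left _ _))
  have hlip : ∀ z w : ℂ, ‖z‖ < ρ → ‖w‖ < ρ → ‖(φ z - z) - (φ w - w)‖ ≤ 1 / 4 * ‖z - w‖ := by
    intro z w hz hw
    have := hL.dist_le_mul z (hsub z hz) w (hsub w hw)
    rw [dist_eq_norm, dist_eq_norm] at this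
    simpa using this
  have hr0 : ∀ z : ℂ, ‖z‖ < ρ → ‖φ z - z‖ ≤ 1 / 4 * ρ := by
    intro z hz
    have := hlip z 0 hz (by simpa using hρ)
    rw [h0, sub_zero, sub_zero, sub_zero] at this
    exact this.trans (mul_le_mul_of_nonneg_left hz.le (by norm_num))
  set u : ℂ → ℂ := fun z => (cut ρ ‖z‖ : ℂ) * (φ z - z) with hu
  have hu0 : ∀ z : ℂ, ρ ≤ ‖z‖ → u z = 0 := by
    intro z hz
    simp only [hu]
    rw [cut_eq_zero hρ hz]
    simp
  have hcl : ∀ z w : ℂ, |cut ρ ‖z‖ - cut ρ ‖w‖| ≤ 2 / ρ * ‖z - w‖ := fun z w =>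
    (cut_lip hρ _ _).trans (mul_le_mul_of_nonneg_left (abs_norm_sub_norm_le z w)
      (div_pos two_pos hρ).le)
  have hmix : ∀ z w : ℂ, ‖z‖ < ρ → ρ ≤ ‖w‖ → ‖u z - u w‖ ≤ 3 / 4 * ‖z - w‖ := by
    intro z w hz hw
    rw [hu0 w hw, sub_zero]
    simp only [hu]
    rw [norm_mul, Complex.norm_real, Real.norm_eq_abs]
    have h1 := hcl z w
    rw [cut_eq_zero hρ hw, sub_zero] at h1
    calc |cut ρ ‖z‖| * ‖φ z - z‖ ≤ (2 / ρ * ‖z - w‖) * (1 / 4 * ρ) :=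
          mul_le_mul h1 (hr0 z hz) (norm_nonneg _) (by positivity)
      _ = 1 / 2 * ‖z - w‖ := by field_simp; ring
      _ ≤ 3 / 4 * ‖z - w‖ := mul_le_mul_of_nonneg_right (by norm_num) (norm_nonneg _)
  have hulip : ∀ z w, ‖u z - u w‖ ≤ 3 / 4 * ‖z - w‖ := by
    intro z w
    rcases lt_or_ge ‖z‖ ρ with hz | hz
    · rcases lt_or_ge ‖w‖ ρ with hw | hw
      · have h1 : u z - u w = (cut ρ ‖z‖ : ℂ) * ((φ z - z) - (φ w - w))
            + ((cut ρ ‖z‖ - cut ρ ‖w‖ : ℝ) : ℂ) * (φ w - w) := by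
          simp only [hu]
          push_cast
          ring
        rw [h1]
        refine (norm_add_le _ _).trans ?_
        rw [norm_mul, norm_mul, Complex.norm_real, Complex.norm_real, Real.norm_eq_abs,
          Real.norm_eq_abs, abs_of_nonneg (cut_nonneg _ _)]
        calc cut ρ ‖z‖ * ‖φ z - z - (φ w - w)‖ + |cut ρ ‖z‖ - cut ρ ‖w‖| * ‖φ w - w‖
            ≤ 1 * (1 / 4 * ‖z - w‖) + (2 / ρ * ‖z - w‖) * (1 / 4 * ρ) :=
              add_le_add (mul_le_mul (cut_le_one _ _) (hlip z w hz hw) (norm_nonneg _)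
                zero_le_one) (mul_le_mul (hcl z w) (hr0 w hw) (norm_nonneg _) (by positivity))
          _ = 3 / 4 * ‖z - w‖ := by field_simp; ring
      · exact hmix z w hz hw
    · rcases lt_or_ge ‖w‖ ρ with hw | hw
      · rw [← norm_neg, neg_sub, ← norm_neg (z - w), neg_sub]
        exact hmix w z hw hz
      · rw [hu0 z hz, hu0 w hw, sub_zero, norm_zero]
        positivity
  obtain ⟨H, hH⟩ := exists_homeo_of_lip hulip
  refine ⟨H, fun z hz => ?_, ?_⟩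
  · rw [hH, hu0 z ((min_le_right _ _).trans hz), add_zero]
  · have hmem : ball (0 : ℂ) (ρ / 2) ∈ 𝓝 (0 : ℂ) := ball_mem_nhds _ (half_pos hρ)
    filter_upwards [hmem] with z hz
    rw [mem_ball_zero_iff] at hz
    rw [hH]
    simp only [hu]
    rw [cut_eq_one hρ hz.le]
    simp

theorem germ_ext {φ : ℂ → ℂ} (h0 : φ 0 = 0) (hd : AnalyticAt ℂ φ 0) (hne : deriv φ 0 ≠ 0) :
    ∃ G : ℂ ≃ₜ ℂ, (∀ z, 1 / 2 ≤ ‖z‖ → G z = z) ∧ ∀ᶠ z in 𝓝 0, G z = φ z := by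
  set a := deriv φ 0 with ha
  -- an n-th root of `a` close to one
  obtain ⟨n, b, hbn, hb⟩ : ∃ (n : ℕ) (b : ℂ), b ^ n = a ∧ ‖b - 1‖ < 1 / 4 := by
    have hlim : Tendsto (fun n : ℕ => Complex.exp (Complex.log a / (n : ℂ))) atTop (𝓝 1) := by
      have h1 : Tendsto (fun n : ℕ => Complex.log a / (n : ℂ)) atTop (𝓝 0) := by
        have h2 : Tendsto (fun n : ℕ => ((n : ℂ))⁻¹) atTop (𝓝 0) :=
          tendsto_inv_atTop_nhds_zero_nat (𝕜 := ℂ)
        have := h2.const_mul (Complex.log a)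
        rw [mul_zero] at this
        simpa [div_eq_mul_inv] using this
      have h3 := (Complex.continuous_exp.tendsto 0).comp h1
      rw [Complex.exp_zero] at h3
      exact h3
    have h4 : ∀ᶠ n : ℕ in atTop, ‖Complex.exp (Complex.log a / (n : ℂ)) - 1‖ < 1 / 4 := by
      have := hlim (Metric.ball_mem_nhds (1 : ℂ) (by norm_num : (0 : ℝ) < 1 / 4))
      simpa [mem_ball, dist_eq_norm] using this
    obtain ⟨n, hn, hn1⟩ := (h4.and (eventually_ge_atTop 1)).exists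
    refine ⟨n, _, ?_, hn⟩
    rw [← Complex.exp_nat_mul, mul_div_cancel₀ _ (by exact_mod_cast (by omega : n ≠ 0)),
      Complex.exp_log hne]
  have hlin : ∃ M : ℂ ≃ₜ ℂ, (∀ z, 1 / 2 ≤ ‖z‖ → M z = z) ∧ ∀ᶠ z in 𝓝 0, M z = b * z := by
    refine germ_small (φ := fun z => b * z) (b := b) (by simp) ?_ hb
    simpa using (hasStrictDerivAt_id (0 : ℂ)).const_mul b
  have hpow : ∀ m : ℕ, ∃ M : ℂ ≃ₜ ℂ, (∀ z, 1 / 2 ≤ ‖z‖ → M z = z) ∧
      ∀ᶠ z in 𝓝 0, M z = b ^ m * z := by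
    intro m
    induction m with
    | zero => exact ⟨Homeomorph.refl ℂ, fun z _ => rfl, Eventually.of_forall fun z => by simp⟩
    | succ m ih =>
      obtain ⟨M, hM, hM0⟩ := ih
      obtain ⟨N, hN, hN0⟩ := hlin
      refine ⟨M.trans N, fun z hz => ?_, ?_⟩
      · rw [Homeomorph.trans_apply, hM z hz, hN z hz]
      · have ht : Tendsto (fun z : ℂ => b ^ m * z) (𝓝 0) (𝓝 0) := by
          have h5 : Continuous fun z : ℂ => b ^ m * z := continuous_const.mul continuous_id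
          have h6 := h5.tendsto 0
          rwa [mul_zero] at h6
        filter_upwards [hM0, ht.eventually hN0] with z hz hz'
        rw [Homeomorph.trans_apply, hz, hz', pow_succ]
        ring
  obtain ⟨M, hM, hM0⟩ := hpow n
  have hstrict : HasStrictDerivAt φ a 0 := hd.hasStrictDerivAt
  obtain ⟨H, hH, hH0⟩ := germ_small (φ := fun z => a⁻¹ * φ z) (b := a⁻¹ * a) (by simp [h0])
    (hstrict.const_mul a⁻¹) (by rw [inv_mul_cancel₀ hne]; simp)
  refine ⟨H.trans M, fun z hz => ?_, ?_⟩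
  · rw [Homeomorph.trans_apply, hH z hz, hM z hz]
  · have ht : Tendsto (fun z : ℂ => a⁻¹ * φ z) (𝓝 0) (𝓝 0) := by
      have h5 : Tendsto φ (𝓝 0) (𝓝 (φ 0)) := hd.continuousAt
      rw [h0] at h5
      simpa using h5.const_mul a⁻¹
    filter_upwards [hH0, ht.eventually hM0] with z hz hz'
    rw [Homeomorph.trans_apply, hz, hz', hbn, mul_inv_cancel_left₀ hne]

end Ends72
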