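import Pool.Agent.LibRMT.Basic

/-! TASK A2: Hurwitz' theorem on limits of injective holomorphic functions. -/

open Set Metric Topology Filter

noncomputable section

namespace Ends72

theorem hurwitz_inj {Ω : Set ℂ} (ho : IsOpen Ω) (hc : IsPreconnected Ω) (f : ℕ → ℂ → ℂ)
    (g : ℂ → ℂ) (hd : ∀ n, DifferentiableOn ℂ (f n) Ω) (hinj : ∀ n, InjOn (f n) Ω)
    (hlim : TendstoLocallyUniformlyOn f g atTop Ω) {z₀ : ℂ} (hz₀ : z₀ ∈ Ω)
    (hne : deriv g z₀ ≠ 0) : InjOn g Ω := by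
  have hgd : DifferentiableAt ℂ g z₀ := differentiableAt_of_deriv_ne_zero hne
  have h1 : ∀ᶠ z in 𝓝[≠] z₀, g z ≠ g z₀ := hgd.hasDerivAt.eventually_ne hne
  have h2 : ∀ᶠ z in 𝓝[≠] z₀, z ∈ Ω := mem_nhdsWithin_of_mem_nhds (ho.mem_nhds hz₀)
  obtain ⟨z, hz1, hz2⟩ := (h1.and h2).exists
  exact Pool.LibRMT.hurwitz_inj ho hc hlim (Eventually.of_forall hd) (Eventually.of_forall hinj)
    hz2 hz₀ hz1

end Ends72
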