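import Pool.Agent.LibEnds72.Comb

/-! TASK J5a: invariants of unfolding and the relation `Rel`. -/

open Set

noncomputable section

namespace Ends72

open T

theorem Unf_refl (α : Multiset T) : Unf α α := Relation.ReflTransGen.refl

theorem Unf_trans {α β γ : Multiset T} (h1 : Unf α β) (h2 : Unf β γ) : Unf α γ :=
  Relation.ReflTransGen.trans h1 h2

theorem Stp_add_right {α β : Multiset T} (γ : Multiset T) (h : Stp α β) :
    Stp (α + γ) (β + γ) := by
  obtain ⟨x, ρ, rfl, rfl⟩ := h
  exact ⟨x, ρ + γ, by rw [Multiset.cons_add], by rw [add_assoc]⟩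

theorem Unf_add_right {α β : Multiset T} (γ : Multiset T) (h : Unf α β) :
    Unf (α + γ) (β + γ) := by
  induction h with
  | refl => exact Relation.ReflTransGen.refl
  | tail _ hs ih => exact ih.tail (Stp_add_right γ hs)

theorem Unf_add {α β γ δ : Multiset T} (h1 : Unf α β) (h2 : Unf γ δ) : Unf (α + γ) (β + δ) := by
  refine Unf_trans (Unf_add_right γ h1) ?_
  rw [add_comm β γ, add_comm β δ]
  exact Unf_add_right β h2

/-- confluence -/
theorem Unf_confl {α β γ : Multiset T} (h1 : Unf α β) (h2 : Unf α γ) :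
    ∃ δ, Unf β δ ∧ Unf γ δ := by
  refine Relation.church_rosser ?_ h1 h2
  rintro a b c ⟨x, γ, hx, rfl⟩ ⟨y, δ, hy, rfl⟩
  rw [hx] at hy
  rcases Multiset.cons_eq_cons.1 hy with ⟨rfl, rfl⟩ | ⟨_, ε, h3, h4⟩
  · exact ⟨_, Relation.ReflGen.refl, Relation.ReflTransGen.refl⟩
  · refine ⟨(ch x : Multiset T) + (ch y : Multiset T) + ε, Relation.ReflGen.single ?_,
      Relation.ReflTransGen.single ?_⟩
    · refine ⟨y, (ch x : Multiset T) + ε, ?_, ?_⟩
      · rw [h3, Multiset.add_cons]
      · rw [← add_assoc, add_comm (ch x : Multiset T) (ch y : Multiset T)]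
    · refine ⟨x, (ch y : Multiset T) + ε, ?_, ?_⟩
      · rw [h4, Multiset.add_cons]
      · rw [← add_assoc]

/-- if `α + β` unfolds to `γ` then `γ` splits accordingly -/
theorem Unf_add_inv {α β γ : Multiset T} (h : Unf (α + β) γ) :
    ∃ γ₁ γ₂, γ = γ₁ + γ₂ ∧ Unf α γ₁ ∧ Unf β γ₂ := by
  induction h with
  | refl => exact ⟨α, β, rfl, Unf_refl _, Unf_refl _⟩
  | tail _ hs ih =>
    rename_i b c
    obtain ⟨γ₁, γ₂, hb, h1, h2⟩ := ih
    obtain ⟨x, ρ, hx, hc⟩ := hs
    rw [hb] at hx
    have hmem : x ∈ γ₁ + γ₂ := by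
      rw [hx]
      exact Multiset.mem_cons_self _ _
    rcases Multiset.mem_add.1 hmem with hm | hm
    · obtain ⟨γ₁', h1'⟩ := Multiset.exists_cons_of_mem hm
      refine ⟨(ch x : Multiset T) + γ₁', γ₂, ?_, Relation.ReflTransGen.tail h1 ⟨x, γ₁', h1', rfl⟩,
        h2⟩
      rw [h1', Multiset.cons_add] at hx
      have := (Multiset.cons_inj_right x).1 hx
      rw [hc, ← this, add_assoc]
    · obtain ⟨γ₂', h2'⟩ := Multiset.exists_cons_of_mem hm
      refine ⟨γ₁, (ch x : Multiset T) + γ₂', ?_, h1,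
        Relation.ReflTransGen.tail h2 ⟨x, γ₂', h2', rfl⟩⟩
      rw [h2', Multiset.add_cons] at hx
      have := (Multiset.cons_inj_right x).1 hx
      rw [hc, ← this, ← add_assoc, ← add_assoc, add_comm γ₁]

theorem hasS_add {α β : Multiset T} : hasS (α + β) ↔ hasS α ∨ hasS β := by
  simp only [hasS, Multiset.mem_add]
  constructor
  · rintro ⟨x, h | h, hx⟩
    · exact Or.inl ⟨x, h, hx⟩
    · exact Or.inr ⟨x, h, hx⟩
  · rintro (⟨x, h, hx⟩ | ⟨x, h, hx⟩)
    · exact ⟨x, Or.inl h, hx⟩
    · exact ⟨x, Or.inr h, hx⟩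

theorem hasS_cons {x : T} {α : Multiset T} : hasS (x ::ₘ α) ↔ isS x ∨ hasS α := by
  simp only [hasS, Multiset.mem_cons]
  constructor
  · rintro ⟨y, rfl | h, hy⟩
    · exact Or.inl hy
    · exact Or.inr ⟨y, h, hy⟩
  · rintro (h | ⟨y, h, hy⟩)
    · exact ⟨x, Or.inl rfl, h⟩
    · exact ⟨y, Or.inr h, hy⟩

theorem hasS_ch (x : T) : hasS (ch x : Multiset T) ↔ isS x := by
  cases x with
  | w i => cases i <;> simp [hasS, ch, isS]
  | _ => simp [hasS, ch, isS]

theorem hasS_unf {α β : Multiset T} (h : Unf α β) : hasS α ↔ hasS β := by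
  induction h with
  | refl => rfl
  | tail _ hs ih =>
    rw [ih]
    obtain ⟨x, ρ, rfl, rfl⟩ := hs
    rw [hasS_cons, hasS_add, hasS_ch]

theorem t_mem_ch (x : T) : t ∈ ch x ↔ t = x := by
  cases x with
  | w i => cases i <;> simp [ch]
  | _ => simp [ch]

theorem hasT_unf {α β : Multiset T} (h : Unf α β) : t ∈ α ↔ t ∈ β := by
  induction h with
  | refl => rfl
  | tail _ hs ih =>
    rw [ih]
    obtain ⟨x, ρ, rfl, rfl⟩ := hs
    rw [Multiset.mem_cons, Multiset.mem_add, Multiset.mem_coe, t_mem_ch]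

theorem iota_add (α β : Multiset T) : iota (α + β) = iota α + iota β := by
  rw [iota, Multiset.map_add, Multiset.sum_add]
  rfl

theorem iota_cons (x : T) (α : Multiset T) : iota (x ::ₘ α) = val x + iota α := by
  rw [iota, Multiset.map_cons, Multiset.sum_cons]
  rfl

theorem iota_ch (x : T) : iota (ch x : Multiset T) = val x := by
  cases x with
  | w i => cases i <;> simp [iota, ch, val]
  | _ => simp [iota, ch, val]

theorem iota_unf {α β : Multiset T} (h : Unf α β) : iota α = iota β := by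
  induction h with
  | refl => rfl
  | tail _ hs ih =>
    rw [ih]
    obtain ⟨x, ρ, rfl, rfl⟩ := hs
    rw [iota_cons, iota_add, iota_ch]

theorem cntM_add (j : ℕ) (α β : Multiset T) : cntM j (α + β) = cntM j α + cntM j β := by
  rw [cntM, Multiset.map_add, Multiset.sum_add]
  rfl

theorem cntM_cons (j : ℕ) (x : T) (α : Multiset T) :
    cntM j (x ::ₘ α) = cnt j x + cntM j α := by
  rw [cntM, Multiset.map_cons, Multiset.sum_cons]
  rfl

theorem cntM_ch (j : ℕ) (x : T) (hx : x ≠ t) : cntM j (ch x : Multiset T) = cnt j x := by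
  cases x with
  | w i => cases i <;> simp [cntM, ch, cnt]
  | c => simp [cntM, ch, cnt]
  | p i => simp [cntM, ch, cnt]
  | u k =>
    simp only [cntM, ch, cnt, Multiset.map_coe, Multiset.sum_coe, List.map_cons, List.map_nil,
      List.sum_cons, List.sum_nil]
    split_ifs <;> omega
  | r k =>
    simp only [cntM, ch, cnt, Multiset.map_coe, Multiset.sum_coe, List.map_cons, List.map_nil,
      List.sum_cons, List.sum_nil]
    rcases lt_trichotomy j k with h | h | h
    · rw [if_neg (by omega), if_neg (by omega), if_neg (by omega)]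
      simp
    · subst h
      rw [if_neg (by omega), if_pos rfl, if_pos le_rfl]
      simp
    · obtain ⟨d, rfl⟩ : ∃ d, j = k + 1 + d := ⟨j - (k + 1), by omega⟩
      rw [if_pos (by omega), if_neg (by omega), if_pos (by omega)]
      rw [show k + 1 + d - (k + 1) = d by omega, show k + 1 + d - k = d + 1 by omega]
      ring
  | s k =>
    simp only [cntM, ch, cnt, Multiset.map_coe, Multiset.sum_coe, List.map_cons, List.map_nil,
      List.sum_cons, List.sum_nil]
    split_ifs with h1 h2 h3
    · obtain ⟨d, rfl⟩ : ∃ d, j = k + 1 + d := ⟨j - (k + 1), by omega⟩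
      rw [show k + 1 + d - (k + 1) = d by omega, show k + 1 + d - k = d + 1 by omega]
      have h4 : 1 ≤ 4 ^ (d + 1) := Nat.one_le_pow _ _ (by norm_num)
      have h5 : 4 ^ (d + 1 + 1) = 4 * 4 ^ (d + 1) := by ring
      omega
    · omega
    · have : j = k := by omega
      subst this
      simp
    · omega
  | t => exact absurd rfl hx

/-- away from `t` the counts are unfolding invariants -/
theorem cntM_unf {α β : Multiset T} (h : Unf α β) (ht : t ∉ α) (j : ℕ) :
    cntM j α = cntM j β := by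
  induction h with
  | refl => rfl
  | tail hab hs ih =>
    rename_i b c
    rw [ih]
    have htb : t ∉ b := fun hb => ht ((hasT_unf hab).2 hb)
    obtain ⟨x, ρ, rfl, rfl⟩ := hs
    rw [cntM_cons, cntM_add, cntM_ch]
    rintro rfl
    exact htb (Multiset.mem_cons_self _ _)

theorem numU_add (α β : Multiset T) : numU (α + β) = numU α + numU β := by
  rw [numU, Multiset.countP_add]
  rfl

theorem numU_cons (x : T) (α : Multiset T) :
    numU (x ::ₘ α) = (if isU x then 1 else 0) + numU α := by
  rw [numU, Multiset.countP_cons, add_comm]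
  rfl

theorem numU_ch (x : T) (hx : ¬ isS x) : numU (ch x : Multiset T) = if isU x then 1 else 0 := by
  cases x with
  | w i =>
    cases i with
    | zero => simp [numU, ch, isU, Multiset.countP_eq_zero]
    | succ i => simp [numU, ch, isU]
  | s k => exact absurd trivial hx
  | _ => simp [numU, ch, isU]

theorem numU_unf {α β : Multiset T} (h : Unf α β) (hs : ¬ hasS α) : numU α = numU β := by
  induction h with
  | refl => rfl
  | tail hab hst ih =>
    rename_i b c
    rw [ih]
    have hsb : ¬ hasS b := fun hb => hs ((hasS_unf hab).2 hb)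
    obtain ⟨x, ρ, rfl, rfl⟩ := hst
    rw [numU_cons, numU_add, numU_ch]
    intro hx
    exact hsb (hasS_cons.2 (Or.inl hx))

theorem iota_of_not_hasS {α : Multiset T} (hs : ¬ hasS α) : iota α = numU α := by
  induction α using Multiset.induction with
  | empty => rfl
  | cons x α ih =>
    rw [hasS_cons, not_or] at hs
    rw [iota_cons, numU_cons, ih hs.2]
    have : val x = if isU x then 1 else 0 := by
      cases x with
      | s k => exact absurd trivial hs.1
      | _ => simp [val, isU]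
    rw [this]
    push_cast
    rfl

/-- the counts away from `t` eventually determine the index -/
theorem cntM_iota {α : Multiset T} (ht : t ∉ α) :
    ∃ J : ℕ, ∀ j ≥ J, 4 * (cntM j α : ℤ) - (cntM (j + 1) α : ℤ) = 3 * iota α := by
  induction α using Multiset.induction with
  | empty => exact ⟨0, fun j _ => by simp [cntM, iota]⟩
  | cons x α ih =>
    have hx : x ≠ t := by
      rintro rfl
      exact ht (Multiset.mem_cons_self _ _)
    obtain ⟨J, hJ⟩ := ih (fun h => ht (Multiset.mem_cons_of_mem h))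
    obtain ⟨J', hJ'⟩ : ∃ J' : ℕ, ∀ j ≥ J', 4 * (cnt j x : ℤ) - (cnt (j + 1) x : ℤ) =
        3 * val x := by
      cases x with
      | w i => exact ⟨0, fun j _ => by simp [cnt, val]⟩
      | c => exact ⟨0, fun j _ => by simp [cnt, val]⟩
      | p i =>
        refine ⟨i + 1, fun j hj => ?_⟩
        simp only [cnt, val]
        rw [if_neg (by omega), if_neg (by omega)]
        simp
      | u k =>
        refine ⟨k, fun j hj => ?_⟩
        simp only [cnt, val]
        rw [if_pos (by omega), if_pos (by omega)]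
        norm_num
      | r k =>
        refine ⟨k, fun j hj => ?_⟩
        simp only [cnt, val]
        rw [if_pos (by omega), if_pos (by omega), show j + 1 - k = j - k + 1 by omega]
        push_cast
        ring
      | s k =>
        refine ⟨k, fun j hj => ?_⟩
        simp only [cnt, val]
        rw [if_pos (by omega), if_pos (by omega), show j + 1 - k = j - k + 1 by omega]
        have h4 : 1 ≤ 4 ^ (j - k + 1) := Nat.one_le_pow _ _ (by norm_num)
        have h5 : 1 ≤ 4 ^ (j - k + 1 + 1) := Nat.one_le_pow _ _ (by norm_num)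
        push_cast [Nat.cast_sub h4, Nat.cast_sub h5]
        ring
      | t => exact absurd rfl hx
    refine ⟨max J J', fun j hj => ?_⟩
    have h1 := hJ j (le_trans (le_max_left _ _) hj)
    have h2 := hJ' j (le_trans (le_max_right _ _) hj)
    rw [cntM_cons, cntM_cons, iota_cons]
    push_cast
    linarith

theorem ch_ne_nil (x : T) : ch x ≠ [] := by
  cases x with
  | w i => cases i <;> simp [ch]
  | _ => simp [ch]

theorem Unf_zero {α : Multiset T} (h : Unf α 0) : α = 0 := by
  rcases Relation.ReflTransGen.cases_tail h with h | ⟨b, _, x, ρ, _, h2⟩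
  · exact h.symm
  · exfalso
    have h3 := congrArg Multiset.card h2
    rw [Multiset.card_zero, Multiset.card_add, Multiset.coe_card] at h3
    have h4 : (ch x).length = 0 := by omega
    exact ch_ne_nil x (List.length_eq_zero_iff.1 h4)

theorem Unf_zero_left {α : Multiset T} (h : Unf 0 α) : α = 0 := by
  rcases Relation.ReflTransGen.cases_head h with h | ⟨b, ⟨x, ρ, h1, _⟩, _⟩
  · exact h.symm
  · exact absurd h1 (Multiset.zero_ne_cons)

theorem Rel_refl (α : Multiset T) : Rel α α :=
  ⟨Iff.rfl, Iff.rfl, fun _ _ => ⟨α, Unf_refl _, Unf_refl _⟩, fun _ _ _ => rfl, fun _ _ => rfl,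
    fun _ _ => rfl⟩

theorem Rel_symm {α β : Multiset T} (h : Rel α β) : Rel β α := by
  obtain ⟨h1, h2, h3, h4, h5, h6⟩ := h
  refine ⟨h1.symm, h2.symm, fun a b => ?_, fun a b j => ?_, fun a b => ?_, fun a b => ?_⟩
  · obtain ⟨γ, k1, k2⟩ := h3 (fun h => a (h1.1 h)) (fun h => b (h2.1 h))
    exact ⟨γ, k2, k1⟩
  · exact (h4 (h1.2 a) (fun h => b (h2.1 h)) j).symm
  · exact (h5 (fun h => a (h1.1 h)) (h2.2 b)).symm
  · exact (h6 (h1.2 a) (h2.2 b)).symm

theorem not_hasS_zero : ¬ hasS (0 : Multiset T) := by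
  rintro ⟨x, hx, _⟩
  exact Multiset.notMem_zero x hx

theorem Rel_zero {α β : Multiset T} (h : Rel α β) : α = 0 ↔ β = 0 := by
  have key : ∀ {α β : Multiset T}, Rel α β → α = 0 → β = 0 := by
    rintro α β ⟨h1, h2, h3, h4, h5, h6⟩ rfl
    obtain ⟨γ, k1, k2⟩ := h3 not_hasS_zero (Multiset.notMem_zero _)
    have := Unf_zero_left k1
    subst this
    exact Unf_zero k2
  exact ⟨key h, key (Rel_symm h)⟩

theorem Rel_unf {α α' β : Multiset T} (h : Rel α β) (hu : Unf α α') : Rel α' β := by
  obtain ⟨h1, h2, h3, h4, h5, h6⟩ := h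
  have hS := hasS_unf hu
  have hT := hasT_unf hu
  refine ⟨hS.symm.trans h1, hT.symm.trans h2, fun a b => ?_, fun a b j => ?_, fun a b => ?_,
    fun a b => ?_⟩
  · obtain ⟨γ, k1, k2⟩ := h3 (fun h => a (hS.1 h)) (fun h => b (hT.1 h))
    obtain ⟨δ, l1, l2⟩ := Unf_confl hu k1
    exact ⟨δ, l1, Unf_trans k2 l2⟩
  · rw [← cntM_unf hu (fun h => b (hT.1 h))]
    exact h4 (hS.2 a) (fun h => b (hT.1 h)) j
  · rw [← numU_unf hu (fun h => a (hS.1 h))]
    exact h5 (fun h => a (hS.1 h)) (hT.2 b)
  · rw [← iota_unf hu]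
    exact h6 (hS.2 a) (hT.2 b)

theorem Rel_unf_rev {α α' β : Multiset T} (h : Rel α' β) (hu : Unf α α') : Rel α β := by
  obtain ⟨h1, h2, h3, h4, h5, h6⟩ := h
  have hS := hasS_unf hu
  have hT := hasT_unf hu
  refine ⟨hS.trans h1, hT.trans h2, fun a b => ?_, fun a b j => ?_, fun a b => ?_,
    fun a b => ?_⟩
  · obtain ⟨γ, k1, k2⟩ := h3 (fun h => a (hS.2 h)) (fun h => b (hT.2 h))
    exact ⟨γ, Unf_trans hu k1, k2⟩
  · rw [cntM_unf hu b]
    exact h4 (hS.1 a) (fun h => b (hT.2 h)) j
  · rw [numU_unf hu a]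
    exact h5 (fun h => a (hS.2 h)) (hT.1 b)
  · rw [iota_unf hu]
    exact h6 (hS.1 a) (hT.1 b)

end Ends72
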