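import Pool.Agent.LibEnds72.PathPoints
import Pool.Agent.LibEnds72.ClopenDec
import Pool.Agent.LibEnds72.RelUnf

/-! TASK J7c: the index of a path space. -/

open Set Topology

noncomputable section

namespace Ends72

open T

theorem PP_emb {W Z : Type*} [TopologicalSpace W] [TopologicalSpace Z] {f : W → Z}
    (hf : IsOpenEmbedding f) (j : ℕ) : f ⁻¹' PP Z j = PP W j := by
  have h1 := PP_image hf.isEmbedding.toHomeomorph j
  rw [PP_pre hf.isOpen_range] at h1
  ext w
  constructor
  · intro hw
    have h2 : hf.isEmbedding.toHomeomorph w ∈ (Subtype.val ⁻¹' PP Z j : Set ↥(range f)) := hw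
    rw [← h1] at h2
    obtain ⟨w', hw', e⟩ := h2
    rwa [← hf.isEmbedding.toHomeomorph.injective e]
  · intro hw
    have h2 : hf.isEmbedding.toHomeomorph w ∈ hf.isEmbedding.toHomeomorph '' PP W j := ⟨w, hw, rfl⟩
    rw [h1] at h2
    exact h2

theorem XX_emb {W Z : Type*} [TopologicalSpace W] [TopologicalSpace Z] {f : W → Z}
    (hf : IsOpenEmbedding f) : f ⁻¹' XX Z = XX W := by
  have h1 := XX_image hf.isEmbedding.toHomeomorph
  rw [XX_pre hf.isOpen_range] at h1
  ext w
  constructor
  · intro hw
    have h2 : hf.isEmbedding.toHomeomorph w ∈ (Subtype.val ⁻¹' XX Z : Set ↥(range f)) := hw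
    rw [← h1] at h2
    obtain ⟨w', hw', e⟩ := h2
    rwa [← hf.isEmbedding.toHomeomorph.injective e]
  · intro hw
    have h2 : hf.isEmbedding.toHomeomorph w ∈ hf.isEmbedding.toHomeomorph '' XX W := ⟨w, hw, rfl⟩
    rw [h1] at h2
    exact h2

/-- inclusion of a component -/
def incL (l : List T) (i : Fin l.length) : Pth (l.get i) → XL l := fun a => ⟨i, a⟩

theorem incL_emb (l : List T) (i : Fin l.length) : IsOpenEmbedding (incL l i) :=
  @IsOpenEmbedding.sigmaMk (Fin l.length) (fun i => Pth (l.get i)) _ i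

theorem mem_PP_XL {l : List T} {j : ℕ} (x : XL l) :
    x ∈ PP (XL l) j ↔ x.2 ∈ PP (Pth (l.get x.1)) j := by
  rw [← PP_emb (incL_emb l x.1) j]
  rfl

theorem mem_XX_XL {l : List T} (x : XL l) :
    x ∈ XX (XL l) ↔ x.2 ∈ XX (Pth (l.get x.1)) := by
  rw [← XX_emb (incL_emb l x.1)]
  rfl

/-- the components not of type `t` -/
def nt (l : List T) : Set (XL l) := {x | l.get x.1 ≠ t}

theorem isOpen_type (l : List T) (P : T → Prop) : IsOpen {x : XL l | P (l.get x.1)} := by
  have h0 : IsOpen {x : Σ i : Fin l.length, Pth (l.get i) | P (l.get x.1)} := by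
    refine isOpen_sigma_iff.mpr fun i => ?_
    by_cases hi : P (l.get i)
    · have e : Sigma.mk i ⁻¹' {x : Σ i : Fin l.length, Pth (l.get i) | P (l.get x.1)} = univ := by
        ext a
        exact ⟨fun _ => mem_univ _, fun _ => hi⟩
      rw [e]
      exact isOpen_univ
    · have e : Sigma.mk i ⁻¹' {x : Σ i : Fin l.length, Pth (l.get i) | P (l.get x.1)} = ∅ := by
        ext a
        exact ⟨fun h => hi h, fun h => h.elim⟩
      rw [e]
      exact isOpen_empty
  exact h0

theorem nt_clopen (l : List T) : IsClopen (nt l) := by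
  refine ⟨⟨?_⟩, isOpen_type l (fun v => v ≠ t)⟩
  have e : (nt l)ᶜ = {x : XL l | l.get x.1 = t} := by
    ext x
    simp [nt]
  rw [e]
  exact isOpen_type l (fun v => v = t)

theorem cntM_coe (j : ℕ) (l : List T) : cntM j (l : Multiset T) =
    ∑ i : Fin l.length, cnt j (l.get i) := by
  rw [cntM, Multiset.map_coe, Multiset.sum_coe]
  exact (Fin.sum_univ_fun_getElem l (cnt j)).symm

theorem PP_nt (l : List T) (j : ℕ) :
    (PP (XL l) j ∩ nt l).Finite ∧ (PP (XL l) j ∩ nt l).ncard = cntM j (l : Multiset T) := by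
  classical
  have hfin : ∀ i : Fin l.length, ∃ F : Finset (Pth (l.get i)),
      F.card = cnt j (l.get i) ∧
      ∀ a, a ∈ F ↔ (a ∈ PP (Pth (l.get i)) j ∧ l.get i ≠ t) := by
    intro i
    by_cases hi : l.get i = t
    · refine ⟨∅, ?_, ?_⟩
      · rw [hi]
        rfl
      · intro a
        simp only [Finset.notMem_empty, false_iff]
        exact fun h => h.2 hi
    · obtain ⟨h1, h2⟩ := PP_ncard (l.get i) hi j
      refine ⟨h1.toFinset, ?_, ?_⟩
      · rw [← h2, ncard_eq_toFinset_card _ h1]
      · intro a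
        rw [Set.Finite.mem_toFinset]
        exact ⟨fun h => ⟨h, hi⟩, fun h => h.1⟩
  choose F hF1 hF2 using hfin
  obtain ⟨G, hG⟩ : ∃ G : Finset (XL l), G =
      (Finset.univ.sigma F : Finset (Σ i : Fin l.length, Pth (l.get i))) := ⟨_, rfl⟩
  have e : PP (XL l) j ∩ nt l = (G : Set (XL l)) := by
    ext x
    rw [Finset.mem_coe, hG]
    refine Iff.trans ?_ Finset.mem_sigma.symm
    rw [hF2]
    constructor
    · rintro ⟨h1, h2⟩
      exact ⟨Finset.mem_univ _, (mem_PP_XL x).mp h1, h2⟩
    · rintro ⟨-, h1, h2⟩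
      exact ⟨(mem_PP_XL x).mpr h1, h2⟩
  constructor
  · rw [e]
    exact Finset.finite_toSet _
  · rw [e, cntM_coe, ncard_coe_finset, hG]
    refine (Finset.card_sigma _ _).trans ?_
    exact Finset.sum_congr rfl fun i _ => hF1 i

theorem IsIndex_Dec {X : Type*} [TopologicalSpace X] {α : Multiset T} (h : Dec X α) (k : ℤ) :
    IsIndex X k ↔ k = iota α := by
  constructor
  · rintro ⟨S, hS, hf, hX, J, hJ⟩
    have hu : Dec ↥(S ∪ Sᶜ) α := by
      rw [union_compl_self]
      exact Dec_congr (Homeomorph.Set.univ X).symm h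
    obtain ⟨β, γ, hun, hβ, hγ⟩ := Dec_split hS.1 hS.compl.1 disjoint_compl_right hu
    obtain ⟨l, rfl, ⟨e⟩⟩ := hβ
    obtain ⟨l', rfl, ⟨e'⟩⟩ := hγ
    -- marked points of `S`
    have hcard : ∀ j, (PP X j ∩ S).ncard = (PP (XL l) j).ncard := by
      intro j
      rw [← PP_open hS.2, ncard_image_of_injective _ Subtype.val_injective, ← PP_image e j,
        ncard_image_of_injective _ e.injective]
    have hfin : ∀ j, (PP (XL l) j).Finite := by
      intro j
      rw [← PP_image e j]
      refine Set.Finite.image _ ?_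
      have h1 := hf j
      rw [← PP_open hS.2] at h1
      exact Set.Finite.of_finite_image h1 Subtype.val_injective.injOn
    have ht : t ∉ l := by
      intro ht
      obtain ⟨i, hi, hit⟩ := List.mem_iff_getElem.mp ht
      have hit' : l.get ⟨i, hi⟩ = t := hit
      have h1 : (PP (Pth (l.get ⟨i, hi⟩)) 0).Finite := by
        rw [← PP_emb (incL_emb l ⟨i, hi⟩) 0]
        exact (hfin 0).preimage (incL_emb l ⟨i, hi⟩).injective.injOn
      rw [hit'] at h1
      exact PP_t_infinite 0 h1
    have hnt : nt l = univ := by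
      refine eq_univ_of_forall fun x => ?_
      intro hx
      exact ht (hx ▸ List.get_mem _ _)
    have hcnt : ∀ j, (PP X j ∩ S).ncard = cntM j (l : Multiset T) := by
      intro j
      rw [hcard, ← (PP_nt l j).2, hnt, inter_univ]
    -- the complement
    have hXc : XX (XL l') = ∅ := by
      rw [← XX_image e']
      have h1 : (Subtype.val '' XX ↥Sᶜ : Set X) = ∅ := by
        rw [XX_open hS.compl.2]
        ext x
        simp only [mem_inter_iff, mem_compl_iff, mem_empty_iff_false, iff_false, not_and, not_not]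
        exact fun hx => hX hx
      rw [image_eq_empty] at h1 ⊢
      exact h1
    have hv : ∀ v ∈ l', val v = 0 := by
      intro v hv
      obtain ⟨i, hi, hiv⟩ := List.mem_iff_getElem.mp hv
      have hiv' : l'.get ⟨i, hi⟩ = v := hiv
      have h1 : XX (Pth (l'.get ⟨i, hi⟩)) = ∅ := by
        rw [← XX_emb (incL_emb l' ⟨i, hi⟩), hXc, preimage_empty]
      rw [hiv'] at h1
      cases v with
      | u k => exact absurd h1 (XX_u k).ne_empty
      | s k => exact absurd h1 (XX_s k).ne_empty
      | w i => rfl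
      | c => rfl
      | p j => rfl
      | r k => rfl
      | t => rfl
    have hγ0 : iota (l' : Multiset T) = 0 := by
      rw [iota]
      refine Multiset.sum_eq_zero ?_
      intro x hx
      obtain ⟨v, hv', rfl⟩ := Multiset.mem_map.mp hx
      exact hv v (by simpa using hv')
    have ht' : t ∉ (l : Multiset T) := by simpa using ht
    obtain ⟨J', hJ'⟩ := cntM_iota ht'
    have h1 := hJ (max J J') (le_max_left _ _)
    have h2 := hJ' (max J J') (le_max_right _ _)
    rw [hcnt, hcnt] at h1
    have h3 : iota α = iota (l : Multiset T) := by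
      rw [iota_unf hun, iota_add, hγ0, add_zero]
    rw [h3]
    have h4 : (3 : ℤ) * k = 3 * iota (l : Multiset T) := h1.symm.trans h2
    omega
  · rintro rfl
    obtain ⟨l, rfl, ⟨e⟩⟩ := h
    refine (IsIndex_congr e _).mpr ?_
    have hfc : ∀ j, cntM j ((l : Multiset T).filter (fun v => v ≠ t)) = cntM j (l : Multiset T) := by
      intro j
      conv_rhs => rw [← Multiset.filter_add_not (fun v => v ≠ t) (l : Multiset T), cntM_add]
      have h0 : cntM j ((l : Multiset T).filter (fun v => ¬ v ≠ t)) = 0 := by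
        rw [cntM]
        refine Multiset.sum_eq_zero ?_
        intro x hx
        obtain ⟨v, hv', rfl⟩ := Multiset.mem_map.mp hx
        have h1 := (Multiset.mem_filter.mp hv').2
        rw [not_not] at h1
        rw [h1]
        rfl
      rw [h0, add_zero]
    have hfi : iota ((l : Multiset T).filter (fun v => v ≠ t)) = iota (l : Multiset T) := by
      conv_rhs => rw [← Multiset.filter_add_not (fun v => v ≠ t) (l : Multiset T), iota_add]
      have h0 : iota ((l : Multiset T).filter (fun v => ¬ v ≠ t)) = 0 := by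
        rw [iota]
        refine Multiset.sum_eq_zero ?_
        intro x hx
        obtain ⟨v, hv', rfl⟩ := Multiset.mem_map.mp hx
        have h1 := (Multiset.mem_filter.mp hv').2
        rw [not_not] at h1
        rw [h1]
        rfl
      rw [h0, add_zero]
    have ht : t ∉ (l : Multiset T).filter (fun v => v ≠ t) := by
      intro h
      exact (Multiset.mem_filter.mp h).2 rfl
    obtain ⟨J, hJ⟩ := cntM_iota ht
    refine ⟨nt l, nt_clopen l, fun j => (PP_nt l j).1, ?_, J, ?_⟩
    · intro x hx hxt
      rw [mem_XX_XL] at hx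
      have h1 : XX (Pth (l.get x.1)) = ∅ := by
        rw [hxt]
        exact XX_empty t (fun h => h) (fun h => h)
      rw [h1] at hx
      exact hx
    · intro j hj
      rw [(PP_nt l j).2, (PP_nt l (j + 1)).2, ← hfi, ← hJ j hj, hfc, hfc]

theorem idx_Dec {X : Type*} [TopologicalSpace X] {α : Multiset T} (h : Dec X α) :
    idx X = iota α := by
  have hex : ∃ k, IsIndex X k := ⟨_, (IsIndex_Dec h _).mpr rfl⟩
  rw [idx, dif_pos hex]
  exact (IsIndex_Dec h _).mp hex.choose_spec

end Ends72
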