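import Mathlib

/-!
# Topological invariants: marked points and the index of a space
-/

open Set Topology

noncomputable section

namespace Ends72

section

variable (Z : Type*) [TopologicalSpace Z]

/-- The isolated points of the subset `S` of `Z`. -/
def isoPts {Z : Type*} [TopologicalSpace Z] (S : Set Z) : Set Z :=
  {x | x ∈ S ∧ ∃ O, IsOpen O ∧ x ∈ O ∧ O ∩ S ⊆ {x}}

/-- The iterated Cantor-Bendixson derivatives of `Z`. -/
def DD : ℕ → Set Z
  | 0 => univ
  | n + 1 => DD n \ isoPts (DD n)

/-- The points of Cantor-Bendixson rank `i`. -/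
def rk (i : ℕ) : Set Z := isoPts (DD Z i)

/-- The marked points of level `j`: limits of points of rank `j`, not of rank `j`, and not limits
of points of rank `j + 1`. -/
def PP (j : ℕ) : Set Z := (closure (rk Z j) \ rk Z j) \ closure (rk Z (j + 1))

/-- The points which are limits of points of each finite rank. -/
def KK : Set Z := ⋂ j, closure (rk Z j)

/-- The isolated points of `KK Z`. -/
def XX : Set Z := isoPts (KK Z)

/-- `k` is an index of `Z`: there is a clopen set `S` containing `XX Z` in which all numbers `n_j`
of marked points are finite and `4 n_j - n_{j+1} = 3 k` for all large `j`. -/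
def IsIndex (k : ℤ) : Prop :=
  ∃ S : Set Z, IsClopen S ∧ (∀ j, (PP Z j ∩ S).Finite) ∧ XX Z ⊆ S ∧
    ∃ J : ℕ, ∀ j ≥ J, 4 * ((PP Z j ∩ S).ncard : ℤ) - ((PP Z (j + 1) ∩ S).ncard : ℤ) = 3 * k

open Classical in
/-- The index of `Z` (zero if there is none). -/
def idx : ℤ := if h : ∃ k, IsIndex Z k then h.choose else 0

end

end Ends72
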