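import Pool.Agent.LibEnds72.Inv

/-! TASK J7a: invariance and locality of the marked points. -/

open Set Topology

noncomputable section

namespace Ends72

section homeo

variable {Z Z' : Type*} [TopologicalSpace Z] [TopologicalSpace Z'] (h : Z ≃ₜ Z')

theorem isoPts_image_sub (S : Set Z) : h '' isoPts S ⊆ isoPts (h '' S) := by
  rintro _ ⟨x, ⟨hx, O, hO, hxO, hOS⟩, rfl⟩
  refine ⟨⟨x, hx, rfl⟩, h '' O, h.isOpenMap O hO, ⟨x, hxO, rfl⟩, ?_⟩
  rw [← image_inter h.injective]
  rintro _ ⟨y, hy, rfl⟩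
  rw [mem_singleton_iff.mp (hOS hy)]
  exact mem_singleton _

theorem isoPts_image (S : Set Z) : h '' isoPts S = isoPts (h '' S) := by
  refine Subset.antisymm (isoPts_image_sub h S) ?_
  intro y hy
  have h1 := isoPts_image_sub h.symm (h '' S) ⟨y, hy, rfl⟩
  rw [← image_comp, h.symm_comp_self, image_id] at h1
  exact ⟨h.symm y, h1, h.apply_symm_apply y⟩

theorem DD_image (i : ℕ) : h '' DD Z i = DD Z' i := by
  induction i with
  | zero => simp [DD, image_univ, h.range_coe]
  | succ n ih => rw [DD, DD, image_sdiff h.injective, isoPts_image, ih]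

theorem rk_image (i : ℕ) : h '' rk Z i = rk Z' i := by
  rw [rk, rk, isoPts_image, DD_image]

theorem PP_image (j : ℕ) : h '' PP Z j = PP Z' j := by
  rw [PP, PP, image_sdiff h.injective, image_sdiff h.injective, h.image_closure, h.image_closure,
    rk_image, rk_image]

theorem KK_image : h '' KK Z = KK Z' := by
  rw [KK, KK, image_iInter h.bijective]
  simp only [h.image_closure, rk_image]

theorem XX_image : h '' XX Z = XX Z' := by
  rw [XX, XX, isoPts_image, KK_image]

include h in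
theorem IsIndex_of (k : ℤ) (hk : IsIndex Z k) : IsIndex Z' k := by
  obtain ⟨S, hS, hf, hX, J, hJ⟩ := hk
  have e : ∀ j, PP Z' j ∩ h '' S = h '' (PP Z j ∩ S) := by
    intro j
    rw [image_inter h.injective, PP_image]
  refine ⟨h '' S, ⟨h.isClosedMap S hS.1, h.isOpenMap S hS.2⟩, ?_, ?_, J, ?_⟩
  · intro j
    rw [e]
    exact (hf j).image _
  · rw [← XX_image h]
    exact image_mono hX
  · intro j hj
    rw [e, e, ncard_image_of_injective _ h.injective, ncard_image_of_injective _ h.injective]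
    exact hJ j hj

include h in
theorem IsIndex_congr (k : ℤ) : IsIndex Z k ↔ IsIndex Z' k :=
  ⟨IsIndex_of h k, IsIndex_of h.symm k⟩

open Classical in
theorem idx_aux (P Q : ℤ → Prop) (e : P = Q) :
    (if h : ∃ k, P k then h.choose else 0) = (if h : ∃ k, Q k then h.choose else 0) := by
  subst e
  rfl

include h in
theorem idx_congr : idx Z = idx Z' := by
  have e : IsIndex Z = IsIndex Z' := funext fun k => propext (IsIndex_congr h k)
  exact idx_aux _ _ e

end homeo

section loc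

variable {Z : Type*} [TopologicalSpace Z] {O : Set Z} (hO : IsOpen O)

include hO

theorem isoPts_pre (S : Set Z) :
    isoPts ((↑) ⁻¹' S : Set ↥O) = ((↑) ⁻¹' isoPts S : Set ↥O) := by
  ext x
  constructor
  · rintro ⟨hx, V, hV, hxV, hVS⟩
    refine ⟨hx, Subtype.val '' V, hO.isOpenMap_subtype_val V hV, ⟨x, hxV, rfl⟩, ?_⟩
    rintro _ ⟨⟨y, hy, rfl⟩, hyS⟩
    have h1 := hVS ⟨hy, hyS⟩
    rw [mem_singleton_iff] at h1
    rw [h1]
    exact mem_singleton _
  · rintro ⟨hx, V, hV, hxV, hVS⟩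
    refine ⟨hx, Subtype.val ⁻¹' V, hV.preimage continuous_subtype_val, hxV, ?_⟩
    rintro y ⟨hy, hyS⟩
    have h1 := hVS ⟨hy, hyS⟩
    exact Subtype.ext h1

theorem DD_pre (i : ℕ) : DD ↥O i = ((↑) ⁻¹' DD Z i : Set ↥O) := by
  induction i with
  | zero => simp [DD]
  | succ n ih => rw [DD, DD, ih, isoPts_pre hO, preimage_sdiff]

theorem rk_pre (i : ℕ) : rk ↥O i = ((↑) ⁻¹' rk Z i : Set ↥O) := by
  rw [rk, rk, DD_pre hO, isoPts_pre hO]

theorem closure_pre (S : Set Z) :
    closure ((↑) ⁻¹' S : Set ↥O) = ((↑) ⁻¹' closure S : Set ↥O) :=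
  (hO.isOpenMap_subtype_val.preimage_closure_eq_closure_preimage continuous_subtype_val S).symm

theorem PP_pre (j : ℕ) : PP ↥O j = ((↑) ⁻¹' PP Z j : Set ↥O) := by
  rw [PP, PP, rk_pre hO, rk_pre hO, closure_pre hO, closure_pre hO, preimage_sdiff, preimage_sdiff]

theorem KK_pre : KK ↥O = ((↑) ⁻¹' KK Z : Set ↥O) := by
  rw [KK, KK, preimage_iInter]
  simp only [rk_pre hO, closure_pre hO]

theorem XX_pre : XX ↥O = ((↑) ⁻¹' XX Z : Set ↥O) := by
  rw [XX, XX, KK_pre hO, isoPts_pre hO]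

theorem rk_open (i : ℕ) : (Subtype.val '' rk ↥O i : Set Z) = rk Z i ∩ O := by
  rw [rk_pre hO, Subtype.image_preimage_coe, inter_comm]

theorem closure_rk_open (i : ℕ) :
    (Subtype.val '' closure (rk ↥O i) : Set Z) = closure (rk Z i) ∩ O := by
  rw [rk_pre hO, closure_pre hO, Subtype.image_preimage_coe, inter_comm]

theorem PP_open (j : ℕ) : (Subtype.val '' PP ↥O j : Set Z) = PP Z j ∩ O := by
  rw [PP_pre hO, Subtype.image_preimage_coe, inter_comm]

theorem KK_open : (Subtype.val '' KK ↥O : Set Z) = KK Z ∩ O := by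
  rw [KK_pre hO, Subtype.image_preimage_coe, inter_comm]

theorem XX_open : (Subtype.val '' XX ↥O : Set Z) = XX Z ∩ O := by
  rw [XX_pre hO, Subtype.image_preimage_coe, inter_comm]

end loc

end Ends72
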