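import Pool.Agent.LibRMT.Caratheodory

/-! TASK C1, C2: uniform continuity of `g⁻¹ ∘ ψ` and its extension to the closed disc. -/

open Set Metric Topology Filter

noncomputable section

namespace Ends72

theorem cara (g : ℂ ≃ₜ ℂ) (_h0 : g 0 = 0) {ψ : ℂ → ℂ}
    (hd : DifferentiableOn ℂ ψ (ball 0 1)) (hinj : InjOn ψ (ball 0 1))
    (him : ψ '' ball 0 1 = g '' ball 0 1) (_hψ0 : ψ 0 = 0) :
    ∃ κ : ℂ → ℂ, ContinuousOn κ (closedBall 0 1) ∧
      BijOn κ (closedBall 0 1) (closedBall 0 1) ∧ MapsTo κ (ball 0 1) (ball 0 1) ∧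
      MapsTo κ (sphere 0 1) (sphere 0 1) ∧ ∀ z ∈ ball (0 : ℂ) 1, g (κ z) = ψ z := by
  have hcl : closure (g '' ball (0 : ℂ) 1) = g '' closedBall 0 1 := by
    rw [← g.image_closure, closure_ball _ one_ne_zero]
  have hfr : frontier (g '' ball (0 : ℂ) 1) = g '' sphere 0 1 := by
    rw [← g.image_frontier, frontier_ball _ one_ne_zero]
  have hb : Bornology.IsBounded (g '' ball (0 : ℂ) 1) :=
    (((isCompact_closedBall (0 : ℂ) 1).image g.continuous).isBounded).subset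
      (image_mono ball_subset_closedBall)
  have hlc : ∀ a ∈ frontier (g '' ball (0 : ℂ) 1), Pool.LibRMT.LocConnAt (g '' ball 0 1) a := by
    intro a ha
    rw [hfr] at ha
    obtain ⟨a', ha', rfl⟩ := ha
    intro ε hε
    obtain ⟨r, hr, hrs⟩ := Metric.continuousAt_iff.1 (g.continuous.continuousAt (x := a')) ε hε
    obtain ⟨δ, hδ, hδs⟩ := Metric.continuousAt_iff.1
      (g.symm.continuous.continuousAt (x := g a')) r hr
    refine ⟨δ, hδ, ?_⟩
    have key : ∀ x ∈ g '' ball (0 : ℂ) 1 ∩ ball (g a') δ, x ∈ g '' (ball 0 1 ∩ ball a' r) := by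
      rintro x ⟨⟨x', hx', rfl⟩, hx⟩
      have := hδs hx
      rw [g.symm_apply_apply, g.symm_apply_apply] at this
      exact ⟨x', ⟨hx', this⟩, rfl⟩
    intro x hx y hy
    refine ⟨g '' (ball 0 1 ∩ ball a' r), ?_, ?_, key x hx, key y hy⟩
    · rintro _ ⟨z, ⟨hz1, hz2⟩, rfl⟩
      exact ⟨⟨z, hz1, rfl⟩, hrs hz2⟩
    · exact (((convex_ball (0 : ℂ) 1).inter (convex_ball a' r)).isPreconnected).image g
        g.continuous.continuousOn
  have hconf : Pool.LibRMT.ConfMap ψ (g '' ball 0 1) := ⟨hd, hinj, him⟩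
  obtain ⟨G, hGc, hGi, hGcl, hGs, hGb, hGψ⟩ := Pool.LibRMT.caratheodory hconf hb hlc
  rw [hcl] at hGcl
  rw [hfr] at hGs
  have hsymm : ∀ S : Set ℂ, g.symm '' (g '' S) = S := by
    intro S
    rw [← image_comp]
    have : g.symm ∘ g = id := funext fun z => g.symm_apply_apply z
    rw [this, image_id]
  have hκ : ∀ S T : Set ℂ, G '' S = g '' T → (fun z => g.symm (G z)) '' S = T := by
    intro S T h
    have : (fun z => g.symm (G z)) '' S = g.symm '' (G '' S) := by rw [← image_comp]; rfl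
    rw [this, h, hsymm]
  refine ⟨fun z => g.symm (G z), g.symm.continuous.comp_continuousOn hGc, ⟨?_, ?_, ?_⟩, ?_, ?_, ?_⟩
  · rw [← mapsTo_iff_image_subset.symm.eq, hκ _ _ hGcl]
  · intro z hz w hw h
    exact hGi hz hw (g.symm.injective h)
  · intro w hw
    rw [hκ _ _ hGcl]; exact hw
  · intro z hz
    have h1 := hκ _ _ hGb
    rw [← h1]; exact ⟨z, hz, rfl⟩
  · intro z hz
    have h1 := hκ _ _ hGs
    rw [← h1]; exact ⟨z, hz, rfl⟩
  · intro z hz
    rw [g.apply_symm_apply, hGψ z hz]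

theorem kappa_unif (g : ℂ ≃ₜ ℂ) (h0 : g 0 = 0) {ψ : ℂ → ℂ}
    (hd : DifferentiableOn ℂ ψ (ball 0 1)) (hinj : InjOn ψ (ball 0 1))
    (him : ψ '' ball 0 1 = g '' ball 0 1) (hψ0 : ψ 0 = 0) :
    UniformContinuousOn (fun z => g.symm (ψ z)) (ball 0 1) := by
  obtain ⟨κ, hκ, _, _, _, hκψ⟩ := cara g h0 hd hinj him hψ0
  have h1 : UniformContinuousOn κ (closedBall 0 1) :=
    (isCompact_closedBall 0 1).uniformContinuousOn_of_continuous hκ
  refine (h1.mono ball_subset_closedBall).congr ?_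
  intro z hz
  have := hκψ z hz
  show κ z = g.symm (ψ z)
  rw [← this, g.symm_apply_apply]

end Ends72
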