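import Pool.Agent.LibEnds72.Shear

/-! TASK G1: Klee's trick in a box. -/

open Set Metric Topology Filter

noncomputable section

namespace Ends72

/-- The tent function with support `[a, b]` and peak `1` at `p`. -/
def tent (a b p x : ℝ) : ℝ := max 0 (min ((x - a) / (p - a)) ((b - x) / (b - p)))

theorem tent_nonneg (a b p x : ℝ) : 0 ≤ tent a b p x := le_max_left _ _

theorem tent_le_one {a b p : ℝ} (hp : p ∈ Ioo a b) (x : ℝ) : tent a b p x ≤ 1 := by
  have h1 : 0 < p - a := sub_pos.2 hp.1
  have h2 : 0 < b - p := sub_pos.2 hp.2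
  refine max_le zero_le_one ?_
  rcases le_total x p with h | h
  · refine min_le_of_left_le ?_
    rw [div_le_one h1]
    linarith
  · refine min_le_of_right_le ?_
    rw [div_le_one h2]
    linarith

theorem tent_self {a b p : ℝ} (hp : p ∈ Ioo a b) : tent a b p p = 1 := by
  have h1 : 0 < p - a := sub_pos.2 hp.1
  have h2 : 0 < b - p := sub_pos.2 hp.2
  rw [tent, div_self h1.ne', div_self h2.ne', min_self, max_eq_right zero_le_one]

theorem tent_out {a b p : ℝ} (hp : p ∈ Ioo a b) {x : ℝ} (hx : x ∉ Ioo a b) :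
    tent a b p x = 0 := by
  have h1 : 0 < p - a := sub_pos.2 hp.1
  have h2 : 0 < b - p := sub_pos.2 hp.2
  rw [tent, max_eq_left]
  rw [mem_Ioo, not_and_or, not_lt, not_lt] at hx
  rcases hx with h | h
  · refine min_le_of_left_le ?_
    exact div_nonpos_of_nonpos_of_nonneg (by linarith) h1.le
  · refine min_le_of_right_le ?_
    exact div_nonpos_of_nonpos_of_nonneg (by linarith) h2.le

theorem tent_mono {a b p s : ℝ} (hp : p ∈ Ioo a b) (hs1 : -(p - a) < s) (hs2 : s < b - p) :
    StrictMono fun x => x + s * tent a b p x := by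
  have h1 : 0 < p - a := sub_pos.2 hp.1
  have h2 : 0 < b - p := sub_pos.2 hp.2
  intro x x' hx
  have hd : 0 < x' - x := sub_pos.2 hx
  -- the tent function does not decrease or increase too quickly
  have hA : (x' - a) / (p - a) = (x - a) / (p - a) + (x' - x) / (p - a) := by ring
  have hB : (b - x') / (b - p) = (b - x) / (b - p) - (x' - x) / (b - p) := by ring
  have hA' : 0 < (x' - x) / (p - a) := div_pos hd h1
  have hB' : 0 < (x' - x) / (b - p) := div_pos hd h2
  have hlow : tent a b p x - (x' - x) / (b - p) ≤ tent a b p x' := by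
    rw [tent, tent, hA, hB, sub_le_iff_le_add]
    refine max_le ?_ ?_
    · have := le_max_left 0 (min ((x - a) / (p - a) + (x' - x) / (p - a))
        ((b - x) / (b - p) - (x' - x) / (b - p)))
      linarith
    · have h3 := le_max_right 0 (min ((x - a) / (p - a) + (x' - x) / (p - a))
        ((b - x) / (b - p) - (x' - x) / (b - p)))
      rcases min_choice ((x - a) / (p - a) + (x' - x) / (p - a))
        ((b - x) / (b - p) - (x' - x) / (b - p)) with h4 | h4
      · rw [h4] at h3 ⊢
        have := min_le_left ((x - a) / (p - a)) ((b - x) / (b - p))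
        linarith
      · rw [h4] at h3 ⊢
        have := min_le_right ((x - a) / (p - a)) ((b - x) / (b - p))
        linarith
  have hup : tent a b p x' ≤ tent a b p x + (x' - x) / (p - a) := by
    rw [tent, tent, hA, hB]
    refine max_le ?_ ?_
    · have := le_max_left 0 (min ((x - a) / (p - a)) ((b - x) / (b - p)))
      linarith
    · have h3 := le_max_right 0 (min ((x - a) / (p - a)) ((b - x) / (b - p)))
      rcases min_choice ((x - a) / (p - a)) ((b - x) / (b - p)) with h4 | h4
      · rw [h4] at h3 ⊢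
        have := min_le_left ((x - a) / (p - a) + (x' - x) / (p - a))
          ((b - x) / (b - p) - (x' - x) / (b - p))
        linarith
      · rw [h4] at h3 ⊢
        have := min_le_right ((x - a) / (p - a) + (x' - x) / (p - a))
          ((b - x) / (b - p) - (x' - x) / (b - p))
        linarith
  simp only
  rcases le_total 0 s with hs | hs
  · have h5 : s * tent a b p x - s * ((x' - x) / (b - p)) ≤ s * tent a b p x' := by
      rw [← mul_sub]
      exact mul_le_mul_of_nonneg_left hlow hs
    have h6 : s * ((x' - x) / (b - p)) < x' - x := by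
      rw [mul_div_assoc', div_lt_iff₀ h2, mul_comm]
      exact mul_lt_mul_of_pos_left hs2 hd
    linarith
  · have h5 : s * tent a b p x + s * ((x' - x) / (p - a)) ≤ s * tent a b p x' := by
      rw [← mul_add]
      exact mul_le_mul_of_nonpos_left hup hs
    have h6 : -(x' - x) < s * ((x' - x) / (p - a)) := by
      rw [mul_div_assoc', lt_div_iff₀ h1]
      nlinarith
    linarith

theorem tent_continuous {X : Type*} [TopologicalSpace X] {a b : ℝ} {p x : X → ℝ}
    (hpc : Continuous p) (hxc : Continuous x) (hp : ∀ y, p y ∈ Ioo a b) :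
    Continuous fun y => tent a b (p y) (x y) := by
  unfold tent
  refine continuous_const.max (Continuous.min ?_ ?_)
  · refine Continuous.div (hxc.sub continuous_const) (hpc.sub continuous_const) fun y => ?_
    exact (sub_pos.2 (hp y).1).ne'
  · refine Continuous.div (continuous_const.sub hxc) (continuous_const.sub hpc) fun y => ?_
    exact (sub_pos.2 (hp y).2).ne'

/-- A vertical shear `(x, 0) ↦ (x, s x)` supported in a horizontal strip. -/
theorem vshear {δ : ℝ} (hδ : 0 < δ) {s : ℝ → ℝ} (hsc : Continuous s) {C : ℝ} (hCδ : C < δ)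
    (hs : ∀ x, |s x| ≤ C) :
    ∃ V : ℂ ≃ₜ ℂ, (∀ z : ℂ, (s z.re = 0 ∨ δ ≤ |z.im|) → V z = z) ∧
      ∀ x : ℝ, V x = ⟨x, s x⟩ := by
  have h0 : (0 : ℝ) ∈ Ioo (-δ) δ := ⟨by linarith, hδ⟩
  have hs' : ∀ x, |s x| < δ := fun x => (hs x).trans_lt hCδ
  obtain ⟨V, hV⟩ := shearV (D := fun x y => s x * tent (-δ) δ 0 y) (C := C) (by
      refine (hsc.comp continuous_fst).mul ?_
      exact tent_continuous continuous_const continuous_snd fun _ => h0) (by
      intro x y
      rw [abs_mul, abs_of_nonneg (tent_nonneg _ _ _ _)]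
      calc |s x| * tent (-δ) δ 0 y ≤ |s x| * 1 :=
            mul_le_mul_of_nonneg_left (tent_le_one h0 y) (abs_nonneg _)
        _ ≤ C := by rw [mul_one]; exact hs x) (by
      intro x
      refine tent_mono h0 ?_ ?_
      · have := (abs_lt.1 (hs' x)).1
        linarith
      · have := (abs_lt.1 (hs' x)).2
        linarith)
  refine ⟨V, fun z hz => ?_, fun x => ?_⟩
  · rw [hV]
    rcases hz with h | h
    · rw [h, zero_mul, add_zero]
    · rw [tent_out h0, mul_zero, add_zero]
      intro hmem
      rw [mem_Ioo, ← abs_lt] at hmem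
      exact absurd hmem (not_lt.2 h)
  · rw [hV, Complex.ofReal_im, Complex.ofReal_re, tent_self h0, mul_one, zero_add]

theorem klee {a b δ : ℝ} (hab : a < b) (hδ : 0 < δ) {C₁ C₂ : Set ℝ} (h1 : IsCompact C₁)
    (h2 : IsCompact C₂) (hC1 : C₁ ⊆ Ioo a b) (hC2 : C₂ ⊆ Ioo a b) (φ : C₁ ≃ₜ C₂) :
    ∃ k : ℂ ≃ₜ ℂ, (∀ z : ℂ, ¬ (z.re ∈ Ioo a b ∧ |z.im| < δ) → k z = z) ∧
      ∀ x : C₁, k ((x : ℝ) : ℂ) = ((φ x : ℝ) : ℂ) := by
  have hne : (Ioo a b).Nonempty := nonempty_Ioo.2 hab
  -- extensions of the maps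
  obtain ⟨Φ, hΦm, hΦ⟩ := ContinuousMap.exists_restrict_eq_forall_mem_of_closed (s := C₁)
    (t := Ioo a b) ⟨fun x => (φ x : ℝ), continuous_subtype_val.comp φ.continuous⟩
    (fun x => hC2 (φ x).2) hne h1.isClosed
  obtain ⟨Ψ, hΨm, hΨ⟩ := ContinuousMap.exists_restrict_eq_forall_mem_of_closed (s := C₂)
    (t := Ioo a b) ⟨fun x => (φ.symm x : ℝ), continuous_subtype_val.comp φ.symm.continuous⟩
    (fun x => hC1 (φ.symm x).2) hne h2.isClosed
  obtain ⟨Θ, hΘm, hΘ⟩ := ContinuousMap.exists_restrict_eq_forall_mem_of_closed (s := C₂)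
    (t := Ioo a b) ⟨fun x => (x : ℝ), continuous_subtype_val⟩
    (fun x => hC2 x.2) hne h2.isClosed
  have hΦ' : ∀ x : C₁, Φ x = φ x := fun x => congrArg (fun f : C(C₁, ℝ) => f x) hΦ
  have hΨ' : ∀ x : C₂, Ψ x = φ.symm x := fun x => congrArg (fun f : C(C₂, ℝ) => f x) hΨ
  have hΘ' : ∀ x : C₂, Θ x = x := fun x => congrArg (fun f : C(C₂, ℝ) => f x) hΘ
  -- cut-off functions
  obtain ⟨c₁, hc₁0, hc₁1, hc₁m⟩ := exists_continuous_zero_one_of_isClosed (X := ℝ)
    (s := (Ioo a b)ᶜ) (t := C₁) isOpen_Ioo.isClosed_compl h1.isClosed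
    (disjoint_left.2 fun x hx hx' => hx (hC1 hx'))
  obtain ⟨c₂, hc₂0, hc₂1, hc₂m⟩ := exists_continuous_zero_one_of_isClosed (X := ℝ)
    (s := (Ioo a b)ᶜ) (t := C₂) isOpen_Ioo.isClosed_compl h2.isClosed
    (disjoint_left.2 fun x hx hx' => hx (hC2 hx'))
  -- the scale
  set M : ℝ := |a| + |b| + 1 with hM
  have hMpos : 0 < M := by positivity
  set η : ℝ := δ / (2 * M) with hη
  have hηpos : 0 < η := by positivity
  have hbd : ∀ x ∈ Ioo a b, |x| ≤ M := by
    intro x hx
    rw [abs_le]
    constructor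
    · linarith [hx.1, neg_abs_le a, abs_nonneg b]
    · linarith [hx.2, le_abs_self b, abs_nonneg a]
  have hηM : ∀ x, |x| ≤ M → |η * x| ≤ δ / 2 := by
    intro x hx
    rw [abs_mul, abs_of_pos hηpos]
    calc η * |x| ≤ η * M := mul_le_mul_of_nonneg_left hx hηpos.le
      _ = δ / 2 := by rw [hη]; field_simp
  have hcut : ∀ {c : ℝ}, c ∈ Icc (0 : ℝ) 1 → ∀ t : ℝ, |t * c| ≤ |t| := by
    intro c hc t
    rw [abs_mul, abs_of_nonneg hc.1]
    exact mul_le_of_le_one_right (abs_nonneg _) hc.2
  -- the first vertical shear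
  obtain ⟨V₁, hV₁, hV₁'⟩ := vshear hδ (s := fun x => η * Φ x * c₁ x) (C := δ / 2)
    ((continuous_const.mul Φ.continuous).mul c₁.continuous) (by linarith)
    (fun x => (hcut (hc₁m x) _).trans (hηM _ (hbd _ (hΦm x))))
  -- the last vertical shear
  obtain ⟨V₂, hV₂, hV₂'⟩ := vshear hδ (s := fun x => η * Θ x * c₂ x) (C := δ / 2)
    ((continuous_const.mul Θ.continuous).mul c₂.continuous) (by linarith)
    (fun x => (hcut (hc₂m x) _).trans (hηM _ (hbd _ (hΘm x))))
  -- the horizontal shear
  set lam : ℝ → ℝ := fun y => max 0 (min 1 (2 - 2 * |y| / δ)) with hlam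
  have hlam0 : ∀ y, 0 ≤ lam y := fun y => le_max_left _ _
  have hlam1 : ∀ y, lam y ≤ 1 := fun y => max_le zero_le_one (min_le_left _ _)
  have hlamc : Continuous lam := by
    rw [hlam]
    refine continuous_const.max (continuous_const.min ?_)
    fun_prop
  have hlam_one : ∀ y, |y| ≤ δ / 2 → lam y = 1 := by
    intro y hy
    have : 2 * |y| / δ ≤ 1 := by
      rw [div_le_one hδ]
      linarith
    rw [hlam]
    simp only
    rw [min_eq_left (by linarith), max_eq_right zero_le_one]
  have hlam_zero : ∀ y, δ ≤ |y| → lam y = 0 := by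
    intro y hy
    have : 2 ≤ 2 * |y| / δ := by
      rw [le_div_iff₀ hδ]
      linarith
    rw [hlam]
    simp only
    rw [max_eq_left]
    exact min_le_of_right_le (by linarith)
  have hstep : ∀ p q t : ℝ, p ∈ Ioo a b → q ∈ Ioo a b → 0 ≤ t → t ≤ 1 →
      -(p - a) < t * (q - p) ∧ t * (q - p) < b - p := by
    intro p q t hp hq ht0 ht1
    have hp1 := hp.1
    have hp2 := hp.2
    have hq1 := hq.1
    have hq2 := hq.2
    constructor
    · rcases le_total p q with h | h
      · have := mul_nonneg ht0 (sub_nonneg.2 h)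
        linarith
      · nlinarith
    · rcases le_total p q with h | h
      · nlinarith
      · have := mul_nonneg ht0 (sub_nonneg.2 h)
        nlinarith
  obtain ⟨H, hH⟩ := shearH (D := fun x y => lam y * (Θ (y / η) - Ψ (y / η)) *
      tent a b (Ψ (y / η)) x) (C := b - a) (by
      refine Continuous.mul ?_ ?_
      · refine (hlamc.comp continuous_snd).mul ?_
        exact (Θ.continuous.comp (continuous_snd.div_const _)).sub
          (Ψ.continuous.comp (continuous_snd.div_const _))
      · exact tent_continuous (Ψ.continuous.comp (continuous_snd.div_const _)) continuous_fst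
          fun p => hΨm _) (by
      intro x y
      obtain ⟨h3, h4⟩ := hstep (Ψ (y / η)) (Θ (y / η)) (lam y) (hΨm _) (hΘm _) (hlam0 y) (hlam1 y)
      have h5 := (hΨm (y / η)).1
      have h6 := (hΨm (y / η)).2
      rw [abs_mul, abs_of_nonneg (tent_nonneg _ _ _ _)]
      calc |lam y * (Θ (y / η) - Ψ (y / η))| * tent a b (Ψ (y / η)) x
          ≤ |lam y * (Θ (y / η) - Ψ (y / η))| * 1 :=
            mul_le_mul_of_nonneg_left (tent_le_one (hΨm _) x) (abs_nonneg _)
        _ ≤ b - a := by
            rw [mul_one, abs_le]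
            constructor <;> linarith) (by
      intro y
      obtain ⟨h3, h4⟩ := hstep (Ψ (y / η)) (Θ (y / η)) (lam y) (hΨm _) (hΘm _) (hlam0 y) (hlam1 y)
      exact tent_mono (hΨm _) h3 h4)
  -- the composition
  refine ⟨(V₁.trans H).trans V₂.symm, fun z hz => ?_, fun x => ?_⟩
  · change V₂.symm (H (V₁ z)) = z
    have hcase : z.re ∉ Ioo a b ∨ δ ≤ |z.im| := by
      by_contra hcon
      push Not at hcon
      exact hz ⟨hcon.1, hcon.2⟩
    have e1 : V₁ z = z := by
      apply hV₁
      rcases hcase with h | h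
      · left
        have := hc₁0 h
        rw [this]
        simp
      · exact Or.inr h
    have e2 : V₂ z = z := by
      apply hV₂
      rcases hcase with h | h
      · left
        have := hc₂0 h
        rw [this]
        simp
      · exact Or.inr h
    have e3 : H z = z := by
      rw [hH]
      rcases hcase with h | h
      · rw [tent_out (hΨm _) h, mul_zero, add_zero]
      · rw [hlam_zero _ h, zero_mul, zero_mul, add_zero]
    rw [e1, e3, Homeomorph.symm_apply_eq, e2]
  · change V₂.symm (H (V₁ ((x : ℝ) : ℂ))) = _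
    rw [Homeomorph.symm_apply_eq, hV₁', hV₂', hH]
    have e1 : c₁ x = 1 := hc₁1 x.2
    have e2 : c₂ (φ x) = 1 := hc₂1 (φ x).2
    have e3 : (η * (φ x : ℝ)) / η = φ x := by
      rw [mul_div_cancel_left₀ _ hηpos.ne']
    have e4 : Ψ (φ x) = x := by
      rw [hΨ', φ.symm_apply_apply]
    have e5 : lam (η * (φ x : ℝ)) = 1 := hlam_one _ (hηM _ (hbd _ (hC2 (φ x).2)))
    simp only [hΦ', hΘ', e1, e2, mul_one, e3, e4, e5, one_mul]
    rw [tent_self (hC1 x.2)]
    apply Complex.ext
    · simp
    · simp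

end Ends72
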