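import Mathlib

/-! TASK G2: radial homeomorphisms. -/

open Set Metric Topology Filter

noncomputable section

namespace Ends72

/-- the radial factor -/
def radialFac (e : ℝ ≃o ℝ) (r t : ℝ) : ℝ := e (max t r) / max t r

theorem radialFac_continuous (e : ℝ ≃o ℝ) {r : ℝ} (hr : 0 < r) :
    Continuous (radialFac e r) := by
  unfold radialFac
  have h1 : Continuous fun t : ℝ => max t r := continuous_id.max continuous_const
  exact (e.continuous.comp h1).div h1 (fun t => (lt_of_lt_of_le hr (le_max_right _ _)).ne')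

theorem radialFac_of_le (e : ℝ ≃o ℝ) {r t : ℝ} (hr : 0 < r) (he : ∀ x ≤ r, e x = x)
    (ht : t ≤ r) : radialFac e r t = 1 := by
  unfold radialFac
  rw [max_eq_right ht, he r le_rfl, div_self hr.ne']

theorem radialFac_of_ge (e : ℝ ≃o ℝ) {r t : ℝ} (ht : r ≤ t) : radialFac e r t = e t / t := by
  unfold radialFac
  rw [max_eq_left ht]

theorem radialFac_pos (e : ℝ ≃o ℝ) {r : ℝ} (hr : 0 < r) (he : ∀ x ≤ r, e x = x) (t : ℝ) :
    0 < radialFac e r t := by
  unfold radialFac
  have h1 : 0 < max t r := lt_of_lt_of_le hr (le_max_right _ _)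
  have h2 : r ≤ e (max t r) := by
    conv_lhs => rw [← he r le_rfl]
    exact e.monotone (le_max_right _ _)
  exact div_pos (lt_of_lt_of_le hr h2) h1

theorem radialFac_mul (e : ℝ ≃o ℝ) {r : ℝ} (hr : 0 < r) (he : ∀ x ≤ r, e x = x) (t : ℝ) :
    radialFac e r t * t = e t := by
  rcases le_total t r with h | h
  · rw [radialFac_of_le e hr he h, he t h, one_mul]
  · rw [radialFac_of_ge e h, div_mul_cancel₀ _ (lt_of_lt_of_le hr h).ne']

theorem radialFac_symm (e : ℝ ≃o ℝ) {r : ℝ} (hr : 0 < r) (he : ∀ x ≤ r, e x = x) (t : ℝ) :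
    radialFac e.symm r (e t) * radialFac e r t = 1 := by
  have he' : ∀ x ≤ r, e.symm x = x := by
    intro x hx
    rw [OrderIso.symm_apply_eq]
    exact (he x hx).symm
  rcases le_total t r with h | h
  · rw [radialFac_of_le e hr he h, he t h, radialFac_of_le e.symm hr he' h, one_mul]
  · have h2 : r ≤ e t := by
      conv_lhs => rw [← he r le_rfl]
      exact e.monotone h
    rw [radialFac_of_ge e h, radialFac_of_ge e.symm h2, OrderIso.symm_apply_apply]
    have h3 : e t ≠ 0 := (lt_of_lt_of_le hr h2).ne'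
    have h4 : t ≠ 0 := (lt_of_lt_of_le hr h).ne'
    field_simp

theorem norm_radialFac_smul (e : ℝ ≃o ℝ) {r : ℝ} (hr : 0 < r) (he : ∀ x ≤ r, e x = x) (z : ℂ) :
    ‖radialFac e r ‖z‖ • z‖ = e ‖z‖ := by
  rw [norm_smul, Real.norm_of_nonneg (radialFac_pos e hr he _).le, radialFac_mul e hr he]

/-- the radial homeomorphism of an increasing homeomorphism of the line, the identity near `0` -/
def radialHomeo (e : ℝ ≃o ℝ) {r : ℝ} (hr : 0 < r) (he : ∀ x ≤ r, e x = x) : ℂ ≃ₜ ℂ where
  toFun z := radialFac e r ‖z‖ • z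
  invFun z := radialFac e.symm r ‖z‖ • z
  left_inv := by
    intro z
    simp only
    rw [norm_radialFac_smul e hr he, smul_smul, radialFac_symm e hr he, one_smul]
  right_inv := by
    have he' : ∀ x ≤ r, e.symm x = x := by
      intro x hx
      rw [OrderIso.symm_apply_eq]
      exact (he x hx).symm
    intro z
    simp only
    rw [norm_radialFac_smul e.symm hr he', smul_smul]
    have := radialFac_symm e.symm hr he' ‖z‖
    rw [OrderIso.symm_symm] at this
    rw [this, one_smul]
  continuous_toFun := ((radialFac_continuous e hr).comp continuous_norm).smul continuous_id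
  continuous_invFun := ((radialFac_continuous e.symm hr).comp continuous_norm).smul continuous_id

/-- piecewise linear homeomorphism of the line -/
theorem exists_pl {r p q R : ℝ} (hp : r < p) (hq : r < q) (hp' : p < R) (hq' : q < R) :
    ∃ e : ℝ ≃o ℝ, (∀ x ≤ r, e x = x) ∧ (∀ x, R ≤ x → e x = x) ∧ e p = q := by
  have hpr : 0 < p - r := by linarith
  have hqr : 0 < q - r := by linarith
  have hRp : 0 < R - p := by linarith
  have hRq : 0 < R - q := by linarith
  let h : ℝ → ℝ := fun x => min x r + (q - r) * (max 0 (min ((x - r) / (p - r)) 1)) +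
    (R - q) * (max 0 (min ((x - p) / (R - p)) 1)) + max 0 (x - R)
  have hcont : Continuous h := by
    have : ∀ c d : ℝ, Continuous fun x : ℝ => (x - c) / d := fun c d =>
      (continuous_id.sub continuous_const).div_const d
    exact (((continuous_id.min continuous_const).add (continuous_const.mul
      (continuous_const.max ((this _ _).min continuous_const)))).add (continuous_const.mul
      (continuous_const.max ((this _ _).min continuous_const)))).add
      (continuous_const.max (continuous_id.sub continuous_const))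
  have h1 : ∀ x ≤ r, h x = x := by
    intro x hx
    have a1 : (x - r) / (p - r) ≤ 0 := div_nonpos_of_nonpos_of_nonneg (by linarith) hpr.le
    have a2 : (x - p) / (R - p) ≤ 0 := div_nonpos_of_nonpos_of_nonneg (by linarith) hRp.le
    simp only [h]
    rw [min_eq_left hx, min_eq_left (a1.trans zero_le_one), min_eq_left (a2.trans zero_le_one),
      max_eq_left a1, max_eq_left a2, max_eq_left (by linarith)]
    ring
  have h2 : ∀ x, r ≤ x → x ≤ p → h x = r + (q - r) * ((x - r) / (p - r)) := by
    intro x hx hx'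
    have a1 : 0 ≤ (x - r) / (p - r) := div_nonneg (by linarith) hpr.le
    have a3 : (x - r) / (p - r) ≤ 1 := (div_le_one hpr).mpr (by linarith)
    have a2 : (x - p) / (R - p) ≤ 0 := div_nonpos_of_nonpos_of_nonneg (by linarith) hRp.le
    simp only [h]
    rw [min_eq_right hx, min_eq_left a3, min_eq_left (a2.trans zero_le_one),
      max_eq_right a1, max_eq_left a2, max_eq_left (by linarith)]
    ring
  have h3 : ∀ x, p ≤ x → x ≤ R → h x = q + (R - q) * ((x - p) / (R - p)) := by
    intro x hx hx'
    have a1 : 1 ≤ (x - r) / (p - r) := (one_le_div hpr).mpr (by linarith)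
    have a3 : (x - p) / (R - p) ≤ 1 := (div_le_one hRp).mpr (by linarith)
    have a2 : 0 ≤ (x - p) / (R - p) := div_nonneg (by linarith) hRp.le
    simp only [h]
    rw [min_eq_right (by linarith), min_eq_right a1, min_eq_left a3,
      max_eq_right zero_le_one, max_eq_right a2, max_eq_left (by linarith)]
    ring
  have h4 : ∀ x, R ≤ x → h x = x := by
    intro x hx
    have a1 : 1 ≤ (x - r) / (p - r) := (one_le_div hpr).mpr (by linarith)
    have a3 : 1 ≤ (x - p) / (R - p) := (one_le_div hRp).mpr (by linarith)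
    simp only [h]
    rw [min_eq_right (by linarith), min_eq_right a1, min_eq_right a3,
      max_eq_right zero_le_one, max_eq_right (by linarith)]
    ring
  have hmono : StrictMono h := by
    have m1 : StrictMonoOn h (Iic r) := by
      intro x hx y hy hxy
      rw [h1 x hx, h1 y hy]
      exact hxy
    have m2 : StrictMonoOn h (Icc r p) := by
      intro x hx y hy hxy
      rw [h2 x hx.1 hx.2, h2 y hy.1 hy.2]
      have : (x - r) / (p - r) < (y - r) / (p - r) := div_lt_div_of_pos_right (by linarith) hpr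
      have := mul_lt_mul_of_pos_left this hqr
      linarith
    have m3 : StrictMonoOn h (Icc p R) := by
      intro x hx y hy hxy
      rw [h3 x hx.1 hx.2, h3 y hy.1 hy.2]
      have : (x - p) / (R - p) < (y - p) / (R - p) := div_lt_div_of_pos_right (by linarith) hRp
      have := mul_lt_mul_of_pos_left this hRq
      linarith
    have m4 : StrictMonoOn h (Ici R) := by
      intro x hx y hy hxy
      rw [h4 x hx, h4 y hy]
      exact hxy
    have m12 : StrictMonoOn h (Iic p) := by
      have := m1.union m2 isGreatest_Iic (isLeast_Icc hp.le)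
      rwa [Iic_union_Icc_eq_Iic hp.le] at this
    have m123 : StrictMonoOn h (Iic R) := by
      have := m12.union m3 isGreatest_Iic (isLeast_Icc hp'.le)
      rwa [Iic_union_Icc_eq_Iic hp'.le] at this
    have mall := m123.union m4 isGreatest_Iic isLeast_Ici
    rw [Iic_union_Ici] at mall
    exact strictMonoOn_univ.mp mall
  have hsurj : Function.Surjective h := by
    apply hcont.surjective
    · refine tendsto_id.congr' ?_
      filter_upwards [eventually_ge_atTop R] with x hx
      exact (h4 x hx).symm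
    · refine tendsto_id.congr' ?_
      filter_upwards [eventually_le_atBot r] with x hx
      exact (h1 x hx).symm
  refine ⟨hmono.orderIsoOfSurjective h hsurj, h1, h4, ?_⟩
  change h p = q
  rw [h2 p hp.le le_rfl, div_self hpr.ne']
  ring

theorem radial {r p q R : ℝ} (hr : 0 < r) (hp : r < p) (hq : r < q) (hp' : p < R)
    (hq' : q < R) :
    ∃ ρ : ℂ ≃ₜ ℂ, (∀ z, ‖z‖ ≤ r → ρ z = z) ∧ (∀ z, R ≤ ‖z‖ → ρ z = z) ∧
      ρ p = q ∧ (∀ z w, ‖z‖ < ‖w‖ → ‖ρ z‖ < ‖ρ w‖) ∧ (∀ z w, ‖z‖ = ‖w‖ → ‖ρ z‖ = ‖ρ w‖) ∧
      ∀ x : ℝ, 0 < x → ∃ y : ℝ, 0 < y ∧ ρ x = y := by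
  obtain ⟨e, he, heR, hep⟩ := exists_pl hp hq hp' hq'
  have hnorm : ∀ z : ℂ, ‖radialHomeo e hr he z‖ = e ‖z‖ := fun z => norm_radialFac_smul e hr he z
  have hreal : ∀ x : ℝ, 0 < x → radialHomeo e hr he (x : ℂ) = ((e x : ℝ) : ℂ) := by
    intro x hx
    change radialFac e r ‖(x : ℂ)‖ • (x : ℂ) = _
    rw [Complex.norm_of_nonneg hx.le, Complex.real_smul, ← Complex.ofReal_mul,
      radialFac_mul e hr he]
  refine ⟨radialHomeo e hr he, ?_, ?_, ?_, ?_, ?_, ?_⟩
  · intro z hz
    change radialFac e r ‖z‖ • z = z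
    rw [radialFac_of_le e hr he hz, one_smul]
  · intro z hz
    change radialFac e r ‖z‖ • z = z
    have hz' : r ≤ ‖z‖ := by linarith
    have hz0 : ‖z‖ ≠ 0 := by
      have : 0 < ‖z‖ := lt_of_lt_of_le hr hz'
      exact this.ne'
    rw [radialFac_of_ge e hz', heR _ hz, div_self hz0, one_smul]
  · rw [hreal p (by linarith), hep]
  · intro z w hzw
    rw [hnorm, hnorm]
    exact e.strictMono hzw
  · intro z w hzw
    rw [hnorm, hnorm, hzw]
  · intro x hx
    refine ⟨e x, ?_, hreal x hx⟩
    rcases le_total x r with h | h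
    · rw [he x h]
      exact hx
    · refine lt_of_lt_of_le hr ?_
      conv_lhs => rw [← he r le_rfl]
      exact e.monotone h

end Ends72
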