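import Pool.Agent.LibEnds72.Plane
import Pool.Agent.LibEnds72.Klee
import Pool.Agent.LibEnds72.Gather
import Pool.Agent.LibEnds72.Cover

/-! Common lemmas for `Surg.lean` and `Squeeze.lean`. -/

open Set Metric Topology Filter

noncomputable section

namespace Ends72

theorem SA_rad_pos (n : ℤ) : 0 < rad n := by
  unfold rad; positivity

theorem SA_rad_lt {m n : ℤ} (h : m < n) : rad m < rad n := by
  unfold rad
  have := zpow_lt_zpow_right₀ (by norm_num : (1 : ℝ) < 4) h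
  linarith

theorem SA_rad_le {m n : ℤ} (h : m ≤ n) : rad m ≤ rad n := by
  rcases h.lt_or_eq with h | h
  · exact (SA_rad_lt h).le
  · rw [h]

theorem SA_exists_rad (R : ℝ) : ∃ M : ℤ, R < rad M := by
  obtain ⟨k, hk⟩ := pow_unbounded_of_one_lt (4 / 3 * R) (by norm_num : (1 : ℝ) < 4)
  refine ⟨k, ?_⟩
  unfold rad
  rw [zpow_natCast]
  linarith

theorem SA_zscale {E : Set ℝ} (hE : EGap E) (k : ℤ) (x : ℝ) : (4 : ℝ) ^ k * x ∈ E ↔ x ∈ E := by
  induction k using Int.induction_on with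
  | zero => simp
  | succ i ih =>
    rw [← ih, zpow_add_one₀ (by norm_num), mul_comm ((4 : ℝ) ^ (i : ℤ)) 4, mul_assoc]
    exact hE.scale _
  | pred i ih =>
    rw [← ih]
    have : (4 : ℝ) ^ (-(i : ℤ)) * x = 4 * ((4 : ℝ) ^ (-(i : ℤ) - 1) * x) := by
      rw [zpow_sub_one₀ (by norm_num)]
      ring
    rw [this]
    exact (hE.scale _).symm

theorem SA_mem_EC {E : Set ℝ} {z : ℂ} : z ∈ EC E ↔ ∃ x : ℝ, x ∈ insert 0 E ∧ (x : ℂ) = z := Iff.rfl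

/-- points of `EC` are nonnegative reals -/
theorem SA_real {E : Set ℝ} (hE : EGap E) {z : ℂ} (hz : z ∈ EC E) : ∃ x : ℝ, z = (x : ℂ) ∧ x = ‖z‖ := by
  obtain ⟨x, hx, rfl⟩ := hz
  refine ⟨x, rfl, ?_⟩
  rw [Complex.norm_real, Real.norm_eq_abs]
  rcases hx with rfl | hx
  · simp
  · rw [abs_of_pos (hE.pos x hx)]

theorem SA_norm_ne {E : Set ℝ} (hE : EGap E) {z : ℂ} (hz : z ∈ EC E) (n : ℤ) : ‖z‖ ≠ rad n := by
  intro h
  obtain ⟨x, hx, rfl⟩ := hz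
  rcases hx with rfl | hx
  · simp only [Complex.ofReal_zero, norm_zero] at h
    exact (SA_rad_pos n).ne h
  · rw [Complex.norm_real, Real.norm_eq_abs, abs_of_pos (hE.pos x hx)] at h
    have h1 := (SA_zscale hE (1 - n) x).2 hx
    have h2 : (4 : ℝ) ^ (1 - n) * x = 3 := by
      rw [h]; unfold rad
      have : (4 : ℝ) ^ (1 - n) * (3 / 4 * 4 ^ n) = 3 / 4 * (4 ^ (1 - n) * 4 ^ n) := by ring
      rw [this, ← zpow_add₀ (by norm_num)]
      norm_num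
    rw [h2] at h1
    exact hE.gap 3 h1 ⟨by norm_num, by norm_num⟩

theorem SA_closed {E : Set ℝ} (hE : EGap E) : IsClosed (EC E) :=
  (Complex.isometry_ofReal.isClosedEmbedding).isClosedMap _ hE.closed

theorem SA_ann_open (r s : ℝ) : IsOpen (Ann r s) := by
  have h1 : IsOpen {z : ℂ | r < ‖z‖} := isOpen_lt continuous_const continuous_norm
  have h2 : IsOpen {z : ℂ | ‖z‖ < s} := isOpen_lt continuous_norm continuous_const
  exact h1.inter h2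

theorem SA_ann_preconnected {r : ℝ} (hr : 0 ≤ r) (s : ℝ) : IsPreconnected (Ann r s) := by
  have h1 : Ann r s = (fun p : ℝ × ℝ => (p.1 : ℂ) * Complex.exp (p.2 * Complex.I)) ''
      (Ioo r s ×ˢ univ) := by
    ext z
    constructor
    · intro hz
      refine ⟨(‖z‖, Complex.arg z), ⟨hz, mem_univ _⟩, ?_⟩
      exact Complex.norm_mul_exp_arg_mul_I z
    · rintro ⟨⟨ρ, θ⟩, ⟨hρ, _⟩, rfl⟩
      have : ‖(ρ : ℂ) * Complex.exp (θ * Complex.I)‖ = ρ := by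
        rw [norm_mul, Complex.norm_exp_ofReal_mul_I, mul_one, Complex.norm_real, Real.norm_eq_abs,
          abs_of_nonneg (hr.trans hρ.1.le)]
      show r < _ ∧ _ < s
      simp only
      rw [this]
      exact hρ
  rw [h1]
  refine IsPreconnected.image (isPreconnected_Ioo.prod isPreconnected_univ) _ ?_
  fun_prop

theorem SA_supp {g : ℂ ≃ₜ ℂ} {K Ω : Set ℂ} (hK : K ⊆ Ω) (hg : ∀ z, z ∉ K → g z = z) (z : ℂ) :
    g z ∈ Ω ↔ z ∈ Ω := by
  by_cases hz : z ∈ K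
  · constructor
    · intro _; exact hK hz
    · intro _
      by_contra h
      have h1 : g z ∉ K := fun h' => h (hK h')
      have h2 := g.injective (hg _ h1)
      rw [h2] at h
      exact h (hK hz)
  · rw [hg z hz]

theorem SA_supp_symm {g : ℂ ≃ₜ ℂ} {K : Set ℂ} (hg : ∀ z, z ∉ K → g z = z) (z : ℂ) (hz : z ∉ K) :
    g.symm z = z := by
  rw [Homeomorph.symm_apply_eq, hg z hz]

/-- a set of real points, as a set of reals -/
def SA_re (S : Set ℂ) : Set ℝ := {x : ℝ | (x : ℂ) ∈ S}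

theorem SA_re_compact {S : Set ℂ} (hS : IsCompact S) : IsCompact (SA_re S) :=
  (Complex.isometry_ofReal.isClosedEmbedding).isCompact_preimage hS

theorem SA_re_open {S : Set ℂ} (hS : IsOpen S) : IsOpen (SA_re S) :=
  hS.preimage Complex.continuous_ofReal

def SA_reHomeo {S : Set ℂ} (hS : ∀ z ∈ S, ∃ x : ℝ, z = (x : ℂ)) : S ≃ₜ SA_re S where
  toFun z := ⟨(z : ℂ).re, by
    obtain ⟨x, hx⟩ := hS z z.2
    show (((z : ℂ).re : ℝ) : ℂ) ∈ S
    rw [hx, Complex.ofReal_re, ← hx]; exact z.2⟩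
  invFun x := ⟨((x : ℝ) : ℂ), x.2⟩
  left_inv z := by
    obtain ⟨x, hx⟩ := hS z z.2
    apply Subtype.ext
    show (((z : ℂ).re : ℝ) : ℂ) = z
    rw [hx, Complex.ofReal_re]
  right_inv x := by
    apply Subtype.ext
    show ((x : ℝ) : ℂ).re = x
    exact Complex.ofReal_re _
  continuous_toFun := by fun_prop
  continuous_invFun := by fun_prop

/-- gathering two compact sets of real points into two small windows -/
theorem SA_gather_two {Ω : Set ℂ} (ho : IsOpen Ω) (hc : IsPreconnected Ω) {F₁ F₂ : Set ℂ}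
    (hF₁ : IsCompact F₁) (hF₂ : IsCompact F₂) (hd : Disjoint F₁ F₂) (h1 : F₁ ⊆ Ω) (h2 : F₂ ⊆ Ω)
    (hr1 : ∀ z ∈ F₁, ∃ x : ℝ, z = (x : ℂ)) (hr2 : ∀ z ∈ F₂, ∃ x : ℝ, z = (x : ℂ))
    {p₁ p₂ ε : ℝ} (hε : 0 < ε) (hp : p₁ + ε ≤ p₂) (hw1 : ∀ y : ℝ, |y - p₁| < ε → (y : ℂ) ∈ Ω)
    (hw2 : ∀ y : ℝ, |y - p₂| < ε → (y : ℂ) ∈ Ω) :
    ∃ (g : ℂ ≃ₜ ℂ) (K : Set ℂ), IsCompact K ∧ K ⊆ Ω ∧ (∀ z, z ∉ K → g z = z) ∧
      (∀ z ∈ F₁, ∃ y : ℝ, |y - p₁| < ε ∧ g z = (y : ℂ)) ∧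
      (∀ z ∈ F₂, ∃ y : ℝ, |y - p₂| < ε ∧ g z = (y : ℂ)) := by
  obtain ⟨n, a, b, lab, hab, hdisj, hIcc, hc1, hc2⟩ := cover_two (SA_re_open ho) (SA_re_compact hF₁)
    (SA_re_compact hF₂) (F₁ := SA_re F₁) (F₂ := SA_re F₂)
    (by
      rw [Set.disjoint_left] at hd ⊢
      intro x hx hx'
      exact hd hx hx')
    (fun x hx => h1 hx) (fun x hx => h2 hx)
  obtain ⟨off, hoff⟩ : ∃ off : Fin n → ℝ,
      off = fun i : Fin n => (ε / 2) * (((i : ℕ) : ℝ) / ((n : ℝ) + 1)) := ⟨_, rfl⟩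
  have hoff0 : ∀ i, 0 ≤ off i := fun i => by rw [hoff]; positivity
  have hoff1 : ∀ i, off i < ε / 2 := fun i => by
    rw [hoff]
    have h3 : ((i : ℕ) : ℝ) / ((n : ℝ) + 1) < 1 := by
      rw [div_lt_one (by positivity)]
      have : ((i : ℕ) : ℝ) < n := by exact_mod_cast i.2
      linarith
    have : ε / 2 * (((i : ℕ) : ℝ) / ((n : ℝ) + 1)) < ε / 2 * 1 :=
      mul_lt_mul_of_pos_left h3 (by linarith)
    simpa using this
  have hoffi : Function.Injective off := by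
    intro i j hij
    rw [hoff] at hij
    simp only at hij
    have h4 : ((i : ℕ) : ℝ) / ((n : ℝ) + 1) = ((j : ℕ) : ℝ) / ((n : ℝ) + 1) :=
      mul_left_cancel₀ (by linarith : ε / 2 ≠ 0) hij
    have h5 : ((n : ℝ) + 1) ≠ 0 := by positivity
    rw [div_left_inj' h5] at h4
    exact Fin.ext (by exact_mod_cast h4)
  obtain ⟨d, hdd⟩ : ∃ d : Fin n → ℝ, d = fun i => (if lab i = true then p₁ else p₂) + off i :=
    ⟨_, rfl⟩
  have hdi : Function.Injective d := by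
    intro i j hij
    rw [hdd] at hij
    simp only at hij
    have a1 := hoff0 i
    have a2 := hoff0 j
    have a3 := hoff1 i
    have a4 := hoff1 j
    split_ifs at hij
    · exact hoffi (by linarith)
    · exfalso; linarith
    · exfalso; linarith
    · exact hoffi (by linarith)
  have hdΩ : ∀ i, ((d i : ℝ) : ℂ) ∈ Ω := by
    intro i
    rw [hdd]
    simp only
    have a1 := hoff0 i
    have a3 := hoff1 i
    split_ifs
    · apply hw1
      rw [abs_lt]; constructor <;> linarith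
    · apply hw2
      rw [abs_lt]; constructor <;> linarith
  obtain ⟨g, K, hKc, hKΩ, hgK, hgi⟩ := gather ho hc a b hab hdisj (fun i x hx => hIcc i hx) d hdi hdΩ
    (by linarith : (0 : ℝ) < ε / 2)
  refine ⟨g, K, hKc, hKΩ, hgK, ?_, ?_⟩
  · intro z hz
    obtain ⟨x, rfl⟩ := hr1 z hz
    obtain ⟨i, hi, hxi⟩ := hc1 x hz
    obtain ⟨y, hy, hgy⟩ := hgi i x hxi
    refine ⟨y, ?_, hgy⟩
    rw [hdd] at hy
    simp only [hi, if_true] at hy
    have a1 := hoff0 i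
    have a3 := hoff1 i
    rw [abs_lt] at hy ⊢
    constructor <;> linarith [hy.1, hy.2]
  · intro z hz
    obtain ⟨x, rfl⟩ := hr2 z hz
    obtain ⟨i, hi, hxi⟩ := hc2 x hz
    obtain ⟨y, hy, hgy⟩ := hgi i x hxi
    refine ⟨y, ?_, hgy⟩
    rw [hdd] at hy
    simp only [hi] at hy
    have a1 := hoff0 i
    have a3 := hoff1 i
    rw [if_neg (by decide), abs_lt] at hy
    rw [abs_lt]
    constructor <;> linarith [hy.1, hy.2]

theorem SA_gather_one {Ω : Set ℂ} (ho : IsOpen Ω) (hc : IsPreconnected Ω) {F : Set ℂ}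
    (hF : IsCompact F) (h1 : F ⊆ Ω) (hr1 : ∀ z ∈ F, ∃ x : ℝ, z = (x : ℂ))
    {p ε : ℝ} (hε : 0 < ε) (hw : ∀ y : ℝ, |y - p| < ε → (y : ℂ) ∈ Ω) :
    ∃ (g : ℂ ≃ₜ ℂ) (K : Set ℂ), IsCompact K ∧ K ⊆ Ω ∧ (∀ z, z ∉ K → g z = z) ∧
      (∀ z ∈ F, ∃ y : ℝ, |y - p| < ε ∧ g z = (y : ℂ)) := by
  obtain ⟨g, K, h2, h3, h4, h5, _⟩ := SA_gather_two ho hc hF isCompact_empty
    (disjoint_empty F) h1 (empty_subset Ω) hr1 (fun z hz => absurd hz (notMem_empty z))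
    (p₁ := p) (p₂ := p + ε / 2) (ε := ε / 4) (by linarith) (by linarith)
    (fun y hy => hw y (by linarith)) (fun y hy => hw y (by
      rw [abs_lt] at hy ⊢
      constructor <;> linarith [hy.1, hy.2]))
  refine ⟨g, K, h2, h3, h4, fun z hz => ?_⟩
  obtain ⟨y, hy, hgy⟩ := h5 z hz
  exact ⟨y, by linarith, hgy⟩

/-- Klee's trick for compact sets of real points -/
theorem SA_klee {a b δ : ℝ} (hab : a < b) (hδ : 0 < δ) {S₁ S₂ : Set ℂ} (h1 : IsCompact S₁)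
    (h2 : IsCompact S₂) (hr1 : ∀ z ∈ S₁, ∃ x : ℝ, x ∈ Ioo a b ∧ z = (x : ℂ))
    (hr2 : ∀ z ∈ S₂, ∃ x : ℝ, x ∈ Ioo a b ∧ z = (x : ℂ)) (φ : S₁ ≃ₜ S₂) :
    ∃ k : ℂ ≃ₜ ℂ, (∀ z : ℂ, ¬ (z.re ∈ Ioo a b ∧ |z.im| < δ) → k z = z) ∧ k '' S₁ = S₂ := by
  have hr1' : ∀ z ∈ S₁, ∃ x : ℝ, z = (x : ℂ) := fun z hz => by
    obtain ⟨x, _, hx⟩ := hr1 z hz; exact ⟨x, hx⟩
  have hr2' : ∀ z ∈ S₂, ∃ x : ℝ, z = (x : ℂ) := fun z hz => by
    obtain ⟨x, _, hx⟩ := hr2 z hz; exact ⟨x, hx⟩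
  have hs1 : SA_re S₁ ⊆ Ioo a b := by
    intro x hx
    obtain ⟨y, hy, hxy⟩ := hr1 _ hx
    have : x = y := by exact_mod_cast hxy
    rw [this]; exact hy
  have hs2 : SA_re S₂ ⊆ Ioo a b := by
    intro x hx
    obtain ⟨y, hy, hxy⟩ := hr2 _ hx
    have : x = y := by exact_mod_cast hxy
    rw [this]; exact hy
  obtain ⟨k, hk, hkφ⟩ := klee hab hδ (SA_re_compact h1) (SA_re_compact h2) hs1 hs2
    (((SA_reHomeo hr1').symm.trans φ).trans (SA_reHomeo hr2'))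
  refine ⟨k, hk, ?_⟩
  have key : ∀ x : SA_re S₁, k ((x : ℝ) : ℂ) = (φ ((SA_reHomeo hr1').symm x) : ℂ) := by
    intro x
    rw [hkφ x]
    have h3 := (SA_reHomeo hr2').symm_apply_apply (φ ((SA_reHomeo hr1').symm x))
    have h4 := congrArg Subtype.val h3
    exact h4
  apply Subset.antisymm
  · rintro _ ⟨z, hz, rfl⟩
    obtain ⟨x, rfl⟩ := hr1' z hz
    have h5 := key ⟨x, hz⟩
    simp only at h5
    rw [h5]
    exact Subtype.mem _
  · intro w hw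
    obtain ⟨u, hu⟩ := φ.surjective ⟨w, hw⟩
    obtain ⟨x, hx⟩ := (SA_reHomeo hr1').symm.surjective u
    refine ⟨((x : ℝ) : ℂ), x.2, ?_⟩
    rw [key x, hx, hu]

theorem SA_margin {S : Set ℂ} (hS : IsCompact S) {R q : ℝ} (hq : q < R) (h : ∀ z ∈ S, ‖z‖ < R) :
    ∃ b, q < b ∧ b < R ∧ ∀ z ∈ S, ‖z‖ < b := by
  rcases S.eq_empty_or_nonempty with rfl | hne
  · exact ⟨(q + R) / 2, by linarith, by linarith, fun z hz => absurd hz (notMem_empty z)⟩
  · obtain ⟨z₀, hz₀, hmax⟩ := hS.exists_isMaxOn hne continuous_norm.continuousOn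
    have h1 := h z₀ hz₀
    refine ⟨(max q ‖z₀‖ + R) / 2, ?_, ?_, fun z hz => ?_⟩
    · have := le_max_left q ‖z₀‖; linarith
    · have : max q ‖z₀‖ < R := max_lt hq h1
      linarith
    · have h2 : ‖z‖ ≤ ‖z₀‖ := hmax hz
      have h3 := le_max_right q ‖z₀‖
      have : max q ‖z₀‖ < R := max_lt hq h1
      linarith

theorem SA_homeo_image (g : ℂ ≃ₜ ℂ) (S : Set ℂ) : Nonempty (S ≃ₜ ↥(g '' S)) := ⟨g.image S⟩

end Ends72
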