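import Pool.Agent.LibEnds72.Plane
import Pool.Agent.LibEnds72.Klee
import Pool.Agent.LibEnds72.Radial
import Pool.Agent.LibEnds72.Gather
import Pool.Agent.LibEnds72.Cover
import Pool.Agent.LibEnds72.SurgAux

/-! TASK I2: squeezing a large disc into a small one. -/

open Set Metric Topology Filter

noncomputable section

namespace Ends72

theorem SQ_compact {E : Set ℝ} (hE : EGap E) (i j : ℤ) : IsCompact (EC E ∩ Ann (rad i) (rad j)) := by
  have h1 : EC E ∩ Ann (rad i) (rad j) = EC E ∩ {z | rad i ≤ ‖z‖} ∩ closedBall 0 (rad j) := by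
    ext z
    constructor
    · rintro ⟨h1, h2⟩
      exact ⟨⟨h1, h2.1.le⟩, mem_closedBall_zero_iff.2 h2.2.le⟩
    · rintro ⟨⟨h1, h2⟩, h3⟩
      refine ⟨h1, lt_of_le_of_ne h2 (SA_norm_ne hE h1 i).symm, ?_⟩
      exact lt_of_le_of_ne (mem_closedBall_zero_iff.1 h3) (SA_norm_ne hE h1 j)
  rw [h1]
  exact (isCompact_closedBall 0 (rad j)).inter_left
    ((SA_closed hE).inter (isClosed_le continuous_const continuous_norm))

theorem squeeze {E : Set ℝ} (hE : EGap E) (N : ℤ) (hN : 1 ≤ N) (Y : Set ℂ)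
    (hY : Y ⊆ EC E ∩ Ann (rad 0) (rad 1)) (hYc : IsClosed Y)
    (hYc' : IsClosed ((EC E ∩ Ann (rad 0) (rad 1)) \ Y))
    (h1 : Nonempty (↥(EC E ∩ Ann (rad 0) (rad N)) ≃ₜ Y))
    (h2 : Nonempty (↥(EC E ∩ Ann (rad N) (rad (N + 1))) ≃ₜ
      ↥((EC E ∩ Ann (rad 0) (rad (N + 1))) \ Y))) :
    ∃ b : ℂ ≃ₜ ℂ, b '' EC E = EC E ∧ (∀ z, ‖z‖ ≤ rad 0 → b z = z) ∧
      (∀ z, rad (N + 1) ≤ ‖z‖ → b z = z) ∧
      b '' closedBall 0 (rad N) ⊆ closedBall 0 (rad 1) := by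
  obtain ⟨φ₁⟩ := h1
  obtain ⟨φ₂⟩ := h2
  have r0 : rad 0 = 3 / 4 := by unfold rad; norm_num
  have r1 : rad 1 = 3 := by unfold rad; norm_num
  have rN : rad 1 ≤ rad N := SA_rad_le hN
  have rN1 : rad N < rad (N + 1) := SA_rad_lt (by omega)
  obtain ⟨X, hX⟩ : ∃ X : Set ℂ, X = EC E ∩ Ann (rad 0) (rad (N + 1)) := ⟨_, rfl⟩
  obtain ⟨Xa, hXa⟩ : ∃ Xa : Set ℂ, Xa = EC E ∩ Ann (rad 0) (rad N) := ⟨_, rfl⟩
  obtain ⟨Xb, hXb⟩ : ∃ Xb : Set ℂ, Xb = EC E ∩ Ann (rad N) (rad (N + 1)) := ⟨_, rfl⟩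
  obtain ⟨Z, hZ⟩ : ∃ Z : Set ℂ, Z = (EC E ∩ Ann (rad 0) (rad 1)) \ Y := ⟨_, rfl⟩
  have hX0c := SQ_compact hE 0 1
  have hXc : IsCompact X := by rw [hX]; exact SQ_compact hE 0 (N + 1)
  have hXac : IsCompact Xa := by rw [hXa]; exact SQ_compact hE 0 N
  have hXbc : IsCompact Xb := by rw [hXb]; exact SQ_compact hE N (N + 1)
  have hYcomp : IsCompact Y := hX0c.of_isClosed_subset hYc hY
  have hZcomp : IsCompact Z := by
    rw [hZ]; exact hX0c.of_isClosed_subset hYc' sdiff_subset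
  have hXX : X = Xa ∪ Xb := by
    rw [hX, hXa, hXb]
    ext z
    constructor
    · rintro ⟨hz, hz1, hz2⟩
      rcases lt_or_gt_of_ne (SA_norm_ne hE hz N) with h | h
      · exact Or.inl ⟨hz, hz1, h⟩
      · exact Or.inr ⟨hz, h, hz2⟩
    · rintro (⟨hz, hz1, hz2⟩ | ⟨hz, hz1, hz2⟩)
      · exact ⟨hz, hz1, hz2.trans rN1⟩
      · exact ⟨hz, by linarith, hz2⟩
  have hXY : X \ Y = Z ∪ (EC E ∩ Ann (rad 1) (rad (N + 1))) := by
    rw [hX, hZ]
    ext z
    constructor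
    · rintro ⟨⟨hz, hz1, hz2⟩, hzY⟩
      rcases lt_or_gt_of_ne (SA_norm_ne hE hz 1) with h | h
      · exact Or.inl ⟨⟨hz, hz1, h⟩, hzY⟩
      · exact Or.inr ⟨hz, h, hz2⟩
    · rintro (⟨⟨hz, hz1, hz2⟩, hzY⟩ | ⟨hz, hz1, hz2⟩)
      · exact ⟨⟨hz, hz1, by linarith⟩, hzY⟩
      · refine ⟨⟨hz, by linarith, hz2⟩, fun h => ?_⟩
        have := (hY h).2.2
        linarith
  have hYX : Y ⊆ X := by
    intro z hz
    rw [hX]
    have := hY hz
    exact ⟨this.1, this.2.1, by linarith [this.2.2]⟩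
  have hreal : ∀ z ∈ EC E, ∃ x : ℝ, z = (x : ℂ) ∧ x = ‖z‖ := fun z hz => SA_real hE hz
  -- gather
  obtain ⟨g, K, _, hKV, hgK, hgY, hgZ⟩ := SA_gather_two (SA_ann_open (rad 0) (rad 1)) 
    (SA_ann_preconnected (SA_rad_pos 0).le (rad 1)) hYcomp hZcomp 
    (by rw [hZ]; exact disjoint_sdiff_right) (fun z hz => (hY hz).2) 
    (fun z hz => by rw [hZ] at hz; exact hz.1.2) 
    (fun z hz => by obtain ⟨x, hx, _⟩ := hreal z (hY hz).1; exact ⟨x, hx⟩)
    (fun z hz => by rw [hZ] at hz; obtain ⟨x, hx, _⟩ := hreal z hz.1.1; exact ⟨x, hx⟩)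
    (p₁ := 5 / 4) (p₂ := 5 / 2) (ε := 1 / 4) (by norm_num) (by norm_num)
    (fun y hy => by
      rw [abs_lt] at hy
      have hy0 : 0 < y := by linarith [hy.1]
      show rad 0 < ‖(y : ℂ)‖ ∧ ‖(y : ℂ)‖ < rad 1
      rw [Complex.norm_real, Real.norm_eq_abs, abs_of_pos hy0, r0, r1]
      constructor <;> linarith [hy.1, hy.2])
    (fun y hy => by
      rw [abs_lt] at hy
      have hy0 : 0 < y := by linarith [hy.1]
      show rad 0 < ‖(y : ℂ)‖ ∧ ‖(y : ℂ)‖ < rad 1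
      rw [Complex.norm_real, Real.norm_eq_abs, abs_of_pos hy0, r0, r1]
      constructor <;> linarith [hy.1, hy.2])
  -- radial map
  obtain ⟨ρ, hρ1, hρ2, hρ3, hρ4, hρ5, hρ6⟩ := radial (r := rad 0) (p := rad N) (q := 2) 
    (R := rad (N + 1)) (SA_rad_pos 0) (by linarith) (by linarith) rN1 (by linarith)
  have hnormN : ‖((rad N : ℝ) : ℂ)‖ = rad N := by
    rw [Complex.norm_real, Real.norm_eq_abs, abs_of_pos (SA_rad_pos N)]
  have hq : ‖ρ ((rad N : ℝ) : ℂ)‖ = 2 := by rw [hρ3]; simp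
  have hnorm0 : ‖((rad 0 : ℝ) : ℂ)‖ = rad 0 := by
    rw [Complex.norm_real, Real.norm_eq_abs, abs_of_pos (SA_rad_pos 0)]
  have hq0 : ‖ρ ((rad 0 : ℝ) : ℂ)‖ = rad 0 := by rw [hρ1 _ hnorm0.le, hnorm0]
  have hnormN1 : ‖((rad (N + 1) : ℝ) : ℂ)‖ = rad (N + 1) := by
    rw [Complex.norm_real, Real.norm_eq_abs, abs_of_pos (SA_rad_pos (N + 1))]
  have hqN1 : ‖ρ ((rad (N + 1) : ℝ) : ℂ)‖ = rad (N + 1) := by rw [hρ2 _ hnormN1.ge, hnormN1]
  -- images under rho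
  have hS1 : ∀ z ∈ ρ '' Xa, ∃ x : ℝ, x ∈ Ioo (rad 0) 2 ∧ z = (x : ℂ) := by
    rintro _ ⟨z, hz, rfl⟩
    rw [hXa] at hz
    obtain ⟨x, hx, hxn⟩ := hreal z hz.1
    have hx0 : 0 < x := by rw [hxn]; linarith [hz.2.1, SA_rad_pos 0]
    obtain ⟨y, hy, hρy⟩ := hρ6 x hx0
    rw [← hx] at hρy
    have h3 : ‖ρ z‖ = y := by rw [hρy, Complex.norm_real, Real.norm_eq_abs, abs_of_pos hy]
    refine ⟨y, ⟨?_, ?_⟩, hρy⟩
    · rw [← h3, ← hq0]
      apply hρ4
      rw [hnorm0]; exact hz.2.1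
    · rw [← h3, ← hq]
      apply hρ4
      rw [hnormN]; exact hz.2.2
  have hS3 : ∀ z ∈ ρ '' Xb, ∃ x : ℝ, (2 < x ∧ x < rad (N + 1)) ∧ z = (x : ℂ) := by
    rintro _ ⟨z, hz, rfl⟩
    rw [hXb] at hz
    obtain ⟨x, hx, hxn⟩ := hreal z hz.1
    have hx0 : 0 < x := by rw [hxn]; linarith [hz.2.1, SA_rad_pos N]
    obtain ⟨y, hy, hρy⟩ := hρ6 x hx0
    rw [← hx] at hρy
    have h3 : ‖ρ z‖ = y := by rw [hρy, Complex.norm_real, Real.norm_eq_abs, abs_of_pos hy]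
    refine ⟨y, ⟨?_, ?_⟩, hρy⟩
    · rw [← h3, ← hq]
      apply hρ4
      rw [hnormN]; exact hz.2.1
    · rw [← h3, ← hqN1]
      apply hρ4
      rw [hnormN1]; exact hz.2.2
  have hS2 : ∀ z ∈ g '' Y, ∃ x : ℝ, x ∈ Ioo (rad 0) 2 ∧ z = (x : ℂ) := by
    rintro _ ⟨z, hz, rfl⟩
    obtain ⟨y, hy, hyz⟩ := hgY z hz
    rw [abs_lt] at hy
    exact ⟨y, ⟨by linarith [hy.1], by linarith [hy.2]⟩, hyz⟩
  have hS4 : ∀ z ∈ g '' (X \ Y), ∃ x : ℝ, (2 < x ∧ x < rad (N + 1)) ∧ z = (x : ℂ) := by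
    rintro _ ⟨z, hz, rfl⟩
    rw [hXY] at hz
    rcases hz with hz | hz
    · obtain ⟨y, hy, hyz⟩ := hgZ z hz
      rw [abs_lt] at hy
      exact ⟨y, ⟨by linarith [hy.1], by linarith [hy.2]⟩, hyz⟩
    · have h3 : g z = z := hgK z (fun h => by
        have := (hKV h).2
        linarith [hz.2.1])
      rw [h3]
      obtain ⟨x, hx, hxn⟩ := hreal z hz.1
      refine ⟨x, ⟨?_, ?_⟩, hx⟩
      · rw [hxn]; linarith [hz.2.1]
      · rw [hxn]; exact hz.2.2
  have hXYc : IsCompact (X \ Y) := by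
    rw [hXY]; exact hZcomp.union (SQ_compact hE 1 (N + 1))
  obtain ⟨k₁, hk₁, hk₁S⟩ := SA_klee (a := rad 0) (b := 2) (δ := 1) (by linarith) one_pos 
    (hXac.image ρ.continuous) (hYcomp.image g.continuous) hS1 hS2 
    (((ρ.image Xa).symm.trans (by rw [hXa]; exact φ₁)).trans (g.image Y))
  -- second box
  obtain ⟨b₂, hb2, hb2', hb2S⟩ := SA_margin (q := 2) (R := rad (N + 1)) 
    ((hXbc.image ρ.continuous).union (hXYc.image g.continuous)) (by linarith) 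
    (by
      rintro z (hz | hz)
      · obtain ⟨x, hx, rfl⟩ := hS3 z hz
        rw [Complex.norm_real, Real.norm_eq_abs, abs_of_pos (by linarith [hx.1])]
        exact hx.2
      · obtain ⟨x, hx, rfl⟩ := hS4 z hz
        rw [Complex.norm_real, Real.norm_eq_abs, abs_of_pos (by linarith [hx.1])]
        exact hx.2)
  obtain ⟨k₂, hk₂, hk₂S⟩ := SA_klee (a := 2) (b := b₂) (δ := rad (N + 1) - b₂) hb2 (by linarith)
    (hXbc.image ρ.continuous) (hXYc.image g.continuous) 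
    (by
      intro z hz
      obtain ⟨x, hx, rfl⟩ := hS3 z hz
      have := hb2S _ (Or.inl hz)
      rw [Complex.norm_real, Real.norm_eq_abs, abs_of_pos (by linarith [hx.1])] at this
      exact ⟨x, ⟨hx.1, this⟩, rfl⟩) 
    (by
      intro z hz
      obtain ⟨x, hx, rfl⟩ := hS4 z hz
      have := hb2S _ (Or.inr hz)
      rw [Complex.norm_real, Real.norm_eq_abs, abs_of_pos (by linarith [hx.1])] at this
      exact ⟨x, ⟨hx.1, this⟩, rfl⟩)
    (((ρ.image Xb).symm.trans (by rw [hXb, hX]; exact φ₂)).trans (g.image (X \ Y)))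
  have hre : ∀ z : ℂ, z.re ≤ ‖z‖ := Complex.re_le_norm
  have hk₂out : ∀ z : ℂ, rad (N + 1) ≤ ‖z‖ → k₂ z = z := by
    intro z hz
    apply hk₂
    rintro ⟨h3, h4⟩
    have h5 := Complex.norm_le_abs_re_add_abs_im z
    rw [abs_of_pos (by linarith [h3.1])] at h5
    linarith [h3.2]
  have hk₂in : ∀ z : ℂ, ‖z‖ ≤ 2 → k₂ z = z := by
    intro z hz
    apply hk₂
    rintro ⟨h3, h4⟩
    linarith [h3.1, hre z]
  have hk₁box : ∀ z : ℂ, (z.re ∈ Ioo (rad 0) 2 ∧ |z.im| < 1) → z ∈ ball (0 : ℂ) (rad 1) := by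
    rintro z ⟨h3, h4⟩
    rw [mem_ball_zero_iff]
    have h5 : ‖z‖ ^ 2 < 3 ^ 2 := by
      rw [← Complex.normSq_eq_norm_sq, Complex.normSq_apply]
      have h6 := h3.1
      have h7 := h3.2
      rw [r0] at h6
      rw [abs_lt] at h4
      nlinarith
    rw [r1]
    exact lt_of_pow_lt_pow_left₀ 2 (by norm_num) h5
  have hk₁out : ∀ z : ℂ, rad 1 ≤ ‖z‖ → k₁ z = z := by
    intro z hz
    apply hk₁
    intro h
    have := hk₁box z h
    rw [mem_ball_zero_iff] at this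
    linarith
  have hk₁in : ∀ z : ℂ, ‖z‖ ≤ rad 0 → k₁ z = z := by
    intro z hz
    apply hk₁
    rintro ⟨h3, h4⟩
    linarith [h3.1, hre z]
  have hgs : ∀ z, z ∉ Ann (rad 0) (rad 1) → g.symm z = z := fun z hz => 
    SA_supp_symm hgK z (fun h => hz (hKV h))
  have hval : ∀ z, ((ρ.trans k₂).trans k₁).trans g.symm z = g.symm (k₁ (k₂ (ρ z))) := fun z => rfl
  have hin : ∀ z, ‖z‖ ≤ rad 0 → ((ρ.trans k₂).trans k₁).trans g.symm z = z := by
    intro z hz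
    rw [hval, hρ1 z hz, hk₂in z (by linarith), hk₁in z hz, hgs z (fun h => by linarith [h.1])]
  have hout : ∀ z, rad (N + 1) ≤ ‖z‖ → ((ρ.trans k₂).trans k₁).trans g.symm z = z := by
    intro z hz
    rw [hval, hρ2 z hz, hk₂out z hz, hk₁out z (by linarith), hgs z (fun h => by linarith [h.2])]
  refine ⟨((ρ.trans k₂).trans k₁).trans g.symm, ?_, hin, hout, ?_⟩
  · have hbX : (((ρ.trans k₂).trans k₁).trans g.symm) '' X = X := by
      have e0 : ∀ S : Set ℂ, (((ρ.trans k₂).trans k₁).trans g.symm) '' S = 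
          g.symm '' (k₁ '' (k₂ '' (ρ '' S))) := by
        intro S
        rw [← image_comp, ← image_comp, ← image_comp]; rfl
      have e1 : k₂ '' (ρ '' Xa) = ρ '' Xa := by
        have : ∀ w ∈ ρ '' Xa, k₂ w = w := by
          intro w hw
          obtain ⟨x, hx, rfl⟩ := hS1 w hw
          apply hk₂
          rintro ⟨h3, _⟩
          rw [Complex.ofReal_re] at h3
          linarith [h3.1, hx.2]
        rw [image_congr this, image_id']
      have e2 : k₁ '' (g '' (X \ Y)) = g '' (X \ Y) := by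
        have : ∀ w ∈ g '' (X \ Y), k₁ w = w := by
          intro w hw
          obtain ⟨x, hx, rfl⟩ := hS4 w hw
          apply hk₁
          rintro ⟨h3, _⟩
          rw [Complex.ofReal_re] at h3
          linarith [h3.2, hx.1]
        rw [image_congr this, image_id']
      have e3 : ∀ S : Set ℂ, g.symm '' (g '' S) = S := by
        intro S
        rw [← image_comp]
        have : g.symm ∘ g = id := funext fun z => g.symm_apply_apply z
        rw [this, image_id]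
      rw [hXX, image_union, e0, e0, e1, hk₁S, hk₂S, e2, e3, e3, ← hXX]
      exact union_sdiff_cancel hYX
    have hsplit : EC E = X ∪ (EC E \ X) := by
      rw [hX]
      exact (union_sdiff_cancel inter_subset_left).symm
    have hrest : (((ρ.trans k₂).trans k₁).trans g.symm) '' (EC E \ X) = EC E \ X := by
      have : ∀ z ∈ EC E \ X, (((ρ.trans k₂).trans k₁).trans g.symm) z = z := by
        rintro z ⟨hz, hzX⟩
        rcases le_or_gt ‖z‖ (rad 0) with h | h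
        · exact hin z h
        · apply hout
          by_contra hcon
          push Not at hcon
          apply hzX
          rw [hX]
          exact ⟨hz, h, hcon⟩
      rw [image_congr this, image_id']
    conv_lhs => rw [hsplit]
    rw [image_union, hbX, hrest, ← hsplit]
  · rintro _ ⟨z, hz, rfl⟩
    rw [mem_closedBall_zero_iff] at hz
    have h3 : ‖ρ z‖ ≤ 2 := by
      rcases hz.lt_or_eq with h | h
      · rw [← hq]; exact (hρ4 _ _ (by rw [hnormN]; exact h)).le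
      · rw [← hq]; exact (hρ5 _ _ (by rw [hnormN]; exact h)).le
    rw [hval, hk₂in _ h3]
    have h4 : k₁ (ρ z) ∈ ball (0 : ℂ) (rad 1) := by
      rw [SA_supp (g := k₁) (K := {z : ℂ | z.re ∈ Ioo (rad 0) 2 ∧ |z.im| < 1}) 
        (Ω := ball (0 : ℂ) (rad 1)) (fun z hz => hk₁box z hz) (fun z hz => hk₁ z hz)]
      rw [mem_ball_zero_iff]; linarith
    have h5 : g.symm (k₁ (ρ z)) ∈ ball (0 : ℂ) (rad 1) := by
      rw [← SA_supp (g := g) (K := K) (Ω := ball (0 : ℂ) (rad 1)) 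
        (fun z hz => mem_ball_zero_iff.2 (hKV hz).2) hgK, g.apply_symm_apply]
      exact h4
    exact ball_subset_closedBall h5

end Ends72
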