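import Pool.Agent.LibEnds72.LocalStraight
import Pool.Agent.LibEnds72.Klee
import Pool.Agent.LibEnds72.Gather
import Pool.Agent.LibEnds72.Cover
import Pool.Agent.LibEnds72.SurgAux

/-! TASK I1: surgery. -/

open Set Metric Topology Filter

noncomputable section

namespace Ends72

/-- surgery for a homeomorphism which is the identity near infinity -/
theorem surg_core {E : Set ℝ} (hE : EGap E) (f f₁ : ℂ ≃ₜ ℂ) (hfE : f '' EC E = EC E) (n m : ℤ)
    (hnm : n < m) (hf₁ : ∀ z, ‖z‖ ≤ rad n → f₁ z = f z) {R₂ : ℝ} (hR : R₂ < rad m)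
    (hf₂ : ∀ z, R₂ ≤ ‖z‖ → f₁ z = z) :
    f '' closedBall 0 (rad n) ⊆ ball 0 (rad m) ∧
      (Nonempty (↥(EC E ∩ Ann (rad n) (rad m)) ≃ₜ
          ↥((EC E ∩ ball 0 (rad m)) \ f '' closedBall 0 (rad n))) →
        ∃ f' : ℂ ≃ₜ ℂ, f' '' EC E = EC E ∧ (∀ z, ‖z‖ ≤ rad n → f' z = f z) ∧
          ∀ z, rad m ≤ ‖z‖ → f' z = z) := by
  have hnp := SA_rad_pos n
  have hmp := SA_rad_pos m
  have hnm' := SA_rad_lt hnm
  -- `f₁` preserves the ball of radius `rad m`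
  have hball : ∀ z, ‖f₁ z‖ < rad m ↔ ‖z‖ < rad m := by
    intro z
    constructor
    · intro h
      by_contra hcon
      push Not at hcon
      rw [hf₂ z (hR.le.trans hcon)] at h
      linarith
    · intro h
      by_contra hcon
      push Not at hcon
      have h1 := hf₂ _ (hR.le.trans hcon)
      have h2 := f₁.injective h1
      rw [h2] at hcon
      linarith
  have hsub : f '' closedBall 0 (rad n) ⊆ ball 0 (rad m) := by
    rintro _ ⟨z, hz, rfl⟩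
    rw [mem_closedBall_zero_iff] at hz
    rw [mem_ball_zero_iff, ← hf₁ z hz, hball]
    linarith
  refine ⟨hsub, ?_⟩
  rintro ⟨φ⟩
  have hECiff : ∀ z, f z ∈ EC E ↔ z ∈ EC E := by
    intro z
    constructor
    · intro h
      rw [← hfE] at h
      obtain ⟨w, hw, hwz⟩ := h
      rw [← f.injective hwz]; exact hw
    · intro h
      rw [← hfE]; exact ⟨z, h, rfl⟩
  obtain ⟨A, hA⟩ : ∃ A : Set ℂ, A = Ann (rad n) (rad m) := ⟨_, rfl⟩
  obtain ⟨Ω, hΩ⟩ : ∃ Ω : Set ℂ, Ω = f₁ '' A := ⟨_, rfl⟩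
  have hAo : IsOpen A := by rw [hA]; exact SA_ann_open _ _
  have hAc : IsPreconnected A := by rw [hA]; exact SA_ann_preconnected hnp.le _
  have hΩo : IsOpen Ω := by rw [hΩ]; exact f₁.isOpenMap _ hAo
  have hΩc : IsPreconnected Ω := by rw [hΩ]; exact hAc.image _ f₁.continuous.continuousOn
  have hAmem : ∀ z, z ∈ A ↔ rad n < ‖z‖ ∧ ‖z‖ < rad m := by intro z; rw [hA]; rfl
  have hΩmem : ∀ z, z ∈ Ω ↔ z ∈ ball (0 : ℂ) (rad m) ∧ z ∉ f '' closedBall 0 (rad n) := by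
    intro z
    rw [hΩ]
    constructor
    · rintro ⟨w, hw, rfl⟩
      rw [hAmem] at hw
      refine ⟨by rw [mem_ball_zero_iff, hball]; exact hw.2, ?_⟩
      rintro ⟨u, hu, huw⟩
      rw [mem_closedBall_zero_iff] at hu
      rw [← hf₁ u hu] at huw
      have := f₁.injective huw
      rw [this] at hu
      linarith [hw.1]
    · rintro ⟨h1, h2⟩
      refine ⟨f₁.symm z, ?_, f₁.apply_symm_apply z⟩
      rw [hAmem]
      constructor
      · by_contra hcon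
        push Not at hcon
        apply h2
        refine ⟨f₁.symm z, mem_closedBall_zero_iff.2 hcon, ?_⟩
        rw [← hf₁ _ hcon, f₁.apply_symm_apply]
      · rw [← hball, f₁.apply_symm_apply]
        exact mem_ball_zero_iff.1 h1
  obtain ⟨F, hF⟩ : ∃ F : Set ℂ, F = EC E ∩ A := ⟨_, rfl⟩
  obtain ⟨F', hF'⟩ : ∃ F' : Set ℂ, F' = EC E ∩ Ω := ⟨_, rfl⟩
  have hF'2 : F' = (EC E ∩ ball 0 (rad m)) \ f '' closedBall 0 (rad n) := by
    rw [hF']
    ext z
    constructor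
    · rintro ⟨h1, h2⟩
      rw [hΩmem] at h2
      exact ⟨⟨h1, h2.1⟩, h2.2⟩
    · rintro ⟨⟨h1, h2⟩, h3⟩
      exact ⟨h1, (hΩmem z).2 ⟨h2, h3⟩⟩
  have hclosed := SA_closed hE
  have hFc : IsCompact F := by
    have h1 : F = EC E ∩ {z | rad n ≤ ‖z‖} ∩ closedBall 0 (rad m) := by
      rw [hF]
      ext z
      constructor
      · rintro ⟨h1, h2⟩
        rw [hAmem] at h2
        exact ⟨⟨h1, h2.1.le⟩, mem_closedBall_zero_iff.2 h2.2.le⟩
      · rintro ⟨⟨h1, h2⟩, h3⟩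
        refine ⟨h1, (hAmem z).2 ⟨lt_of_le_of_ne h2 (SA_norm_ne hE h1 n).symm, ?_⟩⟩
        exact lt_of_le_of_ne (mem_closedBall_zero_iff.1 h3) (SA_norm_ne hE h1 m)
    rw [h1]
    exact (isCompact_closedBall 0 (rad m)).inter_left 
      (hclosed.inter (isClosed_le continuous_const continuous_norm))
  have hF'c : IsCompact F' := by
    have h1 : F' = EC E ∩ (f '' ball 0 (rad n))ᶜ ∩ closedBall 0 (rad m) := by
      rw [hF'2]
      ext z
      constructor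
      · rintro ⟨⟨h1, h2⟩, h3⟩
        refine ⟨⟨h1, ?_⟩, ball_subset_closedBall h2⟩
        intro h4
        exact h3 (image_mono ball_subset_closedBall h4)
      · rintro ⟨⟨h1, h2⟩, h3⟩
        refine ⟨⟨h1, ?_⟩, ?_⟩
        · rw [mem_ball_zero_iff]
          exact lt_of_le_of_ne (mem_closedBall_zero_iff.1 h3) (SA_norm_ne hE h1 m)
        · rintro ⟨w, hw, rfl⟩
          have h4 := (hECiff w).1 h1
          apply h2
          refine ⟨w, ?_, rfl⟩
          rw [mem_ball_zero_iff]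
          exact lt_of_le_of_ne (mem_closedBall_zero_iff.1 hw) (SA_norm_ne hE h4 n)
    rw [h1]
    exact (isCompact_closedBall 0 (rad m)).inter_left 
      (hclosed.inter ((f.isOpenMap _ isOpen_ball).isClosed_compl))
  have hFreal : ∀ z ∈ F, ∃ x : ℝ, z = (x : ℂ) := by
    intro z hz
    rw [hF] at hz
    obtain ⟨x, hx, _⟩ := SA_real hE hz.1
    exact ⟨x, hx⟩
  have hF'real : ∀ z ∈ F', ∃ x : ℝ, z = (x : ℂ) := by
    intro z hz
    rw [hF'] at hz
    obtain ⟨x, hx, _⟩ := SA_real hE hz.1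
    exact ⟨x, hx⟩
  -- the window
  obtain ⟨R₃, hR3⟩ : ∃ R₃ : ℝ, R₃ = max R₂ (rad n) := ⟨_, rfl⟩
  have hR3m : R₃ < rad m := by rw [hR3]; exact max_lt hR hnm'
  have hR32 : R₂ ≤ R₃ := by rw [hR3]; exact le_max_left _ _
  have hR3n : rad n ≤ R₃ := by rw [hR3]; exact le_max_right _ _
  have hWo : IsOpen (Ann R₃ (rad m)) := SA_ann_open _ _
  obtain ⟨x₀, hx₀⟩ : ∃ x₀ : ℝ, x₀ = (R₃ + rad m) / 2 := ⟨_, rfl⟩
  have hx₀W : (x₀ : ℂ) ∈ Ann R₃ (rad m) := by
    have hpos : 0 < x₀ := by rw [hx₀]; linarith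
    show R₃ < ‖(x₀ : ℂ)‖ ∧ ‖(x₀ : ℂ)‖ < rad m
    rw [Complex.norm_real, Real.norm_eq_abs, abs_of_pos hpos, hx₀]
    constructor <;> linarith
  obtain ⟨ε₀, hε₀, hεW⟩ := Metric.isOpen_iff.1 hWo _ hx₀W
  obtain ⟨ε, hεd⟩ : ∃ ε : ℝ, ε = ε₀ / 2 := ⟨_, rfl⟩
  have hε : 0 < ε := by rw [hεd]; linarith
  have hbox : ∀ z : ℂ, z.re ∈ Ioo (x₀ - ε) (x₀ + ε) → |z.im| < ε → z ∈ Ann R₃ (rad m) := by
    intro z h1 h2
    apply hεW
    rw [mem_ball, dist_eq_norm]
    have h3 := Complex.norm_le_abs_re_add_abs_im (z - (x₀ : ℂ))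
    have h4 : (z - (x₀ : ℂ)).re = z.re - x₀ := by simp
    have h5 : (z - (x₀ : ℂ)).im = z.im := by simp
    rw [h4, h5] at h3
    have h6 : |z.re - x₀| < ε := by
      rw [abs_lt]; constructor <;> linarith [h1.1, h1.2]
    linarith
  have hWA : Ann R₃ (rad m) ⊆ A := by
    intro z hz
    exact (hAmem z).2 ⟨hR3n.trans_lt hz.1, hz.2⟩
  have hWfix : ∀ z ∈ Ann R₃ (rad m), f₁ z = z := fun z hz => hf₂ z (hR32.trans hz.1.le)
  have hWΩ : Ann R₃ (rad m) ⊆ Ω := by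
    intro z hz
    rw [hΩ]
    exact ⟨z, hWA hz, hWfix z hz⟩
  have hwin : ∀ y : ℝ, |y - x₀| < ε → (y : ℂ) ∈ Ann R₃ (rad m) := by
    intro y hy
    apply hbox
    · rw [Complex.ofReal_re]
      rw [abs_lt] at hy
      constructor <;> linarith [hy.1, hy.2]
    · simpa using hε
  obtain ⟨κ, K₁, _, hK₁A, hκ, hκF⟩ := SA_gather_one hAo hAc hFc (by rw [hF]; exact inter_subset_right)
    hFreal hε (fun y hy => hWA (hwin y hy))
  obtain ⟨lam, K₂, _, hK₂Ω, hlam, hlamF⟩ := SA_gather_one hΩo hΩc hF'c 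
    (by rw [hF']; exact inter_subset_right) hF'real hε (fun y hy => hWΩ (hwin y hy))
  have hφ : Nonempty (F ≃ₜ F') := by
    rw [hF'2, hF, hA]
    exact ⟨φ⟩
  obtain ⟨φ'⟩ := hφ
  obtain ⟨k, hk, hkF⟩ := SA_klee (a := x₀ - ε) (b := x₀ + ε) (δ := ε) (by linarith) hε 
    (hFc.image κ.continuous) (hF'c.image lam.continuous) 
    (by
      rintro _ ⟨z, hz, rfl⟩
      obtain ⟨y, hy, hyz⟩ := hκF z hz
      rw [abs_lt] at hy
      exact ⟨y, ⟨by linarith [hy.1], by linarith [hy.2]⟩, hyz⟩)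
    (by
      rintro _ ⟨z, hz, rfl⟩
      obtain ⟨y, hy, hyz⟩ := hlamF z hz
      rw [abs_lt] at hy
      exact ⟨y, ⟨by linarith [hy.1], by linarith [hy.2]⟩, hyz⟩)
    (((κ.image F).symm.trans φ').trans (lam.image F'))
  have hkfix : ∀ z, z ∉ Ann R₃ (rad m) → k z = z := by
    intro z hz
    apply hk
    rintro ⟨h1, h2⟩
    exact hz (hbox z h1 h2)
  have hκfix : ∀ z, z ∉ A → κ z = z := fun z hz => hκ z (fun h => hz (hK₁A h))
  have hlfix : ∀ z, z ∉ Ω → lam.symm z = z := fun z hz => 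
    SA_supp_symm hlam z (fun h => hz (hK₂Ω h))
  have hval : ∀ z, ((κ.trans f₁).trans k).trans lam.symm z = lam.symm (k (f₁ (κ z))) := fun z => rfl
  have hin : ∀ z, ‖z‖ ≤ rad n → ((κ.trans f₁).trans k).trans lam.symm z = f z := by
    intro z hz
    have h1 : z ∉ A := fun h => by rw [hAmem] at h; linarith [h.1]
    have h2 : f z ∉ Ω := fun h => by
      rw [hΩmem] at h
      exact h.2 ⟨z, mem_closedBall_zero_iff.2 hz, rfl⟩
    rw [hval, hκfix z h1, hf₁ z hz, hkfix _ (fun h => h2 (hWΩ h)), hlfix _ h2]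
  have hout : ∀ z, rad m ≤ ‖z‖ → ((κ.trans f₁).trans k).trans lam.symm z = z := by
    intro z hz
    have h1 : z ∉ A := fun h => by rw [hAmem] at h; linarith [h.2]
    have h2 : z ∉ Ω := fun h => by
      rw [hΩmem, mem_ball_zero_iff] at h
      linarith [h.1]
    rw [hval, hκfix z h1, hf₂ z (hR.le.trans hz), hkfix _ (fun h => h2 (hWΩ h)), hlfix _ h2]
  refine ⟨((κ.trans f₁).trans k).trans lam.symm, ?_, hin, hout⟩
  -- image of `EC E`
  have hFF : (((κ.trans f₁).trans k).trans lam.symm) '' F = F' := by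
    have e1 : (((κ.trans f₁).trans k).trans lam.symm) '' F = 
        lam.symm '' (k '' (f₁ '' (κ '' F))) := by
      rw [← image_comp, ← image_comp, ← image_comp]; rfl
    have e2 : f₁ '' (κ '' F) = κ '' F := by
      have : ∀ w ∈ κ '' F, f₁ w = w := by
        rintro _ ⟨z, hz, rfl⟩
        obtain ⟨y, hy, hyz⟩ := hκF z hz
        rw [hyz]
        exact hWfix _ (hwin y hy)
      rw [image_congr this, image_id']
    rw [e1, e2, hkF, ← image_comp]
    have : lam.symm ∘ lam = id := funext fun z => lam.symm_apply_apply z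
    rw [this, image_id]
  have hECF : EC E = (EC E ∩ closedBall 0 (rad n)) ∪ F ∪ (EC E ∩ {z | rad m ≤ ‖z‖}) := by
    ext z
    constructor
    · intro hz
      rcases le_or_gt ‖z‖ (rad n) with h | h
      · exact Or.inl (Or.inl ⟨hz, mem_closedBall_zero_iff.2 h⟩)
      · rcases le_or_gt (rad m) ‖z‖ with h' | h'
        · exact Or.inr ⟨hz, h'⟩
        · refine Or.inl (Or.inr ?_)
          rw [hF]; exact ⟨hz, (hAmem z).2 ⟨h, h'⟩⟩
    · rintro ((h | h) | h)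
      · exact h.1
      · rw [hF] at h; exact h.1
      · exact h.1
  have hI1 : (((κ.trans f₁).trans k).trans lam.symm) '' (EC E ∩ closedBall 0 (rad n)) = 
      f '' (EC E ∩ closedBall 0 (rad n)) :=
    image_congr (fun z hz => hin z (mem_closedBall_zero_iff.1 hz.2))
  have hI2 : (((κ.trans f₁).trans k).trans lam.symm) '' (EC E ∩ {z | rad m ≤ ‖z‖}) = 
      EC E ∩ {z | rad m ≤ ‖z‖} := by
    have : ∀ z ∈ EC E ∩ {z : ℂ | rad m ≤ ‖z‖}, 
      (((κ.trans f₁).trans k).trans lam.symm) z = z := fun z hz => hout z hz.2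
    rw [image_congr this, image_id']
  conv_lhs => rw [hECF]
  rw [image_union, image_union, hI1, hI2, hFF]
  apply Subset.antisymm
  · rintro z ((⟨w, hw, rfl⟩ | h) | h)
    · exact (hECiff w).2 hw.1
    · rw [hF'] at h; exact h.1
    · exact h.1
  · intro z hz
    rcases le_or_gt (rad m) ‖z‖ with h' | h'
    · exact Or.inr ⟨hz, h'⟩
    · refine Or.inl ?_
      by_cases h : z ∈ f '' closedBall 0 (rad n)
      · obtain ⟨w, hw, rfl⟩ := h
        exact Or.inl ⟨w, ⟨(hECiff w).1 hz, hw⟩, rfl⟩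
      · right
        rw [hF'2]
        exact ⟨⟨hz, mem_ball_zero_iff.2 h'⟩, h⟩

theorem surg {E : Set ℝ} (hE : EGap E) (f : ℂ ≃ₜ ℂ) (h0 : f 0 = 0) (hop : OPat f 0)
    (hfE : f '' EC E = EC E) (n : ℤ) :
    ∃ M : ℤ, ∀ m ≥ M, n < m ∧ f '' closedBall 0 (rad n) ⊆ ball 0 (rad m) ∧
      (Nonempty (↥(EC E ∩ Ann (rad n) (rad m)) ≃ₜ
          ↥((EC E ∩ ball 0 (rad m)) \ f '' closedBall 0 (rad n))) →
        ∃ f' : ℂ ≃ₜ ℂ, f' '' EC E = EC E ∧ (∀ z, ‖z‖ ≤ rad n → f' z = f z) ∧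
          ∀ z, rad m ≤ ‖z‖ → f' z = z) := by
  obtain ⟨f₁, hf₁, R₂, hf₂⟩ := ls_inf f h0 hop (rad n)
  obtain ⟨M₀, hM₀⟩ := SA_exists_rad R₂
  refine ⟨max M₀ (n + 1), fun m hm => ?_⟩
  have h1 : M₀ ≤ m := (le_max_left _ _).trans hm
  have h2 : n + 1 ≤ m := (le_max_right _ _).trans hm
  exact ⟨by omega, surg_core hE f f₁ hfE n m (by omega) hf₁ (hM₀.trans_le (SA_rad_le h1)) hf₂⟩

end Ends72
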