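import Pool.Agent.LibEnds72.Bridge
import Pool.Agent.LibEnds72.Surg
import Pool.Agent.LibEnds72.Squeeze

/-! The key lemma: sets of bounded flux are boundedly generated by any neighbourhood of the identity
and two elements. -/

open Set Metric Topology Filter OnePoint
open scoped Pointwise

noncomputable section

namespace Ends72

variable {E : Set ℝ} (hE : EGap E)

theorem rad_add (m n : ℤ) : rad (m + n) = 4 ^ n * rad m := by
  unfold rad
  rw [zpow_add₀ (by norm_num)]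
  ring

theorem rad_mono {m n : ℤ} (h : m ≤ n) : rad m ≤ rad n := by
  unfold rad
  have : (4 : ℝ) ^ m ≤ 4 ^ n := zpow_le_zpow_right₀ (by norm_num) h
  linarith

theorem rad_strict {m n : ℤ} (h : m < n) : rad m < rad n := by
  unfold rad
  have : (4 : ℝ) ^ m < 4 ^ n := zpow_lt_zpow_right₀ (by norm_num) h
  linarith

theorem exists_rad_gt (x : ℝ) : ∃ n : ℕ, x < rad n := by
  obtain ⟨n, hn⟩ := pow_unbounded_of_one_lt (4 / 3 * x) (show (1 : ℝ) < 4 by norm_num)
  refine ⟨n, ?_⟩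
  unfold rad
  rw [zpow_natCast]
  linarith

theorem exists_rad_lt {x : ℝ} (hx : 0 < x) : ∃ n : ℕ, rad (-n) < x := by
  obtain ⟨n, hn⟩ := exists_rad_gt (x⁻¹)
  refine ⟨n, ?_⟩
  unfold rad at hn ⊢
  rw [zpow_neg]
  rw [zpow_natCast] at hn ⊢
  have h4 : (0 : ℝ) < 4 ^ n := by positivity
  rw [inv_lt_iff_one_lt_mul₀ hx] at hn
  have : (4 ^ n : ℝ)⁻¹ < x := by
    rw [inv_lt_iff_one_lt_mul₀ h4]
    nlinarith
  nlinarith [inv_pos.mpr h4]

/-- multiplication by `4` on the plane -/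
def tauP : ℂ ≃ₜ ℂ := Homeomorph.mulLeft₀ (4 : ℂ) (by norm_num)

theorem tauP_apply (z : ℂ) : tauP z = 4 * z := rfl

include hE in
theorem tauP_EC : tauP '' EC E = EC E := by
  ext y
  constructor
  · rintro ⟨_, ⟨x, hx, rfl⟩, rfl⟩
    refine ⟨4 * x, ?_, ?_⟩
    · rcases hx with rfl | hx
      · left; ring
      · right; exact (hE.scale x).mpr hx
    · rw [tauP_apply]
      push_cast
      ring
  · rintro ⟨x, hx, rfl⟩
    refine ⟨((x / 4 : ℝ) : ℂ), ⟨x / 4, ?_, rfl⟩, ?_⟩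
    · rcases hx with rfl | hx
      · left; ring
      · right
        rw [← hE.scale]
        convert hx using 1
        ring
    · rw [tauP_apply]
      push_cast
      ring

/-- the translation `τ` of the surface -/
def tau : HomeoPlus (UE E) :=
  ⟨ofPlane tauP (tauP_EC hE), ofPlane_mem hE tauP _ (x := 0) (OPat_of_hasDerivAt (g' := 4)
    (by
      have : HasDerivAt (fun z : ℂ => 4 * z) (4 * 1) 0 := (hasDerivAt_id (0 : ℂ)).const_mul 4
      rw [mul_one] at this
      exact this) (by norm_num) (Eventually.of_forall fun z => tauP.continuous.continuousAt))⟩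

theorem tau_apply (x : UE E) : ((tau hE).1 x : ℂ) = 4 * x := rfl

theorem tau_npow_apply (n : ℕ) (x : UE E) : (((tau hE) ^ n : HomeoPlus (UE E)).1 x : ℂ) = 4 ^ n * x := by
  induction n with
  | zero => simp
  | succ n ih =>
    rw [pow_succ']
    change (((tau hE).1 ((((tau hE) ^ n : HomeoPlus (UE E))).1 x) : UE E) : ℂ) = _
    rw [tau_apply, ih]
    ring

theorem tau_inv_npow_apply (n : ℕ) (x : UE E) :
    ((((tau hE) ^ n : HomeoPlus (UE E))⁻¹).1 x : ℂ) = (4 ^ n)⁻¹ * x := by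
  have h := tau_npow_apply hE n ((((tau hE) ^ n : HomeoPlus (UE E))⁻¹).1 x)
  have h2 : (((tau hE) ^ n : HomeoPlus (UE E)).1 ((((tau hE) ^ n : HomeoPlus (UE E))⁻¹).1 x)) = x := by
    change ((((tau hE) ^ n) * ((tau hE) ^ n)⁻¹ : HomeoPlus (UE E)).1 x) = x
    rw [mul_inv_cancel]
    rfl
  rw [h2] at h
  rw [h, inv_mul_cancel_left₀ (pow_ne_zero n (by norm_num))]

variable (hb : Nonempty (↥(E ∩ Icc 1 2) ≃ₜ XL blk))

include hb in
theorem mI_tau : mI hE (tau hE).1 = 1 := by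
  unfold mI tau
  rw [extF_ofPlane]
  exact mm_scale hE hb _ (fun z => rfl)

theorem extF_tau : extF hE (tau hE).1 ∞ = ∞ := by
  unfold tau
  rw [extF_ofPlane]
  rfl

theorem extF_tau_zpow (n : ℤ) : extF hE ((tau hE) ^ n : HomeoPlus (UE E)).1 ∞ = ∞ := by
  have h1 : ∀ n : ℕ, extF hE ((tau hE) ^ n : HomeoPlus (UE E)).1 ∞ = ∞ := by
    intro n
    induction n with
    | zero =>
      have : extF hE (((tau hE) ^ 0 : HomeoPlus (UE E))).1 = 1 := by
        rw [pow_zero]; exact extF_one hE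
      rw [this]; rfl
    | succ n ih =>
      have : extF hE (((tau hE) ^ (n + 1) : HomeoPlus (UE E))).1 =
          extF hE (((tau hE) ^ n : HomeoPlus (UE E))).1 * extF hE (tau hE).1 := by
        rw [pow_succ]; exact extF_mul hE _ _
      rw [this]
      change extF hE (((tau hE) ^ n : HomeoPlus (UE E))).1 (extF hE (tau hE).1 ∞) = ∞
      rw [extF_tau, ih]
  rcases Int.eq_nat_or_neg n with ⟨k, rfl | rfl⟩
  · rw [zpow_natCast]; exact h1 k
  · rw [zpow_neg, zpow_natCast]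
    have : extF hE (((tau hE) ^ k : HomeoPlus (UE E))⁻¹).1 =
        (extF hE ((tau hE) ^ k : HomeoPlus (UE E)).1)⁻¹ := extF_inv hE _
    rw [this]
    change (extF hE ((tau hE) ^ k : HomeoPlus (UE E)).1).symm ∞ = ∞
    rw [Homeomorph.symm_apply_eq, h1 k]

theorem sg_of_fix {F : OnePoint ℂ ≃ₜ OnePoint ℂ} (h : F ∞ = ∞) : sg F = 1 := by
  unfold sg
  rw [if_pos h]

include hb in
theorem mI_tau_npow (n : ℕ) : mI hE ((tau hE) ^ n : HomeoPlus (UE E)).1 = n := by
  induction n with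
  | zero => rw [pow_zero]; exact_mod_cast mI_one hE
  | succ n ih =>
    have h1 : mI hE ((tau hE) ^ (n + 1) : HomeoPlus (UE E)).1 =
        mI hE (((tau hE) ^ n : HomeoPlus (UE E)).1 * (tau hE).1) := by rw [pow_succ]; rfl
    have h2 := extF_tau_zpow hE n
    rw [zpow_natCast] at h2
    rw [h1, mI_mul hE hb, ih, mI_tau hE hb, sg_of_fix h2]
    push_cast
    ring

include hb in
theorem mI_tau_zpow (n : ℤ) : mI hE ((tau hE) ^ n : HomeoPlus (UE E)).1 = n := by
  rcases Int.eq_nat_or_neg n with ⟨k, rfl | rfl⟩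
  · rw [zpow_natCast]; exact mI_tau_npow hE hb k
  · have h1 := mI_mul hE hb ((tau hE) ^ (-(k : ℤ)) : HomeoPlus (UE E)).1
      ((tau hE) ^ (k : ℤ) : HomeoPlus (UE E)).1
    have h2 : ((tau hE) ^ (-(k : ℤ)) : HomeoPlus (UE E)).1 *
      ((tau hE) ^ (k : ℤ) : HomeoPlus (UE E)).1 = 1 := by
      change (((tau hE) ^ (-(k : ℤ)) * (tau hE) ^ (k : ℤ) : HomeoPlus (UE E))).1 = 1
      rw [← zpow_add, neg_add_cancel, zpow_zero]
      rfl
    rw [h2, mI_one, sg_of_fix (extF_tau_zpow hE _), zpow_natCast, mI_tau_npow hE hb] at h1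
    linarith

/-- the homeomorphisms which are the identity on `K` -/
def VK (E : Set ℝ) (K : Set ℂ) : Set (HomeoPlus (UE E)) :=
  {f | ∀ x : UE E, (x : ℂ) ∈ K → f.1 x = x}

/-- the generating set -/
def SK (K : Set ℂ) (σ : HomeoPlus (UE E)) : Set (HomeoPlus (UE E)) :=
  VK E K ∪ {tau hE, (tau hE)⁻¹, σ, σ⁻¹}

theorem one_mem_SK (K : Set ℂ) (σ : HomeoPlus (UE E)) : (1 : HomeoPlus (UE E)) ∈ SK hE K σ :=
  Or.inl fun _ _ => rfl

theorem SK_inv (K : Set ℂ) (σ : HomeoPlus (UE E)) {f : HomeoPlus (UE E)}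
    (hf : f ∈ SK hE K σ) : f⁻¹ ∈ SK hE K σ := by
  rcases hf with hf | hf | hf | hf | hf
  · left
    intro x hx
    change f.1.symm x = x
    rw [Homeomorph.symm_apply_eq, hf x hx]
  · right; subst hf; simp
  · right; subst hf; simp
  · right; subst hf; simp
  · right
    rw [mem_singleton_iff] at hf
    subst hf; simp

theorem pow_inv_mem {G : Type*} [Group G] {S : Set G} (hS : ∀ s ∈ S, s⁻¹ ∈ S) (n : ℕ) {g : G}
    (hg : g ∈ S ^ n) : g⁻¹ ∈ S ^ n := by
  induction n generalizing g with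
  | zero =>
    rw [pow_zero] at hg ⊢
    rw [Set.mem_one] at hg ⊢
    rw [hg, inv_one]
  | succ n ih =>
    rw [pow_succ] at hg
    obtain ⟨a, ha, b, hb, rfl⟩ := hg
    rw [mul_inv_rev, pow_succ']
    exact mul_mem_mul (hS b hb) (ih ha)

theorem pow_mem_mul {G : Type*} [Group G] {S : Set G} {m n : ℕ} {g h : G}
    (hg : g ∈ S ^ m) (hh : h ∈ S ^ n) : g * h ∈ S ^ (m + n) := by
  rw [pow_add]
  exact mul_mem_mul hg hh

theorem pow_mem_mono {G : Type*} [Group G] {S : Set G} (h1 : (1 : G) ∈ S) {m n : ℕ}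
    (hmn : m ≤ n) {g : G} (hg : g ∈ S ^ m) : g ∈ S ^ n :=
  pow_subset_pow_right h1 hmn hg

theorem pow_self_mem {G : Type*} [Group G] {S : Set G} {g : G} (h : g ∈ S) (n : ℕ) :
    g ^ n ∈ S ^ n := pow_mem_pow h

end Ends72
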