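import Pool.Agent.LibEnds72.Key

/-! The key lemma, main part. -/

open Set Metric Topology Filter OnePoint
open scoped Pointwise

noncomputable section

namespace Ends72

variable {E : Set ℝ} (hE : EGap E)

theorem rad_zero_npow (j : ℕ) : rad (j : ℤ) = 4 ^ j * rad 0 := by
  have := rad_add 0 (j : ℤ)
  rw [zero_add, zpow_natCast] at this
  exact this

theorem tau_mem (K : Set ℂ) (σ : HomeoPlus (UE E)) : tau hE ∈ SK hE K σ := by
  unfold SK
  right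
  exact mem_insert _ _

theorem tau_pow_mem (K : Set ℂ) (σ : HomeoPlus (UE E)) (j : ℕ) :
    (tau hE) ^ j ∈ SK hE K σ ^ j := pow_self_mem (tau_mem hE K σ) j

theorem tau_pow_inv_mem (K : Set ℂ) (σ : HomeoPlus (UE E)) (j : ℕ) :
    ((tau hE) ^ j)⁻¹ ∈ SK hE K σ ^ j :=
  pow_inv_mem (fun _ h => SK_inv hE K σ h) j (tau_pow_mem hE K σ j)

/-- elements which are the identity on the disc `|z| ≤ rad 0` -/
theorem inner_mem {K : Set ℂ} {j : ℕ} (hK2 : ∀ z ∈ K, ‖z‖ < rad j) (σ : HomeoPlus (UE E))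
    (f : HomeoPlus (UE E)) (hf : ∀ x : UE E, ‖(x : ℂ)‖ ≤ rad 0 → f.1 x = x) :
    f ∈ SK hE K σ ^ (2 * j + 1) := by
  set T := (tau hE) ^ j with hT
  have hv : T * f * T⁻¹ ∈ SK hE K σ := by
    left
    intro x hx
    have h1 : ((T⁻¹).1 x : ℂ) = (4 ^ j)⁻¹ * x := tau_inv_npow_apply hE j x
    have h2 : f.1 ((T⁻¹).1 x) = (T⁻¹).1 x := by
      apply hf
      rw [h1, norm_mul, norm_inv, norm_pow]
      have := hK2 x hx
      rw [rad_zero_npow] at this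
      have h4 : ‖(4 : ℂ)‖ = 4 := by simp
      rw [h4, inv_mul_le_iff₀ (by positivity)]
      exact this.le
    change T.1 (f.1 ((T⁻¹).1 x)) = x
    rw [h2]
    change (T * T⁻¹).1 x = x
    rw [mul_inv_cancel]
    rfl
  have : f = T⁻¹ * (T * f * T⁻¹) * T := by group
  rw [this, show 2 * j + 1 = j + 1 + j by ring]
  refine pow_mem_mul (pow_mem_mul (tau_pow_inv_mem hE K σ j) ?_) (tau_pow_mem hE K σ j)
  rw [pow_one]
  exact hv

/-- elements which are the identity outside the disc `|z| ≤ rad 1` -/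
theorem outer_mem {K : Set ℂ} {j : ℕ} (hK1 : ∀ z ∈ K, rad (-j) < ‖z‖) (σ : HomeoPlus (UE E))
    (f : HomeoPlus (UE E)) (hf : ∀ x : UE E, rad 1 < ‖(x : ℂ)‖ → f.1 x = x) :
    f ∈ SK hE K σ ^ (2 * (j + 1) + 1) := by
  set T := (tau hE) ^ (j + 1) with hT
  have hv : T⁻¹ * f * T ∈ SK hE K σ := by
    left
    intro x hx
    have h1 : (T.1 x : ℂ) = 4 ^ (j + 1) * x := tau_npow_apply hE (j + 1) x
    have h2 : f.1 (T.1 x) = T.1 x := by
      apply hf
      rw [h1, norm_mul, norm_pow]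
      have := hK1 x hx
      have h4 : ‖(4 : ℂ)‖ = 4 := by simp
      rw [h4]
      have h5 : rad 1 = 4 ^ (j + 1) * rad (-j) := by
        have := rad_add (-(j : ℤ)) (j + 1)
        rw [show -(j : ℤ) + (j + 1) = 1 by ring] at this
        rw [this]
        congr 1
      rw [h5]
      have : (0 : ℝ) < 4 ^ (j + 1) := by positivity
      nlinarith
    change (T⁻¹).1 (f.1 (T.1 x)) = x
    rw [h2]
    change (T⁻¹ * T).1 x = x
    rw [inv_mul_cancel]
    rfl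
  have : f = T * (T⁻¹ * f * T) * T⁻¹ := by group
  rw [this, show 2 * (j + 1) + 1 = (j + 1) + 1 + (j + 1) by ring]
  refine pow_mem_mul (pow_mem_mul (tau_pow_mem hE K σ _) ?_) (tau_pow_inv_mem hE K σ _)
  rw [pow_one]
  exact hv

variable (hb : Nonempty (↥(E ∩ Icc 1 2) ≃ₜ XL blk))

include hb in
/-- elements which are the identity near `∞` -/
theorem cofin_mem {K : Set ℂ} {j : ℕ} (hK1 : ∀ z ∈ K, rad (-j) < ‖z‖)
    (hK2 : ∀ z ∈ K, ‖z‖ < rad j) (σ : HomeoPlus (UE E))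
    (f : HomeoPlus (UE E)) (hf : ∃ m : ℤ, ∀ x : UE E, rad m ≤ ‖(x : ℂ)‖ → f.1 x = x) :
    f ∈ SK hE K σ ^ ((2 * j + 1) + (2 * (j + 1) + 1) + (2 * j + 1)) := by
  obtain ⟨m, hm⟩ := hf
  obtain ⟨N, hN1, hNm⟩ : ∃ N : ℕ, 1 ≤ N ∧ m ≤ N := by
    refine ⟨m.toNat + 1, by omega, ?_⟩
    have := Int.self_le_toNat m
    push_cast
    linarith
  obtain ⟨Y, hY, hYc, hYc', h1, h2⟩ := exists_YN hE hb N
  obtain ⟨b, hbE, hb1, hb2, hb3⟩ := squeeze hE N (by exact_mod_cast hN1) Y hY hYc hYc' h1 h2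
  obtain ⟨x₀, hx₀⟩ := OPat_of_eventually_id hb2
  let b' : HomeoPlus (UE E) := ⟨ofPlane b hbE, ofPlane_mem hE b hbE hx₀⟩
  have hb'mem : b' ∈ SK hE K σ ^ (2 * j + 1) := by
    apply inner_mem hE hK2
    intro x hx
    apply Subtype.ext
    exact hb1 x hx
  have hg : b' * f * b'⁻¹ ∈ SK hE K σ ^ (2 * (j + 1) + 1) := by
    apply outer_mem hE hK1
    intro x hx
    have h3 : f.1 ((b'⁻¹).1 x) = (b'⁻¹).1 x := by
      apply hm
      by_contra hlt
      rw [not_le] at hlt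
      have h4 : ((b'⁻¹).1 x : ℂ) ∈ closedBall (0 : ℂ) (rad N) := by
        rw [mem_closedBall_zero_iff]
        exact hlt.le.trans (rad_mono hNm)
      have h5 := hb3 (mem_image_of_mem b h4)
      have h6 : b ((b'⁻¹).1 x : ℂ) = x := by
        change ((b'.1 ((b'⁻¹).1 x) : UE E) : ℂ) = x
        have : b'.1 ((b'⁻¹).1 x) = x := by
          change (b' * b'⁻¹).1 x = x
          rw [mul_inv_cancel]
          rfl
        rw [this]
      rw [h6, mem_closedBall_zero_iff] at h5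
      linarith
    change b'.1 (f.1 ((b'⁻¹).1 x)) = x
    rw [h3]
    change (b' * b'⁻¹).1 x = x
    rw [mul_inv_cancel]
    rfl
  have : f = b'⁻¹ * (b' * f * b'⁻¹) * b' := by group
  rw [this]
  exact pow_mem_mul (pow_mem_mul (pow_inv_mem (fun _ h => SK_inv hE K σ h) _ hb'mem) hg) hb'mem

include hb in
/-- elements of flux zero fixing the special ends -/
theorem zero_mem {K : Set ℂ} {j : ℕ} (hK1 : ∀ z ∈ K, rad (-j) < ‖z‖)
    (hK2 : ∀ z ∈ K, ‖z‖ < rad j) (σ : HomeoPlus (UE E))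
    (f : HomeoPlus (UE E)) (hinf : extF hE f.1 ∞ = ∞) (h0 : mI hE f.1 = 0) :
    f ∈ SK hE K σ ^ ((2 * j + 1) + (2 * (j + 1) + 1) + (2 * j + 1) + 1) := by
  obtain ⟨F, hF⟩ := exists_plane hE f.1 hinf
  have hFE := plane_EC hE hF
  have hF0 : F 0 = 0 := by
    rcases ends_pres hE hb (extF hE f.1) (extF_EB hE f.1) with ⟨-, h⟩ | ⟨h, -⟩
    · rw [hF] at h
      exact OnePoint.coe_injective h
    · rw [hinf] at h
      exact absurd h.symm (OnePoint.coe_ne_infty _)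
  obtain ⟨x, hx⟩ := (UE_connected hE).nonempty
  have hop : OPat F 0 := by
    refine OPat_all F (x := x) ?_ 0
    rw [← OPAt_iff (UE_open hE) f.1 F (fun x => plane_eq hE hF x) ⟨x, hx⟩]
    exact f.2 _
  obtain ⟨M₁, hM₁⟩ := surg hE F hF0 hop hFE j
  obtain ⟨M₂, hM₂⟩ := surg_homeo hE hb (extF hE f.1) F hF hF0 hFE h0 j
  obtain ⟨-, -, h3⟩ := hM₁ (max M₁ M₂) (le_max_left _ _)
  obtain ⟨f', hf'E, hf'1, hf'2⟩ := h3 (hM₂ _ (le_max_right _ _))
  obtain ⟨x₀, hx₀⟩ := OPat_of_eventually_id hf'2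
  let g : HomeoPlus (UE E) := ⟨ofPlane f' hf'E, ofPlane_mem hE f' hf'E hx₀⟩
  have hg : g ∈ SK hE K σ ^ ((2 * j + 1) + (2 * (j + 1) + 1) + (2 * j + 1)) := by
    apply cofin_mem hE hb hK1 hK2
    refine ⟨max M₁ M₂, fun x hx => Subtype.ext ?_⟩
    exact hf'2 x hx
  have hv : g⁻¹ * f ∈ SK hE K σ ^ 1 := by
    rw [pow_one]
    left
    intro x hx
    have h4 : g.1 x = f.1 x := by
      apply Subtype.ext
      change f' x = _
      rw [hf'1 x (hK2 x hx).le, plane_eq hE hF]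
    change (g⁻¹).1 (f.1 x) = x
    rw [← h4]
    change (g⁻¹ * g).1 x = x
    rw [inv_mul_cancel]
    rfl
  have : f = g * (g⁻¹ * f) := by group
  rw [this]
  exact pow_mem_mul hg hv

/-- the number of factors -/
def nf (j : ℕ) : ℕ := (2 * j + 1) + (2 * (j + 1) + 1) + (2 * j + 1) + 1

theorem tau_zpow_mem (K : Set ℂ) (σ : HomeoPlus (UE E)) (a : ℤ) :
    (tau hE) ^ a ∈ SK hE K σ ^ a.natAbs := by
  rcases Int.eq_nat_or_neg a with ⟨k, rfl | rfl⟩
  · rw [zpow_natCast, Int.natAbs_natCast]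
    exact tau_pow_mem hE K σ k
  · rw [zpow_neg, zpow_natCast, Int.natAbs_neg, Int.natAbs_natCast]
    exact tau_pow_inv_mem hE K σ k

include hb in
/-- elements fixing the special ends -/
theorem fix_mem {K : Set ℂ} {j : ℕ} (hK1 : ∀ z ∈ K, rad (-j) < ‖z‖)
    (hK2 : ∀ z ∈ K, ‖z‖ < rad j) (σ : HomeoPlus (UE E))
    (f : HomeoPlus (UE E)) (hinf : extF hE f.1 ∞ = ∞) {k : ℕ} (hk : |mI hE f.1| ≤ k) :
    f ∈ SK hE K σ ^ (k + nf j) := by
  set a := mI hE f.1 with ha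
  have h1 : extF hE ((tau hE) ^ (-a) * f).1 ∞ = ∞ := by
    have : extF hE ((tau hE) ^ (-a) * f).1 = extF hE ((tau hE) ^ (-a)).1 * extF hE f.1 :=
      extF_mul hE _ _
    rw [this]
    change extF hE ((tau hE) ^ (-a)).1 (extF hE f.1 ∞) = ∞
    rw [hinf, extF_tau_zpow]
  have h2 : mI hE ((tau hE) ^ (-a) * f).1 = 0 := by
    have : mI hE ((tau hE) ^ (-a) * f).1 = mI hE ((tau hE) ^ (-a)).1 +
        sg (extF hE ((tau hE) ^ (-a)).1) * mI hE f.1 := mI_mul hE hb _ _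
    rw [this, mI_tau_zpow hE hb, sg_of_fix (extF_tau_zpow hE _)]
    omega
  have h3 := zero_mem hE hb hK1 hK2 σ _ h1 h2
  have h4 : f = (tau hE) ^ a * ((tau hE) ^ (-a) * f) := by group
  rw [h4]
  refine pow_mem_mul (pow_mem_mono (one_mem_SK hE K σ) ?_ (tau_zpow_mem hE K σ a)) h3
  rw [abs_le] at hk
  omega

include hb in
theorem key {K : Set ℂ} (hK : IsCompact K) (hKU : K ⊆ UE E) (σ : HomeoPlus (UE E))
    (hσ : extF hE σ.1 ∞ ≠ ∞ ∨ ∀ f : HomeoPlus (UE E), extF hE f.1 ∞ = ∞) (k : ℕ) :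
    ∃ n : ℕ, ∀ f : HomeoPlus (UE E), |mI hE f.1| ≤ k → f ∈ SK hE K σ ^ n := by
  obtain ⟨j, hK1, hK2⟩ : ∃ j : ℕ, (∀ z ∈ K, rad (-j) < ‖z‖) ∧ (∀ z ∈ K, ‖z‖ < rad j) := by
    obtain ⟨R, hR⟩ := hK.isBounded.exists_norm_le
    obtain ⟨n₁, hn₁⟩ := exists_rad_gt R
    obtain ⟨r, hr, hr'⟩ : ∃ r : ℝ, 0 < r ∧ ∀ z ∈ K, r ≤ ‖z‖ := by
      rcases K.eq_empty_or_nonempty with rfl | hne
      · exact ⟨1, one_pos, by simp⟩
      · obtain ⟨z, hz, hmin⟩ := hK.exists_isMinOn hne continuous_norm.continuousOn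
        refine ⟨‖z‖, ?_, fun w hw => hmin hw⟩
        rw [norm_pos_iff]
        rintro rfl
        exact hKU hz ⟨0, Or.inl rfl, by simp⟩
    obtain ⟨n₂, hn₂⟩ := exists_rad_lt hr
    refine ⟨max n₁ n₂, fun z hz => ?_, fun z hz => ?_⟩
    · refine lt_of_le_of_lt ?_ (hn₂.trans_le (hr' z hz))
      apply rad_mono
      push_cast
      omega
    · refine (hR z hz).trans_lt (hn₁.trans_le ?_)
      apply rad_mono
      push_cast
      omega
  obtain ⟨s, hs⟩ : ∃ s : ℕ, |mI hE σ.1| ≤ s := ⟨(mI hE σ.1).natAbs, by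
    rw [Int.abs_eq_natAbs]⟩
  refine ⟨1 + ((s + k) + nf j), fun f hf => ?_⟩
  by_cases hinf : extF hE f.1 ∞ = ∞
  · refine pow_mem_mono (one_mem_SK hE K σ) ?_ (fix_mem hE hb hK1 hK2 σ f hinf hf)
    omega
  · have hσ' : extF hE σ.1 ∞ ≠ ∞ := by
      rcases hσ with h | h
      · exact h
      · exact absurd (h f) hinf
    have hinv : ∀ g : HomeoPlus (UE E), extF hE g.1 ∞ ≠ ∞ →
        extF hE g.1 ∞ = ((0 : ℂ) : OnePoint ℂ) := by
      intro g hg
      rcases ends_pres hE hb (extF hE g.1) (extF_EB hE g.1) with ⟨h, -⟩ | ⟨h, -⟩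
      · exact absurd h hg
      · exact h
    have hinv' : extF hE σ.1 ((0 : ℂ) : OnePoint ℂ) = ∞ := by
      rcases ends_pres hE hb (extF hE σ.1) (extF_EB hE σ.1) with ⟨h, -⟩ | ⟨-, h⟩
      · exact absurd h hσ'
      · exact h
    have h1 : extF hE (σ⁻¹ * f).1 ∞ = ∞ := by
      have : extF hE (σ⁻¹ * f).1 = (extF hE σ.1)⁻¹ * extF hE f.1 := by
        rw [← extF_inv]; exact extF_mul hE _ _
      rw [this]
      change (extF hE σ.1).symm (extF hE f.1 ∞) = ∞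
      rw [hinv f hinf, Homeomorph.symm_apply_eq]
      exact (hinv σ hσ').symm
    have h2 : |mI hE (σ⁻¹ * f).1| ≤ (s + k : ℕ) := by
      have h3 := mI_abs hE hb (σ⁻¹).1 f.1
      have h4 : |mI hE (σ⁻¹).1| = |mI hE σ.1| := mI_inv_abs hE hb σ.1
      have h5 : mI hE (σ⁻¹ * f).1 = mI hE ((σ⁻¹).1 * f.1) := rfl
      rw [h5]
      have h6 : |mI hE ((σ⁻¹).1 * f.1)| ≤ |mI hE ((σ⁻¹).1 * f.1) - mI hE (σ⁻¹).1| +
          |mI hE (σ⁻¹).1| := by
        have := abs_add_le (mI hE ((σ⁻¹).1 * f.1) - mI hE (σ⁻¹).1) (mI hE (σ⁻¹).1)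
        rwa [sub_add_cancel] at this
      rw [h3, h4] at h6
      push_cast
      exact h6.trans (by linarith)
    have h3 := fix_mem hE hb hK1 hK2 σ _ h1 h2
    have h4 : f = σ * (σ⁻¹ * f) := by group
    rw [h4]
    refine pow_mem_mul ?_ h3
    rw [pow_one]
    right
    simp

end Ends72
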