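import Pool.Agent.LibEnds72.RMT
import Pool.Agent.LibEnds72.Cara
import Pool.Agent.LibEnds72.CircleLift
import Pool.Agent.LibEnds72.Angular
import Pool.Agent.LibEnds72.Germ
import Pool.Agent.LibEnds72.OPLemmas
import Pool.Agent.LibEnds72.OPAll

/-! TASK D3: local straightening of plane homeomorphisms. -/

open Set Metric Topology Filter

noncomputable section

namespace Ends72

/-- A continuous bijection of the plane which is the identity outside the unit disc is a
homeomorphism. -/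
theorem homeo_of_bij {k : ℂ → ℂ} (hc : Continuous k) (hb : Function.Bijective k) {R : ℝ}
    (hid : ∀ z, R ≤ ‖z‖ → k z = z) : ∃ K : ℂ ≃ₜ ℂ, ∀ z, K z = k z := by
  have hcl : IsClosedMap k := by
    intro C hC
    have : k '' C = k '' (C ∩ closedBall 0 R) ∪ (C ∩ {z | R ≤ ‖z‖}) := by
      ext w
      constructor
      · rintro ⟨z, hz, rfl⟩
        rcases le_total ‖z‖ R with h | h
        · left
          exact ⟨z, ⟨hz, by simpa using h⟩, rfl⟩
        · right
          rw [hid z h]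
          exact ⟨hz, h⟩
      · rintro (⟨z, hz, rfl⟩ | ⟨hw, hw'⟩)
        · exact ⟨z, hz.1, rfl⟩
        · exact ⟨w, hw, hid w hw'⟩
    rw [this]
    refine IsClosed.union ?_ ?_
    · exact (((isCompact_closedBall (0 : ℂ) R).inter_left hC).image hc).isClosed
    · exact hC.inter (isClosed_le continuous_const continuous_norm)
  exact ⟨(Equiv.ofBijective k hb).toHomeomorphOfContinuousClosed hc hcl, fun z => rfl⟩

theorem ls_zero (g : ℂ ≃ₜ ℂ) (h0 : g 0 = 0) (hop : OPat g 0) :
    ∃ k : ℂ ≃ₜ ℂ, (∀ z, 1 ≤ ‖z‖ → k z = z) ∧ ∀ᶠ z in 𝓝 0, g (k z) = z := by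
  have hsc : IsSimplyConnected (g '' ball 0 1) := by
    rw [Homeomorph.isSimplyConnected_image]
    have : ContractibleSpace (ball (0 : ℂ) 1) :=
      (convex_ball (0 : ℂ) 1).contractibleSpace ⟨0, by simp⟩
    exact SimplyConnectedSpace.ofContractible _
  have h0m : (0 : ℂ) ∈ g '' ball 0 1 := ⟨0, by simp, h0⟩
  have hne : g '' ball (0 : ℂ) 1 ≠ univ := by
    intro h
    have h1 : g 1 ∈ g '' ball (0 : ℂ) 1 := by rw [h]; trivial
    obtain ⟨z, hz, hz'⟩ := h1
    have := g.injective hz'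
    subst this
    simp at hz
  obtain ⟨ψ, hψd, hψi, hψim, hψ0, hψ'⟩ := rmt (g.isOpenMap _ isOpen_ball) hsc h0m hne
  obtain ⟨κ, hκc, hκb, hκm, hκs, hκψ⟩ := cara g h0 hψd hψi hψim hψ0
  have hκ0 : κ 0 = 0 := by
    have := hκψ 0 (by simp)
    rw [hψ0] at this
    exact g.injective (this.trans h0.symm)
  have hψan : AnalyticAt ℂ ψ 0 := hψd.analyticAt (isOpen_ball.mem_nhds (by simp))
  have hψne : deriv ψ 0 ≠ 0 := hψ' 0 (by simp)
  have hκop : OPat κ 0 := by
    have h1 : OPat ψ 0 := by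
      refine OPat_of_hasDerivAt hψan.differentiableAt.hasDerivAt hψne ?_
      filter_upwards [isOpen_ball.mem_nhds (show (0 : ℂ) ∈ ball (0 : ℂ) 1 by simp)] with z hz
      exact (hψd.continuousOn.continuousAt (isOpen_ball.mem_nhds hz))
    have h2 : OPat g.symm (ψ 0) := by
      have := OPat_symm g hop
      rwa [h0, ← hψ0] at this
    have h3 := OPat_comp h1 hψan.continuousAt h2
    refine OPat_congr ?_ h3
    filter_upwards [isOpen_ball.mem_nhds (show (0 : ℂ) ∈ ball (0 : ℂ) 1 by simp)] with z hz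
    rw [← hκψ z hz]
    simp
  obtain ⟨B, hBc, hBm, hBp, hB⟩ := circle_lift hκc hκb.injOn hκ0 hκs hκop
  obtain ⟨A, hAn, hAid, hA⟩ := angular hBc hBm hBp
  -- the local inverse
  set φ := hψan.hasStrictDerivAt.localInverse _ _ _ hψne with hφ
  have hφan : AnalyticAt ℂ φ 0 := by
    have := hψan.analyticAt_localInverse hψne
    rwa [hψ0] at this
  have hφ0 : φ 0 = 0 := by
    have := (HasStrictDerivAt.eventually_left_inverse hψan.hasStrictDerivAt hψne).self_of_nhds
    rwa [hψ0] at this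
  have hφr : ∀ᶠ z in 𝓝 (0 : ℂ), ψ (φ z) = z := by
    have := HasStrictDerivAt.eventually_right_inverse hψan.hasStrictDerivAt hψne
    rwa [hψ0] at this
  have hφne : deriv φ 0 ≠ 0 := by
    have := HasStrictDerivAt.to_localInverse hψan.hasStrictDerivAt hψne
    rw [hψ0] at this
    rw [this.hasDerivAt.deriv]
    exact inv_ne_zero hψne
  obtain ⟨G, hGid, hG⟩ := germ_ext hφ0 hφan hφne
  -- the map Θ = A⁻¹ ∘ G
  have hGlt : ∀ z, ‖z‖ < 1 / 2 → ‖G z‖ < 1 / 2 := by
    intro z hz
    by_contra h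
    push Not at h
    have := hGid _ h
    have := G.injective this
    rw [this] at h
    linarith
  have hGle : ∀ z, ‖z‖ ≤ 1 ↔ ‖G z‖ ≤ 1 := by
    intro z
    rcases lt_or_ge ‖z‖ (1 / 2) with h | h
    · have := hGlt z h
      constructor <;> intro <;> linarith
    · rw [hGid z h]
  set Θ : ℂ ≃ₜ ℂ := G.trans A.symm with hΘ
  have hAsn : ∀ z, ‖A.symm z‖ = ‖z‖ := by
    intro z
    rw [← hAn (A.symm z), A.apply_symm_apply]
  have hΘle : ∀ z, ‖z‖ ≤ 1 ↔ ‖Θ z‖ ≤ 1 := by
    intro z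
    rw [hΘ, Homeomorph.trans_apply, hAsn]
    exact hGle z
  have hAκ : ∀ w, ‖w‖ = 1 → κ w = A w := by
    intro w hw
    have : w = Complex.exp (w.arg * Complex.I) := by
      have := Complex.norm_mul_exp_arg_mul_I w
      rw [hw] at this
      simpa using this.symm
    rw [this, hB, hA]
  have hΘs : ∀ z, ‖z‖ = 1 → κ (Θ z) = z := by
    intro z hz
    have h1 : G z = z := hGid z (by rw [hz]; norm_num)
    rw [hΘ, Homeomorph.trans_apply, h1]
    rw [hAκ _ (by rw [hAsn, hz]), A.apply_symm_apply]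
  have hc1 : ContinuousOn (fun z => κ (Θ z)) (closedBall 0 1) := by
    refine hκc.comp Θ.continuous.continuousOn ?_
    intro z hz
    simp only [mem_closedBall, dist_zero_right] at hz ⊢
    exact (hΘle z).1 hz
  set k : ℂ → ℂ := fun z => if ‖z‖ ≤ 1 then κ (Θ z) else z with hk
  have hkin : ∀ z, ‖z‖ ≤ 1 → k z = κ (Θ z) := fun z hz => by simp [hk, hz]
  have hkout : ∀ z, 1 ≤ ‖z‖ → k z = z := by
    intro z hz
    rcases eq_or_lt_of_le hz with h | h
    · rw [hkin z h.symm.le, hΘs z h.symm]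
    · simp [hk, h]
  have hkc : Continuous k := by
    rw [hk]
    refine continuous_if_le continuous_norm continuous_const ?_ continuousOn_id ?_
    · convert hc1 using 1
      ext z
      simp
    · intro z hz
      exact hΘs z hz
  have hkball : ∀ z, ‖z‖ ≤ 1 → ‖k z‖ ≤ 1 := by
    intro z hz
    rw [hkin z hz]
    have := hκb.mapsTo (show Θ z ∈ closedBall (0 : ℂ) 1 by simpa using (hΘle z).1 hz)
    simpa using this
  have hkb : Function.Bijective k := by
    constructor
    · intro z w hzw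
      rcases le_or_gt ‖z‖ 1 with hz | hz
      · rcases le_or_gt ‖w‖ 1 with hw | hw
        · rw [hkin z hz, hkin w hw] at hzw
          have := hκb.injOn (show Θ z ∈ closedBall (0 : ℂ) 1 by simpa using (hΘle z).1 hz)
            (show Θ w ∈ closedBall (0 : ℂ) 1 by simpa using (hΘle w).1 hw) hzw
          exact Θ.injective this
        · have h1 := hkball z hz
          rw [hzw, hkout w hw.le] at h1
          linarith
      · rcases le_or_gt ‖w‖ 1 with hw | hw
        · have h1 := hkball w hw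
          rw [← hzw, hkout z hz.le] at h1
          linarith
        · rwa [hkout z hz.le, hkout w hw.le] at hzw
    · intro w
      rcases le_or_gt ‖w‖ 1 with hw | hw
      · obtain ⟨y, hy, hyw⟩ := hκb.surjOn (show w ∈ closedBall (0 : ℂ) 1 by simpa using hw)
        have hy' : ‖Θ.symm y‖ ≤ 1 := by
          rw [hΘle, Θ.apply_symm_apply]
          simpa using hy
        refine ⟨Θ.symm y, ?_⟩
        rw [hkin _ hy', Θ.apply_symm_apply, hyw]
      · exact ⟨w, hkout w hw.le⟩
  obtain ⟨K, hK⟩ := homeo_of_bij hkc hkb hkout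
  refine ⟨K, fun z hz => by rw [hK, hkout z hz], ?_⟩
  have hφt : Tendsto φ (𝓝 0) (𝓝 0) := by
    have := hφan.continuousAt.tendsto
    rwa [hφ0] at this
  have hsmall : ∀ᶠ z in 𝓝 (0 : ℂ), ‖φ z‖ < 1 / 2 := by
    have := hφt.norm
    rw [norm_zero] at this
    exact this.eventually (gt_mem_nhds (by norm_num))
  have hzs : ∀ᶠ z in 𝓝 (0 : ℂ), ‖z‖ < 1 := by
    have := (continuous_norm (E := ℂ)).tendsto 0
    rw [norm_zero] at this
    exact this.eventually (gt_mem_nhds (by norm_num))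
  filter_upwards [hG, hφr, hsmall, hzs] with z h1 h2 h3 h4
  rw [hK, hkin z h4.le]
  have h5 : Θ z = φ z := by
    rw [hΘ, Homeomorph.trans_apply, h1]
    have := hAid (φ z) h3.le
    conv_lhs => rw [← this]
    simp
  rw [h5, hκψ (φ z) (by simp only [mem_ball, dist_zero_right]; linarith), h2]

/-- conjugation by the inversion `z ↦ z⁻¹` (with `0⁻¹ = 0`) of a homeomorphism fixing `0` -/
theorem inv_conj (f : ℂ ≃ₜ ℂ) (h0 : f 0 = 0) : ∃ F : ℂ ≃ₜ ℂ, ∀ z, F z = (f z⁻¹)⁻¹ := by
  have key : ∀ f : ℂ ≃ₜ ℂ, f 0 = 0 → Continuous fun z : ℂ => (f z⁻¹)⁻¹ := by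
    intro f h0
    rw [continuous_iff_continuousAt]
    intro z
    by_cases hz : z = 0
    · subst hz
      rw [continuousAt_iff_punctured_nhds, inv_zero, h0, inv_zero]
      have h1 : Tendsto (fun z : ℂ => z⁻¹) (𝓝[≠] 0) (Bornology.cobounded ℂ) :=
        tendsto_inv₀_nhdsNE_zero
      have h2 : Tendsto f (Bornology.cobounded ℂ) (Bornology.cobounded ℂ) := by
        rw [Metric.cobounded_eq_cocompact]
        exact f.isClosedEmbedding.tendsto_cocompact
      have h3 : Tendsto (fun z : ℂ => z⁻¹) (Bornology.cobounded ℂ) (𝓝 0) :=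
        tendsto_inv₀_cobounded
      exact h3.comp (h2.comp h1)
    · have h1 : f z⁻¹ ≠ 0 := by
        intro h
        have := f.injective (h.trans h0.symm)
        simp [hz] at this
      exact ((f.continuous.continuousAt.comp (continuousAt_inv₀ hz))).inv₀ h1
  have h0' : f.symm 0 = 0 := by
    rw [f.symm_apply_eq, h0]
  refine ⟨⟨⟨fun z => (f z⁻¹)⁻¹, fun z => (f.symm z⁻¹)⁻¹, fun z => by simp, fun z => by simp⟩,
    key f h0, key f.symm h0'⟩, fun z => rfl⟩

theorem OPat_inv_conj (f F : ℂ ≃ₜ ℂ) (h0 : f 0 = 0) (hop : OPat f 0)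
    (hF : ∀ z, F z = (f z⁻¹)⁻¹) : OPat F 0 := by
  have hinv : ∀ x : ℂ, x ≠ 0 → OPat (fun z => z⁻¹) x := by
    intro x hx
    refine OPat_of_hasDerivAt (hasDerivAt_inv hx) (neg_ne_zero.2 (inv_ne_zero (pow_ne_zero 2 hx))) ?_
    filter_upwards [isOpen_ne.mem_nhds hx] with z hz
    exact continuousAt_inv₀ hz
  have h1 : f 1 ≠ 0 := by
    intro h
    have := f.injective (h.trans h0.symm)
    simp at this
  have h2 : OPat (fun z => f z⁻¹) 1 := by
    refine OPat_comp (f := fun z => z⁻¹) (hinv 1 one_ne_zero) (continuousAt_inv₀ one_ne_zero) ?_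
    exact OPat_all f hop _
  have h3 : OPat (fun z => (f z⁻¹)⁻¹) 1 := by
    refine OPat_comp (f := fun z => f z⁻¹) (g := fun z => z⁻¹) h2 ?_ ?_
    · exact f.continuous.continuousAt.comp (continuousAt_inv₀ one_ne_zero)
    · simp only [inv_one]
      exact hinv _ h1
  have h4 : OPat F 1 := OPat_congr (Eventually.of_forall fun z => (hF z).symm) h3
  exact OPat_all F h4 0

theorem ls_inf (f : ℂ ≃ₜ ℂ) (h0 : f 0 = 0) (hop : OPat f 0) (R : ℝ) :
    ∃ f₁ : ℂ ≃ₜ ℂ, (∀ z, ‖z‖ ≤ R → f₁ z = f z) ∧ ∃ R₂ : ℝ, ∀ z, R₂ ≤ ‖z‖ → f₁ z = z := by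
  obtain ⟨F, hF⟩ := inv_conj f h0
  have hFop := OPat_inv_conj f F h0 hop hF
  have hF0 : F 0 = 0 := by rw [hF, inv_zero, h0, inv_zero]
  -- rescale
  set T : ℝ := |R| + 1 with hT
  have hTpos : 0 < T := by positivity
  have hTc : (T : ℂ) ≠ 0 := by exact_mod_cast hTpos.ne'
  have hTinv : (T : ℂ)⁻¹ ≠ 0 := inv_ne_zero hTc
  -- g z = T * F (z / T)
  set g : ℂ ≃ₜ ℂ := ((Homeomorph.mulLeft₀ (T : ℂ)⁻¹ hTinv).trans F).trans
    (Homeomorph.mulLeft₀ (T : ℂ) hTc) with hg
  have hgz : ∀ z, g z = T * F ((T : ℂ)⁻¹ * z) := fun z => rfl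
  have hg0 : g 0 = 0 := by rw [hgz, mul_zero, hF0, mul_zero]
  have hlin : ∀ (a : ℂ), a ≠ 0 → ∀ x : ℂ, OPat (fun z => a * z) x := by
    intro a ha x
    refine OPat_of_hasDerivAt (g' := a) ?_ ha ?_
    · simpa using (hasDerivAt_id x).const_mul a
    · exact Eventually.of_forall fun z => (continuous_const.mul continuous_id).continuousAt
  have hgop : OPat g 0 := by
    have h1 : OPat (fun z => F ((T : ℂ)⁻¹ * z)) 0 := by
      refine OPat_comp (f := fun z => (T : ℂ)⁻¹ * z) (hlin _ hTinv 0)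
        (continuous_const.mul continuous_id).continuousAt ?_
      exact OPat_all F hFop _
    exact OPat_comp (g := fun z => (T : ℂ) * z) h1
      ((F.continuous.comp (continuous_const.mul continuous_id)).continuousAt) (hlin _ hTc _)
  obtain ⟨k, hk1, hk2⟩ := ls_zero g hg0 hgop
  have hk0 : k 0 = 0 := by
    have := hk2.self_of_nhds
    exact g.injective (this.trans hg0.symm)
  -- k' z = T⁻¹ * k (T * z)
  set k' : ℂ ≃ₜ ℂ := ((Homeomorph.mulLeft₀ (T : ℂ) hTc).trans k).trans
    (Homeomorph.mulLeft₀ (T : ℂ)⁻¹ hTinv) with hk'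
  have hk'z : ∀ z, k' z = (T : ℂ)⁻¹ * k (T * z) := fun z => rfl
  have hk'0 : k' 0 = 0 := by rw [hk'z, mul_zero, hk0, mul_zero]
  obtain ⟨K, hK⟩ := inv_conj k' hk'0
  refine ⟨K.trans f, ?_, ?_⟩
  · intro z hz
    rw [Homeomorph.trans_apply]
    congr 1
    rw [hK]
    by_cases h : z = 0
    · subst h
      rw [inv_zero, hk'0, inv_zero]
    · rw [hk'z, hk1, inv_mul_cancel_left₀ hTc, inv_inv]
      rw [norm_mul, norm_inv, Complex.norm_real, Real.norm_of_nonneg hTpos.le]
      rw [← div_eq_mul_inv, one_le_div (norm_pos_iff.2 h)]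
      calc ‖z‖ ≤ R := hz
        _ ≤ |R| := le_abs_self R
        _ ≤ T := by rw [hT]; linarith
  · have h1 : ∀ᶠ z in Bornology.cobounded ℂ, g (k (T * z⁻¹)) = T * z⁻¹ := by
      have : Tendsto (fun z : ℂ => (T : ℂ) * z⁻¹) (Bornology.cobounded ℂ) (𝓝 0) := by
        have h := (tendsto_inv₀_cobounded (α := ℂ)).const_mul (T : ℂ)
        rwa [mul_zero] at h
      exact this.eventually hk2
    rw [(Metric.hasBasis_cobounded_compl_closedBall (0 : ℂ)).eventually_iff] at h1
    obtain ⟨r, -, hr⟩ := h1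
    refine ⟨|r| + 1, fun z hz => ?_⟩
    have h2 := @hr z (by
      simp only [mem_compl_iff, mem_closedBall, dist_zero_right, not_le]
      have := le_abs_self r
      linarith)
    have hz0 : z ≠ 0 := by
      intro h
      rw [h, norm_zero] at hz
      have := abs_nonneg r
      linarith
    rw [hgz] at h2
    have h3 := mul_left_cancel₀ hTc h2
    rw [← hk'z, hF] at h3
    rw [Homeomorph.trans_apply, hK]
    exact inv_injective h3

end Ends72
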