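import Mathlib

/-! TASK A1: Montel's theorem. -/

open Set Metric Topology Filter

noncomputable section

namespace Ends72

/-- The conditions of the compact set of functions used in Montel's theorem. -/
def MontelP (Ω : Set ℂ) (M : ℝ) (h : Ω → ℂ) : Prop :=
  (∀ z, ‖h z‖ ≤ M) ∧ ∀ (c : Ω) (R : ℝ), 0 < R → ball (c : ℂ) R ⊆ Ω →
    ∀ z : Ω, (z : ℂ) ∈ ball (c : ℂ) R → dist (h z) (h c) ≤ (2 * M) / R * dist (z : ℂ) c

theorem MontelP_isClosed (Ω : Set ℂ) (M : ℝ) : IsClosed {h : Ω → ℂ | MontelP Ω M h} := by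
  unfold MontelP
  apply IsClosed.and
  · rw [ofPred_forall]
    refine isClosed_iInter fun z => ?_
    exact isClosed_le (continuous_norm.comp (continuous_apply z)) continuous_const
  · rw [ofPred_forall]
    refine isClosed_iInter fun c => ?_
    rw [ofPred_forall]
    refine isClosed_iInter fun R => ?_
    rw [ofPred_forall]
    refine isClosed_iInter fun _ => ?_
    rw [ofPred_forall]
    refine isClosed_iInter fun _ => ?_
    rw [ofPred_forall]
    refine isClosed_iInter fun z => ?_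
    rw [ofPred_forall]
    refine isClosed_iInter fun _ => ?_
    exact isClosed_le ((continuous_apply z).dist (continuous_apply c)) continuous_const

theorem MontelP_isCompact (Ω : Set ℂ) (M : ℝ) : IsCompact {h : Ω → ℂ | MontelP Ω M h} := by
  have h1 : IsCompact (Set.pi univ (fun _ : Ω => closedBall (0 : ℂ) M)) :=
    isCompact_univ_pi fun _ => isCompact_closedBall 0 M
  refine h1.of_isClosed_subset (MontelP_isClosed Ω M) ?_
  intro h hh z _
  simpa using hh.1 z

theorem MontelP_small {Ω : Set ℂ} (ho : IsOpen Ω) (M : ℝ) (c : Ω) (ε : ℝ) (hε : 0 < ε) :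
    ∃ δ > 0, ∀ z : Ω, dist z c < δ → ∀ h : Ω → ℂ, MontelP Ω M h → dist (h z) (h c) < ε := by
  obtain ⟨R, hR, hsub⟩ := Metric.isOpen_iff.1 ho c c.2
  have hM : 0 < 2 * |M| / R + 1 := by positivity
  refine ⟨min R (ε / (2 * |M| / R + 1)), lt_min hR (by positivity), ?_⟩
  intro z hz h hh
  have h1 : dist (z : ℂ) c < R := lt_of_lt_of_le hz (min_le_left _ _)
  have h2 : dist (z : ℂ) c < ε / (2 * |M| / R + 1) := lt_of_lt_of_le hz (min_le_right _ _)
  rw [lt_div_iff₀ hM] at h2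
  have h3 := hh.2 c R hR hsub z h1
  have h4 : 2 * M / R ≤ 2 * |M| / R := by
    apply div_le_div_of_nonneg_right _ hR.le
    linarith [le_abs_self M]
  have h5 : (0 : ℝ) ≤ dist (z : ℂ) c := dist_nonneg
  nlinarith

theorem MontelP_continuous {Ω : Set ℂ} (ho : IsOpen Ω) (M : ℝ) (h : Ω → ℂ)
    (hh : MontelP Ω M h) : Continuous h := by
  rw [Metric.continuous_iff]
  intro c ε hε
  obtain ⟨δ, hδ, H⟩ := MontelP_small ho M c ε hε
  exact ⟨δ, hδ, fun z hz => H z hz h hh⟩

theorem MontelP_of_differentiableOn {Ω : Set ℂ} (f : ℂ → ℂ) (hd : DifferentiableOn ℂ f Ω)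
    (M : ℝ) (hM : ∀ z ∈ Ω, ‖f z‖ ≤ M) : MontelP Ω M (fun z => f z) := by
  refine ⟨fun z => hM z z.2, ?_⟩
  intro c R hR hsub z hz
  apply Complex.dist_le_div_mul_dist_of_mapsTo_ball (hd.mono hsub) _ hz
  intro w hw
  rw [mem_closedBall, dist_eq_norm]
  calc ‖f w - f c‖ ≤ ‖f w‖ + ‖f c‖ := norm_sub_le _ _
    _ ≤ M + M := add_le_add (hM w (hsub hw)) (hM c c.2)
    _ = 2 * M := by ring

theorem montel {Ω : Set ℂ} (ho : IsOpen Ω) (f : ℕ → ℂ → ℂ)
    (hd : ∀ n, DifferentiableOn ℂ (f n) Ω) (M : ℝ) (hM : ∀ n, ∀ z ∈ Ω, ‖f n z‖ ≤ M) :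
    ∃ (φ : ℕ → ℕ) (g : ℂ → ℂ), StrictMono φ ∧
      TendstoLocallyUniformlyOn (fun n => f (φ n)) g atTop Ω := by
  have : LocallyCompactSpace Ω := ho.locallyCompactSpace
  have hS : IsCompact {h : C(Ω, ℂ) | MontelP Ω M h} := by
    apply ArzelaAscoli.isCompact_of_equicontinuous
    · have : ContinuousMap.toFun '' {h : C(Ω, ℂ) | MontelP Ω M h} = {h | MontelP Ω M h} := by
        ext h
        constructor
        · rintro ⟨k, hk, rfl⟩
          exact hk
        · intro hh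
          exact ⟨⟨h, MontelP_continuous ho M h hh⟩, hh, rfl⟩
      rw [this]
      exact MontelP_isCompact Ω M
    · intro c
      rw [Metric.equicontinuousAt_iff]
      intro ε hε
      obtain ⟨δ, hδ, H⟩ := MontelP_small ho M c ε hε
      refine ⟨δ, hδ, fun z hz h => ?_⟩
      rw [dist_comm]
      exact H z hz h h.2
  let F : ℕ → C(Ω, ℂ) := fun n => ⟨fun z => f n z, (hd n).continuousOn.domRestrict⟩
  have hF : ∀ n, F n ∈ {h : C(Ω, ℂ) | MontelP Ω M h} := fun n =>
    MontelP_of_differentiableOn (f n) (hd n) M (hM n)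
  have : FirstCountableTopology C(Ω, ℂ) := UniformSpace.firstCountableTopology _
  obtain ⟨a, _, φ, hφ, hlim⟩ := hS.tendsto_subseq hF
  classical
  refine ⟨φ, fun z => if h : z ∈ Ω then a ⟨z, h⟩ else 0, hφ, ?_⟩
  rw [tendstoLocallyUniformlyOn_iff_tendstoLocallyUniformly_comp_coe]
  rw [ContinuousMap.tendsto_iff_tendstoLocallyUniformly] at hlim
  have h2 : (fun z => if h : z ∈ Ω then a ⟨z, h⟩ else 0) ∘ (Subtype.val : Ω → ℂ) = a := by
    funext z
    simp
  rw [h2]
  exact hlim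

end Ends72
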