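import Pool.Agent.LibEnds72.RelUnf

/-! Normal forms of multisets of types: definitions. -/

open Set

noncomputable section

namespace Ends72

open T

/-- The standard multiset of level `L`: `σ` copies of `s L`, `x` copies of `u L`, `m` copies of
`r L`, `τ` copies of `t`, `q j` copies of `p j` for `j < L`, and the rest `ω`. -/
def NF (L σ x m τ : ℕ) (q : ℕ → ℕ) (ω : Multiset T) : Multiset T :=
  Multiset.replicate σ (s L) + Multiset.replicate x (u L) + Multiset.replicate m (r L) +
    Multiset.replicate τ t + (∑ j ∈ Finset.range L, Multiset.replicate (q j) (p j)) + ω

/-- the types `w i` and `c` -/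
def isWC : T → Prop
  | w _ => True
  | c => True
  | _ => False

end Ends72
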