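import Pool.Agent.LibEnds72.NF

/-! TASK J5c: lemmas on normal forms. -/

open Set

noncomputable section

namespace Ends72

open T

theorem NF_add (L σ x m τ σ' x' m' τ' : ℕ) (q q' : ℕ → ℕ) (ω ω' : Multiset T) :
    NF L (σ + σ') (x + x') (m + m') (τ + τ') (fun j => q j + q' j) (ω + ω') =
      NF L σ x m τ q ω + NF L σ' x' m' τ' q' ω' := by
  unfold NF
  simp only [Multiset.replicate_add, Finset.sum_add_distrib]
  abel

theorem NF_congr {L σ x m τ : ℕ} {q q' : ℕ → ℕ} {ω : Multiset T} (h : ∀ j < L, q j = q' j) :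
    NF L σ x m τ q ω = NF L σ x m τ q' ω := by
  unfold NF
  have : ∑ j ∈ Finset.range L, Multiset.replicate (q j) (p j) =
      ∑ j ∈ Finset.range L, Multiset.replicate (q' j) (p j) :=
    Finset.sum_congr rfl fun j hj => by rw [h j (Finset.mem_range.1 hj)]
  rw [this]

theorem hasS_replicate (n : ℕ) (x : T) : hasS (Multiset.replicate n x) ↔ 0 < n ∧ isS x := by
  constructor
  · rintro ⟨y, hy, hs⟩
    rw [Multiset.mem_replicate] at hy
    obtain ⟨hn, rfl⟩ := hy
    exact ⟨Nat.pos_of_ne_zero hn, hs⟩
  · rintro ⟨hn, hs⟩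
    exact ⟨x, Multiset.mem_replicate.2 ⟨hn.ne', rfl⟩, hs⟩

theorem hasS_sum {ι : Type*} (s : Finset ι) (f : ι → Multiset T) :
    hasS (∑ j ∈ s, f j) ↔ ∃ j ∈ s, hasS (f j) := by
  classical
  induction s using Finset.induction_on with
  | empty => simp [not_hasS_zero]
  | insert a s ha ih =>
    rw [Finset.sum_insert ha, hasS_add, ih]
    simp

theorem iota_replicate (n : ℕ) (x : T) : iota (Multiset.replicate n x) = n * val x := by
  rw [iota, Multiset.map_replicate, Multiset.sum_replicate]
  simp

theorem iota_sum {ι : Type*} (s : Finset ι) (f : ι → Multiset T) :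
    iota (∑ j ∈ s, f j) = ∑ j ∈ s, iota (f j) := by
  classical
  induction s using Finset.induction_on with
  | empty => simp [iota]
  | insert a s ha ih => rw [Finset.sum_insert ha, iota_add, ih, Finset.sum_insert ha]

theorem cntM_replicate (j n : ℕ) (x : T) : cntM j (Multiset.replicate n x) = n * cnt j x := by
  rw [cntM, Multiset.map_replicate, Multiset.sum_replicate]
  simp

theorem cntM_sum {ι : Type*} (j : ℕ) (s : Finset ι) (f : ι → Multiset T) :
    cntM j (∑ i ∈ s, f i) = ∑ i ∈ s, cntM j (f i) := by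
  classical
  induction s using Finset.induction_on with
  | empty => simp [cntM]
  | insert a s ha ih => rw [Finset.sum_insert ha, cntM_add, ih, Finset.sum_insert ha]

theorem numU_replicate (n : ℕ) (x : T) :
    numU (Multiset.replicate n x) = n * (if isU x then 1 else 0) := by
  induction n with
  | zero => simp [numU]
  | succ n ih =>
    rw [Multiset.replicate_succ, numU_cons, ih]
    ring

theorem numU_sum {ι : Type*} (s : Finset ι) (f : ι → Multiset T) :
    numU (∑ i ∈ s, f i) = ∑ i ∈ s, numU (f i) := by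
  classical
  induction s using Finset.induction_on with
  | empty => simp [numU]
  | insert a s ha ih => rw [Finset.sum_insert ha, numU_add, ih, Finset.sum_insert ha]

theorem wc_iota {ω : Multiset T} (hω : ∀ v ∈ ω, isWC v) : iota ω = 0 := by
  induction ω using Multiset.induction with
  | empty => rfl
  | cons x ω ih =>
    have hx := hω x (Multiset.mem_cons_self _ _)
    rw [iota_cons, ih fun v hv => hω v (Multiset.mem_cons_of_mem hv)]
    cases x <;> simp_all [isWC, val]

theorem wc_numU {ω : Multiset T} (hω : ∀ v ∈ ω, isWC v) : numU ω = 0 := by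
  induction ω using Multiset.induction with
  | empty => rfl
  | cons x ω ih =>
    have hx := hω x (Multiset.mem_cons_self _ _)
    rw [numU_cons, ih fun v hv => hω v (Multiset.mem_cons_of_mem hv)]
    cases x <;> simp_all [isWC, isU]

theorem wc_cntM {ω : Multiset T} (hω : ∀ v ∈ ω, isWC v) (j : ℕ) : cntM j ω = 0 := by
  induction ω using Multiset.induction with
  | empty => rfl
  | cons x ω ih =>
    have hx := hω x (Multiset.mem_cons_self _ _)
    rw [cntM_cons, ih fun v hv => hω v (Multiset.mem_cons_of_mem hv)]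
    cases x <;> simp_all [isWC, cnt]

theorem wc_hasS {ω : Multiset T} (hω : ∀ v ∈ ω, isWC v) : ¬ hasS ω := by
  rintro ⟨x, hx, hs⟩
  have := hω x hx
  cases x <;> simp_all [isWC, isS]

theorem wc_hasT {ω : Multiset T} (hω : ∀ v ∈ ω, isWC v) : t ∉ ω := by
  intro h
  exact hω t h

section

variable {L σ x m τ : ℕ} {q : ℕ → ℕ} {ω : Multiset T} (hω : ∀ v ∈ ω, isWC v)

include hω

theorem NF_hasS : hasS (NF L σ x m τ q ω) ↔ 0 < σ := by
  unfold NF
  simp only [hasS_add, hasS_replicate, hasS_sum, isS, wc_hasS hω, and_false, and_true, or_false,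
    exists_const]

theorem NF_hasT : t ∈ NF L σ x m τ q ω ↔ 0 < τ := by
  unfold NF
  have h1 : t ∉ ∑ j ∈ Finset.range L, Multiset.replicate (q j) (p j) := by
    intro h
    rw [Multiset.mem_sum] at h
    obtain ⟨i, _, hi⟩ := h
    have := Multiset.eq_of_mem_replicate hi
    exact absurd this (by simp)
  simp only [Multiset.mem_add, Multiset.mem_replicate, wc_hasT hω, h1, or_false]
  simp [Nat.pos_iff_ne_zero]

theorem NF_iota : iota (NF L σ x m τ q ω) = (x : ℤ) - σ := by
  unfold NF
  simp only [iota_add, iota_replicate, iota_sum, wc_iota hω, val]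
  simp
  ring

theorem NF_numU : numU (NF L σ x m τ q ω) = x := by
  unfold NF
  simp only [numU_add, numU_replicate, numU_sum, wc_numU hω, isU]
  simp

theorem NF_cntM_lt {j : ℕ} (hj : j < L) : cntM j (NF L σ x m τ q ω) = q j := by
  unfold NF
  simp only [cntM_add, cntM_replicate, cntM_sum, wc_cntM hω, cnt]
  rw [if_neg (by omega), if_neg (by omega), if_neg (by omega)]
  simp [hj]

theorem NF_cntM_ge {j : ℕ} (hj : L ≤ j) :
    (cntM j (NF L σ x m τ q ω) : ℤ) = 4 ^ (j - L) * (4 * σ + m) + ((x : ℤ) - σ) := by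
  unfold NF
  simp only [cntM_add, cntM_replicate, cntM_sum, wc_cntM hω, cnt]
  rw [if_pos hj, if_pos hj, if_pos hj]
  have h1 : 1 ≤ 4 ^ (j - L + 1) := Nat.one_le_pow _ _ (by norm_num)
  have h2 : ∑ i ∈ Finset.range L, q i * (if i = j then 1 else 0) = 0 := by
    apply Finset.sum_eq_zero
    intro i hi
    rw [Finset.mem_range] at hi
    rw [if_neg (by omega), mul_zero]
  rw [h2]
  push_cast [Nat.cast_sub h1]
  ring

end

theorem Unf_single {x : T} : Unf {x} (ch x : Multiset T) :=
  Relation.ReflTransGen.single ⟨x, 0, by simp, by simp⟩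

theorem Unf_nsmul {α β : Multiset T} (h : Unf α β) (n : ℕ) : Unf (n • α) (n • β) := by
  induction n with
  | zero =>
    rw [zero_smul, zero_smul]
    exact Unf_refl _
  | succ n ih =>
    rw [succ_nsmul, succ_nsmul]
    exact Unf_add ih h

theorem Unf_r (n L : ℕ) : Unf (Multiset.replicate n (r L))
    (Multiset.replicate (n * 4) (r (L + 1)) + Multiset.replicate n (p L)) := by
  have h := Unf_nsmul (Unf_single (x := r L)) n
  rw [Multiset.nsmul_singleton] at h
  have e : n • (ch (r L) : Multiset T) =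
      Multiset.replicate (n * 4) (r (L + 1)) + Multiset.replicate n (p L) := by
    have : (ch (r L) : Multiset T) = Multiset.replicate 4 (r (L + 1)) +
        Multiset.replicate 1 (p L) := by
      rfl
    rw [this, smul_add, Multiset.nsmul_replicate, Multiset.nsmul_replicate, mul_one]
  rw [e] at h
  exact h

theorem supplyR (L n : ℕ) :
    Unf (Multiset.replicate n (r 0)) (NF L 0 0 (n * 4 ^ L) 0 (fun j => n * 4 ^ j) 0) := by
  induction L with
  | zero =>
    have : NF 0 0 0 (n * 4 ^ 0) 0 (fun j => n * 4 ^ j) 0 = Multiset.replicate n (r 0) := by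
      simp [NF]
    rw [this]
    exact Unf_refl _
  | succ L ih =>
    refine Unf_trans ih ?_
    have e1 : NF L 0 0 (n * 4 ^ L) 0 (fun j => n * 4 ^ j) 0 =
        Multiset.replicate (n * 4 ^ L) (r L) +
          ∑ j ∈ Finset.range L, Multiset.replicate (n * 4 ^ j) (p j) := by
      simp [NF]
    have e2 : NF (L + 1) 0 0 (n * 4 ^ (L + 1)) 0 (fun j => n * 4 ^ j) 0 =
        (Multiset.replicate (n * 4 ^ L * 4) (r (L + 1)) + Multiset.replicate (n * 4 ^ L) (p L)) +
          ∑ j ∈ Finset.range L, Multiset.replicate (n * 4 ^ j) (p j) := by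
      rw [NF, Finset.sum_range_succ, show n * 4 ^ (L + 1) = n * 4 ^ L * 4 by ring]
      simp only [Multiset.replicate_zero, zero_add, add_zero]
      abel
    rw [e1, e2]
    exact Unf_add_right _ (Unf_r _ _)

theorem supplyT (n : ℕ) :
    Unf {t} (Multiset.replicate (n + 1) t + Multiset.replicate n (r 0)) := by
  induction n with
  | zero =>
    have : Multiset.replicate (0 + 1) t + Multiset.replicate 0 (r 0) = {t} := by simp
    rw [this]
    exact Unf_refl _
  | succ n ih =>
    refine Unf_trans ih ?_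
    refine Relation.ReflTransGen.single ⟨t, Multiset.replicate n t + Multiset.replicate n (r 0),
      ?_, ?_⟩
    · rw [Multiset.replicate_succ, Multiset.cons_add]
    · have : (ch t : Multiset T) = Multiset.replicate 2 t + Multiset.replicate 1 (r 0) := rfl
      rw [this, show n + 1 + 1 = 2 + n by ring, show n + 1 = 1 + n by ring,
        Multiset.replicate_add, Multiset.replicate_add]
      abel

/-- `t` supplies arbitrarily many `r L` and `p j`. -/
theorem supply (L n : ℕ) :
    Unf {t} (NF L 0 0 (n * 4 ^ L) (n + 1) (fun j => n * 4 ^ j) 0) := by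
  refine Unf_trans (supplyT n) ?_
  have e : NF L 0 0 (n * 4 ^ L) (n + 1) (fun j => n * 4 ^ j) 0 =
      Multiset.replicate (n + 1) t + NF L 0 0 (n * 4 ^ L) 0 (fun j => n * 4 ^ j) 0 := by
    simp only [NF, Multiset.replicate_zero, zero_add, add_zero]
    abel
  rw [e]
  exact Unf_add (Unf_refl _) (supplyR L n)

/-- `y` is reached from `x`. -/
def Rch (x y : T) : Prop := ∃ ρ, Unf {x} (ρ + {y})

theorem Rch_trans {x y z : T} (h1 : Rch x y) (h2 : Rch y z) : Rch x z := by
  obtain ⟨ρ, h1⟩ := h1
  obtain ⟨ρ', h2⟩ := h2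
  refine ⟨ρ + ρ', Unf_trans h1 ?_⟩
  rw [add_assoc]
  exact Unf_add (Unf_refl _) h2

theorem Rch_refl (x : T) : Rch x x := ⟨0, by rw [zero_add]; exact Unf_refl _⟩

theorem Rch_of_mem {x y : T} (h : y ∈ ch x) : Rch x y := by
  obtain ⟨ρ, hρ⟩ := Multiset.exists_cons_of_mem (Multiset.mem_coe.2 h)
  refine ⟨ρ, ?_⟩
  rw [add_comm, Multiset.singleton_add, ← hρ]
  exact Unf_single

theorem Rch_r_r (k n : ℕ) : Rch (r k) (r (k + n)) := by
  induction n with
  | zero => exact Rch_refl _
  | succ n ih => exact Rch_trans ih (Rch_of_mem (by simp [ch, ← add_assoc]))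

theorem Rch_w_w (i n : ℕ) : Rch (w (i + n)) (w i) := by
  induction n with
  | zero => exact Rch_refl _
  | succ n ih => exact Rch_trans (Rch_of_mem (by simp [ch, ← add_assoc])) ih

theorem Rch_r_wc (k : ℕ) {v : T} (hv : isWC v) : Rch (r k) v := by
  cases v with
  | w i =>
    refine Rch_trans (Rch_r_r k i) ?_
    refine Rch_trans (y := p (k + i)) (Rch_of_mem (by simp [ch])) ?_
    refine Rch_trans (y := w (k + i)) (Rch_of_mem (by simp [ch])) ?_
    rw [add_comm]
    exact Rch_w_w i k
  | c =>
    refine Rch_trans (y := p k) (Rch_of_mem (by simp [ch])) ?_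
    exact Rch_of_mem (by simp [ch])
  | _ => exact absurd hv (by simp [isWC])

theorem absorb_one {β : Multiset T} (h : hasS β ∨ t ∈ β) {v : T} (hv : isWC v) :
    ∃ β', Unf β (β' + {v}) ∧ (hasS β' ∨ t ∈ β') := by
  rcases h with ⟨x, hx, hs⟩ | h
  · obtain ⟨β₁, rfl⟩ := Multiset.exists_cons_of_mem hx
    cases x with
    | s k =>
      obtain ⟨ρ, hρ⟩ := Rch_r_wc k hv
      refine ⟨({s (k + 1), s (k + 1), r k, u k} : Multiset T) + ρ + β₁, ?_, ?_⟩
      · refine Relation.ReflTransGen.head
          (b := ({s (k + 1), s (k + 1), r k, u k} : Multiset T) + {r k} + β₁) ?_ ?_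
        · refine ⟨s k, β₁, rfl, ?_⟩
          congr 1
          change _ = (↑[s (k + 1), s (k + 1), r k, r k, u k] : Multiset T)
          rw [← Multiset.coe_singleton]
          change (↑[s (k + 1), s (k + 1), r k, u k] : Multiset T) + ↑[r k] = _
          rw [Multiset.coe_add, Multiset.coe_eq_coe]
          simp only [List.cons_append, List.nil_append]
          exact ((List.Perm.swap _ _ _).cons _).cons _ |>.cons _
        · have e : ({s (k + 1), s (k + 1), r k, u k} : Multiset T) + ρ + β₁ + {v} =
              ({s (k + 1), s (k + 1), r k, u k} : Multiset T) + (ρ + {v}) + β₁ := by abel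
          rw [e]
          exact Unf_add (Unf_add (Unf_refl _) hρ) (Unf_refl _)
      · left
        exact ⟨s (k + 1), by simp, trivial⟩
    | _ => exact absurd hs (by simp [isS])
  · obtain ⟨β₁, rfl⟩ := Multiset.exists_cons_of_mem h
    obtain ⟨ρ, hρ⟩ := Rch_r_wc 0 hv
    refine ⟨({t, t} : Multiset T) + ρ + β₁, ?_, ?_⟩
    · refine Relation.ReflTransGen.head
        (b := ({t, t} : Multiset T) + {r 0} + β₁) ⟨t, β₁, rfl, ?_⟩ ?_
      · rfl
      · have e : ({t, t} : Multiset T) + ρ + β₁ + {v} =
            ({t, t} : Multiset T) + (ρ + {v}) + β₁ := by abel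
        rw [e]
        exact Unf_add (Unf_add (Unf_refl _) hρ) (Unf_refl _)
    · right
      simp

/-- multisets containing some `s k` or `t` unfold so as to contain any prescribed types `w i`,
`c`. -/
theorem absorb {β : Multiset T} (h : hasS β ∨ t ∈ β) {ω : Multiset T}
    (hω : ∀ v ∈ ω, isWC v) : ∃ β', Unf β (β' + ω) := by
  induction ω using Multiset.induction generalizing β with
  | empty => exact ⟨β, by rw [add_zero]; exact Unf_refl _⟩
  | cons x ω ih =>
    obtain ⟨β', h1, h2⟩ := absorb_one h (hω x (Multiset.mem_cons_self _ _))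
    obtain ⟨β'', h3⟩ := ih h2 fun v hv => hω v (Multiset.mem_cons_of_mem hv)
    refine ⟨β'', Unf_trans h1 ?_⟩
    have e : β'' + x ::ₘ ω = β'' + ω + {x} := by
      rw [← Multiset.singleton_add]
      abel
    rw [e]
    exact Unf_add h3 (Unf_refl _)

end Ends72
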