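import Pool.Agent.LibEnds72.NFLemmas

/-! TASK J5b: existence of normal forms. -/

open Set

noncomputable section

namespace Ends72

open T

theorem Unf_u (n L : ℕ) : Unf (Multiset.replicate n (u L))
    (Multiset.replicate n (u (L + 1)) + Multiset.replicate n (p L)) := by
  have h := Unf_nsmul (Unf_single (x := u L)) n
  rw [Multiset.nsmul_singleton] at h
  have e : n • (ch (u L) : Multiset T) =
      Multiset.replicate n (u (L + 1)) + Multiset.replicate n (p L) := by
    have : (ch (u L) : Multiset T) = Multiset.replicate 1 (u (L + 1)) +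
        Multiset.replicate 1 (p L) := by
      rfl
    rw [this, smul_add, Multiset.nsmul_replicate, Multiset.nsmul_replicate, mul_one]
  rw [e] at h
  exact h

theorem Unf_s (n L : ℕ) : Unf (Multiset.replicate n (s L))
    (Multiset.replicate (2 * n) (s (L + 1)) + Multiset.replicate (2 * n) (r L) +
      Multiset.replicate n (u L)) := by
  have h := Unf_nsmul (Unf_single (x := s L)) n
  rw [Multiset.nsmul_singleton] at h
  have e : n • (ch (s L) : Multiset T) = Multiset.replicate (2 * n) (s (L + 1)) +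
      Multiset.replicate (2 * n) (r L) + Multiset.replicate n (u L) := by
    have : (ch (s L) : Multiset T) = Multiset.replicate 2 (s (L + 1)) +
        Multiset.replicate 2 (r L) + Multiset.replicate 1 (u L) := by
      rfl
    rw [this, smul_add, smul_add, Multiset.nsmul_replicate, Multiset.nsmul_replicate,
      Multiset.nsmul_replicate, mul_one, mul_comm n 2]
  rw [e] at h
  exact h

/-- passing from level `L` to level `L + 1` -/
theorem NF_step {L σ x m τ : ℕ} {q q' : ℕ → ℕ} {ω : Multiset T} (h : ∀ j < L, q' j = q j)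
    (hL : q' L = x + 3 * σ + m) :
    Unf (NF L σ x m τ q ω) (NF (L + 1) (2 * σ) (x + σ) (4 * (m + 2 * σ)) τ q' ω) := by
  have hq : ∑ j ∈ Finset.range L, Multiset.replicate (q' j) (p j) =
      ∑ j ∈ Finset.range L, Multiset.replicate (q j) (p j) :=
    Finset.sum_congr rfl fun j hj => by rw [h j (Finset.mem_range.1 hj)]
  set R : Multiset T := Multiset.replicate τ t +
    (∑ j ∈ Finset.range L, Multiset.replicate (q j) (p j)) + ω with hR
  have e1 : NF L σ x m τ q ω = Multiset.replicate σ (s L) + Multiset.replicate x (u L) +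
      Multiset.replicate m (r L) + R := by
    rw [NF, hR]
    abel
  have e2 : NF (L + 1) (2 * σ) (x + σ) (4 * (m + 2 * σ)) τ q' ω =
      Multiset.replicate (2 * σ) (s (L + 1)) +
        (Multiset.replicate (x + σ) (u (L + 1)) + Multiset.replicate (x + σ) (p L)) +
        (Multiset.replicate ((m + 2 * σ) * 4) (r (L + 1)) +
          Multiset.replicate (m + 2 * σ) (p L)) + R := by
    rw [NF, Finset.sum_range_succ, hq, hL, hR, show x + 3 * σ + m = (x + σ) + (m + 2 * σ) by ring,
      Multiset.replicate_add (x + σ) (m + 2 * σ) (p L), mul_comm 4 (m + 2 * σ)]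
    abel
  have h1 : Unf (Multiset.replicate σ (s L) + Multiset.replicate x (u L) +
      Multiset.replicate m (r L) + R)
      (Multiset.replicate (2 * σ) (s (L + 1)) + Multiset.replicate (x + σ) (u L) +
        Multiset.replicate (m + 2 * σ) (r L) + R) := by
    have e : Multiset.replicate (2 * σ) (s (L + 1)) + Multiset.replicate (x + σ) (u L) +
        Multiset.replicate (m + 2 * σ) (r L) + R =
        (Multiset.replicate (2 * σ) (s (L + 1)) + Multiset.replicate (2 * σ) (r L) +
          Multiset.replicate σ (u L)) + (Multiset.replicate x (u L) +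
          Multiset.replicate m (r L) + R) := by
      rw [Multiset.replicate_add, Multiset.replicate_add]
      abel
    rw [e, add_assoc, add_assoc, ← add_assoc (Multiset.replicate x (u L))]
    exact Unf_add (Unf_s σ L) (Unf_refl _)
  rw [e1, e2]
  refine Unf_trans h1 ?_
  exact Unf_add (Unf_add (Unf_add (Unf_refl _) (Unf_u _ _)) (Unf_r _ _)) (Unf_refl _)

theorem unf_u_NF (k n : ℕ) :
    Unf {u k} (NF (k + n) 0 1 0 0 (fun j => cntM j {u k}) 0) := by
  induction n with
  | zero =>
    have : NF (k + 0) 0 1 0 0 (fun j => cntM j {u k}) 0 = {u k} := by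
      rw [NF_congr (q' := fun _ => 0)]
      · simp [NF]
      · intro j hj
        simp only [cntM, Multiset.map_singleton, Multiset.sum_singleton, cnt]
        rw [if_neg (by omega)]
    rw [this]
    exact Unf_refl _
  | succ n ih =>
    refine Unf_trans ih ?_
    have := NF_step (L := k + n) (σ := 0) (x := 1) (m := 0) (τ := 0) (ω := 0)
      (q := fun j => cntM j {u k}) (q' := fun j => cntM j {u k}) (fun _ _ => rfl) (by
        simp only [cntM, Multiset.map_singleton, Multiset.sum_singleton, cnt]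
        rw [if_pos (by omega)])
    exact this

theorem unf_r_NF (k n : ℕ) :
    Unf {r k} (NF (k + n) 0 0 (4 ^ n) 0 (fun j => cntM j {r k}) 0) := by
  induction n with
  | zero =>
    have : NF (k + 0) 0 0 (4 ^ 0) 0 (fun j => cntM j {r k}) 0 = {r k} := by
      rw [NF_congr (q' := fun _ => 0)]
      · simp [NF, Multiset.replicate_one]
      · intro j hj
        simp only [cntM, Multiset.map_singleton, Multiset.sum_singleton, cnt]
        rw [if_neg (by omega)]
    rw [this]
    exact Unf_refl _
  | succ n ih =>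
    refine Unf_trans ih ?_
    have := NF_step (L := k + n) (σ := 0) (x := 0) (m := 4 ^ n) (τ := 0) (ω := 0)
      (q := fun j => cntM j {r k}) (q' := fun j => cntM j {r k}) (fun _ _ => rfl) (by
        simp only [cntM, Multiset.map_singleton, Multiset.sum_singleton, cnt]
        rw [if_pos (by omega), show k + n - k = n by omega]
        ring)
    have e : (4 : ℕ) ^ (n + 1) = 4 * (4 ^ n + 2 * 0) := by ring
    rw [e]
    exact this

theorem unf_s_NF (k n : ℕ) :
    ∃ x m : ℕ, x + 1 = 2 ^ n ∧ 4 * 2 ^ n + m = 4 ^ (n + 1) ∧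
    Unf {s k} (NF (k + n) (2 ^ n) x m 0 (fun j => cntM j {s k}) 0) := by
  induction n with
  | zero =>
    refine ⟨0, 0, by norm_num, by norm_num, ?_⟩
    have : NF (k + 0) (2 ^ 0) 0 0 0 (fun j => cntM j {s k}) 0 = {s k} := by
      rw [NF_congr (q' := fun _ => 0)]
      · simp [NF, Multiset.replicate_one]
      · intro j hj
        simp only [cntM, Multiset.map_singleton, Multiset.sum_singleton, cnt]
        rw [if_neg (by omega)]
    rw [this]
    exact Unf_refl _
  | succ n ih =>
    obtain ⟨x, m, hx, hm, hu⟩ := ih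
    refine ⟨x + 2 ^ n, 4 * (m + 2 * 2 ^ n), ?_, ?_, Unf_trans hu ?_⟩
    · have : (2 : ℕ) ^ (n + 1) = 2 * 2 ^ n := by ring
      omega
    · have h1 : (2 : ℕ) ^ (n + 1) = 2 * 2 ^ n := by ring
      have h2 : (4 : ℕ) ^ (n + 1 + 1) = 4 * 4 ^ (n + 1) := by ring
      omega
    · have := NF_step (L := k + n) (σ := 2 ^ n) (x := x) (m := m) (τ := 0) (ω := 0)
        (q := fun j => cntM j {s k}) (q' := fun j => cntM j {s k}) (fun _ _ => rfl) (by
          simp only [cntM, Multiset.map_singleton, Multiset.sum_singleton, cnt]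
          rw [if_pos (by omega), show k + n - k = n by omega]
          omega)
      have e : (2 : ℕ) ^ (n + 1) = 2 * 2 ^ n := by ring
      rw [e]
      exact this

/-- The statement of the normal form theorem. -/
def HasNF (α : Multiset T) : Prop :=
    ∃ ω : Multiset T, (∀ v ∈ ω, isWC v) ∧ ∃ B : ℕ, ∀ L₀ ≥ B, ∃ σ₀ M₀ : ℕ,
      (0 < σ₀ ↔ hasS α) ∧ 4 * σ₀ ≤ M₀ ∧
      (∀ j ≥ L₀, (cntM j α : ℤ) = 4 ^ (j - L₀) * M₀ + iota α) ∧
      ∀ L ≥ L₀, ∃ x m : ℕ, (x : ℤ) = 2 ^ (L - L₀) * σ₀ + iota α ∧
        4 * (2 ^ (L - L₀) * σ₀) + m = 4 ^ (L - L₀) * M₀ ∧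
        Unf α (NF L (2 ^ (L - L₀) * σ₀) x m (α.count t) (fun j => cntM j α) ω)

theorem HasNF_zero : HasNF 0 := by
  refine ⟨0, by simp, 0, fun L₀ _ => ⟨0, 0, by simp [not_hasS_zero], by simp, ?_, ?_⟩⟩
  · intro j _
    simp [cntM, iota]
  · intro L _
    refine ⟨0, 0, by simp [iota], by simp, ?_⟩
    have : NF L (2 ^ (L - L₀) * 0) 0 0 (Multiset.count t 0) (fun j => cntM j 0) 0 = 0 := by
      simp [NF, cntM]
    rw [this]
    exact Unf_refl _

theorem HasNF_add {α β : Multiset T} (h1 : HasNF α) (h2 : HasNF β) : HasNF (α + β) := by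
  obtain ⟨ω, hω, B, hB⟩ := h1
  obtain ⟨ω', hω', B', hB'⟩ := h2
  refine ⟨ω + ω', ?_, max B B', fun L₀ hL₀ => ?_⟩
  · intro v hv
    rcases Multiset.mem_add.1 hv with h | h
    · exact hω v h
    · exact hω' v h
  · obtain ⟨σ, M, a1, a2, a3, a4⟩ := hB L₀ (le_trans (le_max_left _ _) hL₀)
    obtain ⟨σ', M', b1, b2, b3, b4⟩ := hB' L₀ (le_trans (le_max_right _ _) hL₀)
    refine ⟨σ + σ', M + M', ?_, by omega, ?_, ?_⟩
    · rw [hasS_add, ← a1, ← b1]
      omega
    · intro j hj
      rw [cntM_add, iota_add]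
      push_cast
      rw [a3 j hj, b3 j hj]
      ring
    · intro L hL
      obtain ⟨x, m, c1, c2, c3⟩ := a4 L hL
      obtain ⟨x', m', d1, d2, d3⟩ := b4 L hL
      refine ⟨x + x', m + m', ?_, ?_, ?_⟩
      · rw [iota_add]
        push_cast
        rw [c1, d1]
        ring
      · rw [mul_add (2 ^ (L - L₀)), mul_add (4 ^ (L - L₀)), ← c2, ← d2]
        ring
      · rw [mul_add (2 ^ (L - L₀)), Multiset.count_add]
        have : (fun j => cntM j (α + β)) = fun j => cntM j α + cntM j β := by
          funext j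
          rw [cntM_add]
        rw [this, NF_add]
        exact Unf_add c3 d3

theorem HasNF_single (v : T) : HasNF {v} := by
  cases v with
  | w i =>
    refine ⟨{w i}, by simp [isWC], 0, fun L₀ _ => ⟨0, 0, by simp [hasS, isS], by simp, ?_, ?_⟩⟩
    · intro j _
      simp [cntM, iota, cnt, val]
    · intro L _
      refine ⟨0, 0, by simp [iota, val], by simp, ?_⟩
      have : NF L (2 ^ (L - L₀) * 0) 0 0 (Multiset.count t {w i}) (fun j => cntM j {w i}) {w i} =
          {w i} := by
        simp [NF, cntM, cnt]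
      rw [this]
      exact Unf_refl _
  | c =>
    refine ⟨{c}, by simp [isWC], 0, fun L₀ _ => ⟨0, 0, by simp [hasS, isS], by simp, ?_, ?_⟩⟩
    · intro j _
      simp [cntM, iota, cnt, val]
    · intro L _
      refine ⟨0, 0, by simp [iota, val], by simp, ?_⟩
      have : NF L (2 ^ (L - L₀) * 0) 0 0 (Multiset.count t {c}) (fun j => cntM j {c}) {c} =
          {c} := by
        simp [NF, cntM, cnt]
      rw [this]
      exact Unf_refl _
  | p i =>
    refine ⟨0, by simp, i + 1, fun L₀ hL₀ => ⟨0, 0, by simp [hasS, isS], by simp, ?_, ?_⟩⟩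
    · intro j hj
      simp only [cntM, iota, cnt, val, Multiset.map_singleton, Multiset.sum_singleton]
      rw [if_neg (by omega)]
      simp
    · intro L hL
      refine ⟨0, 0, by simp [iota, val], by simp, ?_⟩
      have : NF L (2 ^ (L - L₀) * 0) 0 0 (Multiset.count t {p i}) (fun j => cntM j {p i}) 0 =
          {p i} := by
        have h : ∑ j ∈ Finset.range L, Multiset.replicate (if i = j then 1 else 0) (p j) =
            {p i} := by
          rw [Finset.sum_eq_single i]
          · simp
          · intro j _ hj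
            rw [if_neg (Ne.symm hj), Multiset.replicate_zero]
          · intro h
            exact absurd (Finset.mem_range.2 (by omega)) h
        simp [NF, cntM, cnt, h]
      rw [this]
      exact Unf_refl _
  | u k =>
    refine ⟨0, by simp, k, fun L₀ hL₀ => ⟨0, 0, by simp [hasS, isS], by simp, ?_, ?_⟩⟩
    · intro j hj
      simp only [cntM, iota, cnt, val, Multiset.map_singleton, Multiset.sum_singleton]
      rw [if_pos (by omega)]
      simp
    · intro L hL
      refine ⟨1, 0, by simp [iota, val], by simp, ?_⟩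
      obtain ⟨n, rfl⟩ : ∃ n, L = k + n := ⟨L - k, by omega⟩
      have := unf_u_NF k n
      simpa using this
  | r k =>
    refine ⟨0, by simp, k, fun L₀ hL₀ => ⟨0, 4 ^ (L₀ - k), by simp [hasS, isS], by simp, ?_, ?_⟩⟩
    · intro j hj
      simp only [cntM, iota, cnt, val, Multiset.map_singleton, Multiset.sum_singleton]
      rw [if_pos (by omega)]
      push_cast
      rw [add_zero, ← pow_add]
      congr 1
      omega
    · intro L hL
      refine ⟨0, 4 ^ (L - k), by simp [iota, val], ?_, ?_⟩
      · rw [← pow_add, show L - L₀ + (L₀ - k) = L - k by omega]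
        simp
      obtain ⟨n, rfl⟩ : ∃ n, L = k + n := ⟨L - k, by omega⟩
      have := unf_r_NF k n
      simpa using this
  | s k =>
    refine ⟨0, by simp, k, fun L₀ hL₀ => ⟨2 ^ (L₀ - k), 4 ^ (L₀ - k + 1), by simp [hasS, isS],
      ?_, ?_, ?_⟩⟩
    · have h : (2 : ℕ) ^ (L₀ - k) ≤ 4 ^ (L₀ - k) := Nat.pow_le_pow_left (by norm_num) _
      have h' : (4 : ℕ) ^ (L₀ - k + 1) = 4 * 4 ^ (L₀ - k) := by ring
      omega
    · intro j hj
      simp only [cntM, iota, cnt, val, Multiset.map_singleton, Multiset.sum_singleton]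
      rw [if_pos (by omega)]
      have h1 : 1 ≤ 4 ^ (j - k + 1) := Nat.one_le_pow _ _ (by norm_num)
      push_cast [Nat.cast_sub h1]
      rw [← pow_add, show j - L₀ + (L₀ - k + 1) = j - k + 1 by omega]
      ring
    · intro L hL
      obtain ⟨n, rfl⟩ : ∃ n, L = k + n := ⟨L - k, by omega⟩
      obtain ⟨x, m, hx, hm, hu⟩ := unf_s_NF k n
      have e1 : 2 ^ (k + n - L₀) * 2 ^ (L₀ - k) = 2 ^ n := by
        rw [← pow_add, show k + n - L₀ + (L₀ - k) = n by omega]
      have e2 : (2 : ℤ) ^ (k + n - L₀) * 2 ^ (L₀ - k) = 2 ^ n := by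
        rw [← pow_add, show k + n - L₀ + (L₀ - k) = n by omega]
      have e3 : 4 ^ (k + n - L₀) * 4 ^ (L₀ - k + 1) = 4 ^ (n + 1) := by
        rw [← pow_add, show k + n - L₀ + (L₀ - k + 1) = n + 1 by omega]
      refine ⟨x, m, ?_, ?_, ?_⟩
      · push_cast
        rw [e2]
        have : (x : ℤ) + 1 = 2 ^ n := by exact_mod_cast hx
        simp only [iota, val, Multiset.map_singleton, Multiset.sum_singleton]
        linarith
      · rw [e1, e3]
        exact hm
      · rw [e1]
        simpa using hu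
  | t =>
    refine ⟨0, by simp, 0, fun L₀ _ => ⟨0, 0, by simp [hasS, isS], by simp, ?_, ?_⟩⟩
    · intro j _
      simp [cntM, iota, cnt, val]
    · intro L _
      refine ⟨0, 0, by simp [iota, val], by simp, ?_⟩
      have : NF L (2 ^ (L - L₀) * 0) 0 0 (Multiset.count t {t}) (fun j => cntM j {t}) 0 =
          {t} := by
        simp [NF, cntM, cnt]
      rw [this]
      exact Unf_refl _

theorem normal_form (α : Multiset T) :
    ∃ ω : Multiset T, (∀ v ∈ ω, isWC v) ∧ ∃ B : ℕ, ∀ L₀ ≥ B, ∃ σ₀ M₀ : ℕ,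
      (0 < σ₀ ↔ hasS α) ∧ 4 * σ₀ ≤ M₀ ∧
      (∀ j ≥ L₀, (cntM j α : ℤ) = 4 ^ (j - L₀) * M₀ + iota α) ∧
      ∀ L ≥ L₀, ∃ x m : ℕ, (x : ℤ) = 2 ^ (L - L₀) * σ₀ + iota α ∧
        4 * (2 ^ (L - L₀) * σ₀) + m = 4 ^ (L - L₀) * M₀ ∧
        Unf α (NF L (2 ^ (L - L₀) * σ₀) x m (α.count t) (fun j => cntM j α) ω) := by
  change HasNF α
  induction α using Multiset.induction with
  | empty => exact HasNF_zero
  | cons v α ih =>
    rw [← Multiset.singleton_add]
    exact HasNF_add (HasNF_single v) ih

end Ends72
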