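import Pool.Agent.LibEnds72.PathSpace
import Pool.Agent.LibEnds72.InvLocal

/-! TASK J7b: the marked points of the path spaces. -/

open Set Topology

noncomputable section

namespace Ends72

open T

/-- the path `a` in `Pth v` is eventually of type `p j` -/
def evP {v : T} (a : Pth v) (j : ℕ) : Prop := ∃ n, ∀ m ≥ n, ty v a.1 m = p j

/-! ### paths: tails, gluing, cylinders -/

theorem ppX_ty_congr {v : T} {a b : ℕ → ℕ} {n : ℕ} (h : ∀ m < n, a m = b m) :
    ty v a n = ty v b n := by
  induction n with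
  | zero => rfl
  | succ n ih =>
    simp only [ty]
    rw [ih (fun m hm => h m (by omega)), h n (by omega)]

theorem ppX_ty_add (v : T) (a : ℕ → ℕ) (n m : ℕ) :
    ty v a (n + m) = ty (ty v a n) (fun k => a (n + k)) m := by
  induction m with
  | zero => rfl
  | succ m ih => rw [← add_assoc]; simp only [ty]; rw [ih]

/-- the tail of a path -/
def ppX_tail {v : T} (a : Pth v) (n : ℕ) : Pth (ty v a.1 n) :=
  ⟨fun k => a.1 (n + k), fun k => by rw [← ppX_ty_add]; exact a.2 (n + k)⟩

theorem ppX_ty_tail {v : T} (a : Pth v) (n m : ℕ) :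
    ty (ty v a.1 n) (ppX_tail a n).1 m = ty v a.1 (n + m) := (ppX_ty_add v a.1 n m).symm

/-- gluing -/
def ppX_gf (a : ℕ → ℕ) (n : ℕ) (b : ℕ → ℕ) : ℕ → ℕ := fun m => if m < n then a m else b (m - n)

theorem ppX_gf_lt (a : ℕ → ℕ) {n : ℕ} (b : ℕ → ℕ) {m : ℕ} (h : m < n) :
    ppX_gf a n b m = a m := if_pos h

theorem ppX_gf_add (a : ℕ → ℕ) (n : ℕ) (b : ℕ → ℕ) (m : ℕ) :
    ppX_gf a n b (n + m) = b m := by
  unfold ppX_gf
  rw [if_neg (by omega)]
  congr 1; omega

theorem ppX_ty_gf_le (v : T) (a : ℕ → ℕ) {n : ℕ} (b : ℕ → ℕ) {m : ℕ} (h : m ≤ n) :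
    ty v (ppX_gf a n b) m = ty v a m :=
  ppX_ty_congr fun k hk => ppX_gf_lt a b (by omega)

theorem ppX_ty_gf_add (v : T) (a : ℕ → ℕ) (n : ℕ) (b : ℕ → ℕ) (m : ℕ) :
    ty v (ppX_gf a n b) (n + m) = ty (ty v a n) b m := by
  rw [ppX_ty_add, ppX_ty_gf_le v a b le_rfl]
  exact ppX_ty_congr fun k _ => ppX_gf_add a n b k

/-- gluing of paths -/
def ppX_glue {v : T} (a : Pth v) (n : ℕ) (b : Pth (ty v a.1 n)) : Pth v :=
  ⟨ppX_gf a.1 n b.1, fun m => by
    rcases lt_or_ge m n with h | h
    · rw [ppX_gf_lt _ _ h, ppX_ty_gf_le _ _ _ h.le]; exact a.2 m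
    · obtain ⟨k, rfl⟩ := Nat.exists_eq_add_of_le h
      rw [ppX_gf_add, ppX_ty_gf_add]; exact b.2 k⟩

theorem ppX_mem_ch {v : T} (a : Pth v) (n : ℕ) : ty v a.1 (n + 1) ∈ ch (ty v a.1 n) := by
  simp only [ty]
  rw [List.getD_eq_getElem _ _ (a.2 n)]
  exact List.getElem_mem _

/-- invariants of paths -/
theorem ppX_inv {v : T} (S : T → Prop) (hS : ∀ x, S x → ∀ y ∈ ch x, S y) (a : Pth v) {n : ℕ}
    (hn : S (ty v a.1 n)) {m : ℕ} (hm : n ≤ m) : S (ty v a.1 m) := by
  induction m, hm using Nat.le_induction with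
  | base => exact hn
  | succ m _ ih => exact hS _ ih _ (ppX_mem_ch a m)

/-- eventually S -/
def ppX_ev {v : T} (a : Pth v) (x : T) : Prop := ∃ n, ∀ m ≥ n, ty v a.1 m = x

theorem ppX_ev_tail {v : T} (a : Pth v) (n : ℕ) (x : T) :
    ppX_ev (ppX_tail a n) x ↔ ppX_ev a x := by
  constructor
  · rintro ⟨k, hk⟩
    refine ⟨n + k, fun m hm => ?_⟩
    have := hk (m - n) (by omega)
    rw [ppX_ty_tail] at this
    rwa [show n + (m - n) = m by omega] at this
  · rintro ⟨k, hk⟩
    refine ⟨k, fun m hm => ?_⟩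
    rw [ppX_ty_tail]
    exact hk _ (by omega)

theorem ppX_ev_glue {v : T} (a : Pth v) (n : ℕ) (b : Pth (ty v a.1 n)) (x : T) :
    ppX_ev (ppX_glue a n b) x ↔ ppX_ev b x := by
  constructor
  · rintro ⟨k, hk⟩
    refine ⟨k, fun m hm => ?_⟩
    have := hk (n + m) (by omega)
    rwa [ppX_glue, ppX_ty_gf_add] at this
  · rintro ⟨k, hk⟩
    refine ⟨n + k, fun m hm => ?_⟩
    obtain ⟨m', rfl⟩ := Nat.exists_eq_add_of_le (show n ≤ m by omega)
    rw [ppX_glue, ppX_ty_gf_add]
    exact hk _ (by omega)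

theorem ppX_ev_uniq {v : T} {a : Pth v} {x y : T} (h : ppX_ev a x) (h' : ppX_ev a y) : x = y := by
  obtain ⟨n, hn⟩ := h
  obtain ⟨m, hm⟩ := h'
  rw [← hn (max n m) (le_max_left _ _), ← hm (max n m) (le_max_right _ _)]

/-- cylinders -/
def ppX_cyl {v : T} (a : Pth v) (n : ℕ) : Set (Pth v) := {b | ∀ m < n, b.1 m = a.1 m}

theorem ppX_self_mem {v : T} (a : Pth v) (n : ℕ) : a ∈ ppX_cyl a n := fun _ _ => rfl

theorem ppX_isOpen_cyl {v : T} (a : Pth v) (n : ℕ) : IsOpen (ppX_cyl a n) := by
  have h : IsOpen (PiNat.cylinder a.1 n) := PiNat.isOpen_cylinder _ _ _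
  exact h.preimage (continuous_subtype_val (p := fun a : ℕ → ℕ =>
    ∀ n, a n < (ch (ty v a n)).length))

theorem ppX_exists_cyl {v : T} {O : Set (Pth v)} (hO : IsOpen O) {a : Pth v} (ha : a ∈ O) :
    ∃ n, ppX_cyl a n ⊆ O := by
  obtain ⟨U, hU, rfl⟩ := isOpen_induced_iff.1 hO
  obtain ⟨s, ⟨x, n, rfl⟩, hs, hsU⟩ :=
    (PiNat.isTopologicalBasis_cylinders (fun _ : ℕ => ℕ)).exists_subset_of_mem_open ha hU
  refine ⟨n, fun b hb => hsU ?_⟩
  rw [PiNat.mem_cylinder_iff] at hs ⊢
  intro i hi
  rw [hb i hi]; exact hs i hi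

theorem ppX_glue_mem {v : T} (a : Pth v) (n : ℕ) (b : Pth (ty v a.1 n)) :
    ppX_glue a n b ∈ ppX_cyl a n := fun _ hm => ppX_gf_lt _ _ hm

theorem ppX_glue_inj {v : T} (a : Pth v) (n : ℕ) {b b' : Pth (ty v a.1 n)}
    (h : ppX_glue a n b = ppX_glue a n b') : b = b' := by
  apply Subtype.ext
  funext m
  have := congrArg (fun c : Pth v => c.1 (n + m)) h
  simpa [ppX_glue, ppX_gf_add] using this

theorem ppX_ty_cyl {v : T} {a b : Pth v} {n : ℕ} (h : b ∈ ppX_cyl a n) {m : ℕ} (hm : m ≤ n) :
    ty v b.1 m = ty v a.1 m := ppX_ty_congr fun k hk => h k (by omega)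

/-- closures by cylinders -/
theorem ppX_mem_closure {v : T} {S : Set (Pth v)} {a : Pth v} :
    a ∈ closure S ↔ ∀ n, ∃ b ∈ S, b ∈ ppX_cyl a n := by
  rw [mem_closure_iff]
  constructor
  · intro h n
    obtain ⟨b, hb, hbS⟩ := h _ (ppX_isOpen_cyl a n) (ppX_self_mem a n)
    exact ⟨b, hbS, hb⟩
  · intro h O hO ha
    obtain ⟨n, hn⟩ := ppX_exists_cyl hO ha
    obtain ⟨b, hbS, hb⟩ := h n
    exact ⟨b, hn hb, hbS⟩

/-! ### the zero path and cons -/

theorem ppX_ch_pos (x : T) : 0 < (ch x).length := by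
  cases x with
  | w i => cases i <;> simp [ch]
  | _ => simp [ch]

/-- the path with digits 0 -/
def ppX_zero (x : T) : Pth x := ⟨fun _ => 0, fun _ => ppX_ch_pos _⟩

/-- cons -/
def ppX_cf (i : ℕ) (b : ℕ → ℕ) : ℕ → ℕ
  | 0 => i
  | n + 1 => b n

theorem ppX_ty_cf (x : T) (i : ℕ) (b : ℕ → ℕ) (n : ℕ) :
    ty x (ppX_cf i b) (n + 1) = ty ((ch x).getD i c) b n := by
  induction n with
  | zero => rfl
  | succ n ih => simp only [ty] at ih ⊢; rw [ih]; rfl

/-- first step i, then b -/
def ppX_cons (x : T) (i : ℕ) (hi : i < (ch x).length) (b : Pth ((ch x).getD i c)) : Pth x :=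
  ⟨ppX_cf i b.1, fun n => by
    cases n with
    | zero => exact hi
    | succ n => rw [ppX_ty_cf]; exact b.2 n⟩

theorem ppX_ev_cons (x : T) (i : ℕ) (hi : i < (ch x).length) (b : Pth ((ch x).getD i c)) (y : T) :
    ppX_ev (ppX_cons x i hi b) y ↔ ppX_ev b y := by
  constructor
  · rintro ⟨k, hk⟩
    refine ⟨k, fun m hm => ?_⟩
    have := hk (m + 1) (by omega)
    rwa [ppX_cons, ppX_ty_cf] at this
  · rintro ⟨k, hk⟩
    refine ⟨k + 1, fun m hm => ?_⟩
    obtain ⟨m', rfl⟩ := Nat.exists_eq_succ_of_ne_zero (show m ≠ 0 by omega)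
    rw [ppX_cons, Nat.succ_eq_add_one, ppX_ty_cf]
    exact hk _ (by omega)

theorem ppX_ty_zero_w (i n : ℕ) : ty (w i) (ppX_zero (w i)).1 n = w i := by
  induction n with
  | zero => rfl
  | succ n ih => simp only [ty]; rw [ih]; cases i <;> rfl


/-- the constructor -/
def ppX_kind : T → ℕ
  | w _ => 0 | c => 1 | p _ => 2 | u _ => 3 | r _ => 4 | s _ => 5 | t => 6

theorem ppX_kind_hd (x : T) : ppX_kind ((ch x).getD 0 c) = ppX_kind x := by
  cases x with
  | w i => cases i <;> rfl
  | _ => rfl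

theorem ppX_kind_zero (x : T) (n : ℕ) : ppX_kind (ty x (ppX_zero x).1 n) = ppX_kind x := by
  induction n with
  | zero => rfl
  | succ n ih =>
    simp only [ty]
    exact (ppX_kind_hd _).trans ih

theorem ppX_ev_zero_w (x : T) (m : ℕ) : ppX_ev (ppX_zero x) (w m) ↔ x = w m := by
  constructor
  · rintro ⟨n, hn⟩
    have h1 := ppX_kind_zero x n
    rw [hn n le_rfl] at h1
    cases x with
    | w i =>
      have := ppX_ty_zero_w i n
      rw [hn n le_rfl] at this
      exact this.symm
    | _ => simp [ppX_kind] at h1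
  · rintro rfl
    exact ⟨0, fun n _ => ppX_ty_zero_w m n⟩

/-! ### the derivatives -/

/-- no type `w m` with m < i at the end -/
def ppX_D (x : T) (i : ℕ) : Set (Pth x) := {a | ∀ m < i, ¬ ppX_ev a (w m)}

theorem ppX_len {x : T} (h : x ≠ w 0) : 1 < (ch x).length := by
  cases x with
  | w i => cases i with
    | zero => exact absurd rfl h
    | succ i => simp [ch]
  | _ => simp [ch]

theorem ppX_two {x : T} {i : ℕ} (h : ∀ m ≤ i, x ≠ w m) :
    ∃ b1 b2 : Pth x, b1 ≠ b2 ∧ b1 ∈ ppX_D x i ∧ b2 ∈ ppX_D x i := by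
  have hl := ppX_len (h 0 (Nat.zero_le _))
  refine ⟨ppX_zero x, ppX_cons x 1 hl (ppX_zero _), ?_, ?_, ?_⟩
  · intro he
    have := congrArg (fun c : Pth x => c.1 0) he
    simp [ppX_zero, ppX_cons, ppX_cf] at this
  · intro m hm he
    rw [ppX_ev_zero_w] at he
    exact h m hm.le he
  · intro m hm he
    rw [ppX_ev_cons, ppX_ev_zero_w] at he
    cases x with
    | w k =>
      cases k with
      | zero => exact h 0 (Nat.zero_le _) rfl
      | succ k =>
        have : k = m := by simpa [ch] using he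
        subst this
        exact h (k + 1) (by omega) rfl
    | _ => simp [ch] at he

/-- a path through `w m` is eventually of some type `w m'` with m' <= m -/
theorem ppX_ev_of_w {v : T} (a : Pth v) : ∀ (m n : ℕ), ty v a.1 n = w m →
    ∃ m' ≤ m, ppX_ev a (w m') := by
  intro m
  induction m using Nat.strong_induction_on with
  | _ m ih =>
  intro n hn
  by_cases h : ∀ k ≥ n, ty v a.1 k = w m
  · exact ⟨m, le_rfl, n, h⟩
  · push Not at h
    have h2 : ∃ k, n ≤ k ∧ ty v a.1 k ≠ w m := by
      obtain ⟨k, hk, hk'⟩ := h; exact ⟨k, hk, hk'⟩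
    classical
    have hmin := fun k' => Nat.find_min h2 (m := k')
    have hsp := Nat.find_spec h2
    set k := Nat.find h2 with hk
    have hkn : n < k := by
      rcases Nat.lt_or_ge n k with h3 | h3
      · exact h3
      · have : k = n := le_antisymm h3 hsp.1
        rw [this] at hsp
        exact absurd hn hsp.2
    obtain ⟨k', hk'⟩ := Nat.exists_eq_succ_of_ne_zero (show k ≠ 0 by omega)
    have h4 : ty v a.1 k' = w m := by
      by_contra hne
      exact hmin k' (by omega) ⟨by omega, hne⟩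
    have h5 := ppX_mem_ch a k'
    rw [h4, ← Nat.succ_eq_add_one, ← hk'] at h5
    cases m with
    | zero =>
      have : ty v a.1 k = w 0 := by simpa [ch] using h5
      exact absurd this hsp.2
    | succ m =>
      have h6 : ty v a.1 k = w (m + 1) ∨ ty v a.1 k = w m := by simpa [ch] using h5
      rcases h6 with h6 | h6
      · exact absurd h6 hsp.2
      · obtain ⟨m', hm', he⟩ := ih m (by omega) k h6
        exact ⟨m', by omega, he⟩

theorem ppX_digit_w {v : T} (a : Pth v) {n m : ℕ} (h : ty v a.1 n = w m)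
    (h' : ty v a.1 (n + 1) = w m) : a.1 n = 0 := by
  have h1 := a.2 n
  simp only [ty] at h'
  rw [h] at h1 h'
  cases m with
  | zero => simp [ch] at h1; exact h1
  | succ m =>
    have h2 : a.1 n = 0 ∨ a.1 n = 1 := by simp [ch] at h1; omega
    rcases h2 with h2 | h2
    · exact h2
    · rw [h2] at h'; simp [ch] at h'

/-- the isolated points of `ppX_D` -/
theorem ppX_iso_D (v : T) (i : ℕ) :
    isoPts (ppX_D v i) = {a | a ∈ ppX_D v i ∧ ppX_ev a (w i)} := by
  apply Set.Subset.antisymm
  · rintro a ⟨haD, O, hO, haO, hsub⟩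
    refine ⟨haD, ?_⟩
    obtain ⟨n, hn⟩ := ppX_exists_cyl hO haO
    by_contra hne
    have hx : ∀ m ≤ i, ty v a.1 n ≠ w m := by
      intro m hm he
      obtain ⟨m', hm', hev⟩ := ppX_ev_of_w a m n he
      rcases Nat.lt_or_ge m' i with h | h
      · exact haD m' h hev
      · have : m' = i := by omega
        subst this; exact hne hev
    obtain ⟨b1, b2, hb, hb1, hb2⟩ := ppX_two hx
    have h1 : ∀ b ∈ ppX_D (ty v a.1 n) i, ppX_glue a n b = a := by
      intro b hb
      have : ppX_glue a n b ∈ O ∩ ppX_D v i :=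
        ⟨hn (ppX_glue_mem a n b), fun m hm => by rw [ppX_ev_glue]; exact hb m hm⟩
      exact hsub this
    exact hb (ppX_glue_inj a n ((h1 b1 hb1).trans (h1 b2 hb2).symm))
  · rintro a ⟨haD, n, hn⟩
    refine ⟨haD, ppX_cyl a n, ppX_isOpen_cyl a n, ppX_self_mem a n, ?_⟩
    rintro b ⟨hb, hbD⟩
    have hbn : ty v b.1 n = w i := (ppX_ty_cyl hb le_rfl).trans (hn n le_rfl)
    have hball : ∀ m ≥ n, ty v b.1 m = w i := by
      intro m hm
      induction m, hm using Nat.le_induction with
      | base => exact hbn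
      | succ m hm ih =>
        have h1 := ppX_mem_ch b m
        rw [ih] at h1
        cases i with
        | zero => simpa [ch] using h1
        | succ i =>
          have h6 : ty v b.1 (m + 1) = w (i + 1) ∨ ty v b.1 (m + 1) = w i := by simpa [ch] using h1
          rcases h6 with h6 | h6
          · exact h6
          · obtain ⟨m', hm', he⟩ := ppX_ev_of_w b i _ h6
            exact absurd he (hbD m' (by omega))
    apply Subtype.ext
    funext m
    rcases Nat.lt_or_ge m n with h | h
    · exact hb m h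
    · rw [ppX_digit_w b (hball m h) (hball (m + 1) (by omega)),
        ppX_digit_w a (hn m h) (hn (m + 1) (by omega))]

theorem ppX_DD (v : T) (i : ℕ) : DD (Pth v) i = ppX_D v i := by
  induction i with
  | zero => simp [DD, ppX_D]
  | succ i ih =>
    rw [DD, ih, ppX_iso_D]
    ext a
    simp only [Set.mem_sdiff, Set.mem_ofPred_eq, not_and, ppX_D]
    constructor
    · rintro ⟨h1, h2⟩ m hm
      rcases Nat.lt_or_ge m i with h | h
      · exact h1 m h
      · have : m = i := by omega
        subst this; exact h2 h1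
    · intro h
      exact ⟨fun m hm => h m (by omega), fun _ => h i (by omega)⟩

theorem ppX_rk (v : T) (i : ℕ) : rk (Pth v) i = {a | ppX_ev a (w i)} := by
  rw [rk, ppX_DD, ppX_iso_D]
  ext a
  simp only [Set.mem_ofPred_eq, ppX_D]
  constructor
  · exact fun h => h.2
  · intro h
    refine ⟨fun m hm h' => ?_, h⟩
    have := ppX_ev_uniq h h'
    simp at this; omega

/-- `x` has descendants `w i` -/
def ppX_has (i : ℕ) (x : T) : Prop := ∃ b : Pth x, ppX_ev b (w i)

theorem ppX_closure (v : T) (i : ℕ) :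
    closure (rk (Pth v) i) = {a | ∀ n, ppX_has i (ty v a.1 n)} := by
  ext a
  rw [ppX_rk, ppX_mem_closure, Set.mem_ofPred_eq]
  constructor
  · intro h n
    obtain ⟨b, hb, hbc⟩ := h n
    rw [← ppX_ty_cyl hbc le_rfl]
    exact ⟨ppX_tail b n, (ppX_ev_tail b n _).2 hb⟩
  · intro h n
    obtain ⟨b, hb⟩ := h n
    exact ⟨ppX_glue a n b, (ppX_ev_glue a n b _).2 hb, ppX_glue_mem a n b⟩

theorem ppX_has_child {i : ℕ} {x y : T} (hy : y ∈ ch x) (h : ppX_has i y) : ppX_has i x := by
  obtain ⟨k, hk, rfl⟩ := List.mem_iff_getElem.1 hy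
  obtain ⟨b, hb⟩ := h
  have e : (ch x).getD k c = (ch x)[k] := List.getD_eq_getElem _ _ hk
  revert b hb
  rw [← e]
  intro b hb
  exact ⟨ppX_cons x k hk b, (ppX_ev_cons x k hk b _).2 hb⟩

theorem ppX_has_w {i m : ℕ} : ppX_has i (w m) ↔ i ≤ m := by
  constructor
  · rintro ⟨b, hb⟩
    obtain ⟨m', hm', he⟩ := ppX_ev_of_w b m 0 rfl
    have := ppX_ev_uniq hb he
    simp at this; omega
  · intro h
    induction m, h using Nat.le_induction with
    | base => exact ⟨ppX_zero _, (ppX_ev_zero_w _ _).2 rfl⟩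
    | succ m _ ih => exact ppX_has_child (by simp [ch]) ih

theorem ppX_not_has_c (i : ℕ) : ¬ ppX_has i c := by
  rintro ⟨b, n, hn⟩
  have := ppX_inv (fun x => x = c) (by rintro x rfl y hy; simpa [ch] using hy) b (n := 0) rfl
    (Nat.zero_le n)
  rw [hn n le_rfl] at this
  simp at this

theorem ppX_has_p {i j : ℕ} : ppX_has i (p j) ↔ i ≤ j := by
  constructor
  · rintro ⟨b, n, hn⟩
    have := ppX_inv (fun x => x = p j ∨ x = c ∨ ∃ m ≤ j, x = w m) (by
      rintro x (rfl | rfl | ⟨m, hm, rfl⟩) y hy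
      · have : y = p j ∨ y = c ∨ y = w j := by simpa [ch] using hy
        rcases this with rfl | rfl | rfl
        · simp
        · simp
        · right; right; exact ⟨j, le_rfl, rfl⟩
      · have : y = c := by simpa [ch] using hy
        simp [this]
      · right; right
        cases m with
        | zero => exact ⟨0, by omega, by simpa [ch] using hy⟩
        | succ m =>
          have : y = w (m + 1) ∨ y = w m := by simpa [ch] using hy
          rcases this with rfl | rfl
          · exact ⟨m + 1, hm, rfl⟩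
          · exact ⟨m, by omega, rfl⟩) b (n := 0) (Or.inl rfl) (Nat.zero_le n)
    rw [hn n le_rfl] at this
    rcases this with h | h | ⟨m, hm, h⟩
    · simp at h
    · simp at h
    · simp at h; omega
  · intro h
    exact ppX_has_child (y := w j) (by simp [ch]) (ppX_has_w.2 h)

theorem ppX_has_u (i k : ℕ) : ppX_has i (u k) := by
  rcases Nat.lt_or_ge k i with h | h
  · obtain ⟨d, rfl⟩ := Nat.exists_eq_add_of_lt h
    induction d generalizing k with
    | zero =>
      exact ppX_has_child (x := u k) (y := u (k + 1)) (by simp [ch])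
        (ppX_has_child (y := p (k + 1)) (by simp [ch]) (ppX_has_p.2 (by omega)))
    | succ d ih =>
      have := ih (k + 1) (by omega)
      rw [show k + 1 + d + 1 = k + (d + 1) + 1 by omega] at this
      exact ppX_has_child (y := u (k + 1)) (by simp [ch]) this
  · exact ppX_has_child (y := p k) (by simp [ch]) (ppX_has_p.2 h)

theorem ppX_has_r (i k : ℕ) : ppX_has i (r k) := by
  rcases Nat.lt_or_ge k i with h | h
  · obtain ⟨d, rfl⟩ := Nat.exists_eq_add_of_lt h
    induction d generalizing k with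
    | zero =>
      exact ppX_has_child (x := r k) (y := r (k + 1)) (by simp [ch])
        (ppX_has_child (y := p (k + 1)) (by simp [ch]) (ppX_has_p.2 (by omega)))
    | succ d ih =>
      have := ih (k + 1) (by omega)
      rw [show k + 1 + d + 1 = k + (d + 1) + 1 by omega] at this
      exact ppX_has_child (y := r (k + 1)) (by simp [ch]) this
  · exact ppX_has_child (y := p k) (by simp [ch]) (ppX_has_p.2 h)

theorem ppX_has_s (i k : ℕ) : ppX_has i (s k) :=
  ppX_has_child (y := u k) (by simp [ch]) (ppX_has_u i k)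

theorem ppX_has_t (i : ℕ) : ppX_has i t :=
  ppX_has_child (y := r 0) (by simp [ch]) (ppX_has_r i 0)

theorem PP_Pth (v : T) (j : ℕ) : PP (Pth v) j = {a | evP a j} := by
  have hev : ∀ a : Pth v, evP a j ↔ ppX_ev a (p j) := fun _ => Iff.rfl
  ext a
  rw [PP, Set.mem_sdiff, Set.mem_sdiff, ppX_closure, ppX_closure, ppX_rk]
  simp only [Set.mem_ofPred_eq, hev]
  constructor
  · rintro ⟨⟨h1, h2⟩, h3⟩
    push Not at h3
    obtain ⟨n, hn⟩ := h3
    have hw : ∀ n, ty v a.1 n ≠ w j := by
      intro n hn'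
      obtain ⟨m', hm', he⟩ := ppX_ev_of_w a j n hn'
      rcases Nat.lt_or_ge m' j with h | h
      · obtain ⟨k, hk⟩ := he
        have := h1 k
        rw [hk k le_rfl, ppX_has_w] at this
        omega
      · have : m' = j := by omega
        subst this; exact h2 he
    have hp : ty v a.1 n = p j := by
      have h4 := h1 n
      cases hx : ty v a.1 n with
      | w m =>
        rw [hx, ppX_has_w] at h4 hn
        have : m = j := by omega
        subst this
        exact absurd hx (hw n)
      | c => rw [hx] at h4; exact absurd h4 (ppX_not_has_c _)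
      | p m =>
        rw [hx, ppX_has_p] at h4 hn
        have : m = j := by omega
        rw [this]
      | u k => rw [hx] at hn; exact absurd (ppX_has_u _ _) hn
      | r k => rw [hx] at hn; exact absurd (ppX_has_r _ _) hn
      | s k => rw [hx] at hn; exact absurd (ppX_has_s _ _) hn
      | t => rw [hx] at hn; exact absurd (ppX_has_t _) hn
    refine ⟨n, fun m hm => ?_⟩
    induction m, hm using Nat.le_induction with
    | base => exact hp
    | succ m hm ih =>
      have h5 := ppX_mem_ch a m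
      rw [ih] at h5
      have : ty v a.1 (m + 1) = p j ∨ ty v a.1 (m + 1) = c ∨ ty v a.1 (m + 1) = w j := by
        simpa [ch] using h5
      rcases this with h6 | h6 | h6
      · exact h6
      · have := h1 (m + 1); rw [h6] at this; exact absurd this (ppX_not_has_c _)
      · exact absurd h6 (hw _)
  · rintro ⟨n, hn⟩
    refine ⟨⟨?_, ?_⟩, ?_⟩
    · intro k
      rcases Nat.lt_or_ge k n with h | h
      · have : ppX_has j (ty v a.1 n) := by rw [hn n le_rfl]; exact ppX_has_p.2 le_rfl
        obtain ⟨d, rfl⟩ := Nat.exists_eq_add_of_le h.le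
        clear hn h
        induction d with
        | zero => exact this
        | succ d ih => exact ih (ppX_has_child (ppX_mem_ch a (k + d)) this)
      · rw [hn k h]; exact ppX_has_p.2 le_rfl
    · intro h
      have := ppX_ev_uniq h ⟨n, hn⟩
      simp at this
    · intro h
      have := h n
      rw [hn n le_rfl, ppX_has_p] at this
      omega


/-! ### counting -/

/-- the paths which are eventually `p j` -/
def ppX_E (j : ℕ) (x : T) : Type := {a : Pth x // evP a j}

theorem ppX_evP_cons (x : T) (i : ℕ) (hi : i < (ch x).length) (b : Pth ((ch x).getD i c)) (j : ℕ) :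
    evP (ppX_cons x i hi b) j ↔ evP b j := ppX_ev_cons x i hi b (p j)

theorem ppX_evP_tail {v : T} (a : Pth v) (n : ℕ) (j : ℕ) :
    evP (ppX_tail a n) j ↔ evP a j := ppX_ev_tail a n (p j)

theorem ppX_cons_inj {x : T} {i : ℕ} {hi : i < (ch x).length} {b b' : Pth ((ch x).getD i c)}
    (h : ppX_cons x i hi b = ppX_cons x i hi b') : b = b' := by
  apply Subtype.ext
  funext m
  exact congrArg (fun c : Pth x => c.1 (m + 1)) h

theorem ppX_cons_tail {x : T} (a : Pth x) : ppX_cons x (a.1 0) (a.2 0) (ppX_tail a 1) = a := by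
  apply Subtype.ext
  funext m
  cases m with
  | zero => rfl
  | succ m =>
    show a.1 (1 + m) = a.1 (m + 1)
    rw [add_comm]

/-- the first step -/
def ppX_sig (j : ℕ) (x : T) : (Σ i : Fin (ch x).length, ppX_E j ((ch x).getD i.1 c)) → ppX_E j x :=
  fun b => ⟨ppX_cons x b.1.1 b.1.2 b.2.1, (ppX_evP_cons _ _ _ _ _).2 b.2.2⟩

theorem ppX_sig_bij (j : ℕ) (x : T) : Function.Bijective (ppX_sig j x) := by
  constructor
  · rintro ⟨⟨i, hi⟩, b, hb⟩ ⟨⟨i', hi'⟩, b', hb'⟩ h
    have h1 : ppX_cons x i hi b = ppX_cons x i' hi' b' := congrArg Subtype.val h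
    have h2 : i = i' := congrArg (fun c : Pth x => c.1 0) h1
    subst h2
    have h3 := ppX_cons_inj h1
    subst h3
    rfl
  · rintro ⟨a, ha⟩
    refine ⟨⟨⟨a.1 0, a.2 0⟩, ppX_tail a 1, (ppX_evP_tail a 1 j).2 ha⟩, ?_⟩
    apply Subtype.ext
    exact ppX_cons_tail a

theorem ppX_rec (j : ℕ) (x : T) (h : ∀ y ∈ ch x, Finite (ppX_E j y)) :
    Finite (ppX_E j x) ∧ Nat.card (ppX_E j x) = ((ch x).map fun y => Nat.card (ppX_E j y)).sum := by
  have : ∀ i : Fin (ch x).length, Finite (ppX_E j ((ch x).getD i.1 c)) := by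
    intro i
    apply h
    rw [List.getD_eq_getElem _ _ i.2]
    exact List.getElem_mem _
  constructor
  · exact Finite.of_surjective _ (ppX_sig_bij j x).2
  · rw [← Nat.card_congr (Equiv.ofBijective _ (ppX_sig_bij j x)), Nat.card_sigma,
      ← Fin.sum_univ_fun_getElem]
    apply Finset.sum_congr rfl
    intro i _
    rw [List.getD_eq_getElem _ _ i.2]

theorem ppX_none {j : ℕ} {x : T} (S : T → Prop) (hS : ∀ x, S x → ∀ y ∈ ch x, S y) (hx : S x)
    (hp : ¬ S (p j)) : Finite (ppX_E j x) ∧ Nat.card (ppX_E j x) = 0 := by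
  have : IsEmpty (ppX_E j x) := by
    constructor
    rintro ⟨a, n, hn⟩
    have := ppX_inv S hS a (n := 0) hx (Nat.zero_le n)
    rw [hn n le_rfl] at this
    exact hp this
  exact ⟨inferInstance, Nat.card_of_isEmpty⟩

/-- types without descendants `p j`. -/
def ppX_big (j : ℕ) : T → Prop
  | w _ => True
  | c => True
  | p i => i ≠ j
  | u k => j < k
  | r k => j < k
  | s k => j < k
  | t => False

theorem ppX_big_ch (j : ℕ) : ∀ x, ppX_big j x → ∀ y ∈ ch x, ppX_big j y := by
  intro x hx y hy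
  cases x with
  | w i =>
    cases i with
    | zero => simp [ch] at hy; subst hy; trivial
    | succ i =>
      simp only [ch, List.mem_cons, List.not_mem_nil, or_false] at hy
      rcases hy with rfl | rfl <;> trivial
  | c =>
    simp only [ch, List.mem_cons, List.not_mem_nil, or_false, or_self] at hy
    subst hy; trivial
  | p i =>
    simp only [ch, List.mem_cons, List.not_mem_nil, or_false] at hy
    rcases hy with rfl | rfl | rfl
    · exact hx
    · trivial
    · trivial
  | u k =>
    simp only [ch, List.mem_cons, List.not_mem_nil, or_false] at hy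
    rcases hy with rfl | rfl
    · exact Nat.lt_succ_of_lt hx
    · exact Nat.ne_of_gt hx
  | r k =>
    simp only [ch, List.mem_cons, List.not_mem_nil, or_false] at hy
    rcases hy with rfl | rfl | rfl | rfl | rfl
    · exact Nat.lt_succ_of_lt hx
    · exact Nat.lt_succ_of_lt hx
    · exact Nat.lt_succ_of_lt hx
    · exact Nat.lt_succ_of_lt hx
    · exact Nat.ne_of_gt hx
  | s k =>
    simp only [ch, List.mem_cons, List.not_mem_nil, or_false] at hy
    rcases hy with rfl | rfl | rfl | rfl | rfl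
    · exact Nat.lt_succ_of_lt hx
    · exact Nat.lt_succ_of_lt hx
    · exact hx
    · exact hx
    · exact hx
  | t => exact hx.elim

theorem ppX_card_big {j : ℕ} {x : T} (hx : ppX_big j x) :
    Finite (ppX_E j x) ∧ Nat.card (ppX_E j x) = 0 :=
  ppX_none (ppX_big j) (ppX_big_ch j) hx (fun h => h rfl)

theorem ppX_card_p (j : ℕ) : Finite (ppX_E j (p j)) ∧ Nat.card (ppX_E j (p j)) = 1 := by
  have hz : ∀ n, ty (p j) (ppX_zero (p j)).1 n = p j := by
    intro n
    induction n with
    | zero => rfl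
    | succ n ih => simp only [ty]; rw [ih]; rfl
  have huniq : ∀ a : Pth (p j), evP a j → a = ppX_zero (p j) := by
    rintro a ⟨N, hN⟩
    have hall : ∀ n, ty (p j) a.1 n = p j := by
      intro n
      by_contra hne
      have h1 : ∃ n, ty (p j) a.1 n ≠ p j := ⟨n, hne⟩
      classical
      have hmin := fun k' => Nat.find_min h1 (m := k')
      have hsp := Nat.find_spec h1
      set k := Nat.find h1 with hk
      have hk0 : k ≠ 0 := by intro h; rw [h] at hsp; exact hsp rfl
      obtain ⟨k', hk'⟩ := Nat.exists_eq_succ_of_ne_zero hk0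
      have h2 : ty (p j) a.1 k' = p j := by
        by_contra h; exact hmin k' (by omega) h
      have h3 := ppX_mem_ch a k'
      rw [h2, ← Nat.succ_eq_add_one, ← hk'] at h3
      simp only [ch, List.mem_cons, List.not_mem_nil, or_false] at h3
      have hS : ∀ x, (x = c ∨ ∃ m, x = w m) → ∀ y ∈ ch x, (y = c ∨ ∃ m, y = w m) := by
        rintro x (rfl | ⟨m, rfl⟩) y hy
        · left; simpa [ch] using hy
        · right
          cases m with
          | zero => exact ⟨0, by simpa [ch] using hy⟩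
          | succ m =>
            have : y = w (m + 1) ∨ y = w m := by simpa [ch] using hy
            rcases this with rfl | rfl
            · exact ⟨_, rfl⟩
            · exact ⟨_, rfl⟩
      have h4 : ty (p j) a.1 k = c ∨ ∃ m, ty (p j) a.1 k = w m := by
        rcases h3 with h3 | h3 | h3
        · exact absurd h3 hsp
        · left; exact h3
        · right; exact ⟨j, h3⟩
      have h5 := ppX_inv _ hS a h4 (le_max_left k N)
      rw [hN _ (le_max_right k N)] at h5
      rcases h5 with h5 | ⟨m, h5⟩ <;> simp at h5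
    apply Subtype.ext
    funext n
    have h1 := a.2 n
    have h2 := hall (n + 1)
    simp only [ty] at h2
    rw [hall n] at h1 h2
    have h3 : a.1 n = 0 ∨ a.1 n = 1 ∨ a.1 n = 2 := by simp [ch] at h1; omega
    rcases h3 with h3 | h3 | h3
    · exact h3
    · rw [h3] at h2; simp [ch] at h2
    · rw [h3] at h2; simp [ch] at h2
  have : Unique (ppX_E j (p j)) :=
    { default := ⟨ppX_zero (p j), 0, fun n _ => hz n⟩
      uniq := fun a => Subtype.ext (huniq a.1 a.2) }
  exact ⟨inferInstance, Nat.card_unique⟩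

theorem ppX_card_u (j : ℕ) : ∀ d k, k + d = j →
    Finite (ppX_E j (u k)) ∧ Nat.card (ppX_E j (u k)) = 1 := by
  intro d
  induction d with
  | zero =>
    rintro k rfl
    have h1 := ppX_card_big (j := k) (x := u (k + 1)) (Nat.lt_succ_self k)
    have h2 := ppX_card_p k
    have h3 := ppX_rec k (u k) (by
      intro y hy
      simp only [ch, List.mem_cons, List.not_mem_nil, or_false] at hy
      rcases hy with rfl | rfl
      · exact h1.1
      · exact h2.1)
    refine ⟨h3.1, h3.2.trans ?_⟩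
    simp [ch, h1.2, h2.2]
  | succ d ih =>
    intro k hk
    have h1 := ih (k + 1) (by omega)
    have h2 := ppX_card_big (j := j) (x := p k) (show k ≠ j by omega)
    have h3 := ppX_rec j (u k) (by
      intro y hy
      simp only [ch, List.mem_cons, List.not_mem_nil, or_false] at hy
      rcases hy with rfl | rfl
      · exact h1.1
      · exact h2.1)
    refine ⟨h3.1, h3.2.trans ?_⟩
    simp [ch, h1.2, h2.2]

theorem ppX_card_r (j : ℕ) : ∀ d k, k + d = j →
    Finite (ppX_E j (r k)) ∧ Nat.card (ppX_E j (r k)) = 4 ^ d := by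
  intro d
  induction d with
  | zero =>
    rintro k rfl
    have h1 := ppX_card_big (j := k) (x := r (k + 1)) (Nat.lt_succ_self k)
    have h2 := ppX_card_p k
    have h3 := ppX_rec k (r k) (by
      intro y hy
      simp only [ch, List.mem_cons, List.not_mem_nil, or_false] at hy
      rcases hy with rfl | rfl | rfl | rfl | rfl
      · exact h1.1
      · exact h1.1
      · exact h1.1
      · exact h1.1
      · exact h2.1)
    refine ⟨h3.1, h3.2.trans ?_⟩
    simp [ch, h1.2, h2.2]
  | succ d ih =>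
    intro k hk
    have h1 := ih (k + 1) (by omega)
    have h2 := ppX_card_big (j := j) (x := p k) (show k ≠ j by omega)
    have h3 := ppX_rec j (r k) (by
      intro y hy
      simp only [ch, List.mem_cons, List.not_mem_nil, or_false] at hy
      rcases hy with rfl | rfl | rfl | rfl | rfl
      · exact h1.1
      · exact h1.1
      · exact h1.1
      · exact h1.1
      · exact h2.1)
    refine ⟨h3.1, h3.2.trans ?_⟩
    simp [ch, h1.2, h2.2]
    ring

theorem ppX_card_s (j : ℕ) : ∀ d k, k + d = j →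
    Finite (ppX_E j (s k)) ∧ Nat.card (ppX_E j (s k)) = 4 ^ (d + 1) - 1 := by
  intro d
  induction d with
  | zero =>
    rintro k rfl
    have h1 := ppX_card_big (j := k) (x := s (k + 1)) (Nat.lt_succ_self k)
    have h2 := ppX_card_r k 0 k rfl
    have h4 := ppX_card_u k 0 k rfl
    have h3 := ppX_rec k (s k) (by
      intro y hy
      simp only [ch, List.mem_cons, List.not_mem_nil, or_false] at hy
      rcases hy with rfl | rfl | rfl | rfl | rfl
      · exact h1.1
      · exact h1.1
      · exact h2.1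
      · exact h2.1
      · exact h4.1)
    refine ⟨h3.1, h3.2.trans ?_⟩
    simp [ch, h1.2, h2.2, h4.2]
  | succ d ih =>
    intro k hk
    have h1 := ih (k + 1) (by omega)
    have h2 := ppX_card_r j (d + 1) k hk
    have h4 := ppX_card_u j (d + 1) k hk
    have h3 := ppX_rec j (s k) (by
      intro y hy
      simp only [ch, List.mem_cons, List.not_mem_nil, or_false] at hy
      rcases hy with rfl | rfl | rfl | rfl | rfl
      · exact h1.1
      · exact h1.1
      · exact h2.1
      · exact h2.1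
      · exact h4.1)
    refine ⟨h3.1, h3.2.trans ?_⟩
    simp only [ch, List.map_cons, List.map_nil, List.sum_cons, List.sum_nil, h1.2, h2.2, h4.2]
    have : 1 ≤ 4 ^ (d + 1) := Nat.one_le_pow _ _ (by norm_num)
    have e : 4 ^ (d + 1 + 1) = 4 * 4 ^ (d + 1) := by ring
    omega

theorem ppX_card (v : T) (hv : v ≠ t) (j : ℕ) :
    Finite (ppX_E j v) ∧ Nat.card (ppX_E j v) = cnt j v := by
  cases v with
  | w i => exact ppX_card_big (x := w i) trivial
  | c => exact ppX_card_big (x := c) trivial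
  | p i =>
    by_cases h : i = j
    · subst h; simpa [cnt] using ppX_card_p i
    · simpa [cnt, h] using ppX_card_big (j := j) (x := p i) h
  | u k =>
    rcases Nat.lt_or_ge j k with h | h
    · simpa [cnt, Nat.not_le.2 h] using ppX_card_big (j := j) (x := u k) h
    · simpa [cnt, h] using ppX_card_u j (j - k) k (by omega)
  | r k =>
    rcases Nat.lt_or_ge j k with h | h
    · simpa [cnt, Nat.not_le.2 h] using ppX_card_big (j := j) (x := r k) h
    · simpa [cnt, h] using ppX_card_r j (j - k) k (by omega)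
  | s k =>
    rcases Nat.lt_or_ge j k with h | h
    · simpa [cnt, Nat.not_le.2 h] using ppX_card_big (j := j) (x := s k) h
    · simpa [cnt, h] using ppX_card_s j (j - k) k (by omega)
  | t => exact absurd rfl hv

/-- the number of marked points away from `t` -/
theorem PP_ncard (v : T) (hv : v ≠ t) (j : ℕ) :
    (PP (Pth v) j).Finite ∧ (PP (Pth v) j).ncard = cnt j v := by
  rw [PP_Pth]
  obtain ⟨h1, h2⟩ := ppX_card v hv j
  constructor
  · exact Set.finite_coe_iff.1 h1
  · rw [← h2]; rfl


theorem ppX_hasP_child {j : ℕ} {x y : T} (hy : y ∈ ch x) (h : ∃ b : Pth y, evP b j) :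
    ∃ b : Pth x, evP b j := by
  obtain ⟨k, hk, rfl⟩ := List.mem_iff_getElem.1 hy
  obtain ⟨b, hb⟩ := h
  have e : (ch x).getD k c = (ch x)[k] := List.getD_eq_getElem _ _ hk
  revert b hb
  rw [← e]
  intro b hb
  exact ⟨ppX_cons x k hk b, (ppX_evP_cons x k hk b _).2 hb⟩

theorem ppX_hasP_r (j : ℕ) : ∀ d k, k + d = j → ∃ b : Pth (r k), evP b j := by
  intro d k hk
  have h := (ppX_card_r j d k hk)
  have h2 : 0 < Nat.card (ppX_E j (r k)) := by rw [h.2]; positivity
  have := h.1
  obtain ⟨b⟩ := (Nat.card_pos_iff.1 h2).1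
  exact ⟨b.1, b.2⟩

theorem PP_t_infinite (j : ℕ) : (PP (Pth t) j).Infinite := by
  rw [PP_Pth]
  obtain ⟨b1, hb1⟩ := ppX_hasP_r j j 0 (by omega)
  have hz : ∀ n, ty t (ppX_zero t).1 n = t := by
    intro n
    induction n with
    | zero => rfl
    | succ n ih => simp only [ty]; rw [ih]; rfl
  have key : ∀ n, ∃ a : Pth t, evP a j ∧ (∀ m < n, a.1 m = 0) ∧ a.1 n = 2 := by
    intro n
    have h1 : ∀ x, x = t → ∃ b : Pth x, evP b j ∧ b.1 0 = 2 := by
      rintro x rfl
      exact ⟨ppX_cons t 2 (by simp [ch]) b1, (ppX_evP_cons t 2 (by simp [ch]) b1 j).2 hb1, rfl⟩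
    obtain ⟨b, hb, hb0⟩ := h1 _ (hz n)
    refine ⟨ppX_glue (ppX_zero t) n b, (ppX_ev_glue _ n b (p j)).2 hb, fun m hm => ?_, ?_⟩
    · exact ppX_glue_mem (ppX_zero t) n b m hm
    · have := ppX_gf_add (ppX_zero t).1 n b.1 0
      simpa [ppX_glue, hb0] using this
  choose f hf1 hf2 hf3 using key
  apply Set.infinite_of_injective_forall_mem (f := f)
  · intro n n' h
    rcases lt_trichotomy n n' with h1 | h1 | h1
    · have := hf2 n' n h1
      rw [← h, hf3 n] at this
      exact absurd this (by norm_num)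
    · exact h1
    · have := hf2 n n' h1
      rw [h, hf3 n'] at this
      exact absurd this (by norm_num)
  · exact hf1

/-! ### the points of `XX` -/

/-- the types which have descendants of all ranks -/
def ppX_F (x : T) : Prop := 3 ≤ ppX_kind x

theorem ppX_F_iff (x : T) : (∀ j, ppX_has j x) ↔ ppX_F x := by
  cases x with
  | w i =>
    simp only [ppX_has_w, ppX_F, ppX_kind]
    constructor
    · intro h; have := h (i + 1); omega
    · intro h; omega
  | c =>
    simp only [ppX_F, ppX_kind]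
    constructor
    · intro h; exact absurd (h 0) (ppX_not_has_c 0)
    · intro h; omega
  | p i =>
    simp only [ppX_has_p, ppX_F, ppX_kind]
    constructor
    · intro h; have := h (i + 1); omega
    · intro h; omega
  | u k => simp [ppX_F, ppX_kind, ppX_has_u]
  | r k => simp [ppX_F, ppX_kind, ppX_has_r]
  | s k => simp [ppX_F, ppX_kind, ppX_has_s]
  | t => simp [ppX_F, ppX_kind, ppX_has_t]

theorem ppX_KK (v : T) : KK (Pth v) = {a | ∀ n, ppX_F (ty v a.1 n)} := by
  ext a
  simp only [KK, Set.mem_iInter, ppX_closure, Set.mem_ofPred_eq]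
  constructor
  · intro h n
    exact (ppX_F_iff _).1 fun j => h j n
  · intro h j n
    exact (ppX_F_iff _).2 (h n) j

theorem ppX_KK_glue {v : T} {a : Pth v} (ha : a ∈ KK (Pth v)) (n : ℕ) {b : Pth (ty v a.1 n)}
    (hb : b ∈ KK (Pth (ty v a.1 n))) : ppX_glue a n b ∈ KK (Pth v) := by
  rw [ppX_KK] at ha hb ⊢
  intro m
  rcases Nat.lt_or_ge m n with h | h
  · rw [ppX_glue, ppX_ty_gf_le _ _ _ h.le]; exact ha m
  · obtain ⟨k, rfl⟩ := Nat.exists_eq_add_of_le h
    rw [ppX_glue, ppX_ty_gf_add]; exact hb k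

theorem ppX_KK_cons {x : T} (hx : ppX_F x) (i : ℕ) (hi : i < (ch x).length)
    {b : Pth ((ch x).getD i c)} (hb : b ∈ KK (Pth ((ch x).getD i c))) :
    ppX_cons x i hi b ∈ KK (Pth x) := by
  rw [ppX_KK] at hb ⊢
  intro n
  cases n with
  | zero => exact hx
  | succ n => rw [ppX_cons, ppX_ty_cf]; exact hb n

theorem ppX_KK_zero {x : T} (hx : ppX_F x) : ppX_zero x ∈ KK (Pth x) := by
  rw [ppX_KK]
  intro n
  unfold ppX_F at hx ⊢
  rw [ppX_kind_zero]; exact hx

theorem ppX_KK_u {k : ℕ} {b : Pth (u k)} (hb : b ∈ KK (Pth (u k))) : b = ppX_zero (u k) := by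
  rw [ppX_KK] at hb
  have h1 : ∀ n, (∃ k', ty (u k) b.1 n = u k') := by
    intro n
    induction n with
    | zero => exact ⟨k, rfl⟩
    | succ n ih =>
      obtain ⟨k', ih⟩ := ih
      have h := ppX_mem_ch b n
      rw [ih] at h
      simp only [ch, List.mem_cons, List.not_mem_nil, or_false] at h
      rcases h with h | h
      · exact ⟨_, h⟩
      · have := hb (n + 1)
        rw [h] at this
        simp [ppX_F, ppX_kind] at this
  apply Subtype.ext
  funext n
  obtain ⟨k', hk'⟩ := h1 n
  obtain ⟨k'', hk''⟩ := h1 (n + 1)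
  have h2 := b.2 n
  simp only [ty] at hk''
  rw [hk'] at h2 hk''
  have h3 : b.1 n = 0 ∨ b.1 n = 1 := by simp [ch] at h2; omega
  rcases h3 with h3 | h3
  · exact h3
  · rw [h3] at hk''; simp [ch] at hk''

/-- the isolated points of `KK`: one in each `u k`, infinitely many in each `s k`, none in the
other path spaces. -/
theorem XX_u (k : ℕ) : (XX (Pth (u k))).Nonempty := by
  have hF : ppX_F (u k) := by simp [ppX_F, ppX_kind]
  refine ⟨ppX_zero (u k), ppX_KK_zero hF, Set.univ, isOpen_univ, trivial, ?_⟩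
  rintro b ⟨-, hb⟩
  exact ppX_KK_u hb

theorem XX_s (k : ℕ) : (XX (Pth (s k))).Nonempty := by
  have hF : ppX_F (s k) := by simp [ppX_F, ppX_kind]
  have hl : 4 < (ch (s k)).length := by simp [ch]
  have hFu : ppX_F (u k) := by simp [ppX_F, ppX_kind]
  set a : Pth (s k) := ppX_cons (s k) 4 hl (ppX_zero (u k)) with ha
  refine ⟨a, ppX_KK_cons hF 4 hl (ppX_KK_zero hFu), ppX_cyl a 1, ppX_isOpen_cyl a 1,
    ppX_self_mem a 1, ?_⟩
  rintro b ⟨hb1, hb⟩
  have h0 : b.1 0 = 4 := hb1 0 (by omega)
  obtain ⟨q, hq⟩ : ∃ q : Pth (u k), b = ppX_cons (s k) 4 hl q := by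
    have h1 := ppX_cons_tail b
    have gen : ∀ (i : ℕ) (hi : i < (ch (s k)).length) (q : Pth ((ch (s k)).getD i c)), i = 4 →
        ppX_cons (s k) i hi q = b → ∃ q : Pth (u k), b = ppX_cons (s k) 4 hl q := by
      rintro i hi q rfl h
      exact ⟨q, h.symm⟩
    exact gen _ _ _ h0 h1
  subst hq
  have h2 : q ∈ KK (Pth (u k)) := by
    rw [ppX_KK] at hb ⊢
    intro n
    have := hb (n + 1)
    rw [ppX_cons, ppX_ty_cf] at this
    exact this
  have h3 := ppX_KK_u h2
  rw [Set.mem_singleton_iff, ha, h3]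

theorem XX_empty (v : T) (hu : ¬ isU v) (hs : ¬ isS v) : XX (Pth v) = ∅ := by
  rw [Set.eq_empty_iff_forall_notMem]
  rintro a ⟨haK, O, hO, haO, hsub⟩
  have haK' := haK
  rw [ppX_KK] at haK'
  have hv : v = t ∨ ∃ k, v = r k := by
    have := haK' 0
    cases v with
    | w i => simp [ty, ppX_F, ppX_kind] at this
    | c => simp [ty, ppX_F, ppX_kind] at this
    | p i => simp [ty, ppX_F, ppX_kind] at this
    | u k => exact absurd trivial hu
    | r k => exact Or.inr ⟨k, rfl⟩
    | s k => exact absurd trivial hs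
    | t => exact Or.inl rfl
  have hall : ∀ n, ty v a.1 n = t ∨ ∃ k, ty v a.1 n = r k := by
    intro n
    induction n with
    | zero => exact hv
    | succ n ih =>
      have h := ppX_mem_ch a n
      have hF := haK' (n + 1)
      rcases ih with ih | ⟨k, ih⟩
      · rw [ih] at h
        simp only [ch, List.mem_cons, List.not_mem_nil, or_false] at h
        rcases h with h | h | h
        · exact Or.inl h
        · exact Or.inl h
        · exact Or.inr ⟨0, h⟩
      · rw [ih] at h
        simp only [ch, List.mem_cons, List.not_mem_nil, or_false] at h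
        rcases h with h | h | h | h | h
        · exact Or.inr ⟨_, h⟩
        · exact Or.inr ⟨_, h⟩
        · exact Or.inr ⟨_, h⟩
        · exact Or.inr ⟨_, h⟩
        · rw [h] at hF; simp [ppX_F, ppX_kind] at hF
  obtain ⟨n, hn⟩ := ppX_exists_cyl hO haO
  have htwo : ∀ x, (x = t ∨ ∃ k, x = r k) →
      ∃ b1 b2 : Pth x, b1 ≠ b2 ∧ b1 ∈ KK (Pth x) ∧ b2 ∈ KK (Pth x) := by
    intro x hx
    have hl : 1 < (ch x).length := by
      rcases hx with rfl | ⟨k, rfl⟩ <;> simp [ch]
    have hF : ppX_F x := by rcases hx with rfl | ⟨k, rfl⟩ <;> simp [ppX_F, ppX_kind]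
    have hF' : ppX_F ((ch x).getD 1 c) := by
      rcases hx with rfl | ⟨k, rfl⟩ <;> simp [ch, ppX_F, ppX_kind]
    refine ⟨ppX_zero x, ppX_cons x 1 hl (ppX_zero _), ?_, ppX_KK_zero hF,
      ppX_KK_cons hF 1 hl (ppX_KK_zero hF')⟩
    intro he
    have := congrArg (fun c : Pth x => c.1 0) he
    simp [ppX_zero, ppX_cons, ppX_cf] at this
  obtain ⟨b1, b2, hb, hb1, hb2⟩ := htwo _ (hall n)
  have h1 : ∀ b ∈ KK (Pth (ty v a.1 n)), ppX_glue a n b = a := by
    intro b hb
    exact hsub ⟨hn (ppX_glue_mem a n b), ppX_KK_glue haK n hb⟩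
  exact hb (ppX_glue_inj a n ((h1 b1 hb1).trans (h1 b2 hb2).symm))

end Ends72
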