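import Pool.Agent.LibEnds72.Comb

/-! TASK J1, J2: basic topology of the path spaces and unfolding. -/

open Set Topology

noncomputable section

namespace Ends72

open T

/-! ### Auxiliary lemmas on types of vertices -/

theorem ty_zero (v : T) (a : ℕ → ℕ) : ty v a 0 = v := rfl

theorem ty_succ (v : T) (a : ℕ → ℕ) (n : ℕ) :
    ty v a (n + 1) = (ch (ty v a n)).getD (a n) c := rfl

/-- The type after `n + 1` steps, computed from the first step. -/
theorem ty_shift (v : T) (a : ℕ → ℕ) (n : ℕ) :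
    ty v a (n + 1) = ty ((ch v).getD (a 0) c) (fun m => a (m + 1)) n := by
  induction n with
  | zero => rfl
  | succ n ih => rw [ty_succ, ih, ty_succ]

/-- The type after `n` steps only depends on the first `n` choices. -/
theorem ty_congr (v : T) {a b : ℕ → ℕ} {n : ℕ} (h : ∀ m < n, a m = b m) :
    ty v a n = ty v b n := by
  induction n with
  | zero => rfl
  | succ n ih =>
    rw [ty_succ, ty_succ, ih (fun m hm => h m (Nat.lt_succ_of_lt hm)), h n (Nat.lt_succ_self n)]

theorem ch_length_pos (x : T) : 0 < (ch x).length := by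
  rcases x with (_ | i) | _ | j | k | k | k | _ <;> simp [ch]

theorem ch_length_lt (x : T) : (ch x).length < 6 := by
  rcases x with (_ | i) | _ | j | k | k | k | _ <;> simp [ch]

/-- The truth of a statement on `(type after n steps, n-th choice)` is a clopen condition. -/
theorem isClopen_ty (v : T) (n : ℕ) (P : T → ℕ → Prop) :
    IsClopen {a : ℕ → ℕ | P (ty v a n) (a n)} := by
  let _ : TopologicalSpace T := ⊥
  have _ : DiscreteTopology T := ⟨rfl⟩
  have hc : ∀ n, Continuous (fun a : ℕ → ℕ => ty v a n) := by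
    intro n
    induction n with
    | zero => exact continuous_const
    | succ n ih =>
      have h : Continuous (fun q : T × ℕ => (ch q.1).getD q.2 c) :=
        continuous_of_discreteTopology
      exact h.comp (ih.prodMk (continuous_apply n))
  have h2 : Continuous (fun a : ℕ → ℕ => (ty v a n, a n)) := (hc n).prodMk (continuous_apply n)
  exact (isClopen_discrete {q : T × ℕ | P q.1 q.2}).preimage h2

theorem isClosed_Pth (v : T) : IsClosed {a : ℕ → ℕ | ∀ n, a n < (ch (ty v a n)).length} := by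
  have : {a : ℕ → ℕ | ∀ n, a n < (ch (ty v a n)).length} =
      ⋂ n, {a : ℕ → ℕ | a n < (ch (ty v a n)).length} := by
    ext a; simp
  rw [this]
  exact isClosed_iInter (fun n => (isClopen_ty v n (fun x k => k < (ch x).length)).isClosed)

instance (v : T) : CompactSpace (Pth v) := by
  have h : IsCompact {a : ℕ → ℕ | ∀ n, a n < (ch (ty v a n)).length} := by
    refine IsCompact.of_isClosed_subset
      (isCompact_univ_pi (fun _ : ℕ => (Set.finite_Iio (6 : ℕ)).isCompact)) (isClosed_Pth v) ?_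
    intro a ha n _
    exact lt_trans (ha n) (ch_length_lt _)
  exact isCompact_iff_compactSpace.mp h

theorem Pth.continuous_val (v : T) : Continuous (fun a : Pth v => a.1) :=
  continuous_subtype_val

instance (v : T) : T2Space (Pth v) :=
  inferInstanceAs (T2Space ↥{a : ℕ → ℕ | ∀ n, a n < (ch (ty v a n)).length})

instance (v : T) : TotallyDisconnectedSpace (Pth v) :=
  inferInstanceAs (TotallyDisconnectedSpace ↥{a : ℕ → ℕ | ∀ n, a n < (ch (ty v a n)).length})

instance (v : T) : SecondCountableTopology (Pth v) :=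
  inferInstanceAs (SecondCountableTopology ↥{a : ℕ → ℕ | ∀ n, a n < (ch (ty v a n)).length})

instance (v : T) : Nonempty (Pth v) := ⟨⟨fun _ => 0, fun _ => ch_length_pos _⟩⟩

/-! ### Sums of path spaces over a family -/

/-- The disjoint union of the path spaces of a family of types. -/
def XF {ι : Type*} (f : ι → T) : Type _ := Σ i : ι, Pth (f i)

instance {ι : Type*} (f : ι → T) : TopologicalSpace (XF f) :=
  inferInstanceAs (TopologicalSpace (Σ i : ι, Pth (f i)))

instance {ι : Type*} [Finite ι] (f : ι → T) : CompactSpace (XF f) :=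
  inferInstanceAs (CompactSpace (Σ i : ι, Pth (f i)))

instance {ι : Type*} (f : ι → T) : T2Space (XF f) :=
  inferInstanceAs (T2Space (Σ i : ι, Pth (f i)))

instance (l : List T) : CompactSpace (XL l) :=
  inferInstanceAs (CompactSpace (Σ i : Fin l.length, Pth (l.get i)))

instance (l : List T) : T2Space (XL l) :=
  inferInstanceAs (T2Space (Σ i : Fin l.length, Pth (l.get i)))

instance (l : List T) : TotallyDisconnectedSpace (XL l) :=
  inferInstanceAs (TotallyDisconnectedSpace (Σ i : Fin l.length, Pth (l.get i)))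

instance (l : List T) : SecondCountableTopology (XL l) :=
  inferInstanceAs (SecondCountableTopology (Σ i : Fin l.length, Pth (l.get i)))

theorem XF_ext {ι : Type*} {f : ι → T} {x y : XF f} (h1 : x.1 = y.1) (h2 : x.2.1 = y.2.1) :
    x = y := by
  obtain ⟨i, a⟩ := x
  obtain ⟨j, b⟩ := y
  obtain rfl : i = j := h1
  obtain rfl : a = b := Subtype.ext h2
  rfl

/-- Reindexing. -/
theorem XF_congr {ι κ : Type*} [Finite ι] {f : ι → T} {g : κ → T} (e : ι ≃ κ)
    (h : ∀ i, g (e i) = f i) : Nonempty (XF f ≃ₜ XF g) := by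
  let F : XF f → XF g := fun x => ⟨e x.1, ⟨x.2.1, by rw [h]; exact x.2.2⟩⟩
  have hinj : Function.Injective F := by
    intro x y hxy
    have h1 : e x.1 = e y.1 := congrArg Sigma.fst hxy
    have h2 : x.2.1 = y.2.1 := by
      have : (F x).2.1 = (F y).2.1 := by rw [hxy]
      exact this
    exact XF_ext (e.injective h1) h2
  have hsurj : Function.Surjective F := by
    intro y
    refine ⟨⟨e.symm y.1, ⟨y.2.1, ?_⟩⟩, ?_⟩
    · have : f (e.symm y.1) = g y.1 := by rw [← h, e.apply_symm_apply]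
      rw [this]; exact y.2.2
    · exact XF_ext (e.apply_symm_apply _) rfl
  have hcont : Continuous F := by
    refine continuous_sigma (fun i => ?_)
    have h1 : Continuous (fun a : Pth (f i) => (⟨a.1, by rw [h]; exact a.2⟩ : Pth (g (e i)))) :=
      Continuous.subtype_mk (Pth.continuous_val (f i)) _
    exact (continuous_sigmaMk (σ := fun k => Pth (g k)) (i := e i)).comp h1
  exact ⟨Continuous.homeoOfEquivCompactToT2 (f := Equiv.ofBijective F ⟨hinj, hsurj⟩) hcont⟩

theorem XF_sum {ι κ : Type*} [Finite ι] [Finite κ] (f : ι → T) (g : κ → T) :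
    Nonempty (XF (Sum.elim f g) ≃ₜ XF f ⊕ XF g) := by
  let F : XF f ⊕ XF g → XF (Sum.elim f g) :=
    Sum.elim (fun x => ⟨Sum.inl x.1, x.2⟩) (fun y => ⟨Sum.inr y.1, y.2⟩)
  have hinj : Function.Injective F := by
    rintro (x | x) (y | y) hxy
    · have h1 : (Sum.inl x.1 : ι ⊕ κ) = Sum.inl y.1 := congrArg Sigma.fst hxy
      have h2 : x.2.1 = y.2.1 := by
        have : (F (Sum.inl x)).2.1 = (F (Sum.inl y)).2.1 := by rw [hxy]
        exact this
      exact congrArg Sum.inl (XF_ext (Sum.inl.inj h1) h2)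
    · have h1 : (Sum.inl x.1 : ι ⊕ κ) = Sum.inr y.1 := congrArg Sigma.fst hxy
      cases h1
    · have h1 : (Sum.inr x.1 : ι ⊕ κ) = Sum.inl y.1 := congrArg Sigma.fst hxy
      cases h1
    · have h1 : (Sum.inr x.1 : ι ⊕ κ) = Sum.inr y.1 := congrArg Sigma.fst hxy
      have h2 : x.2.1 = y.2.1 := by
        have : (F (Sum.inr x)).2.1 = (F (Sum.inr y)).2.1 := by rw [hxy]
        exact this
      exact congrArg Sum.inr (XF_ext (Sum.inr.inj h1) h2)
  have hsurj : Function.Surjective F := by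
    rintro ⟨i | k, a⟩
    · exact ⟨Sum.inl ⟨i, a⟩, rfl⟩
    · exact ⟨Sum.inr ⟨k, a⟩, rfl⟩
  have hcont : Continuous F := by
    refine Continuous.sumElim ?_ ?_
    · refine continuous_sigma (fun i => ?_)
      exact continuous_sigmaMk (σ := fun k : ι ⊕ κ => Pth (Sum.elim f g k)) (i := Sum.inl i)
    · refine continuous_sigma (fun i => ?_)
      exact continuous_sigmaMk (σ := fun k : ι ⊕ κ => Pth (Sum.elim f g k)) (i := Sum.inr i)
  exact ⟨(Continuous.homeoOfEquivCompactToT2 (f := Equiv.ofBijective F ⟨hinj, hsurj⟩) hcont).symm⟩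

/-- The first step of a path. -/
theorem Pth_unfold (v : T) : Nonempty (Pth v ≃ₜ XL (ch v)) := by
  let cons : ℕ → (ℕ → ℕ) → ℕ → ℕ := fun i b n => Nat.casesOn n i b
  have hget : ∀ i : Fin (ch v).length, (ch v).getD i c = (ch v).get i := by
    intro i
    rw [List.getD_eq_getElem _ _ i.2, List.get_eq_getElem]
  have hty : ∀ (i : Fin (ch v).length) (b : ℕ → ℕ) (n : ℕ),
      ty v (cons i b) (n + 1) = ty ((ch v).get i) b n := by
    intro i b n
    rw [ty_shift]
    show ty ((ch v).getD i c) b n = _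
    rw [hget]
  let F : XL (ch v) → Pth v := fun x => ⟨cons x.1 x.2.1, by
    intro n
    cases n with
    | zero => exact x.1.2
    | succ n =>
      rw [hty]
      exact x.2.2 n⟩
  have hinj : Function.Injective F := by
    intro x y hxy
    have hv : cons x.1 x.2.1 = cons y.1 y.2.1 := congrArg Subtype.val hxy
    have h1 : x.1 = y.1 := Fin.ext (congrFun hv 0)
    have h2 : x.2.1 = y.2.1 := funext (fun n => congrFun hv (n + 1))
    exact XF_ext (f := (ch v).get) h1 h2
  have hsurj : Function.Surjective F := by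
    intro a
    refine ⟨⟨⟨a.1 0, a.2 0⟩, ⟨fun n => a.1 (n + 1), ?_⟩⟩, ?_⟩
    · intro n
      have h := a.2 (n + 1)
      rw [ty_shift] at h
      rw [← hget]
      exact h
    · apply Subtype.ext
      funext n
      cases n with
      | zero => rfl
      | succ n => rfl
  have hcont : Continuous F := by
    refine continuous_sigma (fun i => ?_)
    refine Continuous.subtype_mk ?_ _
    refine continuous_pi (fun n => ?_)
    cases n with
    | zero => exact (continuous_const : Continuous (fun _ : Pth ((ch v).get i) => (i : ℕ)))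
    | succ n =>
      have h1 : Continuous (fun a : Pth ((ch v).get i) => a.1 n) :=
        (continuous_apply n).comp (Pth.continuous_val _)
      exact h1
  exact ⟨(Continuous.homeoOfEquivCompactToT2 (f := Equiv.ofBijective F ⟨hinj, hsurj⟩) hcont).symm⟩

theorem XL_nil : IsEmpty (XL []) := ⟨fun x => x.1.elim0⟩

theorem XL_singleton (v : T) : Nonempty (XL [v] ≃ₜ Pth v) := by
  have hsub : ∀ i j : Fin [v].length, i = j := by
    intro i j
    have hi := i.2
    have hj := j.2
    simp only [List.length_cons, List.length_nil] at hi hj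
    exact Fin.ext (by omega)
  have hget : ∀ i : Fin [v].length, [v].get i = v := by
    intro i
    rw [hsub i ⟨0, Nat.zero_lt_one⟩]
    rfl
  have hpth : ∀ (y : T), y = v → ∀ a : Pth y, ∀ n, a.1 n < (ch (ty v a.1 n)).length := by
    rintro y rfl a
    exact a.2
  let F : XL [v] → Pth v := fun x => ⟨x.2.1, hpth _ (hget x.1) x.2⟩
  have hinj : Function.Injective F := by
    intro x y hxy
    have h1 : x.1 = y.1 := hsub _ _
    have h2 : x.2.1 = y.2.1 := congrArg Subtype.val hxy
    exact XF_ext (f := [v].get) h1 h2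
  have hsurj : Function.Surjective F := by
    intro a
    exact ⟨⟨⟨0, Nat.zero_lt_one⟩, a⟩, rfl⟩
  have hcont : Continuous F := by
    refine continuous_sigma (fun i => ?_)
    exact Continuous.subtype_mk (Pth.continuous_val _) _
  exact ⟨Continuous.homeoOfEquivCompactToT2 (f := Equiv.ofBijective F ⟨hinj, hsurj⟩) hcont⟩

theorem XL_append (l₁ l₂ : List T) : Nonempty (XL (l₁ ++ l₂) ≃ₜ XL l₁ ⊕ XL l₂) := by
  obtain ⟨h1⟩ := XF_sum l₁.get l₂.get
  let e : Fin l₁.length ⊕ Fin l₂.length ≃ Fin (l₁ ++ l₂).length :=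
    finSumFinEquiv.trans (finCongr (List.length_append).symm)
  have he : ∀ i, (l₁ ++ l₂).get (e i) = Sum.elim l₁.get l₂.get i := by
    rintro (i | i)
    · simp [e, List.getElem_append_left]
    · simp [e, List.getElem_append_right]
  obtain ⟨h2⟩ := XF_congr (f := Sum.elim l₁.get l₂.get) (g := (l₁ ++ l₂).get) e he
  exact ⟨h2.symm.trans h1⟩

theorem XL_cons (v : T) (l : List T) : Nonempty (XL (v :: l) ≃ₜ Pth v ⊕ XL l) := by
  obtain ⟨h1⟩ := XL_append [v] l
  obtain ⟨h2⟩ := XL_singleton v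
  exact ⟨h1.trans (h2.sumCongr (Homeomorph.refl _))⟩

theorem XL_perm {l₁ l₂ : List T} (h : l₁.Perm l₂) : Nonempty (XL l₁ ≃ₜ XL l₂) := by
  induction h with
  | nil => exact ⟨Homeomorph.refl _⟩
  | cons x _ ih =>
    obtain ⟨h⟩ := ih
    rename_i l₁ l₂ _
    obtain ⟨h1⟩ := XL_cons x l₁
    obtain ⟨h2⟩ := XL_cons x l₂
    exact ⟨h1.trans (((Homeomorph.refl _).sumCongr h).trans h2.symm)⟩
  | swap x y l =>
    obtain ⟨h1⟩ := XL_cons y (x :: l)
    obtain ⟨h2⟩ := XL_cons x l
    obtain ⟨h3⟩ := XL_cons x (y :: l)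
    obtain ⟨h4⟩ := XL_cons y l
    have e1 : XL (y :: x :: l) ≃ₜ Pth y ⊕ (Pth x ⊕ XL l) :=
      h1.trans ((Homeomorph.refl _).sumCongr h2)
    have e2 : XL (x :: y :: l) ≃ₜ Pth x ⊕ (Pth y ⊕ XL l) :=
      h3.trans ((Homeomorph.refl _).sumCongr h4)
    have e3 : Pth y ⊕ (Pth x ⊕ XL l) ≃ₜ (Pth y ⊕ Pth x) ⊕ XL l := (Homeomorph.sumAssoc _ _ _).symm
    have e4 : (Pth y ⊕ Pth x) ⊕ XL l ≃ₜ (Pth x ⊕ Pth y) ⊕ XL l :=
      (Homeomorph.sumComm _ _).sumCongr (Homeomorph.refl _)
    have e5 : (Pth x ⊕ Pth y) ⊕ XL l ≃ₜ Pth x ⊕ (Pth y ⊕ XL l) := Homeomorph.sumAssoc _ _ _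
    exact ⟨e1.trans (e3.trans (e4.trans (e5.trans e2.symm)))⟩
  | trans _ _ ih1 ih2 =>
    obtain ⟨h1⟩ := ih1
    obtain ⟨h2⟩ := ih2
    exact ⟨h1.trans h2⟩

theorem XL_stp {l₁ l₂ : List T} (h : Stp (l₁ : Multiset T) (l₂ : Multiset T)) :
    Nonempty (XL l₁ ≃ₜ XL l₂) := by
  obtain ⟨x, γ, h1, h2⟩ := h
  have p1 : l₁.Perm (x :: γ.toList) := by
    rw [← Multiset.coe_eq_coe, h1, ← Multiset.cons_coe, Multiset.coe_toList]
  have p2 : (ch x ++ γ.toList).Perm l₂ := by
    rw [← Multiset.coe_eq_coe, h2, ← Multiset.coe_add, Multiset.coe_toList]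
  obtain ⟨e1⟩ := XL_perm p1
  obtain ⟨e2⟩ := XL_perm p2
  obtain ⟨e3⟩ := XL_cons x γ.toList
  obtain ⟨e4⟩ := XL_append (ch x) γ.toList
  obtain ⟨e5⟩ := Pth_unfold x
  exact ⟨e1.trans (e3.trans ((e5.sumCongr (Homeomorph.refl _)).trans (e4.symm.trans e2)))⟩

theorem XL_unf {l₁ l₂ : List T} (h : Unf (l₁ : Multiset T) (l₂ : Multiset T)) :
    Nonempty (XL l₁ ≃ₜ XL l₂) := by
  have key : ∀ β : Multiset T, Unf (l₁ : Multiset T) β → ∀ l : List T, (l : Multiset T) = β →
      Nonempty (XL l₁ ≃ₜ XL l) := by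
    intro β hβ
    induction hβ with
    | refl =>
      intro l hl
      exact XL_perm (Multiset.coe_eq_coe.mp hl.symm)
    | tail _ hs ih =>
      rename_i β γ _
      intro l hl
      obtain ⟨e1⟩ := ih β.toList (Multiset.coe_toList β)
      have hs' : Stp (β.toList : Multiset T) (l : Multiset T) := by
        rw [Multiset.coe_toList, hl]; exact hs
      obtain ⟨e2⟩ := XL_stp hs'
      exact ⟨e1.trans e2⟩
  exact key _ h l₂ rfl

/-- A disjoint union of two closed subsets is the topological sum. -/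
theorem union_homeo {X : Type*} [TopologicalSpace X] {P Q : Set X} (hP : IsClosed P)
    (hQ : IsClosed Q) (hd : Disjoint P Q) : Nonempty (↥(P ∪ Q) ≃ₜ ↥P ⊕ ↥Q) := by
  let F : ↥P ⊕ ↥Q → ↥(P ∪ Q) :=
    Sum.elim (Set.inclusion Set.subset_union_left) (Set.inclusion Set.subset_union_right)
  have hinj : Function.Injective F := by
    rintro (x | x) (y | y) hxy
    · have : x.1 = y.1 := congrArg (fun z : ↥(P ∪ Q) => z.1) hxy
      exact congrArg Sum.inl (Subtype.ext this)
    · have h : x.1 = y.1 := congrArg (fun z : ↥(P ∪ Q) => z.1) hxy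
      exact absurd (h ▸ y.2 : x.1 ∈ Q) (Set.disjoint_left.mp hd x.2)
    · have h : x.1 = y.1 := congrArg (fun z : ↥(P ∪ Q) => z.1) hxy
      exact absurd x.2 (h ▸ Set.disjoint_left.mp hd y.2 : x.1 ∉ Q)
    · have : x.1 = y.1 := congrArg (fun z : ↥(P ∪ Q) => z.1) hxy
      exact congrArg Sum.inr (Subtype.ext this)
  have hsurj : Function.Surjective F := by
    rintro ⟨x, hx | hx⟩
    · exact ⟨Sum.inl ⟨x, hx⟩, rfl⟩
    · exact ⟨Sum.inr ⟨x, hx⟩, rfl⟩
  have hcont : Continuous F :=
    Continuous.sumElim (continuous_inclusion _) (continuous_inclusion _)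
  have hclosed : IsClosedMap F :=
    isClosedMap_sumElim.mpr ⟨hP.isClosedMap_inclusion _, hQ.isClosedMap_inclusion _⟩
  exact ⟨((Equiv.ofBijective F ⟨hinj, hsurj⟩).toHomeomorphOfContinuousClosed hcont hclosed).symm⟩

/-- The disjoint union of two closed pieces. -/
theorem Dec_union {X : Type*} [TopologicalSpace X] {P Q : Set X} (hP : IsClosed P)
    (hQ : IsClosed Q) (hd : Disjoint P Q) {α β : Multiset T} (h1 : Dec ↥P α) (h2 : Dec ↥Q β) :
    Dec ↥(P ∪ Q) (α + β) := by
  obtain ⟨l₁, rfl, ⟨e1⟩⟩ := h1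
  obtain ⟨l₂, rfl, ⟨e2⟩⟩ := h2
  obtain ⟨e3⟩ := union_homeo hP hQ hd
  obtain ⟨e4⟩ := XL_append l₁ l₂
  exact ⟨l₁ ++ l₂, (Multiset.coe_add l₁ l₂).symm, ⟨e3.trans ((e1.sumCongr e2).trans e4.symm)⟩⟩

theorem Dec_congr {X Y : Type*} [TopologicalSpace X] [TopologicalSpace Y] (h : X ≃ₜ Y)
    {α : Multiset T} (h1 : Dec X α) : Dec Y α := by
  obtain ⟨l, hl, ⟨e⟩⟩ := h1
  exact ⟨l, hl, ⟨h.symm.trans e⟩⟩

theorem Dec_unf {X : Type*} [TopologicalSpace X] {α β : Multiset T} (h : Unf α β)
    (h1 : Dec X α) : Dec X β := by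
  obtain ⟨l, rfl, ⟨e⟩⟩ := h1
  have h' : Unf (l : Multiset T) (β.toList : Multiset T) := by
    rw [Multiset.coe_toList]; exact h
  obtain ⟨e2⟩ := XL_unf h'
  exact ⟨β.toList, Multiset.coe_toList β, ⟨e.trans e2⟩⟩

end Ends72
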