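import Pool.Agent.LibEnds72.PiecesA

/-! TASK L0: compact open pieces of the set of ends, second part. -/

open Set Topology Metric

noncomputable section

namespace Ends72

open T OnePoint

/-- many `u` types and two `s` types below `s k` -/
theorem many_u (n : ℕ) : ∃ (k : ℕ) (υ ρ : Multiset T), υ.card = n ∧ (∀ v ∈ υ, isU v) ∧
    Unf {s 0} (s k ::ₘ s k ::ₘ (υ + ρ)) := by
  induction n with
  | zero =>
    refine ⟨1, 0, {r 0, r 0, u 0}, rfl, by simp, ?_⟩
    refine Relation.ReflTransGen.single ⟨s 0, 0, rfl, ?_⟩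
    simp only [ch, zero_add, add_zero]
    rfl
  | succ n ih =>
    obtain ⟨k, υ, ρ, h1, h2, h3⟩ := ih
    refine ⟨k + 1, u k ::ₘ υ, r k ::ₘ r k ::ₘ s k ::ₘ ρ, by simp [h1], ?_, ?_⟩
    · intro v hv
      rcases Multiset.mem_cons.1 hv with rfl | hv
      · trivial
      · exact h2 v hv
    · refine Unf_trans h3 (Relation.ReflTransGen.single ⟨s k, s k ::ₘ (υ + ρ), rfl, ?_⟩)
      have h4 : ((ch (s k) : List T) : Multiset T) =
          {s (k + 1)} + {s (k + 1)} + {r k} + {r k} + {u k} := rfl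
      rw [h4]
      simp only [← Multiset.singleton_add]
      abel

theorem Dec_coe {Z : Set ℂ} {α : Multiset T}
    (h : Dec ↥((↑) '' Z : Set (OnePoint ℂ)) α) : Dec ↥Z α :=
  Dec_congr (OnePoint.isOpenEmbedding_coe.isEmbedding.homeomorphImage Z).symm h

variable {E : Set ℝ} (hE : EGap E) (hb : Nonempty (↥(E ∩ Icc 1 2) ≃ₜ XL blk))

include hE hb in
theorem Blk_decC (m : ℤ) (k : ℕ) :
    Dec ↥(EC E ∩ Ann (rad m) (rad (m + k))) (k • (blk : Multiset T)) :=
  Dec_coe (Blk_dec_nat hE hb m k)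

include hE hb in
/-- the sets `Y_N` -/
theorem exists_YN (N : ℕ) : ∃ Y : Set ℂ, Y ⊆ EC E ∩ Ann (rad 0) (rad 1) ∧ IsClosed Y ∧
    IsClosed ((EC E ∩ Ann (rad 0) (rad 1)) \ Y) ∧
    Nonempty (↥(EC E ∩ Ann (rad 0) (rad N)) ≃ₜ Y) ∧
    Nonempty (↥(EC E ∩ Ann (rad N) (rad (N + 1))) ≃ₜ
      ↥((EC E ∩ Ann (rad 0) (rad (N + 1))) \ Y)) := by
  rcases Nat.eq_zero_or_pos N with rfl | hN
  · refine ⟨∅, empty_subset _, isClosed_empty, ?_, ⟨?_⟩, ⟨?_⟩⟩
    · rw [sdiff_empty]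
      exact (EC_Ann_compact hE 0 1).isClosed
    · refine Homeomorph.setCongr ?_
      rw [eq_empty_iff_forall_notMem]
      rintro z ⟨-, h1, h2⟩
      have h3 : rad 0 < rad ((0 : ℕ) : ℤ) := lt_trans h1 h2
      simp at h3
    · refine Homeomorph.setCongr ?_
      rw [sdiff_empty]
      rfl
  · obtain ⟨k, υ, ρ, h1, h2, h3⟩ := many_u (N + 1)
    set β : Multiset T := s k ::ₘ t ::ₘ υ with hβ
    set γ : Multiset T := s k ::ₘ t ::ₘ r 0 ::ₘ u 0 ::ₘ u 0 ::ₘ ρ with hγ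
    have hU : Unf (blk : Multiset T) (β + γ) := by
      have e1 : (blk : Multiset T) = {s 0} + {t, u 0, u 0} := rfl
      have e2 : Unf ({t, u 0, u 0} : Multiset T) ({t, t, r 0} + {u 0, u 0}) := by
        refine Relation.ReflTransGen.single ⟨t, {u 0, u 0}, rfl, rfl⟩
      have e3 : (s k ::ₘ s k ::ₘ (υ + ρ)) + (({t, t, r 0} : Multiset T) + {u 0, u 0}) = β + γ := by
        rw [hβ, hγ]
        have e4 : ({t, t, r 0} : Multiset T) = {t} + {t} + {r 0} := rfl
        have e5 : ({u 0, u 0} : Multiset T) = {u 0} + {u 0} := rfl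
        rw [e4, e5]
        simp only [← Multiset.singleton_add]
        abel
      rw [e1, ← e3]
      exact Unf_add h3 e2
    have hP : IsClosed (EC E ∩ Ann (rad 0) (rad 1)) := (EC_Ann_compact hE 0 1).isClosed
    have hD : Dec ↥(EC E ∩ Ann (rad 0) (rad 1)) (blk : Multiset T) := by
      have := Blk_decC hE hb 0 1
      rwa [one_smul] at this
    obtain ⟨Q, R, hQ, hR, hQR, hu, hQβ, hRγ⟩ := Dec_realise hP hD hU
    have iυ : iota υ = N + 1 := by
      have hs : ¬ hasS υ := by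
        rintro ⟨x, hx, hx'⟩
        have := h2 x hx
        cases x <;> simp_all [isU, isS]
      rw [iota_of_not_hasS hs]
      have : numU υ = υ.card := Multiset.countP_eq_card.2 h2
      rw [this, h1]
      push_cast
      rfl
    have iβ : iota β = N := by
      rw [hβ, ← Multiset.singleton_add, ← Multiset.singleton_add, iota_add, iota_add, iυ]
      have e1 : iota {s k} = -1 := by simp [iota, val]
      have e2 : iota {t} = 0 := by simp [iota, val]
      rw [e1, e2]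
      ring
    have iγ : iota γ = 1 - N := by
      have e1 := iota_unf hU
      rw [iota_add, iota_blk, iβ] at e1
      linarith
    have hcl : (EC E ∩ Ann (rad 0) (rad 1)) \ Q = R := by
      rw [← hu]
      ext x
      constructor
      · rintro ⟨h4 | h4, h5⟩
        · exact absurd h4 h5
        · exact h4
      · intro h4
        exact ⟨Or.inr h4, fun h5 => Set.disjoint_left.1 hQR h5 h4⟩
    have sβ : hasS β := ⟨s k, Multiset.mem_cons_self _ _, trivial⟩
    have tβ : t ∈ β := Multiset.mem_cons.2 (Or.inr (Multiset.mem_cons_self _ _))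
    have sγ : hasS γ := ⟨s k, Multiset.mem_cons_self _ _, trivial⟩
    have tγ : t ∈ γ := Multiset.mem_cons.2 (Or.inr (Multiset.mem_cons_self _ _))
    refine ⟨Q, hu ▸ subset_union_left, hQ, hcl ▸ hR, ?_, ?_⟩
    · have h4 := Blk_decC hE hb 0 N
      rw [zero_add] at h4
      refine homeo_of_Dec h4 hQβ ?_ ?_ sβ tβ ?_
      · obtain ⟨j, rfl⟩ : ∃ j, N = j + 1 := ⟨N - 1, by omega⟩
        rw [succ_nsmul]
        exact hasS_add.2 (Or.inr hasS_blk)
      · obtain ⟨j, rfl⟩ : ∃ j, N = j + 1 := ⟨N - 1, by omega⟩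
        rw [succ_nsmul]
        exact Multiset.mem_add.2 (Or.inr hasT_blk)
      · rw [iota_nsmul_blk, iβ]
    · have h4 := Blk_decC hE hb N 1
      rw [one_smul] at h4
      have h5 := Blk_decC hE hb 1 N
      have hY : (EC E ∩ Ann (rad 0) (rad (N + 1))) \ Q =
          R ∪ (EC E ∩ Ann (rad 1) (rad (1 + N))) := by
        have e6 : (1 + (N : ℤ)) = N + 1 := by ring
        have h01 : rad 0 < rad 1 := rad_strictMono (by norm_num)
        have h1N : rad 1 ≤ rad (N + 1) := rad_strictMono.monotone (by omega)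
        rw [e6, ← hcl]
        ext x
        constructor
        · rintro ⟨⟨hx1, hx2, hx3⟩, hx4⟩
          rcases lt_or_gt_of_ne (norm_ne_rad hE hx1 1) with h | h
          · exact Or.inl ⟨⟨hx1, hx2, h⟩, hx4⟩
          · exact Or.inr ⟨hx1, h, hx3⟩
        · rintro (⟨⟨hx1, hx2, hx3⟩, hx4⟩ | ⟨hx1, hx2, hx3⟩)
          · exact ⟨⟨hx1, hx2, lt_of_lt_of_le hx3 h1N⟩, hx4⟩
          · refine ⟨⟨hx1, lt_trans h01 hx2, hx3⟩, fun hx4 => ?_⟩
            have h6 : x ∈ EC E ∩ Ann (rad 0) (rad 1) := hu ▸ Or.inl hx4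
            exact lt_asymm hx2 h6.2.2
      have hd : Disjoint R (EC E ∩ Ann (rad 1) (rad (1 + N))) := by
        rw [Set.disjoint_left]
        rintro x hx ⟨-, hx2, -⟩
        have h6 : x ∈ EC E ∩ Ann (rad 0) (rad 1) := hu ▸ Or.inr hx
        exact lt_asymm hx2 h6.2.2
      have h7 : Dec ↥((EC E ∩ Ann (rad 0) (rad (N + 1))) \ Q) (γ + N • (blk : Multiset T)) := by
        rw [hY]
        exact Dec_union hR (EC_Ann_compact hE 1 (1 + N)).isClosed hd hRγ h5
      refine homeo_of_Dec h4 h7 hasS_blk hasT_blk (hasS_add.2 (Or.inl sγ))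
        (Multiset.mem_add.2 (Or.inl tγ)) ?_
      rw [iota_blk, iota_add, iγ, iota_nsmul_blk]
      ring

/-- locality of the marked points for open embeddings -/
theorem XX_oe {Y Z : Type*} [TopologicalSpace Y] [TopologicalSpace Z] {i : Y → Z}
    (h : IsOpenEmbedding i) : i '' XX Y = XX Z ∩ range i := by
  rw [← XX_open h.isOpen_range, ← XX_image h.isEmbedding.toHomeomorph, image_image]
  rfl

theorem PP_oe {Y Z : Type*} [TopologicalSpace Y] [TopologicalSpace Z] {i : Y → Z}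
    (h : IsOpenEmbedding i) (j : ℕ) : i '' PP Y j = PP Z j ∩ range i := by
  rw [← PP_open h.isOpen_range, ← PP_image h.isEmbedding.toHomeomorph, image_image]
  rfl

/-- the inclusion of a component -/
def comp (l : List T) (i : Fin l.length) (x : Pth (l.get i)) : XL l := ⟨i, x⟩

theorem comp_emb (l : List T) (i : Fin l.length) : IsOpenEmbedding (comp l i) :=
  IsOpenEmbedding.sigmaMk (σ := fun i : Fin l.length => Pth (l.get i)) (i := i)

theorem XX_blk : (XX (XL blk)).Nonempty := by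
  have h0 : 2 < blk.length := by simp [blk]
  have hx : (XX (Pth (blk.get ⟨2, h0⟩))).Nonempty := XX_u 0
  have h4 := hx.image (comp blk ⟨2, h0⟩)
  rw [XX_oe (comp_emb blk ⟨2, h0⟩)] at h4
  exact h4.mono inter_subset_left

theorem PP_blk (j : ℕ) : (PP (XL blk) j).Infinite := by
  have h0 : 1 < blk.length := by simp [blk]
  have h3 : (PP (Pth (blk.get ⟨1, h0⟩)) j).Infinite := PP_t_infinite j
  have h4 := h3.image (comp_emb blk ⟨1, h0⟩).injective.injOn
  rw [PP_oe (comp_emb blk ⟨1, h0⟩)] at h4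
  exact h4.mono inter_subset_left

theorem XX_of_dec {Z : Type*} [TopologicalSpace Z] (h : Dec Z (blk : Multiset T)) :
    (XX Z).Nonempty ∧ ∀ j, (PP Z j).Infinite := by
  obtain ⟨l, hl, ⟨g⟩⟩ := h
  obtain ⟨g'⟩ := XL_perm (Multiset.coe_eq_coe.1 hl)
  have e := (g.trans g').symm
  refine ⟨?_, fun j => ?_⟩
  · rw [← XX_image e]
    exact XX_blk.image _
  · rw [← PP_image e]
    exact (PP_blk j).image e.injective.injOn

include hE in
/-- far blocks are contained in a clopen set containing a special end -/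
theorem far_blocks {S O : Set (OnePoint ℂ)} (hO : IsOpen O) (hS : EB E ∩ O ⊆ S)
    (h : (∞ : OnePoint ℂ) ∈ O ∨ ((0 : ℂ) : OnePoint ℂ) ∈ O) :
    ∃ n : ℤ, Blk E n (n + 1) ⊆ S ∩ O := by
  rcases h with h | h
  · have h1 : IsCompact (((↑) ⁻¹' O : Set ℂ)ᶜ) := by
      have h2 : ((↑) '' (((↑) ⁻¹' O : Set ℂ)ᶜ) : Set (OnePoint ℂ)) = Oᶜ := by
        ext x
        constructor
        · rintro ⟨z, hz, rfl⟩
          exact hz
        · intro hx
          induction x using OnePoint.rec with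
          | infty => exact absurd h hx
          | coe z => exact ⟨z, hx, rfl⟩
      have h3 : IsClosed ((↑) '' (((↑) ⁻¹' O : Set ℂ)ᶜ) : Set (OnePoint ℂ)) := by
        rw [h2]
        exact hO.isClosed_compl
      exact (OnePoint.isClosed_image_coe.1 h3).2
    obtain ⟨R, hR⟩ := h1.isBounded.exists_norm_le
    obtain ⟨N, hN⟩ := (tendsto_rad_atTop.eventually_gt_atTop R).exists
    refine ⟨N, ?_⟩
    intro x hx
    have hxE := (Blk_piece hE N (N + 1)).1 hx
    obtain ⟨z, ⟨hz1, hz2, hz3⟩, rfl⟩ := hx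
    have hzO : (z : OnePoint ℂ) ∈ O := by
      by_contra hzO
      have := hR z hzO
      linarith
    exact ⟨hS ⟨hxE, hzO⟩, hzO⟩
  · have h1 : IsOpen ((↑) ⁻¹' O : Set ℂ) := hO.preimage OnePoint.continuous_coe
    obtain ⟨ε, hε, hεO⟩ := Metric.mem_nhds_iff.1 (h1.mem_nhds (show (0 : ℂ) ∈ _ from h))
    obtain ⟨N, hN⟩ := (tendsto_rad_atTop.eventually_gt_atTop (1 / ε)).exists
    have hr2 : rad (-(N : ℤ)) < ε := by
      have h7 : 1 < ε * rad N := by
        rwa [div_lt_iff₀ hε, mul_comm] at hN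
      have h8 := rad_neg_mul (N : ℤ)
      by_contra h9
      have h10 : ε * rad N ≤ rad (-(N : ℤ)) * rad N :=
        mul_le_mul_of_nonneg_right (not_lt.1 h9) (rad_pos _).le
      linarith
    refine ⟨-(N : ℤ) - 1, ?_⟩
    intro x hx
    have hxE := (Blk_piece hE _ _).1 hx
    obtain ⟨z, ⟨hz1, hz2, hz3⟩, rfl⟩ := hx
    have hzO : (z : OnePoint ℂ) ∈ O := by
      apply hεO
      rw [sub_add_cancel] at hz3
      simpa using lt_trans hz3 hr2
    exact ⟨hS ⟨hxE, hzO⟩, hzO⟩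

omit hE in
/-- a block contained in a set of ends is open in it -/
theorem Blk_open_in {P : Set (OnePoint ℂ)} (hP : P ⊆ EB E) (m n : ℤ) :
    IsOpen (Subtype.val ⁻¹' Blk E m n : Set ↥P) := by
  have : (Subtype.val ⁻¹' Blk E m n : Set ↥P) =
      Subtype.val ⁻¹' ((↑) '' Ann (rad m) (rad n) : Set (OnePoint ℂ)) := by
    ext x
    rw [Blk_eq]
    exact ⟨fun h => h.2, fun h => ⟨hP x.2, h⟩⟩
  rw [this]
  exact (coeAnn_open _ _).preimage continuous_subtype_val

include hE hb in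
/-- the marked points in a block which is contained in `P` -/
theorem marked_in_block {P : Set (OnePoint ℂ)} (hP : P ⊆ EB E) {n : ℤ}
    (hn : Blk E n (n + 1) ⊆ P) :
    (∃ x : ↥P, (x : OnePoint ℂ) ∈ Blk E n (n + 1) ∧ x ∈ XX ↥P) ∧
      ({x : ↥P | (x : OnePoint ℂ) ∈ Blk E n (n + 1)} ∩ PP ↥P 0).Infinite := by
  have hO := Blk_open_in hP n (n + 1)
  have h1 : IsOpenEmbedding (Set.inclusion hn) := by
    refine ⟨IsEmbedding.inclusion hn, ?_⟩
    rw [Set.range_inclusion]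
    exact hO
  obtain ⟨⟨x, hx⟩, h3⟩ := XX_of_dec (Blk_dec hE hb n)
  constructor
  · have h4 : Set.inclusion hn x ∈ Set.inclusion hn '' XX ↥(Blk E n (n + 1)) := ⟨x, hx, rfl⟩
    rw [XX_oe h1] at h4
    exact ⟨_, x.2, h4.1⟩
  · have h4 := (h3 0).image h1.injective.injOn
    rw [PP_oe h1] at h4
    refine h4.mono ?_
    rintro y ⟨hy1, hy2⟩
    rw [Set.range_inclusion] at hy2
    exact ⟨hy2, hy1⟩

include hE hb in
/-- a clopen set of ends containing a special end has no index -/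
theorem special_not_index {P : Set (OnePoint ℂ)} (hP : P ⊆ EB E) (hc : IsClosed P)
    (hc' : IsClosed (EB E \ P)) (h : (∞ : OnePoint ℂ) ∈ P ∨ ((0 : ℂ) : OnePoint ℂ) ∈ P)
    (k : ℤ) : ¬ IsIndex ↥P k := by
  rintro ⟨S, hS, hfin, hXX, -⟩
  -- the special end
  obtain ⟨e, heP, he⟩ : ∃ e ∈ P, e = (∞ : OnePoint ℂ) ∨ e = ((0 : ℂ) : OnePoint ℂ) := by
    rcases h with h | h
    · exact ⟨_, h, Or.inl rfl⟩
    · exact ⟨_, h, Or.inr rfl⟩
  have hspec : ∀ O : Set (OnePoint ℂ), e ∈ O →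
      ((∞ : OnePoint ℂ) ∈ O ∨ ((0 : ℂ) : OnePoint ℂ) ∈ O) := by
    intro O hO
    rcases he with rfl | rfl
    · exact Or.inl hO
    · exact Or.inr hO
  have heS : (⟨e, heP⟩ : ↥P) ∈ S := by
    by_contra hn
    obtain ⟨O, hO, hOS⟩ := isOpen_induced_iff.1 hS.isClosed.isOpen_compl
    have heO : e ∈ O := by
      have : (⟨e, heP⟩ : ↥P) ∈ Subtype.val ⁻¹' O := by
        rw [hOS]
        exact hn
      exact this
    have hO' : IsOpen (O ∩ (EB E \ P)ᶜ) := hO.inter hc'.isOpen_compl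
    have he' : e ∈ O ∩ (EB E \ P)ᶜ := ⟨heO, fun h1 => h1.2 heP⟩
    obtain ⟨n, hn'⟩ := far_blocks hE (S := P) hO' (by
      rintro x ⟨hx1, hx2, hx3⟩
      by_contra hx4
      exact hx3 ⟨hx1, hx4⟩) (hspec _ he')
    obtain ⟨⟨x, hx1, hx2⟩, -⟩ := marked_in_block hE hb hP (fun y hy => (hn' hy).1)
    have h3 : x ∈ (Subtype.val ⁻¹' O : Set ↥P) := (hn' hx1).2.1
    rw [hOS] at h3
    exact h3 (hXX hx2)
  obtain ⟨O, hO, hOS⟩ := isOpen_induced_iff.1 hS.isOpen
  have heO : e ∈ O := by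
    have : (⟨e, heP⟩ : ↥P) ∈ Subtype.val ⁻¹' O := by
      rw [hOS]
      exact heS
    exact this
  have hO' : IsOpen (O ∩ (EB E \ P)ᶜ) := hO.inter hc'.isOpen_compl
  have he' : e ∈ O ∩ (EB E \ P)ᶜ := ⟨heO, fun h1 => h1.2 heP⟩
  obtain ⟨n, hn'⟩ := far_blocks hE (S := P) hO' (by
    rintro x ⟨hx1, hx2, hx3⟩
    by_contra hx4
    exact hx3 ⟨hx1, hx4⟩) (hspec _ he')
  obtain ⟨-, h4⟩ := marked_in_block hE hb hP (fun y hy => (hn' hy).1)
  apply h4
  refine (hfin 0).subset ?_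
  rintro x ⟨hx1, hx2⟩
  refine ⟨hx2, ?_⟩
  have h3 : x ∈ (Subtype.val ⁻¹' O : Set ↥P) := (hn' hx1).2.1
  rwa [hOS] at h3

include hE hb in
theorem special_to_special (F : OnePoint ℂ ≃ₜ OnePoint ℂ) (hF : F '' EB E = EB E)
    {e : OnePoint ℂ} (he : e = (∞ : OnePoint ℂ) ∨ e = ((0 : ℂ) : OnePoint ℂ)) :
    F e = (∞ : OnePoint ℂ) ∨ F e = ((0 : ℂ) : OnePoint ℂ) := by
  have heE : e ∈ EB E := by
    rcases he with rfl | rfl
    · exact mem_EB_iff.2 (Or.inl rfl)
    · exact mem_EB_iff.2 (Or.inr ⟨0, ⟨0, Or.inl rfl, by simp⟩, rfl⟩)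
  by_contra hcon
  push Not at hcon
  have hFe : F e ∈ EB E := by
    rw [← hF]
    exact ⟨e, heE, rfl⟩
  -- a piece containing `F e`
  obtain ⟨n, hn⟩ : ∃ n : ℕ, F e ∈ Blk E (-(n : ℤ)) n := by
    rcases mem_EB_iff.1 hFe with h | ⟨z, hz, hz'⟩
    · exact absurd h hcon.1
    · have hz0 : z ≠ 0 := by
        rintro rfl
        exact hcon.2 hz'
      have hz1 : 0 < ‖z‖ := norm_pos_iff.2 hz0
      obtain ⟨N, hN⟩ := (tendsto_rad_atTop.eventually_gt_atTop (max ‖z‖ (1 / ‖z‖))).exists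
      refine ⟨N, ?_⟩
      rw [hz']
      refine ⟨z, ⟨hz, ?_, lt_of_le_of_lt (le_max_left _ _) hN⟩, rfl⟩
      have h6 : 1 / ‖z‖ < rad N := lt_of_le_of_lt (le_max_right _ _) hN
      have h7 : 1 < ‖z‖ * rad N := by
        rwa [div_lt_iff₀ hz1, mul_comm] at h6
      have h8 := rad_neg_mul (N : ℤ)
      by_contra h9
      have h10 : ‖z‖ * rad N ≤ rad (-(N : ℤ)) * rad N :=
        mul_le_mul_of_nonneg_right (not_lt.1 h9) (rad_pos _).le
      linarith
  have hB := Blk_piece hE (-(n : ℤ)) n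
  obtain ⟨α, hα⟩ := piece_dec hE hb hB
  have hFs : F.symm '' EB E = EB E := by
    rw [← hF, ← image_comp]
    simp [hF]
  have h1 : F.symm '' Blk E (-(n : ℤ)) n ⊆ EB E := by
    rw [← hFs]
    exact image_mono hB.1
  have h2 : EB E \ F.symm '' Blk E (-(n : ℤ)) n = F.symm '' (EB E \ Blk E (-(n : ℤ)) n) := by
    rw [image_sdiff F.symm.injective, hFs]
  have h3 : e ∈ F.symm '' Blk E (-(n : ℤ)) n := ⟨F e, hn, F.symm_apply_apply e⟩
  refine special_not_index hE hb h1 (F.symm.isClosed_image.2 hB.2.1) ?_ ?_ (iota α) ?_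
  · rw [h2]
    exact F.symm.isClosed_image.2 hB.2.2.1
  · rcases he with rfl | rfl
    · exact Or.inl h3
    · exact Or.inr h3
  · rw [← IsIndex_congr (F.symm.image (Blk E (-(n : ℤ)) n))]
    exact (IsIndex_Dec hα _).2 rfl

include hE hb in
/-- homeomorphisms preserve the pair of special ends -/
theorem ends_pres (F : OnePoint ℂ ≃ₜ OnePoint ℂ) (hF : F '' EB E = EB E) :
    (F ∞ = ∞ ∧ F ((0 : ℂ) : OnePoint ℂ) = ((0 : ℂ) : OnePoint ℂ)) ∨
      (F ∞ = ((0 : ℂ) : OnePoint ℂ) ∧ F ((0 : ℂ) : OnePoint ℂ) = ∞) := by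
  have h1 := special_to_special hE hb F hF (e := (∞ : OnePoint ℂ)) (Or.inl rfl)
  have h2 := special_to_special hE hb F hF (e := ((0 : ℂ) : OnePoint ℂ)) (Or.inr rfl)
  have h3 : F ∞ ≠ F ((0 : ℂ) : OnePoint ℂ) := by
    intro h
    exact OnePoint.infty_ne_coe _ (F.injective h)
  rcases h1 with h1 | h1
  · rcases h2 with h2 | h2
    · exact absurd (h1.trans h2.symm) h3
    · exact Or.inl ⟨h1, h2⟩
  · rcases h2 with h2 | h2
    · exact Or.inr ⟨h1, h2⟩
    · exact absurd (h1.trans h2.symm) h3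

end Ends72
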