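import Mathlib

/-! TASK J4: the back-and-forth lemma for compact totally disconnected spaces. -/

open Set Topology

noncomputable section

namespace Ends72

/-- A compact space with a binary tree of clopen sets separating points is homeomorphic to the
space of branches of the tree whose sets are all nonempty. -/
theorem vaught_side {X : Type*} [TopologicalSpace X] [CompactSpace X] [T2Space X]
    (A : (ℕ → Bool) → ℕ → Set X) (h0 : ∀ b, A b 0 = univ)
    (hcl : ∀ b n, IsClopen (A b n))
    (hdep : ∀ b b' n, (∀ i < n, b i = b' i) → A b n = A b' n)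
    (hsub : ∀ b n, A b (n + 1) ⊆ A b n)
    (hex : ∀ b n x, x ∈ A b n → ∃ b', (∀ i < n, b' i = b i) ∧ x ∈ A b' (n + 1))
    (hdis : ∀ b b' n x, (∀ i < n, b i = b' i) → x ∈ A b (n + 1) → x ∈ A b' (n + 1) → b n = b' n)
    (hsep : ∀ x x', x ≠ x' → ∃ n, ∀ b, ¬ (x ∈ A b n ∧ x' ∈ A b n)) :
    Nonempty (X ≃ₜ {b : ℕ → Bool // ∀ n, (A b n).Nonempty}) := by
  classical
  -- uniqueness of the bits
  have huniq : ∀ n b b' x, x ∈ A b n → x ∈ A b' n → ∀ i < n, b i = b' i := by
    intro n
    induction n with
    | zero => intro b b' x _ _ i hi; omega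
    | succ n ih =>
      intro b b' x hx hx' i hi
      have h1 := ih b b' x (hsub b n hx) (hsub b' n hx')
      rcases Nat.lt_succ_iff_lt_or_eq.1 hi with h | h
      · exact h1 i h
      · rw [h]; exact hdis b b' n x h1 hx hx'
  -- existence of a branch
  have hbr : ∀ x, ∃ b : ℕ → Bool, ∀ n, x ∈ A b n := by
    intro x
    have hst : ∀ n (b : {b : ℕ → Bool // x ∈ A b n}),
        ∃ b' : {b : ℕ → Bool // x ∈ A b (n + 1)}, ∀ i < n, b'.1 i = b.1 i := by
      intro n b
      obtain ⟨b', h1, h2⟩ := hex b.1 n x b.2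
      exact ⟨⟨b', h2⟩, h1⟩
    choose g hg using hst
    let f : (n : ℕ) → {b : ℕ → Bool // x ∈ A b n} := fun n =>
      Nat.rec ⟨fun _ => true, by rw [h0]; trivial⟩ (fun n b => g n b) n
    have hf : ∀ n, f (n + 1) = g n (f n) := fun n => rfl
    have hfa : ∀ i k, (f (i + 1 + k)).1 i = (f (i + 1)).1 i := by
      intro i k
      induction k with
      | zero => rfl
      | succ k ih =>
        rw [← ih]
        have := hg (i + 1 + k) (f (i + 1 + k)) i (by omega)
        rw [← hf] at this
        exact this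
    refine ⟨fun i => (f (i + 1)).1 i, fun n => ?_⟩
    rw [hdep (fun i => (f (i + 1)).1 i) (f n).1 n]
    · exact (f n).2
    · intro i hi
      obtain ⟨k, rfl⟩ : ∃ k, n = i + 1 + k := ⟨n - (i + 1), by omega⟩
      exact (hfa i k).symm
  choose β hβ using hbr
  have hmem : ∀ x n, (A (β x) n).Nonempty := fun x n => ⟨x, hβ x n⟩
  have hcont : Continuous fun x => (⟨β x, hmem x⟩ : {b : ℕ → Bool // ∀ n, (A b n).Nonempty}) := by
    refine Continuous.subtype_mk ?_ _
    refine continuous_pi fun n => ?_
    refine IsLocallyConstant.continuous ?_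
    rw [IsLocallyConstant.iff_eventually_eq]
    intro x
    filter_upwards [(hcl (β x) (n + 1)).isOpen.mem_nhds (hβ x (n + 1))] with y hy
    exact huniq (n + 1) (β y) (β x) y (hβ y (n + 1)) hy n (by omega)
  have hinj : Function.Injective
      fun x => (⟨β x, hmem x⟩ : {b : ℕ → Bool // ∀ n, (A b n).Nonempty}) := by
    intro x x' h
    by_contra hne
    obtain ⟨n, hn⟩ := hsep x x' hne
    have hb : β x = β x' := congrArg Subtype.val h
    exact hn (β x) ⟨hβ x n, by rw [hb]; exact hβ x' n⟩
  have hanti : ∀ b, Antitone (A b) := fun b => antitone_nat_of_succ_le (hsub b)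
  have hsurj : Function.Surjective
      fun x => (⟨β x, hmem x⟩ : {b : ℕ → Bool // ∀ n, (A b n).Nonempty}) := by
    rintro ⟨b, hb⟩
    obtain ⟨x, hx⟩ := IsCompact.nonempty_iInter_of_sequence_nonempty_isCompact_isClosed (A b)
      (fun n => hsub b n) hb (hcl b 0).isClosed.isCompact (fun n => (hcl b n).isClosed)
    rw [mem_iInter] at hx
    refine ⟨x, ?_⟩
    apply Subtype.ext
    funext n
    exact huniq (n + 1) (β x) b x (hβ x (n + 1)) (hx (n + 1)) n (by omega)
  exact ⟨hcont.homeoOfEquivCompactToT2 (f := Equiv.ofBijective _ ⟨hinj, hsurj⟩)⟩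

theorem vaught {X Y : Type*} [TopologicalSpace X] [TopologicalSpace Y] [CompactSpace X]
    [CompactSpace Y] [T2Space X] [T2Space Y] [TotallyDisconnectedSpace X]
    [TotallyDisconnectedSpace Y] [SecondCountableTopology X] [SecondCountableTopology Y]
    (R : Set X → Set Y → Prop) (h0 : R univ univ)
    (hne : ∀ A B, R A B → (A.Nonempty ↔ B.Nonempty))
    (forth : ∀ A B, IsClopen A → IsClopen B → R A B → ∀ A₁ A₂, IsClopen A₁ → IsClopen A₂ →
      Disjoint A₁ A₂ → A₁ ∪ A₂ = A → ∃ B₁ B₂, IsClopen B₁ ∧ IsClopen B₂ ∧ Disjoint B₁ B₂ ∧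
        B₁ ∪ B₂ = B ∧ R A₁ B₁ ∧ R A₂ B₂)
    (back : ∀ A B, IsClopen A → IsClopen B → R A B → ∀ B₁ B₂, IsClopen B₁ → IsClopen B₂ →
      Disjoint B₁ B₂ → B₁ ∪ B₂ = B → ∃ A₁ A₂, IsClopen A₁ ∧ IsClopen A₂ ∧ Disjoint A₁ A₂ ∧
        A₁ ∪ A₂ = A ∧ R A₁ B₁ ∧ R A₂ B₂) :
    Nonempty (X ≃ₜ Y) := by
  classical
  have : Countable (TopologicalSpace.Clopens X) :=
    TopologicalSpace.Clopens.countable_iff_secondCountable.2 inferInstance
  have : Countable (TopologicalSpace.Clopens Y) :=
    TopologicalSpace.Clopens.countable_iff_secondCountable.2 inferInstance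
  obtain ⟨U, hU⟩ := exists_surjective_nat (TopologicalSpace.Clopens X)
  obtain ⟨V, hV⟩ := exists_surjective_nat (TopologicalSpace.Clopens Y)
  let N := {p : Set X × Set Y // IsClopen p.1 ∧ IsClopen p.2 ∧ R p.1 p.2}
  have hstep : ∀ (n : ℕ) (p : N), ∃ q : Bool → N,
      (q true).1.1 ∪ (q false).1.1 = p.1.1 ∧ Disjoint (q true).1.1 (q false).1.1 ∧
      (q true).1.2 ∪ (q false).1.2 = p.1.2 ∧ Disjoint (q true).1.2 (q false).1.2 ∧
      (n % 2 = 0 → (q true).1.1 ⊆ (U (n / 2) : Set X) ∧
        Disjoint (q false).1.1 (U (n / 2) : Set X)) ∧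
      (n % 2 = 1 → (q true).1.2 ⊆ (V (n / 2) : Set Y) ∧
        Disjoint (q false).1.2 (V (n / 2) : Set Y)) := by
    intro n p
    obtain ⟨⟨A, B⟩, hA, hB, hR⟩ := p
    rcases Nat.mod_two_eq_zero_or_one n with hn | hn
    · obtain ⟨B₁, B₂, hB₁, hB₂, hd, hu, hR₁, hR₂⟩ := forth A B hA hB hR
        (A ∩ U (n / 2)) (A \ U (n / 2)) (hA.inter (U (n / 2)).isClopen)
        (hA.diff (U (n / 2)).isClopen) disjoint_sdiff_inter.symm (inter_union_sdiff _ _)
      refine ⟨fun c => if c then ⟨(A ∩ U (n / 2), B₁), hA.inter (U (n / 2)).isClopen, hB₁, hR₁⟩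
        else ⟨(A \ U (n / 2), B₂), hA.diff (U (n / 2)).isClopen, hB₂, hR₂⟩, ?_, ?_, ?_, ?_, ?_, ?_⟩
      · simp
      · simpa using disjoint_sdiff_inter.symm
      · simpa using hu
      · simpa using hd
      · intro _
        simp only [if_true, Bool.false_eq_true, if_false]
        exact ⟨inter_subset_right, disjoint_sdiff_left⟩
      · intro h; omega
    · obtain ⟨A₁, A₂, hA₁, hA₂, hd, hu, hR₁, hR₂⟩ := back A B hA hB hR
        (B ∩ V (n / 2)) (B \ V (n / 2)) (hB.inter (V (n / 2)).isClopen)
        (hB.diff (V (n / 2)).isClopen) disjoint_sdiff_inter.symm (inter_union_sdiff _ _)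
      refine ⟨fun c => if c then ⟨(A₁, B ∩ V (n / 2)), hA₁, hB.inter (V (n / 2)).isClopen, hR₁⟩
        else ⟨(A₂, B \ V (n / 2)), hA₂, hB.diff (V (n / 2)).isClopen, hR₂⟩, ?_, ?_, ?_, ?_, ?_, ?_⟩
      · simpa using hu
      · simpa using hd
      · simp
      · simpa using disjoint_sdiff_inter.symm
      · intro h; omega
      · intro _
        simp only [if_true, Bool.false_eq_true, if_false]
        exact ⟨inter_subset_right, disjoint_sdiff_left⟩
  choose step s1 s2 s3 s4 s5 s6 using hstep
  let root : N := ⟨(univ, univ), isClopen_univ, isClopen_univ, h0⟩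
  let P : (ℕ → Bool) → ℕ → N := fun b n => Nat.rec root (fun n p => step n p (b n)) n
  have P0 : ∀ b, P b 0 = root := fun b => rfl
  have PS : ∀ b n, P b (n + 1) = step n (P b n) (b n) := fun b n => rfl
  have hdep : ∀ b b' n, (∀ i < n, b i = b' i) → P b n = P b' n := by
    intro b b' n
    induction n with
    | zero => intro _; rfl
    | succ n ih =>
      intro h
      rw [PS, PS, ih (fun i hi => h i (by omega)), h n (by omega)]
  have hX : Nonempty (X ≃ₜ {b : ℕ → Bool // ∀ n, ((P b n).1.1).Nonempty}) := by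
    refine vaught_side (fun b n => (P b n).1.1) (fun b => rfl) (fun b n => (P b n).2.1)
      (fun b b' n h => by simp only [hdep b b' n h]) ?_ ?_ ?_ ?_
    · intro b n
      show (P b (n + 1)).1.1 ⊆ (P b n).1.1
      rw [PS, ← s1 n (P b n)]
      cases b n
      · exact subset_union_right
      · exact subset_union_left
    · intro b n x hx
      have hx' : x ∈ (P b n).1.1 := hx
      rw [← s1 n (P b n)] at hx'
      rcases hx' with h | h
      · refine ⟨Function.update b n true, fun i hi => Function.update_of_ne (by omega) _ _, ?_⟩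
        show x ∈ (P _ (n + 1)).1.1
        rw [PS, hdep (Function.update b n true) b n
          (fun i hi => Function.update_of_ne (by omega) _ _), Function.update_self]
        exact h
      · refine ⟨Function.update b n false, fun i hi => Function.update_of_ne (by omega) _ _, ?_⟩
        show x ∈ (P _ (n + 1)).1.1
        rw [PS, hdep (Function.update b n false) b n
          (fun i hi => Function.update_of_ne (by omega) _ _), Function.update_self]
        exact h
    · intro b b' n x hi hx hx'
      have hx1 : x ∈ (P b (n + 1)).1.1 := hx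
      have hx2 : x ∈ (P b' (n + 1)).1.1 := hx'
      rw [PS] at hx1 hx2
      rw [← hdep b b' n hi] at hx2
      by_contra hne'
      have hd := s2 n (P b n)
      rw [Set.disjoint_left] at hd
      cases hb : b n <;> cases hb' : b' n <;> simp [hb, hb'] at hx1 hx2 hne'
      · exact hd hx2 hx1
      · exact hd hx1 hx2
    · intro x x' hxx
      obtain ⟨C, hC, hxC, hxC'⟩ := exists_isClopen_of_totally_separated hxx
      obtain ⟨k, hk⟩ := hU ⟨C, hC⟩
      refine ⟨2 * k + 1, fun b => ?_⟩
      rintro ⟨h1, h2⟩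
      have h1' : x ∈ (P b (2 * k + 1)).1.1 := h1
      have h2' : x' ∈ (P b (2 * k + 1)).1.1 := h2
      rw [PS] at h1' h2'
      have h5 := s5 (2 * k) (P b (2 * k)) (by omega)
      have hk2 : 2 * k / 2 = k := by omega
      rw [hk2, hk] at h5
      cases hb : b (2 * k)
      · rw [hb] at h1' h2'
        exact Set.disjoint_left.1 h5.2 h1' hxC
      · rw [hb] at h1' h2'
        exact hxC' (h5.1 h2')
  have hY : Nonempty (Y ≃ₜ {b : ℕ → Bool // ∀ n, ((P b n).1.2).Nonempty}) := by
    refine vaught_side (fun b n => (P b n).1.2) (fun b => rfl) (fun b n => (P b n).2.2.1)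
      (fun b b' n h => by simp only [hdep b b' n h]) ?_ ?_ ?_ ?_
    · intro b n
      show (P b (n + 1)).1.2 ⊆ (P b n).1.2
      rw [PS, ← s3 n (P b n)]
      cases b n
      · exact subset_union_right
      · exact subset_union_left
    · intro b n x hx
      have hx' : x ∈ (P b n).1.2 := hx
      rw [← s3 n (P b n)] at hx'
      rcases hx' with h | h
      · refine ⟨Function.update b n true, fun i hi => Function.update_of_ne (by omega) _ _, ?_⟩
        show x ∈ (P _ (n + 1)).1.2
        rw [PS, hdep (Function.update b n true) b n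
          (fun i hi => Function.update_of_ne (by omega) _ _), Function.update_self]
        exact h
      · refine ⟨Function.update b n false, fun i hi => Function.update_of_ne (by omega) _ _, ?_⟩
        show x ∈ (P _ (n + 1)).1.2
        rw [PS, hdep (Function.update b n false) b n
          (fun i hi => Function.update_of_ne (by omega) _ _), Function.update_self]
        exact h
    · intro b b' n x hi hx hx'
      have hx1 : x ∈ (P b (n + 1)).1.2 := hx
      have hx2 : x ∈ (P b' (n + 1)).1.2 := hx'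
      rw [PS] at hx1 hx2
      rw [← hdep b b' n hi] at hx2
      by_contra hne'
      have hd := s4 n (P b n)
      rw [Set.disjoint_left] at hd
      cases hb : b n <;> cases hb' : b' n <;> simp [hb, hb'] at hx1 hx2 hne'
      · exact hd hx2 hx1
      · exact hd hx1 hx2
    · intro x x' hxx
      obtain ⟨C, hC, hxC, hxC'⟩ := exists_isClopen_of_totally_separated hxx
      obtain ⟨k, hk⟩ := hV ⟨C, hC⟩
      refine ⟨2 * k + 2, fun b => ?_⟩
      rintro ⟨h1, h2⟩
      have h1' : x ∈ (P b (2 * k + 1 + 1)).1.2 := h1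
      have h2' : x' ∈ (P b (2 * k + 1 + 1)).1.2 := h2
      rw [PS] at h1' h2'
      have h6 := s6 (2 * k + 1) (P b (2 * k + 1)) (by omega)
      have hk2 : (2 * k + 1) / 2 = k := by omega
      rw [hk2, hk] at h6
      cases hb : b (2 * k + 1)
      · rw [hb] at h1' h2'
        exact Set.disjoint_left.1 h6.2 h1' hxC
      · rw [hb] at h1' h2'
        exact hxC' (h6.1 h2')
  obtain ⟨eX⟩ := hX
  obtain ⟨eY⟩ := hY
  have heq : ∀ b : ℕ → Bool, (∀ n, ((P b n).1.1).Nonempty) ↔ (∀ n, ((P b n).1.2).Nonempty) :=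
    fun b => forall_congr' fun n => hne _ _ (P b n).2.2.2
  exact ⟨eX.trans ((Homeomorph.subtype (Homeomorph.refl (ℕ → Bool)) heq).trans eY.symm)⟩

end Ends72
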