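import Pool.Agent.LibEnds72.ClopenDec
import Pool.Agent.LibEnds72.Vaught
import Pool.Agent.LibEnds72.Split

/-! TASK J6: related multisets have homeomorphic path spaces. -/

open Set Topology

noncomputable section

namespace Ends72

open T

theorem Dec_nonempty {X : Type*} [TopologicalSpace X] {α : Multiset T} (h : Dec X α) :
    Nonempty X ↔ α ≠ 0 := by
  obtain ⟨l, rfl, ⟨e⟩⟩ := h
  constructor
  · rintro ⟨x⟩ h0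
    have h1 : l = [] := by simpa using h0
    subst h1
    exact XL_nil.elim (e x)
  · intro h0
    cases l with
    | nil => exact absurd rfl h0
    | cons v l => exact ⟨e.symm ⟨⟨0, by simp⟩, Classical.arbitrary _⟩⟩

theorem forth_aux {X Y : Type*} [TopologicalSpace X] [TopologicalSpace Y] {A A₁ A₂ : Set X}
    {B : Set Y} (hB : IsClopen B) (hA₁ : IsClopen A₁) (hA₂ : IsClopen A₂)
    (hd : Disjoint A₁ A₂) (hA : A₁ ∪ A₂ = A)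
    {α β : Multiset T} (h1 : Dec ↥A α) (h2 : Dec ↥B β) (hr : Rel α β) :
    ∃ B₁ B₂, IsClopen B₁ ∧ IsClopen B₂ ∧ Disjoint B₁ B₂ ∧ B₁ ∪ B₂ = B ∧
      (∃ α β, Dec ↥A₁ α ∧ Dec ↥B₁ β ∧ Rel α β) ∧ ∃ α β, Dec ↥A₂ α ∧ Dec ↥B₂ β ∧ Rel α β := by
  subst hA
  obtain ⟨α₁, α₂, hu, hα₁, hα₂⟩ := Dec_split hA₁.1 hA₂.1 hd h1
  obtain ⟨β₁, β₂, hv, r₁, r₂⟩ := Rel_split (Rel_unf hr hu)
  obtain ⟨B₁, B₂, hB₁, hB₂, hBd, hBu, hβ₁, hβ₂⟩ := Dec_realise hB.1 h2 hv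
  have e₁ : B₁ = B ∩ B₂ᶜ := by
    rw [← hBu, union_inter_distrib_right, inter_compl_self, union_empty]
    exact (inter_eq_left.mpr (disjoint_left.mp hBd)).symm
  have e₂ : B₂ = B ∩ B₁ᶜ := by
    rw [← hBu, union_inter_distrib_right, inter_compl_self, empty_union]
    exact (inter_eq_left.mpr (disjoint_left.mp hBd.symm)).symm
  refine ⟨B₁, B₂, ⟨hB₁, ?_⟩, ⟨hB₂, ?_⟩, hBd, hBu, ⟨α₁, β₁, hα₁, hβ₁, r₁⟩,
    ⟨α₂, β₂, hα₂, hβ₂, r₂⟩⟩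
  · rw [e₁]
    exact hB.2.inter hB₂.isOpen_compl
  · rw [e₂]
    exact hB.2.inter hB₁.isOpen_compl

theorem homeo_of_Rel {l₁ l₂ : List T} (h : Rel (l₁ : Multiset T) (l₂ : Multiset T)) :
    Nonempty (XL l₁ ≃ₜ XL l₂) := by
  refine vaught (fun A B => ∃ α β, Dec ↥A α ∧ Dec ↥B β ∧ Rel α β) ?_ ?_ ?_ ?_
  · exact ⟨l₁, l₂, ⟨l₁, rfl, ⟨Homeomorph.Set.univ _⟩⟩, ⟨l₂, rfl, ⟨Homeomorph.Set.univ _⟩⟩, h⟩
  · rintro A B ⟨α, β, hA, hB, hr⟩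
    rw [← nonempty_coe_sort, ← nonempty_coe_sort, Dec_nonempty hA, Dec_nonempty hB, Ne, Ne,
      Rel_zero hr]
  · rintro A B - hB ⟨α, β, h1, h2, hr⟩ A₁ A₂ hA₁ hA₂ hd hA
    exact forth_aux hB hA₁ hA₂ hd hA h1 h2 hr
  · rintro A B hA - ⟨α, β, h1, h2, hr⟩ B₁ B₂ hB₁ hB₂ hd hB
    obtain ⟨A₁, A₂, k1, k2, k3, k4, ⟨α₁, β₁, k5, k6, k7⟩, α₂, β₂, k8, k9, k10⟩ :=
      forth_aux hA hB₁ hB₂ hd hB h2 h1 (Rel_symm hr)
    exact ⟨A₁, A₂, k1, k2, k3, k4, ⟨β₁, α₁, k6, k5, Rel_symm k7⟩, β₂, α₂, k9, k8, Rel_symm k10⟩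

/-- The classification theorem used in the geometric part. -/
theorem homeo_of_Dec {X Y : Type*} [TopologicalSpace X] [TopologicalSpace Y] {α β : Multiset T}
    (h1 : Dec X α) (h2 : Dec Y β) (s1 : hasS α) (t1 : t ∈ α) (s2 : hasS β) (t2 : t ∈ β)
    (hi : iota α = iota β) : Nonempty (X ≃ₜ Y) := by
  obtain ⟨l₁, rfl, ⟨e₁⟩⟩ := h1
  obtain ⟨l₂, rfl, ⟨e₂⟩⟩ := h2
  have hr : Rel (l₁ : Multiset T) (l₂ : Multiset T) :=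
    ⟨⟨fun _ => s2, fun _ => s1⟩, ⟨fun _ => t2, fun _ => t1⟩, fun h => absurd s1 h,
      fun _ h => absurd t1 h, fun h => absurd s1 h, fun _ _ => hi⟩
  obtain ⟨e⟩ := homeo_of_Rel hr
  exact ⟨(e₁.trans e).trans e₂.symm⟩

end Ends72
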