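import Pool.Agent.LibEnds72.ExistsE
import Pool.Agent.LibEnds72.Ext
import Pool.Agent.LibEnds72.Index
import Pool.Agent.LibEnds72.TT

/-! TASK L0: compact open pieces of the set of ends, first part. -/

open Set Topology Metric

noncomputable section

namespace Ends72

open T OnePoint

/-- A piece: a clopen subset of the set of ends which does not contain the two special ends. -/
def IsPiece (E : Set ℝ) (P : Set (OnePoint ℂ)) : Prop :=
  P ⊆ EB E ∧ IsClosed P ∧ IsClosed (EB E \ P) ∧ (∞ : OnePoint ℂ) ∉ P ∧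
    ((0 : ℂ) : OnePoint ℂ) ∉ P

/-- the ends between two gap circles -/
def Blk (E : Set ℝ) (m n : ℤ) : Set (OnePoint ℂ) := (↑) '' (EC E ∩ Ann (rad m) (rad n))

theorem rad_pos (n : ℤ) : 0 < rad n := by
  unfold rad
  positivity

theorem rad_strictMono : StrictMono rad := by
  intro m n h
  unfold rad
  have : (4 : ℝ) ^ m < 4 ^ n := zpow_lt_zpow_right₀ (by norm_num) h
  linarith

theorem rad_succ (n : ℤ) : rad (n + 1) = 4 * rad n := by
  unfold rad
  rw [zpow_add_one₀ (by norm_num)]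
  ring

theorem scale_zpow {E : Set ℝ} (hE : EGap E) (n : ℤ) (x : ℝ) : (4 : ℝ) ^ n * x ∈ E ↔ x ∈ E := by
  induction n using Int.induction_on with
  | zero => simp
  | succ i ih =>
    rw [zpow_add_one₀ (by norm_num), mul_comm ((4 : ℝ) ^ (i : ℤ)) 4, mul_assoc, hE.scale, ih]
  | pred i ih =>
    rw [← hE.scale, ← mul_assoc, ← ih]
    have : (4 : ℝ) * 4 ^ (-(i : ℤ) - 1) = 4 ^ (-(i : ℤ)) := by
      rw [mul_comm, ← zpow_add_one₀ (by norm_num)]
      congr 1
      ring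
    rw [this]

/-- the gaps of `E` -/
theorem gap_zpow {E : Set ℝ} (hE : EGap E) (n : ℤ) {x : ℝ} (hx : x ∈ E)
    (h1 : 2 * (4 : ℝ) ^ n < x) (h2 : x < 4 * 4 ^ n) : False := by
  have h4 : (0 : ℝ) < 4 ^ n := by positivity
  have h5 : (4 : ℝ) ^ (-n) * x ∈ E := (scale_zpow hE (-n) x).2 hx
  have h6 : (4 : ℝ) ^ (-n) = (4 ^ n)⁻¹ := zpow_neg 4 n
  rw [h6] at h5
  refine hE.gap _ h5 ⟨?_, ?_⟩
  · rw [← div_eq_inv_mul, lt_div_iff₀ h4]
    exact h1
  · rw [← div_eq_inv_mul, div_lt_iff₀ h4]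
    exact h2

/-- between `4^n/2` and `4^n` there is no point of `E` -/
theorem gap_zpow' {E : Set ℝ} (hE : EGap E) (n : ℤ) {x : ℝ} (hx : x ∈ E)
    (h1 : (4 : ℝ) ^ n / 2 < x) (h2 : x < 4 ^ n) : False := by
  have h3 : (4 : ℝ) ^ n = 4 * 4 ^ (n - 1) := by
    rw [mul_comm, ← zpow_add_one₀ (by norm_num)]
    congr 1
    ring
  refine gap_zpow hE (n - 1) hx ?_ ?_
  · rw [h3] at h1
    linarith
  · rw [h3] at h2
    exact h2

theorem rad_notMem {E : Set ℝ} (hE : EGap E) (n : ℤ) : rad n ∉ E := by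
  intro h
  have h4 : (0 : ℝ) < 4 ^ n := by positivity
  refine gap_zpow' hE n h ?_ ?_ <;> unfold rad <;> linarith

theorem norm_of_mem_EC {E : Set ℝ} (hE : EGap E) {z : ℂ} (hz : z ∈ EC E) :
    ‖z‖ ∈ insert 0 E ∧ z = ((‖z‖ : ℝ) : ℂ) := by
  obtain ⟨x, hx, rfl⟩ := hz
  have h0 := EC_nonneg hE hx
  have : ‖((x : ℝ) : ℂ)‖ = x := by
    rw [Complex.norm_real, Real.norm_eq_abs, abs_of_nonneg h0]
  rw [this]
  exact ⟨hx, rfl⟩

theorem norm_ne_rad {E : Set ℝ} (hE : EGap E) {z : ℂ} (hz : z ∈ EC E) (n : ℤ) :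
    ‖z‖ ≠ rad n := by
  intro h
  rcases (norm_of_mem_EC hE hz).1 with h1 | h1
  · have := rad_pos n
    linarith
  · exact rad_notMem hE n (h ▸ h1)

theorem Ann_open (r s : ℝ) : IsOpen (Ann r s) :=
  (isOpen_lt continuous_const continuous_norm).inter (isOpen_lt continuous_norm continuous_const)

theorem EC_Ann_compact {E : Set ℝ} (hE : EGap E) (m n : ℤ) :
    IsCompact (EC E ∩ Ann (rad m) (rad n)) := by
  have : EC E ∩ Ann (rad m) (rad n) = EC E ∩ ({z | rad m ≤ ‖z‖} ∩ closedBall 0 (rad n)) := by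
    ext z
    constructor
    · rintro ⟨h1, h2, h3⟩
      exact ⟨h1, le_of_lt h2, by simpa using le_of_lt h3⟩
    · rintro ⟨h1, h2, h3⟩
      have h3' : ‖z‖ ≤ rad n := by simpa using h3
      have h2' : rad m ≤ ‖z‖ := h2
      exact ⟨h1, lt_of_le_of_ne h2' (norm_ne_rad hE h1 m).symm,
        lt_of_le_of_ne h3' (norm_ne_rad hE h1 n)⟩
  rw [this, ← inter_assoc, inter_comm]
  exact (isCompact_closedBall 0 (rad n)).inter_right
    ((EC_closed hE).inter (isClosed_le continuous_const continuous_norm))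

theorem mem_EB_iff {E : Set ℝ} {x : OnePoint ℂ} :
    x ∈ EB E ↔ x = ∞ ∨ ∃ z ∈ EC E, x = (z : OnePoint ℂ) := by
  induction x using OnePoint.rec with
  | infty =>
    simp only [true_or, iff_true]
    rintro ⟨w, -, h⟩
    exact OnePoint.coe_ne_infty _ h
  | coe z =>
    constructor
    · intro h
      right
      refine ⟨z, ?_, rfl⟩
      by_contra h'
      exact h ⟨z, h', rfl⟩
    · rintro (h | ⟨w, hw, h⟩)
      · exact absurd h (OnePoint.coe_ne_infty _)
      · rintro ⟨v, hv, hvz⟩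
        have e1 : z = w := OnePoint.coe_injective h
        have e2 : v = z := OnePoint.coe_injective hvz
        exact hv (by rw [e2, e1]; exact hw)

theorem EB_closed {E : Set ℝ} (hE : EGap E) : IsClosed (EB E) :=
  (OnePoint.isOpenEmbedding_coe.isOpenMap _ (UE_open hE)).isClosed_compl

theorem Blk_eq {E : Set ℝ} (m n : ℤ) :
    Blk E m n = EB E ∩ ((↑) '' Ann (rad m) (rad n) : Set (OnePoint ℂ)) := by
  ext x
  constructor
  · rintro ⟨z, ⟨h1, h2⟩, rfl⟩
    exact ⟨mem_EB_iff.2 (Or.inr ⟨z, h1, rfl⟩), ⟨z, h2, rfl⟩⟩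
  · rintro ⟨h1, ⟨z, h2, rfl⟩⟩
    rcases mem_EB_iff.1 h1 with h | ⟨w, hw, h⟩
    · exact absurd h (OnePoint.coe_ne_infty _)
    · have e1 : z = w := OnePoint.coe_injective h
      exact ⟨z, ⟨e1 ▸ hw, h2⟩, rfl⟩

theorem Blk_closed {E : Set ℝ} (hE : EGap E) (m n : ℤ) : IsClosed (Blk E m n) :=
  ((EC_Ann_compact hE m n).image OnePoint.continuous_coe).isClosed

theorem coeAnn_open (r s : ℝ) : IsOpen ((↑) '' Ann r s : Set (OnePoint ℂ)) :=
  OnePoint.isOpenEmbedding_coe.isOpenMap _ (Ann_open r s)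

theorem Blk_piece {E : Set ℝ} (hE : EGap E) (m n : ℤ) : IsPiece E (Blk E m n) := by
  refine ⟨?_, Blk_closed hE m n, ?_, ?_, ?_⟩
  · rw [Blk_eq]
    exact inter_subset_left
  · have : EB E \ Blk E m n = EB E ∩ ((↑) '' Ann (rad m) (rad n) : Set (OnePoint ℂ))ᶜ := by
      rw [Blk_eq, sdiff_self_inter, sdiff_eq]
    rw [this]
    exact (EB_closed hE).inter (coeAnn_open _ _).isClosed_compl
  · rintro ⟨w, -, h⟩
    exact OnePoint.coe_ne_infty _ h
  · rintro ⟨w, hw, h⟩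
    have e1 : w = 0 := OnePoint.coe_injective h
    have : rad m < ‖w‖ := hw.2.1
    rw [e1, norm_zero] at this
    exact absurd (rad_pos m) (not_lt.2 this.le)

theorem tendsto_rad_atTop : Filter.Tendsto (fun n : ℕ => rad n) Filter.atTop Filter.atTop := by
  unfold rad
  have : Filter.Tendsto (fun n : ℕ => (4 : ℝ) ^ n) Filter.atTop Filter.atTop :=
    tendsto_pow_atTop_atTop_of_one_lt (by norm_num)
  simpa using this.const_mul_atTop (by norm_num : (0 : ℝ) < 3 / 4)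

theorem rad_neg_mul (n : ℤ) : rad (-n) * rad n = 9 / 16 := by
  unfold rad
  rw [zpow_neg]
  have : (4 : ℝ) ^ n ≠ 0 := by positivity
  field_simp
  norm_num

/-- every piece is contained in some `Blk` -/
theorem piece_sub_Blk {E : Set ℝ} (hE : EGap E) {P : Set (OnePoint ℂ)} (hP : IsPiece E P) :
    ∃ N : ℤ, ∀ n ≥ N, P ⊆ Blk E (-n) n := by
  obtain ⟨h1, h2, h3, h4, h5⟩ := hP
  -- bounded
  have hb : ∃ R : ℝ, ∀ z : ℂ, (z : OnePoint ℂ) ∈ P → ‖z‖ ≤ R := by
    have : IsCompact ((↑) ⁻¹' P : Set ℂ) := by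
      have h6 : ((↑) '' ((↑) ⁻¹' P : Set ℂ) : Set (OnePoint ℂ)) = P := by
        rw [image_preimage_eq_iff]
        intro x hx
        induction x using OnePoint.rec with
        | infty => exact absurd hx h4
        | coe z => exact ⟨z, rfl⟩
      have h7 : IsClosed ((↑) '' ((↑) ⁻¹' P : Set ℂ) : Set (OnePoint ℂ)) := by
        rw [h6]
        exact h2
      exact (OnePoint.isClosed_image_coe.1 h7).2
    obtain ⟨R, hR⟩ := this.isBounded.exists_norm_le
    exact ⟨R, fun z hz => hR z hz⟩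
  have hs : ∃ ε : ℝ, 0 < ε ∧ ∀ z : ℂ, (z : OnePoint ℂ) ∈ P → ε ≤ ‖z‖ := by
    have h6 : IsOpen (((↑) ⁻¹' P : Set ℂ)ᶜ) := (h2.preimage OnePoint.continuous_coe).isOpen_compl
    obtain ⟨ε, hε, hε'⟩ := Metric.mem_nhds_iff.1 (h6.mem_nhds (show (0 : ℂ) ∈ _ from h5))
    refine ⟨ε, hε, fun z hz => ?_⟩
    by_contra h
    exact hε' (by simpa using h) hz
  obtain ⟨R, hR⟩ := hb
  obtain ⟨ε, hε, hεP⟩ := hs
  obtain ⟨N, hN⟩ := (tendsto_rad_atTop.eventually_gt_atTop (max R (1 / ε))).exists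
  refine ⟨N, fun n hn => ?_⟩
  have hr1 : max R (1 / ε) < rad n := lt_of_lt_of_le hN (rad_strictMono.monotone hn)
  have hr2 : rad (-n) < ε := by
    have h6 : 1 / ε < rad n := lt_of_le_of_lt (le_max_right _ _) hr1
    have h7 : 1 < ε * rad n := by
      rwa [div_lt_iff₀ hε, mul_comm] at h6
    have h8 := rad_neg_mul n
    by_contra h9
    have h10 : ε * rad n ≤ rad (-n) * rad n :=
      mul_le_mul_of_nonneg_right (not_lt.1 h9) (rad_pos n).le
    linarith
  intro x hx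
  rcases mem_EB_iff.1 (h1 hx) with h | ⟨z, hz, rfl⟩
  · exact absurd (h ▸ hx) h4
  · refine ⟨z, ⟨hz, lt_of_lt_of_le hr2 (hεP z hx), ?_⟩, rfl⟩
    exact lt_of_le_of_lt (hR z hx) (lt_of_le_of_lt (le_max_left _ _) hr1)

theorem Blk_union {E : Set ℝ} (hE : EGap E) {l m n : ℤ} (h1 : l ≤ m) (h2 : m ≤ n) :
    Blk E l n = Blk E l m ∪ Blk E m n := by
  unfold Blk
  rw [← image_union]
  congr 1
  ext z
  constructor
  · rintro ⟨hz, h3, h4⟩
    rcases lt_or_gt_of_ne (norm_ne_rad hE hz m) with h | h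
    · exact Or.inl ⟨hz, h3, h⟩
    · exact Or.inr ⟨hz, h, h4⟩
  · rintro (⟨hz, h3, h4⟩ | ⟨hz, h3, h4⟩)
    · exact ⟨hz, h3, lt_of_lt_of_le h4 (rad_strictMono.monotone h2)⟩
    · exact ⟨hz, lt_of_le_of_lt (rad_strictMono.monotone h1) h3, h4⟩

theorem Blk_disjoint {E : Set ℝ} {l m n : ℤ} : Disjoint (Blk E l m) (Blk E m n) := by
  rw [Set.disjoint_left]
  rintro _ ⟨z, ⟨-, -, h1⟩, rfl⟩ ⟨w, ⟨-, h2, -⟩, h⟩
  have e1 : w = z := OnePoint.coe_injective h
  rw [e1] at h2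
  exact lt_asymm h1 h2

theorem Blk_empty {E : Set ℝ} {m n : ℤ} (h : n ≤ m) : Blk E m n = ∅ := by
  rw [eq_empty_iff_forall_notMem]
  rintro _ ⟨z, ⟨-, h1, h2⟩, rfl⟩
  have := rad_strictMono.monotone h
  linarith

variable {E : Set ℝ} (hE : EGap E) (hb : Nonempty (↥(E ∩ Icc 1 2) ≃ₜ XL blk))

include hE hb in
theorem Blk_dec (n : ℤ) : Dec ↥(Blk E n (n + 1)) (blk : Multiset T) := by
  have hc : IsCompact (E ∩ Icc 1 2) := by
    have : E ∩ Icc 1 2 = insert 0 E ∩ Icc 1 2 := by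
      ext x
      constructor
      · rintro ⟨h1, h2⟩
        exact ⟨Or.inr h1, h2⟩
      · rintro ⟨h1 | h1, h2⟩
        · rw [h1] at h2
          exact absurd h2.1 (by norm_num)
        · exact ⟨h1, h2⟩
    rw [this, inter_comm]
    exact isCompact_Icc.inter_right hE.closed
  have : CompactSpace ↥(E ∩ Icc 1 2) := isCompact_iff_compactSpace.1 hc
  let φ : ↥(E ∩ Icc 1 2) → OnePoint ℂ := fun x => (((4 : ℝ) ^ n * (x : ℝ) : ℝ) : ℂ)
  have h4 : (0 : ℝ) < 4 ^ n := by positivity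
  have hφc : Continuous φ := by
    refine OnePoint.continuous_coe.comp (Complex.continuous_ofReal.comp ?_)
    exact continuous_const.mul continuous_subtype_val
  have hφi : Function.Injective φ := by
    intro x y hxy
    have h1 := OnePoint.coe_injective hxy
    have h2 := Complex.ofReal_injective h1
    exact Subtype.ext (mul_left_cancel₀ h4.ne' h2)
  have hφr : range φ = Blk E n (n + 1) := by
    ext x
    constructor
    · rintro ⟨⟨y, hy1, hy2⟩, rfl⟩
      have hy : 0 ≤ (4 : ℝ) ^ n * y := mul_nonneg h4.le (by linarith [hy2.1])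
      refine ⟨_, ⟨⟨(4 : ℝ) ^ n * y, Or.inr ((scale_zpow hE n y).2 hy1), rfl⟩, ?_, ?_⟩, rfl⟩
      · rw [Complex.norm_real, Real.norm_eq_abs, abs_of_nonneg hy]
        unfold rad
        nlinarith [hy2.1]
      · rw [Complex.norm_real, Real.norm_eq_abs, abs_of_nonneg hy, rad_succ]
        unfold rad
        nlinarith [hy2.2]
    · rintro ⟨z, ⟨hz, h1, h2⟩, rfl⟩
      obtain ⟨h3, h5⟩ := norm_of_mem_EC hE hz
      have h3' : ‖z‖ ∈ E := by
        rcases h3 with h3 | h3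
        · have := rad_pos n
          rw [h3] at h1
          exact absurd this (not_lt.2 h1.le)
        · exact h3
      rw [rad_succ] at h2
      unfold rad at h1 h2
      have h6 : (4 : ℝ) ^ n ≤ ‖z‖ := by
        by_contra h
        exact gap_zpow' hE n h3' (by linarith) (not_le.1 h)
      have h7 : ‖z‖ ≤ 2 * (4 : ℝ) ^ n := by
        by_contra h
        exact gap_zpow hE n h3' (not_le.1 h) (by linarith)
      refine ⟨⟨((4 : ℝ) ^ n)⁻¹ * ‖z‖, ?_, ?_, ?_⟩, ?_⟩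
      · rw [← scale_zpow hE n, mul_inv_cancel_left₀ h4.ne']
        exact h3'
      · rw [← div_eq_inv_mul, le_div_iff₀ h4]
        linarith
      · rw [← div_eq_inv_mul, div_le_iff₀ h4]
        exact h7
      · change ((((4 : ℝ) ^ n * (((4 : ℝ) ^ n)⁻¹ * ‖z‖) : ℝ) : ℂ) : OnePoint ℂ) = _
        rw [mul_inv_cancel_left₀ h4.ne', ← h5]
  have hemb : IsEmbedding φ := (hφc.isClosedEmbedding hφi).isEmbedding
  have h1 : Dec ↥(E ∩ Icc 1 2) (blk : Multiset T) := ⟨blk, rfl, hb⟩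
  exact Dec_congr (hemb.toHomeomorph.trans (Homeomorph.setCongr hφr)) h1

include hE hb in
theorem Blk_dec_nat (m : ℤ) (k : ℕ) : Dec ↥(Blk E m (m + k)) (k • (blk : Multiset T)) := by
  induction k with
  | zero =>
    have h1 : Blk E m (m + (0 : ℕ)) = ∅ := Blk_empty (by simp)
    rw [h1, zero_smul]
    refine ⟨[], rfl, ⟨?_⟩⟩
    have h2 : IsEmpty (XL []) := XL_nil
    exact Homeomorph.empty
  | succ k ih =>
    have h1 : Blk E m (m + ((k + 1 : ℕ) : ℤ)) = Blk E m (m + k) ∪ Blk E (m + k) (m + k + 1) := by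
      rw [← Blk_union hE (by omega) (by omega)]
      congr 1
      push_cast
      ring
    rw [h1, succ_nsmul]
    exact Dec_union (Blk_closed hE _ _) (Blk_closed hE _ _) Blk_disjoint ih (Blk_dec hE hb _)

include hE hb in
theorem piece_dec {P : Set (OnePoint ℂ)} (hP : IsPiece E P) : ∃ α, Dec ↥P α := by
  obtain ⟨N, hN⟩ := piece_sub_Blk hE hP
  obtain ⟨n, hn⟩ : ∃ n : ℕ, N ≤ n := ⟨N.toNat, Int.self_le_toNat N⟩
  have h1 := hN n hn
  have h2 : Dec ↥(Blk E (-(n : ℤ)) n) ((2 * n) • (blk : Multiset T)) := by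
    have h3 := Blk_dec_nat hE hb (-(n : ℤ)) (2 * n)
    have h4 : (-(n : ℤ) + ((2 * n : ℕ) : ℤ)) = n := by
      push_cast
      ring
    rwa [h4] at h3
  have h3 : Blk E (-(n : ℤ)) n = P ∪ (Blk E (-(n : ℤ)) n \ P) := by
    rw [union_sdiff_cancel h1]
  rw [h3] at h2
  have h5 : IsClosed (Blk E (-(n : ℤ)) n \ P) := by
    have : Blk E (-(n : ℤ)) n \ P = Blk E (-(n : ℤ)) n ∩ (EB E \ P) := by
      ext x
      constructor
      · rintro ⟨hx1, hx2⟩
        exact ⟨hx1, (Blk_piece hE _ _).1 hx1, hx2⟩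
      · rintro ⟨hx1, -, hx2⟩
        exact ⟨hx1, hx2⟩
    rw [this]
    exact (Blk_closed hE _ _).inter hP.2.2.1
  obtain ⟨β, γ, -, h6, -⟩ := Dec_split hP.2.1 h5 disjoint_sdiff_right h2
  exact ⟨β, h6⟩

include hE hb in
theorem piece_add {P Q : Set (OnePoint ℂ)} (hP : IsPiece E P) (hQ : IsPiece E Q)
    (hd : Disjoint P Q) : idx ↥(P ∪ Q) = idx ↥P + idx ↥Q := by
  obtain ⟨α, hα⟩ := piece_dec hE hb hP
  obtain ⟨β, hβ⟩ := piece_dec hE hb hQ
  rw [idx_Dec hα, idx_Dec hβ, idx_Dec (Dec_union hP.2.1 hQ.2.1 hd hα hβ), iota_add]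

theorem iota_blk : iota (blk : Multiset T) = 1 := by
  simp [iota, blk, val]

theorem iota_nsmul_blk (k : ℕ) : iota (k • (blk : Multiset T)) = k := by
  induction k with
  | zero => simp [iota]
  | succ k ih =>
    rw [succ_nsmul, iota_add, ih, iota_blk]
    push_cast
    rfl

include hE hb in
theorem idx_Blk {m n : ℤ} (h : m ≤ n) : idx ↥(Blk E m n) = n - m := by
  obtain ⟨k, rfl⟩ : ∃ k : ℕ, n = m + k := ⟨(n - m).toNat, by omega⟩
  rw [idx_Dec (Blk_dec_nat hE hb m k), iota_nsmul_blk]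
  ring

theorem piece_diff {P Q : Set (OnePoint ℂ)} (hP : IsPiece E P) (hQ : IsPiece E Q) :
    IsPiece E (P \ Q) := by
  obtain ⟨h1, h2, h3, h4, h5⟩ := hP
  obtain ⟨k1, k2, k3, k4, k5⟩ := hQ
  refine ⟨fun x hx => h1 hx.1, ?_, ?_, fun h => h4 h.1, fun h => h5 h.1⟩
  · have : P \ Q = P ∩ (EB E \ Q) := by
      ext x
      constructor
      · rintro ⟨hx1, hx2⟩
        exact ⟨hx1, h1 hx1, hx2⟩
      · rintro ⟨hx1, -, hx2⟩
        exact ⟨hx1, hx2⟩
    rw [this]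
    exact h2.inter k3
  · have : EB E \ (P \ Q) = (EB E \ P) ∪ Q := by
      ext x
      constructor
      · rintro ⟨hx1, hx2⟩
        by_cases hx : x ∈ Q
        · exact Or.inr hx
        · exact Or.inl ⟨hx1, fun h => hx2 ⟨h, hx⟩⟩
      · rintro (⟨hx1, hx2⟩ | hx)
        · exact ⟨hx1, fun h => hx2 h.1⟩
        · exact ⟨k1 hx, fun h => h.2 hx⟩
    rw [this]
    exact h3.union k2

theorem hasS_blk : hasS (blk : Multiset T) := ⟨s 0, by simp [blk], trivial⟩

theorem hasT_blk : t ∈ (blk : Multiset T) := by simp [blk]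

include hE hb in
theorem ST_of_Blk_sub {P : Set (OnePoint ℂ)} (hP : IsPiece E P) {n : ℤ}
    (h : Blk E n (n + 1) ⊆ P) : ST ↥P := by
  have h1 := piece_diff hP (Blk_piece hE n (n + 1))
  obtain ⟨γ, hγ⟩ := piece_dec hE hb h1
  have h2 : Dec ↥P ((blk : Multiset T) + γ) := by
    have h3 : P = Blk E n (n + 1) ∪ (P \ Blk E n (n + 1)) := by
      rw [union_sdiff_cancel h]
    rw [h3]
    exact Dec_union (Blk_closed hE _ _) h1.2.1 disjoint_sdiff_right (Blk_dec hE hb n) hγ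
  exact ⟨_, h2, hasS_add.2 (Or.inl hasS_blk), Multiset.mem_add.2 (Or.inl hasT_blk)⟩

/-- the classification in terms of the index -/
theorem homeo_of_idx {X Y : Type*} [TopologicalSpace X] [TopologicalSpace Y] (h1 : ST X)
    (h2 : ST Y) (h : idx X = idx Y) : Nonempty (X ≃ₜ Y) := by
  obtain ⟨α, hα, sα, tα⟩ := h1
  obtain ⟨β, hβ, sβ, tβ⟩ := h2
  rw [idx_Dec hα, idx_Dec hβ] at h
  exact homeo_of_Dec hα hβ sα tα sβ tβ h

end Ends72
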