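import Mathlib

/-! TASK H1, H2: pushing points. -/

open Set Metric Topology Filter

noncomputable section

namespace Ends72

/-- a perturbation of the identity with Lipschitz constant at most one half is a homeomorphism -/
theorem perturb {g : ℂ → ℂ} (h : ∀ z w, ‖g z - g w - (z - w)‖ ≤ 1 / 2 * ‖z - w‖) :
    ∃ G : ℂ ≃ₜ ℂ, ∀ z, G z = g z := by
  have h1 : ApproximatesLinearOn g ((ContinuousLinearEquiv.refl ℝ ℂ : ℂ ≃L[ℝ] ℂ) : ℂ →L[ℝ] ℂ) univ
      (1 / 2) := by
    intro z _ w _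
    have := h z w
    simpa using this
  have h2 : Subsingleton ℂ ∨ (1 / 2 : NNReal) <
      ‖((ContinuousLinearEquiv.refl ℝ ℂ).symm : ℂ →L[ℝ] ℂ)‖₊⁻¹ := by
    right
    have h3 : ((ContinuousLinearEquiv.refl ℝ ℂ).symm : ℂ →L[ℝ] ℂ) = ContinuousLinearMap.id ℝ ℂ := rfl
    rw [h3]
    have h4 : ‖ContinuousLinearMap.id ℝ ℂ‖₊ = 1 := by
      ext
      simp
    rw [h4, inv_one]
    rw [← NNReal.coe_lt_coe]
    norm_num
  exact ⟨h1.toHomeomorph g h2, fun z => rfl⟩

/-- the relation of `push` -/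
def PushR (Ω : Set ℂ) (c d : ℂ) : Prop :=
  ∃ (g : ℂ ≃ₜ ℂ) (K : Set ℂ), IsCompact K ∧ K ⊆ Ω ∧ (∀ z, z ∉ K → g z = z) ∧
      ∀ᶠ z in 𝓝 c, g z = z + (d - c)

theorem PushR.trans {Ω : Set ℂ} {c d e : ℂ} (h1 : PushR Ω c d) (h2 : PushR Ω d e) :
    PushR Ω c e := by
  obtain ⟨g, K, hK, hKΩ, hg, hc⟩ := h1
  obtain ⟨g', K', hK', hKΩ', hg', hd⟩ := h2
  refine ⟨g.trans g', K ∪ K', hK.union hK', union_subset hKΩ hKΩ', ?_, ?_⟩
  · intro z hz
    rw [mem_union, not_or] at hz
    show g' (g z) = z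
    rw [hg z hz.1, hg' z hz.2]
  · have hgc : g c = d := by rw [hc.self_of_nhds]; ring
    have h3 : Tendsto g (𝓝 c) (𝓝 d) := by
      rw [← hgc]; exact g.continuous.continuousAt
    filter_upwards [hc, h3.eventually hd] with z hz1 hz2
    show g' (g z) = _
    rw [hz2, hz1]
    ring

theorem PushR.symm {Ω : Set ℂ} {c d : ℂ} (h1 : PushR Ω c d) : PushR Ω d c := by
  obtain ⟨g, K, hK, hKΩ, hg, hc⟩ := h1
  refine ⟨g.symm, K, hK, hKΩ, ?_, ?_⟩
  · intro z hz
    rw [Homeomorph.symm_apply_eq, hg z hz]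
  · have hgc : g c = d := by rw [hc.self_of_nhds]; ring
    have h3 : Tendsto g.symm (𝓝 d) (𝓝 c) := by
      have : g.symm d = c := by rw [Homeomorph.symm_apply_eq, hgc]
      rw [← this]; exact g.symm.continuous.continuousAt
    filter_upwards [h3.eventually hc] with z hz
    rw [Homeomorph.apply_symm_apply] at hz
    linear_combination -hz

/-- the cutoff -/
def pushChi (R t : ℝ) : ℝ := max 0 (min 1 (2 - 2 * t / R))

theorem pushChi_lip {R : ℝ} (hR : 0 < R) (s t : ℝ) :
    |pushChi R s - pushChi R t| ≤ 2 / R * |s - t| := by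
  unfold pushChi
  have h1 := abs_max_sub_max_le_abs (min 1 (2 - 2 * s / R)) (min 1 (2 - 2 * t / R)) 0
  have h2 := abs_min_sub_min_le_max 1 (2 - 2 * s / R) 1 (2 - 2 * t / R)
  rw [max_comm 0, max_comm 0]
  refine h1.trans (h2.trans ?_)
  have h3 : (2 - 2 * s / R) - (2 - 2 * t / R) = 2 / R * (t - s) := by
    field_simp; ring
  rw [h3, abs_mul, abs_of_pos (by positivity : 0 < 2 / R), abs_sub_comm t s]
  apply max_le _ le_rfl
  simp only [sub_self, abs_zero]
  positivity

theorem push_local {Ω : Set ℂ} {c d : ℂ} {R : ℝ} (hR : 0 < R) (hsub : closedBall c R ⊆ Ω)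
    (hd : ‖d - c‖ ≤ R / 4) : PushR Ω c d := by
  obtain ⟨G, hG⟩ := perturb (g := fun z => z + pushChi R ‖z - c‖ * (d - c)) (by
    intro z w
    have e : z + (pushChi R ‖z - c‖ : ℂ) * (d - c) - (w + (pushChi R ‖w - c‖ : ℂ) * (d - c)) -
        (z - w) = ((pushChi R ‖z - c‖ - pushChi R ‖w - c‖ : ℝ) : ℂ) * (d - c) := by
      push_cast; ring
    rw [e, norm_mul, Complex.norm_real, Real.norm_eq_abs]
    have h1 := pushChi_lip hR ‖z - c‖ ‖w - c‖
    have h2 : |‖z - c‖ - ‖w - c‖| ≤ ‖z - w‖ := by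
      have := abs_norm_sub_norm_le (z - c) (w - c)
      simpa using this
    calc |pushChi R ‖z - c‖ - pushChi R ‖w - c‖| * ‖d - c‖
        ≤ (2 / R * ‖z - w‖) * (R / 4) := by
          apply mul_le_mul _ hd (norm_nonneg _) (by positivity)
          exact h1.trans (mul_le_mul_of_nonneg_left h2 (by positivity))
      _ = 1 / 2 * ‖z - w‖ := by field_simp; ring)
  refine ⟨G, closedBall c R, isCompact_closedBall c R, hsub, ?_, ?_⟩
  · intro z hz
    rw [mem_closedBall, dist_eq_norm, not_le] at hz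
    rw [hG]
    have : pushChi R ‖z - c‖ = 0 := by
      unfold pushChi
      rw [max_eq_left]
      refine (min_le_right _ _).trans ?_
      have : 1 < ‖z - c‖ / R := by rwa [one_lt_div hR]
      have e : 2 * ‖z - c‖ / R = 2 * (‖z - c‖ / R) := by ring
      rw [e]; linarith
    simp [this]
  · filter_upwards [ball_mem_nhds c (half_pos hR)] with z hz
    rw [mem_ball, dist_eq_norm] at hz
    rw [hG]
    have : pushChi R ‖z - c‖ = 1 := by
      unfold pushChi
      have : ‖z - c‖ / R < 1 / 2 := by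
        rw [div_lt_iff₀ hR]; linarith
      have e : 2 * ‖z - c‖ / R = 2 * (‖z - c‖ / R) := by ring
      rw [min_eq_left, max_eq_right zero_le_one]
      rw [e]; linarith
    simp [this]

theorem push {Ω : Set ℂ} (ho : IsOpen Ω) (hc : IsPreconnected Ω) {c d : ℂ} (hc' : c ∈ Ω)
    (hd' : d ∈ Ω) :
    ∃ (g : ℂ ≃ₜ ℂ) (K : Set ℂ), IsCompact K ∧ K ⊆ Ω ∧ (∀ z, z ∉ K → g z = z) ∧
      ∀ᶠ z in 𝓝 c, g z = z + (d - c) := by
  show PushR Ω c d
  apply hc.induction₂ (PushR Ω) _ (fun x y z _ _ _ h1 h2 => h1.trans h2)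
    (fun x y _ _ h => h.symm) hc' hd'
  intro x hx
  apply mem_nhdsWithin_of_mem_nhds
  obtain ⟨R, hR, hsub⟩ := Metric.isOpen_iff.1 ho x hx
  filter_upwards [ball_mem_nhds x (by positivity : 0 < R / 8)] with y hy
  apply push_local (R := R / 2) (half_pos hR)
  · exact (closedBall_subset_ball (by linarith)).trans hsub
  · rw [mem_ball, dist_eq_norm] at hy
    linarith

theorem punctured_ball_preconnected (p : ℂ) (r : ℝ) :
    IsPreconnected (ball p r \ {p}) := by
  have h1 : ball p r \ {p} = (fun x : ℝ × ℝ => p + x.1 * Complex.exp (x.2 * Complex.I)) ''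
      (Ioo 0 r ×ˢ univ) := by
    ext z
    constructor
    · rintro ⟨h1, h2⟩
      rw [mem_ball, dist_eq_norm] at h1
      have h3 : z - p ≠ 0 := sub_ne_zero.2 h2
      refine ⟨(‖z - p‖, (z - p).arg), ⟨⟨norm_pos_iff.2 h3, h1⟩, mem_univ _⟩, ?_⟩
      simp only
      rw [Complex.norm_mul_exp_arg_mul_I]
      ring
    · rintro ⟨⟨s, θ⟩, ⟨⟨hs1, hs2⟩, _⟩, rfl⟩
      have h4 : ‖(s : ℂ) * Complex.exp (θ * Complex.I)‖ = s := by
        rw [norm_mul, Complex.norm_exp_ofReal_mul_I, mul_one, Complex.norm_real,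
          Real.norm_of_nonneg hs1.le]
      refine ⟨?_, ?_⟩
      · rw [mem_ball, dist_eq_norm]
        simp only [add_sub_cancel_left]
        rw [h4]
        exact hs2
      · rw [mem_singleton_iff]
        intro h
        have : (s : ℂ) * Complex.exp (θ * Complex.I) = 0 := by
          linear_combination h
        rw [this, norm_zero] at h4
        simp at hs1
        linarith
  rw [h1]
  apply (isPreconnected_Ioo.prod isPreconnected_univ).image
  apply Continuous.continuousOn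
  fun_prop

theorem preconnected_diff_singleton {Ω : Set ℂ} (ho : IsOpen Ω) (hc : IsPreconnected Ω) (p : ℂ) :
    IsPreconnected (Ω \ {p}) := by
  by_cases hp : p ∈ Ω
  swap
  · rwa [sdiff_singleton_eq_self hp]
  obtain ⟨r, hr, hsub⟩ := Metric.isOpen_iff.1 ho p hp
  have hB := punctured_ball_preconnected p r
  have hsub' : ball p r \ {p} ⊆ Ω \ {p} := sdiff_subset_sdiff_left hsub
  have key : ∀ u v : Set ℂ, IsOpen u → IsOpen v → Ω \ {p} ⊆ u ∪ v →
      ((Ω \ {p}) ∩ u).Nonempty → ((Ω \ {p}) ∩ v).Nonempty →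
      ¬ ((ball p r \ {p}) ∩ v).Nonempty → ((Ω \ {p}) ∩ (u ∩ v)).Nonempty := by
    intro u v hu hv huv h1 h2 h3
    obtain ⟨x, hxΩ, hx⟩ := hc (u ∪ ball p r) (v \ {p}) (hu.union isOpen_ball)
      (hv.sdiff isClosed_singleton) (by
        intro x hx
        by_cases hxp : x = p
        · left; right; rw [hxp]; exact mem_ball_self hr
        · rcases huv ⟨hx, hxp⟩ with h | h
          · left; left; exact h
          · right; exact ⟨h, hxp⟩)
      (by obtain ⟨x, hx1, hx2⟩ := h1; exact ⟨x, hx1.1, Or.inl hx2⟩)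
      (by obtain ⟨x, hx1, hx2⟩ := h2; exact ⟨x, hx1.1, hx2, hx1.2⟩)
    obtain ⟨hx1, hx2, hx3⟩ := hx
    refine ⟨x, ⟨hxΩ, hx3⟩, ?_, hx2⟩
    rcases hx1 with h | h
    · exact h
    · exact absurd ⟨x, ⟨h, hx3⟩, hx2⟩ h3
  intro u v hu hv huv h1 h2
  by_cases h3 : ((ball p r \ {p}) ∩ v).Nonempty
  · by_cases h4 : ((ball p r \ {p}) ∩ u).Nonempty
    · obtain ⟨x, hx1, hx2⟩ := hB u v hu hv (hsub'.trans huv) h4 h3
      exact ⟨x, hsub' hx1, hx2⟩
    · rw [inter_comm u v]
      exact key v u hv hu (by rwa [union_comm]) h2 h1 h4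
  · exact key u v hu hv huv h1 h2 h3

theorem preconnected_diff_finite {Ω : Set ℂ} (ho : IsOpen Ω) (hc : IsPreconnected Ω)
    (F : Finset ℂ) : IsPreconnected (Ω \ (F : Set ℂ)) := by
  classical
  induction F using Finset.induction_on with
  | empty => simpa using hc
  | insert a F _ ih =>
    have : Ω \ ((insert a F : Finset ℂ) : Set ℂ) = (Ω \ (F : Set ℂ)) \ {a} := by
      ext z
      simp only [Finset.coe_insert, Set.mem_sdiff, mem_insert_iff, mem_singleton_iff]
      tauto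
    rw [this]
    exact preconnected_diff_singleton (ho.sdiff F.finite_toSet.isClosed) ih a

theorem eventually_id_of_notMem {K : Set ℂ} (hK : IsCompact K) {g : ℂ → ℂ}
    (hg : ∀ z, z ∉ K → g z = z) {c : ℂ} (hc : c ∉ K) : ∀ᶠ z in 𝓝 c, g z = z := by
  filter_upwards [hK.isClosed.isOpen_compl.mem_nhds hc] with z hz using hg z hz

theorem multipush_disjoint {n : ℕ} : ∀ {Ω : Set ℂ}, IsOpen Ω → IsPreconnected Ω →
    ∀ (c d : Fin n → ℂ), Function.Injective c → Function.Injective d →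
    (∀ i j, c i ≠ d j) → (∀ i, c i ∈ Ω) → (∀ i, d i ∈ Ω) →
    ∃ (g : ℂ ≃ₜ ℂ) (K : Set ℂ), IsCompact K ∧ K ⊆ Ω ∧ (∀ z, z ∉ K → g z = z) ∧
      ∀ i, ∀ᶠ z in 𝓝 (c i), g z = z + (d i - c i) := by
  classical
  induction n with
  | zero =>
    intro Ω _ _ c d _ _ _ _ _
    exact ⟨Homeomorph.refl ℂ, ∅, isCompact_empty, empty_subset _, fun _ _ => rfl,
      fun i => i.elim0⟩
  | succ n ih =>
    intro Ω ho hc c d hci hdi hcd hcΩ hdΩ
    obtain ⟨g, K, hK, hKΩ, hg, hgc⟩ := ih (Ω := Ω \ (({c (Fin.last n), d (Fin.last n)} :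
      Finset ℂ) : Set ℂ)) (ho.sdiff (Finset.finite_toSet _).isClosed)
      (preconnected_diff_finite ho hc _)
      (fun i => c i.castSucc) (fun i => d i.castSucc)
      (fun i j h => Fin.castSucc_injective n (hci h)) (fun i j h => Fin.castSucc_injective n (hdi h))
      (fun i j => hcd _ _)
      (fun i => by
        refine ⟨hcΩ _, ?_⟩
        simp only [Finset.coe_insert, Finset.coe_singleton, mem_insert_iff, mem_singleton_iff,
          not_or]
        exact ⟨fun h => (Fin.castSucc_lt_last i).ne (hci h), hcd _ _⟩)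
      (fun i => by
        refine ⟨hdΩ _, ?_⟩
        simp only [Finset.coe_insert, Finset.coe_singleton, mem_insert_iff, mem_singleton_iff,
          not_or]
        exact ⟨fun h => hcd _ _ h.symm, fun h => (Fin.castSucc_lt_last i).ne (hdi h)⟩)
    obtain ⟨h, K', hK', hKΩ', hh, hhc⟩ := push (Ω := Ω \ ((Finset.univ.image
      (fun i : Fin n => d i.castSucc) : Finset ℂ) : Set ℂ))
      (ho.sdiff (Finset.finite_toSet _).isClosed)
      (preconnected_diff_finite ho hc _) (c := c (Fin.last n)) (d := d (Fin.last n))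
      (by
        refine ⟨hcΩ _, ?_⟩
        simp only [Finset.coe_image, Finset.coe_univ, image_univ, mem_range, not_exists]
        exact fun i h => hcd _ _ h.symm)
      (by
        refine ⟨hdΩ _, ?_⟩
        simp only [Finset.coe_image, Finset.coe_univ, image_univ, mem_range, not_exists]
        exact fun i h => (Fin.castSucc_lt_last i).ne (hdi h))
    refine ⟨g.trans h, K ∪ K', hK.union hK', union_subset (hKΩ.trans sdiff_subset)
      (hKΩ'.trans sdiff_subset), ?_, ?_⟩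
    · intro z hz
      rw [mem_union, not_or] at hz
      show h (g z) = z
      rw [hg z hz.1, hh z hz.2]
    · intro i
      refine Fin.lastCases ?_ (fun i => ?_) i
      · have h1 : c (Fin.last n) ∉ K := fun hm => (hKΩ hm).2 (by simp)
        filter_upwards [eventually_id_of_notMem hK hg h1, hhc] with z hz1 hz2
        show h (g z) = _
        rw [hz1, hz2]
      · have h1 : d i.castSucc ∉ K' := fun hm => (hKΩ' hm).2 (by simp)
        have h2 : g (c i.castSucc) = d i.castSucc := by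
          rw [(hgc i).self_of_nhds]; ring
        have h3 : Tendsto g (𝓝 (c i.castSucc)) (𝓝 (d i.castSucc)) := by
          rw [← h2]; exact g.continuous.continuousAt
        filter_upwards [hgc i, h3.eventually (eventually_id_of_notMem hK' hh h1)] with z hz1 hz2
        show h (g z) = _
        rw [hz2, hz1]

theorem multipush {Ω : Set ℂ} (ho : IsOpen Ω) (hc : IsPreconnected Ω) {n : ℕ}
    (c d : Fin n → ℂ) (hci : Function.Injective c) (hdi : Function.Injective d)
    (hcΩ : ∀ i, c i ∈ Ω) (hdΩ : ∀ i, d i ∈ Ω) :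
    ∃ (g : ℂ ≃ₜ ℂ) (K : Set ℂ), IsCompact K ∧ K ⊆ Ω ∧ (∀ z, z ∉ K → g z = z) ∧
      ∀ i, ∀ᶠ z in 𝓝 (c i), g z = z + (d i - c i) := by
  classical
  rcases Nat.eq_zero_or_pos n with hn | hn
  · subst hn
    exact ⟨Homeomorph.refl ℂ, ∅, isCompact_empty, empty_subset _, fun _ _ => rfl,
      fun i => i.elim0⟩
  have hinf : Ω.Infinite := by
    apply infinite_of_mem_nhds (c ⟨0, hn⟩)
    exact ho.mem_nhds (hcΩ _)
  have hinf' : (Ω \ (range c ∪ range d)).Infinite :=
    hinf.sdiff ((finite_range c).union (finite_range d))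
  obtain ⟨e, he⟩ : ∃ e : Fin n → ℂ, Function.Injective e ∧ ∀ i, e i ∈ Ω \ (range c ∪ range d) := by
    let f := hinf'.natEmbedding
    exact ⟨fun i => (f i : ℂ), fun i j h => Fin.ext (f.injective (Subtype.ext h)),
      fun i => (f i).2⟩
  obtain ⟨g, K, hK, hKΩ, hg, hgc⟩ := multipush_disjoint ho hc c e hci he.1
    (fun i j h => (he.2 j).2 (Or.inl ⟨i, h⟩)) hcΩ (fun i => (he.2 i).1)
  obtain ⟨h, K', hK', hKΩ', hh, hhc⟩ := multipush_disjoint ho hc e d he.1 hdi
    (fun i j h => (he.2 i).2 (Or.inr ⟨j, h.symm⟩)) (fun i => (he.2 i).1) hdΩ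
  refine ⟨g.trans h, K ∪ K', hK.union hK', union_subset hKΩ hKΩ', ?_, ?_⟩
  · intro z hz
    rw [mem_union, not_or] at hz
    show h (g z) = z
    rw [hg z hz.1, hh z hz.2]
  · intro i
    have h2 : g (c i) = e i := by rw [(hgc i).self_of_nhds]; ring
    have h3 : Tendsto g (𝓝 (c i)) (𝓝 (e i)) := by
      rw [← h2]; exact g.continuous.continuousAt
    filter_upwards [hgc i, h3.eventually (hhc i)] with z hz1 hz2
    show h (g z) = _
    rw [hz2, hz1]
    ring

end Ends72
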