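import Pool.Agent.LibEnds72.Montel
import Pool.Agent.LibEnds72.Hurwitz

/-! TASK A3: the Riemann mapping theorem. -/

open Set Metric Topology Filter
open scoped Pointwise

noncomputable section

namespace Ends72

/-- An injective holomorphic map has a continuous (even differentiable) inverse and nonzero
derivative. -/
theorem inj_inverse {Ω : Set ℂ} (ho : IsOpen Ω) {f : ℂ → ℂ} (hd : DifferentiableOn ℂ f Ω)
    (hinj : InjOn f Ω) {g : ℂ → ℂ} (hg : ∀ z ∈ Ω, g (f z) = z) {a : ℂ} (ha : a ∈ Ω) :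
    deriv f a ≠ 0 ∧ f '' Ω ∈ 𝓝 (f a) ∧ DifferentiableAt ℂ g (f a) := by
  have hfa : AnalyticOnNhd ℂ f Ω := hd.analyticOnNhd ho
  -- not locally constant at any point
  have hnc : ∀ b ∈ Ω, ¬ ∀ᶠ z in 𝓝 b, f z = f b := by
    intro b hb h
    have h1 : ∀ᶠ z in 𝓝 b, z = b := by
      filter_upwards [h, ho.mem_nhds hb] with z hz hz'
      exact hinj hz' hb hz
    have h2 : ({b} : Set ℂ) ∈ 𝓝 b := by
      filter_upwards [h1] with z hz using hz
    have h3 : IsOpen ({b} : Set ℂ) := isOpen_singleton_iff_nhds_eq_pure b |>.mpr (by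
      apply le_antisymm
      · exact Filter.le_pure_iff.mpr h2
      · exact pure_le_nhds b)
    exact not_isOpen_singleton b h3
  have hopen : ∀ b ∈ Ω, 𝓝 (f b) ≤ map f (𝓝 b) := fun b hb =>
    (hfa b hb).eventually_constant_or_nhds_le_map_nhds.resolve_left (hnc b hb)
  have himg : f '' Ω ∈ 𝓝 (f a) := hopen a ha (Filter.image_mem_map (ho.mem_nhds ha))
  have hgc : ∀ b ∈ Ω, ContinuousAt g (f b) := by
    intro b hb
    rw [ContinuousAt, hg b hb]
    intro V hV
    have h1 : f '' (V ∩ Ω) ∈ 𝓝 (f b) :=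
      hopen b hb (Filter.image_mem_map (Filter.inter_mem hV (ho.mem_nhds hb)))
    rw [Filter.mem_map]
    filter_upwards [h1] with w hw
    obtain ⟨z, hz, rfl⟩ := hw
    rw [mem_preimage, hg z hz.2]
    exact hz.1
  have hgd : ∀ b ∈ Ω, deriv f b ≠ 0 → HasDerivAt g (deriv f b)⁻¹ (f b) := by
    intro b hb hne
    refine HasDerivAt.of_local_left_inverse (f := f) (hgc b hb) ?_ hne ?_
    · rw [hg b hb]
      exact ((hd b hb).differentiableAt (ho.mem_nhds hb)).hasDerivAt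
    · have h1 : f '' Ω ∈ 𝓝 (f b) := hopen b hb (Filter.image_mem_map (ho.mem_nhds hb))
      filter_upwards [h1] with w hw
      obtain ⟨z, hz, rfl⟩ := hw
      rw [hg z hz]
  -- the derivative does not vanish
  have hda : AnalyticAt ℂ (deriv f) a := (hfa a ha).deriv
  have hpunct : ∀ᶠ z in 𝓝[≠] a, deriv f z ≠ 0 := by
    rcases hda.eventually_eq_zero_or_eventually_ne_zero with h | h
    · exfalso
      refine hnc a ha ?_
      have h1 : ∀ᶠ z in 𝓝 a, z ∈ Ω ∧ deriv f z = 0 := Filter.Eventually.and (ho.mem_nhds ha) h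
      obtain ⟨r, hr, hball⟩ := Metric.nhds_basis_ball.mem_iff.mp h1
      filter_upwards [ball_mem_nhds a hr] with z hz
      have hconst := (convex_ball a r).is_const_of_fderivWithin_eq_zero (𝕜 := ℂ) (f := f)
        (hd.mono fun w hw => (hball hw).1) ?_ hz (mem_ball_self hr)
      · exact hconst
      · intro w hw
        rw [fderivWithin_of_isOpen isOpen_ball hw]
        ext
        simp [fderiv_eq_smul_deriv, (hball hw).2]
    · exact h
  have hgda : AnalyticAt ℂ g (f a) := by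
    refine Complex.analyticAt_of_differentiable_on_punctured_nhds_of_continuousAt ?_ (hgc a ha)
    rw [eventually_nhdsWithin_iff]
    have h1 : Tendsto g (𝓝 (f a)) (𝓝 a) := by
      have := hgc a ha
      rwa [ContinuousAt, hg a ha] at this
    rw [eventually_nhdsWithin_iff] at hpunct
    filter_upwards [himg, h1.eventually hpunct] with w hw hw2 hw3
    obtain ⟨z, hz, rfl⟩ := hw
    rw [hg z hz] at hw2
    refine (hgd z hz (hw2 ?_)).differentiableAt
    intro h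
    exact hw3 (congrArg f h)
  refine ⟨?_, himg, hgda.differentiableAt⟩
  have hfd : HasDerivAt f (deriv f a) a :=
    ((hd a ha).differentiableAt (ho.mem_nhds ha)).hasDerivAt
  have hcomp : HasDerivAt (g ∘ f) (deriv g (f a) * deriv f a) a :=
    hgda.differentiableAt.hasDerivAt.comp a hfd
  have hid : HasDerivAt (g ∘ f) 1 a := by
    refine (hasDerivAt_id a).congr_of_eventuallyEq ?_
    filter_upwards [ho.mem_nhds ha] with z hz
    exact hg z hz
  have h1 := hcomp.unique hid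
  intro h
  rw [h, mul_zero] at h1
  exact one_ne_zero h1.symm

/-- The disc automorphism. -/
def mob (w z : ℂ) : ℂ := (z - w) / (1 - (starRingEnd ℂ) w * z)

theorem mob_den {w z : ℂ} (hw : ‖w‖ < 1) (hz : ‖z‖ < 1) : 1 - (starRingEnd ℂ) w * z ≠ 0 := by
  intro h
  have h1 : (starRingEnd ℂ) w * z = 1 := (sub_eq_zero.mp h).symm
  have h2 : ‖w‖ * ‖z‖ = 1 := by
    have := congrArg norm h1
    rwa [norm_mul, RCLike.norm_conj, norm_one] at this
  nlinarith [norm_nonneg w, norm_nonneg z]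

theorem mob_norm_lt {w z : ℂ} (hw : ‖w‖ < 1) (hz : ‖z‖ < 1) : ‖mob w z‖ < 1 := by
  have hd := mob_den hw hz
  rw [mob, norm_div, div_lt_one (norm_pos_iff.mpr hd)]
  have h1 : ‖z - w‖ ^ 2 < ‖1 - (starRingEnd ℂ) w * z‖ ^ 2 := by
    have e1 : ‖z - w‖ ^ 2 = Complex.normSq (z - w) := (Complex.normSq_eq_norm_sq _).symm
    have e2 : ‖1 - (starRingEnd ℂ) w * z‖ ^ 2 = Complex.normSq (1 - (starRingEnd ℂ) w * z) :=
      (Complex.normSq_eq_norm_sq _).symm
    have e3 : ‖z‖ ^ 2 = z.re * z.re + z.im * z.im := by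
      rw [← Complex.normSq_eq_norm_sq, Complex.normSq_apply]
    have e4 : ‖w‖ ^ 2 = w.re * w.re + w.im * w.im := by
      rw [← Complex.normSq_eq_norm_sq, Complex.normSq_apply]
    have e5 : ‖z‖ ^ 2 < 1 := by nlinarith [norm_nonneg z]
    have e6 : ‖w‖ ^ 2 < 1 := by nlinarith [norm_nonneg w]
    rw [e1, e2, Complex.normSq_apply, Complex.normSq_apply]
    simp only [Complex.sub_re, Complex.sub_im, Complex.mul_re, Complex.mul_im, Complex.conj_re,
      Complex.conj_im, Complex.one_re, Complex.one_im]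
    rw [e3] at e5
    rw [e4] at e6
    nlinarith [mul_pos (sub_pos.mpr e5) (sub_pos.mpr e6)]
  exact lt_of_pow_lt_pow_left₀ 2 (norm_nonneg _) h1

theorem mob_hasDerivAt {w z : ℂ} (hw : ‖w‖ < 1) (hz : ‖z‖ < 1) :
    HasDerivAt (mob w) ((1 - (starRingEnd ℂ) w * w) / (1 - (starRingEnd ℂ) w * z) ^ 2) z := by
  have hd := mob_den hw hz
  have h1 : HasDerivAt (fun z : ℂ => z - w) 1 z := (hasDerivAt_id z).sub_const w
  have h2 : HasDerivAt (fun z : ℂ => 1 - (starRingEnd ℂ) w * z) (-((starRingEnd ℂ) w * 1)) z :=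
    ((hasDerivAt_id z).const_mul _).const_sub 1
  have h3 := h1.div h2 hd
  refine h3.congr_deriv ?_
  congr 1
  ring

theorem mob_inj {w z z' : ℂ} (hw : ‖w‖ < 1) (hz : ‖z‖ < 1) (hz' : ‖z'‖ < 1)
    (h : mob w z = mob w z') : z = z' := by
  have hd := mob_den hw hz
  have hd' := mob_den hw hz'
  rw [mob, mob, div_eq_div_iff hd hd'] at h
  have h1 : (1 - (starRingEnd ℂ) w * w) * (z - z') = 0 := by linear_combination h
  rcases mul_eq_zero.mp h1 with h2 | h2
  · exact absurd h2 (mob_den hw hw)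
  · exact sub_eq_zero.mp h2

theorem hasDerivAt_sqrt {h q : ℂ → ℂ} {z h' : ℂ} (hq : ContinuousAt q z)
    (hqh : ∀ y, q y ^ 2 = h y) (hz : q z ≠ 0) (hh : HasDerivAt h h' z) :
    HasDerivAt q (h' / (2 * q z)) z := by
  rw [hasDerivAt_iff_tendsto_slope] at hh ⊢
  have h1 : Tendsto (fun y => q y + q z) (𝓝[≠] z) (𝓝 (2 * q z)) := by
    have h2 : Tendsto (fun y => q y + q z) (𝓝 z) (𝓝 (q z + q z)) := hq.add_const (q z)
    rw [two_mul]
    exact h2.mono_left nhdsWithin_le_nhds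
  have h3 : 2 * q z ≠ 0 := mul_ne_zero two_ne_zero hz
  have h4 := hh.div h1 h3
  refine h4.congr' ?_
  filter_upwards [h1.eventually_ne h3] with y hy
  simp only [Pi.div_apply, slope_def_field]
  rw [← hqh, ← hqh]
  by_cases hyz : y - z = 0
  · simp [hyz]
  · field_simp
    ring

/-- Step 1 (adapted from the Mathlib file Analysis/Complex/RiemannMapping, where it is private). -/
theorem rmt_step1 {U : Set ℂ} (hUo : IsOpen U)
    (hUc : IsSimplyConnected U) (hU : U ≠ univ) :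
    ∃ f : ℂ → ℂ, Function.Injective f ∧ ¬Dense (f '' U) ∧ ∀ z ∈ U, deriv f z ≠ 0 := by
  wlog hU₀ : 0 ∉ U
  · rw [ne_univ_iff_exists_notMem] at hU
    rcases hU with ⟨a, ha⟩
    specialize this (hUo.vadd (-a)) (by simpa) (by simp [hU])
      (by simpa [mem_vadd_set_iff_neg_vadd_mem])
    rcases this with ⟨f, hf_inj, hf_dense, hdf⟩
    refine ⟨f ∘ (-a + ·), hf_inj.comp (add_right_injective (-a)), ?_, fun z hz ↦ ?_⟩
    · simpa only [← image_vadd, Set.image_image] using! hf_dense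
    · simpa [Function.comp_def, deriv_comp_const_add] using hdf (-a + z) (mapsTo_image _ _ hz)
  rcases Complex.exists_continuousOn_pow_eq hUc hUo continuousOn_id (by rwa [image_id]) two_ne_zero
    with ⟨f, hfc, hf_inv⟩
  replace hf_inv : Function.LeftInverse (· ^ 2) f := hf_inv
  have hf₀ : ∀ z ∈ U, f z ≠ 0 := by
    intro z hz hfz
    simpa [hfz, (ne_of_mem_of_not_mem hz hU₀).symm] using hf_inv z
  have hdf : ∀ z ∈ U, HasStrictDerivAt f (2 * f z)⁻¹ z := by
    intro z hz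
    apply HasStrictDerivAt.of_local_left_inverse
    · exact hfc.continuousAt <| hUo.mem_nhds hz
    · simpa using hasStrictDerivAt_pow 2 (f z)
    · simpa using hf₀ z hz
    · exact .of_forall hf_inv
  refine ⟨f, hf_inv.injective, ?_, fun z hz ↦ ?_⟩
  · simp only [Dense, not_forall, mem_closure_iff_frequently, not_frequently]
    rcases hUc.nonempty with ⟨x, hx⟩
    use -f x
    have : f '' U ∈ 𝓝 (f x) := by
      rw [← (hdf x hx).map_nhds_eq (by simpa using hf₀ x hx)]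
      exact Filter.image_mem_map <| hUo.mem_nhds hx
    rw [nhds_neg, eventually_neg]
    filter_upwards [this]
    rintro _ ⟨a, ha, rfl⟩ ⟨b, hb, hab⟩
    obtain rfl : a = b := by
      rw [← hf_inv b, hab]
      simp [hf_inv a]
    refine hf₀ a ha ?_
    linear_combination hab / 2
  · simpa [(hdf z hz).hasDerivAt.deriv] using hf₀ z hz

/-- Step 2 (adapted from the Mathlib file Analysis/Complex/RiemannMapping, where it is private). -/
theorem rmt_step2 {U : Set ℂ} (hUo : IsOpen U)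
    (hUc : IsSimplyConnected U) (hU : U ≠ univ) :
    ∃ f : ℂ → ℂ, MapsTo f U (ball 0 1) ∧ InjOn f U ∧ ∀ z ∈ U, deriv f z ≠ 0 := by
  rcases rmt_step1 hUo hUc hU with ⟨f, hf_inj, hfd, hdf⟩
  obtain ⟨x, ε, hε₀, hε⟩ : ∃ (x : ℂ) (ε : ℝ), 0 < ε ∧ ∀ a ∈ U, ε < dist (f a) x := by
    simpa [Dense, mem_closure_iff_nhds_basis Metric.nhds_basis_closedBall] using hfd
  have hfx : ∀ z ∈ U, f z ≠ x := fun z hz ↦ by simpa using hε₀.trans (hε z hz)
  use fun z ↦ ε / (f z - x)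
  refine ⟨?mapsTo, ?injOn, ?deriv⟩
  case mapsTo =>
    intro z hz
    rw [mem_ball_zero_iff, norm_div, Complex.norm_real, Real.norm_of_nonneg hε₀.le, div_lt_one₀]
    · simpa [dist_eq_norm] using hε z hz
    · simpa [sub_eq_zero] using hfx z hz
  case injOn =>
    intro z hz w hw heq
    simpa [div_eq_mul_inv, hε₀.ne', hf_inj.eq_iff] using heq
  case deriv =>
    intro z hz
    have hdz : DifferentiableAt ℂ f z := differentiableAt_of_deriv_ne_zero (hdf z hz)
    rw [(hasDerivAt_const _ _).fun_div (hdz.hasDerivAt.sub_const _) _ |>.deriv] <;>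
      simp [*, ne_of_gt, sub_eq_zero]

/-- one step of Koebe's argument -/
theorem koebe {Ω : Set ℂ} (ho : IsOpen Ω) (hsc : IsSimplyConnected Ω) (h0 : (0 : ℂ) ∈ Ω)
    {g : ℂ → ℂ} (hd : DifferentiableOn ℂ g Ω) (hinj : InjOn g Ω) (hm : MapsTo g Ω (ball 0 1))
    (hg0 : g 0 = 0) {w : ℂ} (hw : ‖w‖ < 1) (hw' : w ∉ g '' Ω) :
    ∃ f : ℂ → ℂ, DifferentiableOn ℂ f Ω ∧ InjOn f Ω ∧ MapsTo f Ω (ball 0 1) ∧ f 0 = 0 ∧
      ‖deriv g 0‖ < ‖deriv f 0‖ := by
  have hgb : ∀ z ∈ Ω, ‖g z‖ < 1 := fun z hz => by simpa using hm hz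
  have hgd : ∀ z ∈ Ω, HasDerivAt g (deriv g z) z := fun z hz =>
    ((hd z hz).differentiableAt (ho.mem_nhds hz)).hasDerivAt
  set h : ℂ → ℂ := fun z => mob w (g z) with hh
  have hhd : ∀ z ∈ Ω, HasDerivAt h
      ((1 - (starRingEnd ℂ) w * w) / (1 - (starRingEnd ℂ) w * g z) ^ 2 * deriv g z) z :=
    fun z hz => (mob_hasDerivAt hw (hgb z hz)).comp z (hgd z hz)
  have hh0 : ∀ z ∈ Ω, h z ≠ 0 := by
    intro z hz hzero
    rw [hh] at hzero
    simp only [mob] at hzero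
    rcases div_eq_zero_iff.mp hzero with h1 | h1
    · exact hw' ⟨z, hz, sub_eq_zero.mp h1⟩
    · exact mob_den hw (hgb z hz) h1
  have hhc : ContinuousOn h Ω := fun z hz => (hhd z hz).continuousAt.continuousWithinAt
  obtain ⟨q, hqc, hq⟩ := Complex.exists_continuousOn_pow_eq hsc ho hhc
    (by rintro ⟨z, hz, hz'⟩; exact hh0 z hz hz') two_ne_zero
  have hq0 : ∀ z ∈ Ω, q z ≠ 0 := by
    intro z hz h1
    apply hh0 z hz
    rw [← hq, h1]
    ring
  have hqd : ∀ z ∈ Ω, HasDerivAt q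
      (((1 - (starRingEnd ℂ) w * w) / (1 - (starRingEnd ℂ) w * g z) ^ 2 * deriv g z) /
        (2 * q z)) z := fun z hz =>
    hasDerivAt_sqrt (hqc.continuousAt (ho.mem_nhds hz)) hq (hq0 z hz) (hhd z hz)
  have hqb : ∀ z ∈ Ω, ‖q z‖ < 1 := by
    intro z hz
    have h1 : ‖q z‖ ^ 2 < 1 := by
      rw [← norm_pow, hq]
      exact mob_norm_lt hw (hgb z hz)
    nlinarith [norm_nonneg (q z)]
  have hfd : ∀ z ∈ Ω, HasDerivAt (fun z => mob (q 0) (q z))
      ((1 - (starRingEnd ℂ) (q 0) * (q 0)) / (1 - (starRingEnd ℂ) (q 0) * q z) ^ 2 *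
        (((1 - (starRingEnd ℂ) w * w) / (1 - (starRingEnd ℂ) w * g z) ^ 2 * deriv g z) /
        (2 * q z))) z := fun z hz =>
    (mob_hasDerivAt (hqb 0 h0) (hqb z hz)).comp z (hqd z hz)
  refine ⟨fun z => mob (q 0) (q z), ?_, ?_, ?_, ?_, ?_⟩
  · intro z hz
    exact (hfd z hz).differentiableAt.differentiableWithinAt
  · intro z hz z' hz' hzz
    have h1 := mob_inj (hqb 0 h0) (hqb z hz) (hqb z' hz') hzz
    have h2 : h z = h z' := by rw [← hq, ← hq, h1]
    exact hinj hz hz' (mob_inj hw (hgb z hz) (hgb z' hz') h2)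
  · intro z hz
    simpa using mob_norm_lt (hqb 0 h0) (hqb z hz)
  · simp [mob]
  · rw [(hfd 0 h0).deriv, hg0]
    have hdg : deriv g 0 ≠ 0 :=
      (inj_inverse ho hd hinj (g := Function.invFunOn g Ω)
        (fun z hz => hinj.leftInvOn_invFunOn hz) h0).1
    have hs1 : ‖q 0‖ < 1 := hqb 0 h0
    have hs0 : 0 < ‖q 0‖ := norm_pos_iff.mpr (hq0 0 h0)
    have hsw : ‖q 0‖ ^ 2 = ‖w‖ := by
      rw [← norm_pow, hq, hh]
      simp [mob, hg0]
    have e1 : 1 - (starRingEnd ℂ) (q 0) * (q 0) = ((1 - ‖q 0‖ ^ 2 : ℝ) : ℂ) := by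
      rw [mul_comm, Complex.mul_conj, Complex.normSq_eq_norm_sq]
      push_cast
      ring
    have e2 : 1 - (starRingEnd ℂ) w * w = ((1 - ‖w‖ ^ 2 : ℝ) : ℂ) := by
      rw [mul_comm, Complex.mul_conj, Complex.normSq_eq_norm_sq]
      push_cast
      ring
    rw [e1, e2]
    simp only [mul_zero, sub_zero, one_pow, div_one, norm_mul, norm_div, norm_pow,
      Complex.norm_real, Real.norm_eq_abs, Complex.norm_ofNat]
    have hdgp : 0 < ‖deriv g 0‖ := norm_pos_iff.mpr hdg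
    rw [← hsw]
    set s := ‖q 0‖ with hs
    have hs2 : 0 < 1 - s ^ 2 := by nlinarith
    have hs4 : 0 < 1 - (s ^ 2) ^ 2 := by nlinarith [pow_pos hs0 2]
    rw [abs_of_pos hs2, abs_of_pos hs4]
    have e3 : (1 - s ^ 2) / (1 - s ^ 2) ^ 2 * ((1 - (s ^ 2) ^ 2) * ‖deriv g 0‖ / (2 * s)) =
        ‖deriv g 0‖ * ((1 + s ^ 2) / (2 * s)) := by
      field_simp
      ring
    rw [e3]
    have h5 : 1 < (1 + s ^ 2) / (2 * s) := by
      rw [lt_div_iff₀ (by positivity)]
      nlinarith [sq_pos_of_pos (sub_pos.mpr hs1)]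
    nlinarith

theorem rmt {Ω : Set ℂ} (ho : IsOpen Ω) (hsc : IsSimplyConnected Ω) (h0 : (0 : ℂ) ∈ Ω)
    (hne : Ω ≠ univ) :
    ∃ ψ : ℂ → ℂ, DifferentiableOn ℂ ψ (ball 0 1) ∧ InjOn ψ (ball 0 1) ∧ ψ '' ball 0 1 = Ω ∧
      ψ 0 = 0 ∧ ∀ z ∈ ball (0 : ℂ) 1, deriv ψ z ≠ 0 := by
  set S : Set ℝ := {r | ∃ f : ℂ → ℂ, DifferentiableOn ℂ f Ω ∧ InjOn f Ω ∧ MapsTo f Ω (ball 0 1) ∧
    f 0 = 0 ∧ r = ‖deriv f 0‖} with hS
  -- a positive element
  obtain ⟨f₀, hf₀m, hf₀i, hf₀d⟩ :=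
    rmt_step2 ho hsc hne
  have hf₀b : ∀ z ∈ Ω, ‖f₀ z‖ < 1 := fun z hz => by simpa using hf₀m hz
  have hf₁d : ∀ z ∈ Ω, HasDerivAt (fun z => mob (f₀ 0) (f₀ z))
      ((1 - (starRingEnd ℂ) (f₀ 0) * (f₀ 0)) / (1 - (starRingEnd ℂ) (f₀ 0) * f₀ z) ^ 2 *
        deriv f₀ z) z := fun z hz =>
    (mob_hasDerivAt (hf₀b 0 h0) (hf₀b z hz)).comp z
      (differentiableAt_of_deriv_ne_zero (hf₀d z hz)).hasDerivAt
  have hf₁S : ‖deriv (fun z => mob (f₀ 0) (f₀ z)) 0‖ ∈ S := by
    refine ⟨_, fun z hz => (hf₁d z hz).differentiableAt.differentiableWithinAt, ?_, ?_, ?_, rfl⟩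
    · intro z hz z' hz' h
      exact hf₀i hz hz' (mob_inj (hf₀b 0 h0) (hf₀b z hz) (hf₀b z' hz') h)
    · intro z hz
      simpa using mob_norm_lt (hf₀b 0 h0) (hf₀b z hz)
    · simp [mob]
  have hf₁p : 0 < ‖deriv (fun z => mob (f₀ 0) (f₀ z)) 0‖ := by
    rw [norm_pos_iff, (hf₁d 0 h0).deriv]
    have h1 := mob_den (hf₀b 0 h0) (hf₀b 0 h0)
    exact mul_ne_zero (div_ne_zero h1 (pow_ne_zero _ h1)) (hf₀d 0 h0)
  -- bounded above
  obtain ⟨ρ, hρ, hρΩ⟩ := Metric.nhds_basis_closedBall.mem_iff.mp (ho.mem_nhds h0)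
  have hbdd : BddAbove S := by
    refine ⟨1 / ρ, ?_⟩
    rintro r ⟨f, hfd, -, hfm, -, rfl⟩
    refine Complex.norm_deriv_le_of_forall_mem_sphere_norm_le hρ ?_ ?_
    · refine DifferentiableOn.diffContOnCl ?_
      rw [closure_ball _ hρ.ne']
      exact hfd.mono hρΩ
    · intro z hz
      have := hfm (hρΩ (sphere_subset_closedBall hz))
      rw [mem_ball_zero_iff] at this
      exact this.le
  obtain ⟨u, -, hut, huS⟩ := exists_seq_tendsto_sSup ⟨_, hf₁S⟩ hbdd
  choose f hfd hfi hfm hf0 hfu using huS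
  obtain ⟨φ, g, hφ, hlim⟩ := montel ho f hfd 1 (fun n z hz => by
    have := hfm n hz
    rw [mem_ball_zero_iff] at this
    exact this.le)
  have hgd : DifferentiableOn ℂ g Ω :=
    hlim.differentiableOn (Eventually.of_forall fun n => hfd _) ho
  have hlimd := hlim.deriv (Eventually.of_forall fun n => hfd _) ho
  have hsup : ‖deriv g 0‖ = sSup S := by
    have h1 : Tendsto (fun n => ‖deriv (f (φ n)) 0‖) atTop (𝓝 ‖deriv g 0‖) :=
      (hlimd.tendsto_at h0).norm
    have h2 : Tendsto (fun n => ‖deriv (f (φ n)) 0‖) atTop (𝓝 (sSup S)) := by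
      have := hut.comp hφ.tendsto_atTop
      refine this.congr fun n => ?_
      exact hfu (φ n)
    exact tendsto_nhds_unique h1 h2
  have hgp : 0 < ‖deriv g 0‖ := by
    rw [hsup]
    exact hf₁p.trans_le (le_csSup hbdd hf₁S)
  have hgi : InjOn g Ω :=
    hurwitz_inj ho hsc.isPathConnected.isConnected.isPreconnected (fun n => f (φ n)) g
      (fun n => hfd _) (fun n => hfi _) hlim h0 (norm_pos_iff.mp hgp)
  have hg0 : g 0 = 0 := by
    have h1 := hlim.tendsto_at h0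
    have h2 : Tendsto (fun n => f (φ n) 0) atTop (𝓝 0) := by
      simp [hf0]
    exact tendsto_nhds_unique h1 h2
  have hinv : ∀ z ∈ Ω, Function.invFunOn g Ω (g z) = z := fun z hz => hgi.leftInvOn_invFunOn hz
  have hgcl : g '' Ω ⊆ closedBall 0 1 := by
    rintro _ ⟨z, hz, rfl⟩
    have h1 := hlim.tendsto_at hz
    refine isClosed_closedBall.mem_of_tendsto h1 (Eventually.of_forall fun n => ?_)
    exact ball_subset_closedBall (hfm (φ n) hz)
  have hgm : MapsTo g Ω (ball 0 1) := by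
    intro z hz
    have h1 : g '' Ω ∈ 𝓝 (g z) := (inj_inverse ho hgd hgi hinv hz).2.1
    have h2 : g z ∈ interior (closedBall (0 : ℂ) 1) :=
      mem_interior_iff_mem_nhds.mpr (Filter.mem_of_superset h1 hgcl)
    rwa [interior_closedBall _ one_ne_zero] at h2
  have hsurj : ball 0 1 ⊆ g '' Ω := by
    intro w hw
    by_contra hw'
    obtain ⟨f₂, h1, h2, h3, h4, h5⟩ := koebe ho hsc h0 hgd hgi hgm hg0
      (mem_ball_zero_iff.mp hw) hw'
    have h6 : ‖deriv f₂ 0‖ ≤ sSup S := le_csSup hbdd ⟨f₂, h1, h2, h3, h4, rfl⟩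
    rw [← hsup] at h6
    linarith
  have hψd : DifferentiableOn ℂ (Function.invFunOn g Ω) (ball 0 1) := by
    intro w hw
    obtain ⟨z, hz, rfl⟩ := hsurj hw
    exact (inj_inverse ho hgd hgi hinv hz).2.2.differentiableWithinAt
  have hψr : ∀ w ∈ ball (0 : ℂ) 1, g (Function.invFunOn g Ω w) = w := by
    intro w hw
    obtain ⟨z, hz, rfl⟩ := hsurj hw
    rw [hinv z hz]
  have hψi : InjOn (Function.invFunOn g Ω) (ball 0 1) := by
    intro w hw w' hw' h
    rw [← hψr w hw, ← hψr w' hw', h]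
  refine ⟨Function.invFunOn g Ω, hψd, hψi, ?_, ?_, ?_⟩
  · ext z
    constructor
    · rintro ⟨w, hw, rfl⟩
      obtain ⟨z, hz, rfl⟩ := hsurj hw
      rw [hinv z hz]
      exact hz
    · intro hz
      exact ⟨g z, hgm hz, hinv z hz⟩
  · have := hinv 0 h0
    rwa [hg0] at this
  · intro w hw
    exact (inj_inverse isOpen_ball hψd hψi hψr hw).1

end Ends72
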