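import Pool.Agent.LibEnds72.NormalForm
import Pool.Agent.LibEnds72.NFLemmas

/-! TASK J5d: the splitting property of `Rel`, the cases `Rel_split_one` and `Rel_split_ss`. -/

open Set

noncomputable section

namespace Ends72

open T

namespace SplitA

theorem nf' (α : Multiset T) :
    ∃ ω : Multiset T, (∀ v ∈ ω, isWC v) ∧ ∃ B : ℕ, ∀ L₀ ≥ B, ∃ σ₀ M₀ : ℕ,
      (0 < σ₀ ↔ hasS α) ∧ 4 * σ₀ ≤ M₀ ∧
      (∀ i, (cntM (L₀ + i) α : ℤ) = 4 ^ i * M₀ + iota α) ∧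
      ∀ k, ∃ x m : ℕ, (x : ℤ) = 2 ^ k * σ₀ + iota α ∧
        4 * (2 ^ k * σ₀) + m = 4 ^ k * M₀ ∧
        Unf α (NF (L₀ + k) (2 ^ k * σ₀) x m (α.count t) (fun j => cntM j α) ω) := by
  obtain ⟨ω, hω, B, hB⟩ := normal_form α
  refine ⟨ω, hω, B, fun L₀ hL₀ => ?_⟩
  obtain ⟨σ₀, M₀, h1, h2, h3, h4⟩ := hB L₀ hL₀
  refine ⟨σ₀, M₀, h1, h2, fun i => ?_, fun k => ?_⟩
  · have := h3 (L₀ + i) (by omega)
    rwa [Nat.add_sub_cancel_left] at this
  · have := h4 (L₀ + k) (by omega)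
    rwa [Nat.add_sub_cancel_left] at this

theorem nf_cnt {α : Multiset T} {L₀ k σ x m τ M : ℕ} {ω : Multiset T}
    (hω : ∀ v ∈ ω, isWC v)
    (h3 : ∀ i, (cntM (L₀ + i) α : ℤ) = 4 ^ i * M + iota α)
    (hm : 4 * σ + m = 4 ^ k * M) (hx : (x : ℤ) = σ + iota α) (j : ℕ) :
    cntM j α = cntM j (NF (L₀ + k) σ x m τ (fun j => cntM j α) ω) := by
  by_cases hj : j < L₀ + k
  · rw [NF_cntM_lt hω hj]
  · obtain ⟨i, rfl⟩ := Nat.exists_eq_add_of_le (not_lt.1 hj)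
    have h := NF_cntM_ge (L := L₀ + k) (σ := σ) (x := x) (m := m) (τ := τ)
      (q := fun j => cntM j α) hω (Nat.le_add_right (L₀ + k) i)
    have h' := h3 (k + i)
    rw [← add_assoc] at h'
    have hm' : (4 * (σ : ℤ) + m) = 4 ^ k * M := by exact_mod_cast hm
    rw [Nat.add_sub_cancel_left, hm', hx] at h
    have : (cntM (L₀ + k + i) α : ℤ)
        = cntM (L₀ + k + i) (NF (L₀ + k) σ x m τ (fun j => cntM j α) ω) := by
      rw [h, h']; ring
    exact_mod_cast this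

theorem Rel_of_unf {α β : Multiset T} (h : Unf α β) : Rel α β :=
  Rel_symm (Rel_unf (Rel_refl α) h)

/-- comparison of two eventual formulas -/
theorem eq_of_cnt {α₁ α₂ β : Multiset T} {L₀ M M₁ M₂ : ℕ}
    (h1 : ∀ i, (cntM (L₀ + i) α₁ : ℤ) = 4 ^ i * M₁ + iota α₁)
    (h2 : ∀ i, (cntM (L₀ + i) α₂ : ℤ) = 4 ^ i * M₂ + iota α₂)
    (h3 : ∀ i, (cntM (L₀ + i) β : ℤ) = 4 ^ i * M + iota β)
    (h : ∀ j, cntM j (α₁ + α₂) = cntM j β) :
    M = M₁ + M₂ ∧ iota β = iota α₁ + iota α₂ := by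
  have a0 := h1 0
  have a1 := h1 1
  have b0 := h2 0
  have b1 := h2 1
  have c0 := h3 0
  have c1 := h3 1
  have d0 : (cntM (L₀ + 0) β : ℤ) = cntM (L₀ + 0) α₁ + cntM (L₀ + 0) α₂ := by
    rw [← h, cntM_add]; push_cast; ring
  have d1 : (cntM (L₀ + 1) β : ℤ) = cntM (L₀ + 1) α₁ + cntM (L₀ + 1) α₂ := by
    rw [← h, cntM_add]; push_cast; ring
  simp only [pow_zero, one_mul, pow_one] at a0 a1 b0 b1 c0 c1
  constructor
  · have : (M : ℤ) = M₁ + M₂ := by linarith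
    exact_mod_cast this
  · linarith

theorem exists_k (a b : ℤ) (c : ℕ) : ∃ k : ℕ, a ≤ 2 ^ k ∧ b ≤ 2 ^ k ∧ (c : ℤ) ≤ 2 ^ k := by
  refine ⟨a.toNat + b.toNat + c, ?_, ?_, ?_⟩ <;>
  · have h : ((a.toNat + b.toNat + c : ℕ) : ℤ) < 2 ^ (a.toNat + b.toNat + c) := by
      exact_mod_cast Nat.lt_two_pow_self
    push_cast at h
    have := Int.self_le_toNat a
    have := Int.self_le_toNat b
    have := Int.toNat_of_nonneg (Int.natCast_nonneg a.toNat)
    have := Int.natCast_nonneg a.toNat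
    have := Int.natCast_nonneg b.toNat
    omega

end SplitA

open SplitA

/-- no `t` at all, both parts have `s` -/
theorem Rel_split_ss {α₁ α₂ β : Multiset T} (h : Rel (α₁ + α₂) β) (h1 : hasS α₁)
    (h2 : hasS α₂) (k1 : t ∉ α₁) (k2 : t ∉ α₂) :
    ∃ β₁ β₂, Unf β (β₁ + β₂) ∧ Rel α₁ β₁ ∧ Rel α₂ β₂ := by
  have hs : hasS (α₁ + α₂) := hasS_add.2 (Or.inl h1)
  have ht : t ∉ α₁ + α₂ := by
    rw [Multiset.mem_add]; tauto
  have hsβ : hasS β := h.1.1 hs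
  have htβ : t ∉ β := fun hh => ht (h.2.1.2 hh)
  have hcnt := h.2.2.2.1 hs ht
  obtain ⟨ω, hω, B, hB⟩ := nf' β
  obtain ⟨ω₁, -, B₁, hB₁⟩ := nf' α₁
  obtain ⟨ω₂, -, B₂, hB₂⟩ := nf' α₂
  set L₀ := max B (max B₁ B₂) with hL₀
  obtain ⟨σ₀, M, p1, p2, p3, p4⟩ := hB L₀ (le_max_left _ _)
  obtain ⟨σ₁, M₁, q1, q2, q3, -⟩ := hB₁ L₀ (le_trans (le_max_left _ _) (le_max_right _ _))
  obtain ⟨σ₂, M₂, r1, r2, r3, -⟩ := hB₂ L₀ (le_trans (le_max_right _ _) (le_max_right _ _))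
  obtain ⟨hM, hiota⟩ := eq_of_cnt q3 r3 p3 hcnt
  have hσ₀ : 0 < σ₀ := p1.2 hsβ
  have hσ₁ : 0 < σ₁ := q1.2 h1
  have hσ₂ : 0 < σ₂ := r1.2 h2
  -- the constant
  set c₁ : ℕ := 1 + (-iota α₁).toNat with hc₁
  have hc₁' : 0 ≤ (c₁ : ℤ) + iota α₁ := by
    have := Int.self_le_toNat (-iota α₁)
    rw [hc₁]; push_cast; linarith
  obtain ⟨k, hk1, hk2, hk3⟩ := exists_k (c₁ + 1 : ℤ) (c₁ - iota α₂) (σ₀ + c₁)
  obtain ⟨x, m, hx, hm, hu⟩ := p4 k
  set P : ℕ := 2 ^ k with hP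
  have hP4 : 4 ^ k = P * P := by rw [hP, ← mul_pow]; norm_num
  have hPz : ((2 : ℤ) ^ k) = (P : ℤ) := by rw [hP]; push_cast; rfl
  rw [hPz] at hk1 hk2 hk3 hx
  have hσge : P ≤ P * σ₀ := Nat.le_mul_of_pos_right _ hσ₀
  have hk3' : σ₀ + c₁ ≤ P := by exact_mod_cast hk3
  have hk1' : c₁ + 1 ≤ P := by exact_mod_cast hk1
  set σ : ℕ := P * σ₀ with hσ
  -- the two parts
  obtain ⟨x₁, hx₁⟩ : ∃ x₁ : ℕ, (x₁ : ℤ) = c₁ + iota α₁ := ⟨_, Int.toNat_of_nonneg hc₁'⟩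
  have hx₂' : 0 ≤ ((σ - c₁ : ℕ) : ℤ) + iota α₂ := by
    have : ((σ - c₁ : ℕ) : ℤ) = (σ : ℤ) - c₁ := by
      rw [Nat.cast_sub]; omega
    rw [this]
    have : (P : ℤ) ≤ σ := by exact_mod_cast hσge
    linarith
  obtain ⟨x₂, hx₂⟩ : ∃ x₂ : ℕ, (x₂ : ℤ) = ((σ - c₁ : ℕ) : ℤ) + iota α₂ :=
    ⟨_, Int.toNat_of_nonneg hx₂'⟩
  have hm₁' : 4 * c₁ ≤ 4 ^ k * M₁ := by
    rw [hP4]
    have e1 : c₁ ≤ P * P := le_trans (by omega) (Nat.le_mul_of_pos_left P (by omega))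
    nlinarith
  have hm₂' : 4 * (σ - c₁) ≤ 4 ^ k * M₂ := by
    rw [hP4]
    have e1 : σ ≤ P * P := by rw [hσ]; exact Nat.mul_le_mul_left _ (by omega)
    have e2 : σ - c₁ ≤ P * P := le_trans (Nat.sub_le _ _) e1
    nlinarith
  obtain ⟨m₁, hm₁⟩ := Nat.exists_eq_add_of_le hm₁'
  obtain ⟨m₂, hm₂⟩ := Nat.exists_eq_add_of_le hm₂'
  refine ⟨NF (L₀ + k) c₁ x₁ m₁ 0 (fun j => cntM j α₁) ω,
    NF (L₀ + k) (σ - c₁) x₂ m₂ 0 (fun j => cntM j α₂) 0, ?_, ?_, ?_⟩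
  · rw [← NF_add]
    have e1 : c₁ + (σ - c₁) = σ := by omega
    have e2 : x₁ + x₂ = x := by
      have : (x₁ : ℤ) + x₂ = x := by
        rw [hx₁, hx₂, hx, hiota, Nat.cast_sub (by omega)]
        rw [hσ]; push_cast; ring
      exact_mod_cast this
    have e3 : m₁ + m₂ = m := by
      have : 4 * c₁ + m₁ + (4 * (σ - c₁) + m₂) = 4 * σ + m := by
        rw [← hm₁, ← hm₂, hm, hM]; ring
      omega
    have e4 : Multiset.count t β = 0 := Multiset.count_eq_zero_of_notMem htβ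
    have e5 : (fun j => cntM j α₁ + cntM j α₂) = fun j => cntM j β := by
      funext j; rw [← hcnt j, cntM_add]
    rw [e1, e2, e3, e5, add_zero, add_zero, ← e4]
    exact hu
  · have hω' := hω
    refine ⟨?_, ?_, ?_, ?_, ?_, ?_⟩
    · rw [NF_hasS hω]
      exact ⟨fun _ => by omega, fun _ => h1⟩
    · rw [NF_hasT hω]
      exact ⟨fun hh => absurd hh k1, fun hh => absurd hh (lt_irrefl _)⟩
    · intro hh; exact absurd h1 hh
    · intro _ _ j
      exact nf_cnt hω q3 hm₁.symm hx₁ j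
    · intro hh; exact absurd h1 hh
    · intro _ hh; exact absurd hh k1
  · have h0 : ∀ v ∈ (0 : Multiset T), isWC v := by intro v hv; exact absurd hv (Multiset.notMem_zero v)
    refine ⟨?_, ?_, ?_, ?_, ?_, ?_⟩
    · rw [NF_hasS h0]
      exact ⟨fun _ => by omega, fun _ => h2⟩
    · rw [NF_hasT h0]
      exact ⟨fun hh => absurd hh k2, fun hh => absurd hh (lt_irrefl _)⟩
    · intro hh; exact absurd h2 hh
    · intro _ _ j
      exact nf_cnt h0 r3 hm₂.symm hx₂ j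
    · intro hh; exact absurd h2 hh
    · intro _ hh; exact absurd hh k2

/-- the second part carries neither `s` nor `t` -/
theorem Rel_split_one {α₁ α₂ β : Multiset T} (h : Rel (α₁ + α₂) β) (hs : ¬ hasS α₂)
    (ht : t ∉ α₂) (h1 : hasS α₁ ∨ t ∈ α₁) :
    ∃ β₁ β₂, Unf β (β₁ + β₂) ∧ Rel α₁ β₁ ∧ Rel α₂ β₂ := by
  obtain ⟨ω₂, hω₂, B₂, hB₂⟩ := nf' α₂
  -- flags
  have hsα : hasS (α₁ + α₂) ↔ hasS α₁ := by
    rw [hasS_add]; tauto
  have htα : t ∈ α₁ + α₂ ↔ t ∈ α₁ := by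
    rw [Multiset.mem_add]; tauto
  have hsβ : hasS β ↔ hasS α₁ := by rw [← h.1, hsα]
  have htβ : t ∈ β ↔ t ∈ α₁ := by rw [← h.2.1, htα]
  have hβ : hasS β ∨ t ∈ β := by rw [hsβ, htβ]; exact h1
  obtain ⟨β', hβ'⟩ := absorb hβ hω₂
  have hsω : ¬ hasS ω₂ := wc_hasS hω₂
  have htω : t ∉ ω₂ := wc_hasT hω₂
  have hsβ' : hasS β' ↔ hasS α₁ := by
    rw [← hsβ, hasS_unf hβ', hasS_add]; tauto
  have htβ' : t ∈ β' ↔ t ∈ α₁ := by
    rw [← htβ, hasT_unf hβ', Multiset.mem_add]; tauto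
  have hiβ' : iota β' = iota β := by
    rw [iota_unf hβ', iota_add, wc_iota hω₂, add_zero]
  obtain ⟨ω, hω, B, hB⟩ := nf' β'
  obtain ⟨ω₁, -, B₁, hB₁⟩ := nf' α₁
  set L₀ := max B (max B₁ B₂) with hL₀
  obtain ⟨σ₀, M, p1, p2, p3, p4⟩ := hB L₀ (le_max_left _ _)
  obtain ⟨σ₁, M₁, q1, q2, q3, -⟩ := hB₁ L₀ (le_trans (le_max_left _ _) (le_max_right _ _))
  obtain ⟨σ₂, M₂, r1, r2, r3, r4⟩ := hB₂ L₀ (le_trans (le_max_right _ _) (le_max_right _ _))
  have hσ₂ : σ₂ = 0 := by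
    by_contra hne
    exact hs (r1.1 (Nat.pos_of_ne_zero hne))
  subst hσ₂
  by_cases k1 : t ∈ α₁
  · -- the first part has `t`
    have hx : ∃ k : ℕ, iota α₂ ≤ 2 ^ k * σ₀ + iota β' := by
      by_cases hS : hasS α₁
      · have hσ₀ : 0 < σ₀ := p1.2 (hsβ'.2 hS)
        obtain ⟨k, hk, -, -⟩ := exists_k (iota α₂ - iota β') 0 0
        refine ⟨k, ?_⟩
        have : (1 : ℤ) ≤ σ₀ := by exact_mod_cast hσ₀
        have h2 : (0 : ℤ) < 2 ^ k := by positivity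
        nlinarith
      · refine ⟨0, ?_⟩
        have hσ₀ : σ₀ = 0 := by
          by_contra hne
          exact hS (hsβ'.1 (p1.1 (Nat.pos_of_ne_zero hne)))
        have hn := h.2.2.2.2.1 (fun hh => hS (hsα.1 hh)) (htα.2 k1)
        rw [numU_add] at hn
        rw [hσ₀, hiβ', iota_of_not_hasS hs, iota_of_not_hasS (fun hh => hS (hsβ.1 hh)), ← hn]
        push_cast
        have : (0 : ℤ) ≤ numU α₁ := Int.natCast_nonneg _
        linarith
    obtain ⟨k, hk⟩ := hx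
    obtain ⟨x, m, hx, hm, hu⟩ := p4 k
    obtain ⟨x₂, m₂, hx₂, hm₂, hu₂⟩ := r4 k
    rw [mul_zero] at hu₂ hm₂
    have e0 : Multiset.count t α₂ = 0 := Multiset.count_eq_zero_of_notMem ht
    rw [e0] at hu₂
    set L := L₀ + k with hL
    set σ := 2 ^ k * σ₀ with hσ
    obtain ⟨τ, hτ⟩ : ∃ τ, Multiset.count t β' = τ + 1 := by
      have : 0 < Multiset.count t β' := Multiset.count_pos.2 (htβ'.2 k1)
      exact ⟨_, (Nat.succ_pred_eq_of_pos this).symm⟩
    rw [hτ] at hu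
    set n := m₂ + ∑ j ∈ Finset.range L, cntM j α₂ with hn
    have hnm : m₂ ≤ m + n * 4 ^ L := by
      have : n ≤ n * 4 ^ L := Nat.le_mul_of_pos_right _ (by positivity)
      omega
    have hnq : ∀ j < L, cntM j α₂ ≤ cntM j β' + n * 4 ^ j := by
      intro j hj
      have h2 : n ≤ n * 4 ^ j := Nat.le_mul_of_pos_right _ (by positivity)
      have h3 : cntM j α₂ ≤ ∑ j ∈ Finset.range L, cntM j α₂ :=
        Finset.single_le_sum (f := fun j => cntM j α₂) (fun _ _ => Nat.zero_le _)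
          (Finset.mem_range.2 hj)
      omega
    have hxx : x₂ ≤ x := by
      have : (x₂ : ℤ) ≤ x := by
        rw [hx₂, hx]; push_cast; linarith
      exact_mod_cast this
    obtain ⟨x', hx'⟩ := Nat.exists_eq_add_of_le hxx
    obtain ⟨m', hm'⟩ := Nat.exists_eq_add_of_le hnm
    refine ⟨NF L σ x' m' (τ + (n + 1)) (fun j => cntM j β' + n * 4 ^ j - cntM j α₂) ω,
      NF L 0 x₂ m₂ 0 (fun j => cntM j α₂) ω₂, ?_, ?_, Rel_of_unf hu₂⟩
    · -- the unfolding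
      have s1 : Unf β (NF L σ x m (τ + 1) (fun j => cntM j β') ω + ω₂) :=
        Unf_trans hβ' (Unf_add hu (Unf_refl _))
      have s2 : NF L σ x m (τ + 1) (fun j => cntM j β') ω =
          NF L σ x m τ (fun j => cntM j β') ω + {t} := by
        have := NF_add L σ x m τ 0 0 0 1 (fun j => cntM j β') (fun _ => 0) ω 0
        simp only [add_zero] at this
        rw [this]
        congr 1
        simp [NF]
      have s3 : Unf (NF L σ x m τ (fun j => cntM j β') ω + {t})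
          (NF L σ x m τ (fun j => cntM j β') ω +
            NF L 0 0 (n * 4 ^ L) (n + 1) (fun j => n * 4 ^ j) 0) :=
        Unf_add (Unf_refl _) (supply L n)
      have s4 : NF L σ x m τ (fun j => cntM j β') ω +
            NF L 0 0 (n * 4 ^ L) (n + 1) (fun j => n * 4 ^ j) 0 =
          NF L σ x' m' (τ + (n + 1)) (fun j => cntM j β' + n * 4 ^ j - cntM j α₂) ω +
            NF L 0 x₂ m₂ 0 (fun j => cntM j α₂) 0 := by
        rw [← NF_add, ← NF_add, hm', hx']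
        simp only [add_zero]
        rw [add_comm x₂ x', add_comm m₂ m']
        apply NF_congr
        intro j hj
        have := hnq j hj
        omega
      have s5 : NF L 0 x₂ m₂ 0 (fun j => cntM j α₂) 0 + ω₂ =
          NF L 0 x₂ m₂ 0 (fun j => cntM j α₂) ω₂ := by
        simp [NF]
      rw [s2] at s1
      have s6 := Unf_trans s1 (Unf_add s3 (Unf_refl ω₂))
      rw [s4, add_assoc, s5] at s6
      exact s6
    · refine ⟨?_, ?_, ?_, ?_, ?_, ?_⟩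
      · rw [NF_hasS hω, ← hsβ', ← p1, hσ]
        constructor
        · intro hh; positivity
        · intro hh; exact Nat.pos_of_mul_pos_left hh
      · rw [NF_hasT hω]
        exact ⟨fun _ => by omega, fun _ => k1⟩
      · intro _ hh; exact absurd k1 hh
      · intro _ hh; exact absurd k1 hh
      · intro hS _
        have hσ₀ : σ₀ = 0 := by
          by_contra hne
          exact hS (hsβ'.1 (p1.1 (Nat.pos_of_ne_zero hne)))
        have hn' := h.2.2.2.2.1 (fun hh => hS (hsα.1 hh)) (htα.2 k1)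
        rw [numU_add] at hn'
        rw [NF_numU hω]
        have e1 : iota α₂ = numU α₂ := iota_of_not_hasS hs
        have e2 : iota β = numU β := iota_of_not_hasS (fun hh => hS (hsβ.1 hh))
        have e3 : (x : ℤ) = x₂ + x' := by rw [hx']; push_cast; ring
        rw [hσ₀, hiβ', e2, ← hn'] at hx
        rw [e1] at hx₂
        push_cast at hx hx₂
        have : (numU α₁ : ℤ) = x' := by linarith
        exact_mod_cast this
      · intro hS _
        have hn' := h.2.2.2.2.2 (hsα.2 hS) (htα.2 k1)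
        rw [iota_add] at hn'
        rw [NF_iota hω]
        have e3 : (x : ℤ) = x₂ + x' := by rw [hx']; push_cast; ring
        rw [hσ]
        push_cast at hx hx₂ ⊢
        linarith
  · -- no `t`
    have hS : hasS α₁ := h1.resolve_right k1
    have hsα' : hasS (α₁ + α₂) := hsα.2 hS
    have htα' : t ∉ α₁ + α₂ := fun hh => k1 (htα.1 hh)
    have hcnt := h.2.2.2.1 hsα' htα'
    have htβ0 : t ∉ β := fun hh => k1 (htβ.1 hh)
    have hcβ : ∀ j, cntM j (α₁ + α₂) = cntM j β' := by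
      intro j
      rw [hcnt j, cntM_unf hβ' htβ0 j, cntM_add, wc_cntM hω₂, add_zero]
    obtain ⟨hM, hiota⟩ := eq_of_cnt q3 r3 p3 hcβ
    have hσ₀ : 0 < σ₀ := p1.2 (hsβ'.2 hS)
    have hσ₁ : 0 < σ₁ := q1.2 hS
    obtain ⟨k, hk1, -, hk3⟩ := exists_k (- iota α₁) 0 σ₀
    obtain ⟨x, m, hx, hm, hu⟩ := p4 k
    obtain ⟨x₂, m₂, hx₂, hm₂, hu₂⟩ := r4 k
    rw [mul_zero] at hu₂ hm₂
    have e0 : Multiset.count t α₂ = 0 := Multiset.count_eq_zero_of_notMem ht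
    have e0' : Multiset.count t β' = 0 :=
      Multiset.count_eq_zero_of_notMem (fun hh => k1 (htβ'.1 hh))
    rw [e0] at hu₂
    rw [e0'] at hu
    set P : ℕ := 2 ^ k with hP
    have hP4 : 4 ^ k = P * P := by rw [hP, ← mul_pow]; norm_num
    have hPz : ((2 : ℤ) ^ k) = (P : ℤ) := by rw [hP]; push_cast; rfl
    rw [hPz] at hk1 hk3 hx hx₂
    have hk3' : σ₀ ≤ P := by exact_mod_cast hk3
    have hσge : P ≤ P * σ₀ := Nat.le_mul_of_pos_right _ hσ₀
    set σ : ℕ := P * σ₀ with hσ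
    have hxx : x₂ ≤ x := by
      have h4 : (P : ℤ) ≤ σ := by exact_mod_cast hσge
      have h5 : (x : ℤ) = σ + iota β' := by rw [hx, hσ]; push_cast; ring
      have : (x₂ : ℤ) ≤ x := by
        rw [hx₂, h5, hiota]; push_cast; linarith
      exact_mod_cast this
    have hmm : m₂ ≤ m := by
      have h6 : 4 * σ ≤ 4 ^ k * M₁ := by
        rw [hP4]
        have e1 : σ ≤ P * P := by rw [hσ]; exact Nat.mul_le_mul_left _ hk3'
        nlinarith
      have h7 : 4 * σ + m = 4 ^ k * M₁ + m₂ := by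
        rw [hm, hM, mul_add]; omega
      omega
    obtain ⟨x', hx'⟩ := Nat.exists_eq_add_of_le hxx
    obtain ⟨m', hm'⟩ := Nat.exists_eq_add_of_le hmm
    refine ⟨NF (L₀ + k) σ x' m' 0 (fun j => cntM j α₁) ω,
      NF (L₀ + k) 0 x₂ m₂ 0 (fun j => cntM j α₂) ω₂, ?_, ?_, Rel_of_unf hu₂⟩
    · have s1 : Unf β (NF (L₀ + k) σ x m 0 (fun j => cntM j β') ω + ω₂) :=
        Unf_trans hβ' (Unf_add hu (Unf_refl _))
      have s4 : NF (L₀ + k) σ x m 0 (fun j => cntM j β') ω =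
          NF (L₀ + k) σ x' m' 0 (fun j => cntM j α₁) ω +
            NF (L₀ + k) 0 x₂ m₂ 0 (fun j => cntM j α₂) 0 := by
        rw [← NF_add, hm', hx']
        simp only [add_zero]
        rw [add_comm x₂ x', add_comm m₂ m']
        apply NF_congr
        intro j hj
        rw [← hcβ j, cntM_add]
      have s5 : NF (L₀ + k) 0 x₂ m₂ 0 (fun j => cntM j α₂) 0 + ω₂ =
          NF (L₀ + k) 0 x₂ m₂ 0 (fun j => cntM j α₂) ω₂ := by
        simp [NF]
      rw [s4, add_assoc, s5] at s1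
      exact s1
    · have hxe : (x' : ℤ) = σ + iota α₁ := by
        have h5 : (x : ℤ) = σ + iota β' := by rw [hx, hσ]; push_cast; ring
        have e3 : (x : ℤ) = x₂ + x' := by rw [hx']; push_cast; ring
        push_cast at hx₂
        linarith
      have hme : 4 * σ + m' = 4 ^ k * M₁ := by
        have h7 : 4 * σ + m = 4 ^ k * M₁ + m₂ := by
          rw [hm, hM, mul_add]; omega
        omega
      refine ⟨?_, ?_, ?_, ?_, ?_, ?_⟩
      · rw [NF_hasS hω]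
        exact ⟨fun _ => by positivity, fun _ => hS⟩
      · rw [NF_hasT hω]
        exact ⟨fun hh => absurd hh k1, fun hh => absurd hh (lt_irrefl _)⟩
      · intro hh; exact absurd hS hh
      · intro _ _ j
        exact nf_cnt hω q3 hme hxe j
      · intro hh; exact absurd hS hh
      · intro _ hh; exact absurd hh k1

end Ends72
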