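import Pool.Agent.LibEnds72.NormalForm
import Pool.Agent.LibEnds72.NFLemmas
import Pool.Agent.LibEnds72.SplitA

/-! TASK J5e: the splitting property of `Rel`, second part. -/

open Set

noncomputable section

namespace Ends72

open T

theorem Rel_of_t {α β : Multiset T} (ha : t ∈ α) (hb : t ∈ β) (hs : hasS α ↔ hasS β)
    (hi : iota α = iota β) : Rel α β := by
  refine ⟨hs, ⟨fun _ => hb, fun _ => ha⟩, fun _ h => absurd ha h, fun _ h => absurd ha h, ?_,
    fun _ _ => hi⟩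
  intro h1 _
  have e1 := iota_of_not_hasS h1
  have e2 := iota_of_not_hasS (fun h => h1 (hs.2 h))
  rw [e1, e2] at hi
  exact_mod_cast hi

theorem Rel_iota_of_t {α β : Multiset T} (h : Rel α β) (ha : t ∈ α) : iota α = iota β := by
  by_cases hs : hasS α
  · exact h.2.2.2.2.2 hs ha
  · rw [iota_of_not_hasS hs, iota_of_not_hasS (fun h' => hs (h.1.2 h'))]
    exact_mod_cast h.2.2.2.2.1 hs ha

theorem cnt_le (j : ℕ) (v : T) : cnt j v ≤ 4 * 4 ^ j := by
  have h4 : 1 ≤ 4 ^ j := Nat.one_le_pow _ _ (by norm_num)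
  cases v with
  | w i => simp [cnt]
  | c => simp [cnt]
  | p i => simp only [cnt]; split_ifs <;> omega
  | u k => simp only [cnt]; split_ifs <;> omega
  | r k =>
    simp only [cnt]
    split_ifs
    · have : 4 ^ (j - k) ≤ 4 ^ j := Nat.pow_le_pow_right (by norm_num) (by omega)
      omega
    · omega
  | s k =>
    simp only [cnt]
    split_ifs
    · have : 4 ^ (j - k + 1) ≤ 4 ^ (j + 1) := Nat.pow_le_pow_right (by norm_num) (by omega)
      rw [pow_succ 4 j] at this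
      omega
    · omega
  | t => simp [cnt]

theorem cntM_le (j : ℕ) (α : Multiset T) : cntM j α ≤ (4 * Multiset.card α) * 4 ^ j := by
  induction α using Multiset.induction with
  | empty => simp [cntM]
  | cons a α ih =>
    have : cntM j (a ::ₘ α) = cnt j a + cntM j α := by simp [cntM]
    rw [this, Multiset.card_cons]
    have := cnt_le j a
    nlinarith

/-- the normal form in the presence of `t`, with a large supply -/
theorem big_form {β : Multiset T} (ht : t ∈ β) :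
    ∃ ω : Multiset T, (∀ v ∈ ω, isWC v) ∧ ∃ B σ₀ : ℕ, (0 < σ₀ ↔ hasS β) ∧
      ∀ n : ℕ, ∀ L ≥ B, ∃ (x m τ : ℕ) (q : ℕ → ℕ), (x : ℤ) = 2 ^ (L - B) * σ₀ + iota β ∧
        n * 4 ^ L ≤ m ∧ n + 1 ≤ τ ∧ (∀ j, n * 4 ^ j ≤ q j) ∧
        Unf β (NF L (2 ^ (L - B) * σ₀) x m τ q ω) := by
  obtain ⟨β', rfl⟩ := Multiset.exists_cons_of_mem ht
  obtain ⟨ω, hω, B, hB⟩ := normal_form β'
  obtain ⟨σ₀, M₀, h1, -, -, h4⟩ := hB B le_rfl
  have hs : hasS (t ::ₘ β') ↔ hasS β' := by
    constructor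
    · rintro ⟨v, hv, hv'⟩
      rcases Multiset.mem_cons.1 hv with rfl | hv
      · exact absurd hv' (by simp [isS])
      · exact ⟨v, hv, hv'⟩
    · rintro ⟨v, hv, hv'⟩
      exact ⟨v, Multiset.mem_cons_of_mem hv, hv'⟩
  have hi : iota (t ::ₘ β') = iota β' := by simp [iota, val]
  refine ⟨ω, hω, B, σ₀, h1.trans hs.symm, ?_⟩
  intro n L hL
  obtain ⟨x, m, hx, -, hu⟩ := h4 L hL
  refine ⟨x, m + n * 4 ^ L, β'.count t + (n + 1), fun j => cntM j β' + n * 4 ^ j, ?_, ?_, ?_, ?_, ?_⟩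
  · rw [hi, hx]
  · omega
  · omega
  · intro j
    simp only
    omega
  · have h5 := Unf_add hu (supply L n)
    rw [← NF_add] at h5
    simpa [add_comm β', Multiset.singleton_add] using h5

/-- the first part has `t`, the second part has `s` or `t` -/
theorem Rel_split_t {α₁ α₂ β : Multiset T} (h : Rel (α₁ + α₂) β) (h1 : t ∈ α₁)
    (h2 : hasS α₂ ∨ t ∈ α₂) :
    ∃ β₁ β₂, Unf β (β₁ + β₂) ∧ Rel α₁ β₁ ∧ Rel α₂ β₂ := by
  have ht12 : t ∈ α₁ + α₂ := Multiset.mem_add.2 (Or.inl h1)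
  have htβ : t ∈ β := h.2.1.1 ht12
  have hi : iota α₁ + iota α₂ = iota β := by
    rw [← iota_add]
    exact Rel_iota_of_t h ht12
  have hsβ : (hasS α₁ ∨ hasS α₂) ↔ hasS β := by
    rw [← hasS_add]
    exact h.1
  obtain ⟨ω, hω, B, σ₀, hσ₀, hbig⟩ := big_form htβ
  -- data of `α₂`
  obtain ⟨ω₂, hω₂, B₂, hB₂⟩ := normal_form α₂
  obtain ⟨σ₂', M₂, hσ₂', hM₂, hcnt, -⟩ := hB₂ B₂ le_rfl
  -- constants
  set n : ℕ := M₂ + 4 * Multiset.card α₂ + 1 with hn
  have hzero : ∀ v ∈ (0 : Multiset T), isWC v := by simp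
  -- the splitting is determined by `L, σ₂`
  suffices hmain : ∃ L ≥ B, ∃ σ₂ : ℕ, B₂ ≤ L ∧ σ₂ ≤ 2 ^ (L - B) * σ₀ ∧ (0 < σ₂ ↔ hasS α₂) ∧
      (0 < 2 ^ (L - B) * σ₀ - σ₂ ↔ hasS α₁) ∧ 0 ≤ (σ₂ : ℤ) + iota α₂ ∧
      0 ≤ (2 ^ (L - B) * σ₀ : ℤ) - σ₂ + iota α₁ ∧
      (t ∉ α₂ → 4 * σ₂ ≤ 4 ^ (L - B₂) * M₂) by
    obtain ⟨L, hLB, σ₂, hLB₂, hσle, hS₂, hS₁, hx₂, hx₁, hm₂⟩ := hmain
    obtain ⟨x, m, τ, q, hx, hm, hτ, hq, hu⟩ := hbig n L hLB
    obtain ⟨x₂, hx₂'⟩ := Int.eq_ofNat_of_zero_le hx₂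
    obtain ⟨x₁, hx₁'⟩ := Int.eq_ofNat_of_zero_le hx₁
    obtain ⟨σ₁, hσ₁⟩ := Nat.exists_eq_add_of_le' hσle
    have hxx : x = x₁ + x₂ := by
      have : (x : ℤ) = x₁ + x₂ := by
        rw [hx, ← hx₁', ← hx₂', ← hi]
        ring
      exact_mod_cast this
    have hσ₁' : 2 ^ (L - B) * σ₀ - σ₂ = σ₁ := by omega
    have hσ₁z : ((2 : ℤ) ^ (L - B) * σ₀) = σ₁ + σ₂ := by exact_mod_cast hσ₁
    rw [hσ₁'] at hS₁
    by_cases ht₂ : t ∈ α₂
    · refine ⟨NF L σ₁ x₁ m (τ - 1) q ω, NF L σ₂ x₂ 0 1 (fun _ => 0) 0, ?_, ?_, ?_⟩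
      · rw [← NF_add]
        have e1 : τ - 1 + 1 = τ := by omega
        rw [← hσ₁, ← hxx, e1, add_zero, add_zero]
        exact hu
      · apply Rel_of_t h1
        · rw [NF_hasT hω]
          omega
        · rw [NF_hasS hω]
          exact hS₁.symm
        · rw [NF_iota hω, ← hx₁', hσ₁z]
          ring
      · apply Rel_of_t ht₂
        · rw [NF_hasT hzero]
          omega
        · rw [NF_hasS hzero]
          exact hS₂.symm
        · rw [NF_iota hzero, ← hx₂']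
          ring
    · have hs₂ : hasS α₂ := h2.resolve_right ht₂
      have hm₂' := hm₂ ht₂
      obtain ⟨m₂, hm₂e⟩ := Nat.exists_eq_add_of_le hm₂'
      have hm₂le : m₂ ≤ m := by
        have e1 : 4 ^ (L - B₂) ≤ 4 ^ L := Nat.pow_le_pow_right (by norm_num) (by omega)
        have e2 : 4 ^ (L - B₂) * M₂ ≤ 4 ^ L * n := Nat.mul_le_mul e1 (by omega)
        have e3 : 4 ^ L * n = n * 4 ^ L := by ring
        omega
      have hqle : ∀ j, cntM j α₂ ≤ q j := by
        intro j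
        have e1 := cntM_le j α₂
        have e2 : (4 * Multiset.card α₂) * 4 ^ j ≤ n * 4 ^ j :=
          Nat.mul_le_mul_right _ (by omega)
        have e3 := hq j
        omega
      refine ⟨NF L σ₁ x₁ (m - m₂) τ (fun j => q j - cntM j α₂) ω,
        NF L σ₂ x₂ m₂ 0 (fun j => cntM j α₂) 0, ?_, ?_, ?_⟩
      · rw [← NF_add]
        have e1 : m - m₂ + m₂ = m := by omega
        have e2 : (fun j => q j - cntM j α₂ + cntM j α₂) = q := by
          funext j
          have := hqle j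
          omega
        rw [← hσ₁, ← hxx, e1, e2, add_zero, add_zero]
        exact hu
      · apply Rel_of_t h1
        · rw [NF_hasT hω]
          omega
        · rw [NF_hasS hω]
          exact hS₁.symm
        · rw [NF_iota hω, ← hx₁', hσ₁z]
          ring
      · have hσ₂pos : 0 < σ₂ := hS₂.2 hs₂
        have hS' : hasS (NF L σ₂ x₂ m₂ 0 (fun j => cntM j α₂) 0) := (NF_hasS hzero).2 hσ₂pos
        have hT' : t ∉ NF L σ₂ x₂ m₂ 0 (fun j => cntM j α₂) 0 := by
          rw [NF_hasT hzero]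
          omega
        refine ⟨⟨fun _ => hS', fun _ => hs₂⟩, ⟨fun h => absurd h ht₂, fun h => absurd h hT'⟩,
          fun h => absurd hs₂ h, ?_, fun h => absurd hs₂ h, fun _ h => absurd h ht₂⟩
        intro _ _ j
        rcases lt_or_ge j L with hj | hj
        · rw [NF_cntM_lt hzero hj]
        · have e1 := NF_cntM_ge (L := L) (σ := σ₂) (x := x₂) (m := m₂) (τ := 0)
            (q := fun j => cntM j α₂) hzero hj
          have e2 := hcnt j (by omega)
          have e3 : (4 * σ₂ + m₂ : ℤ) = 4 ^ (L - B₂) * M₂ := by exact_mod_cast hm₂e.symm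
          have e4 : (4 : ℤ) ^ (j - B₂) = 4 ^ (j - L) * 4 ^ (L - B₂) := by
            rw [← pow_add]
            congr 1
            omega
          rw [e3, ← hx₂'] at e1
          have : (cntM j α₂ : ℤ) = cntM j (NF L σ₂ x₂ m₂ 0 (fun j => cntM j α₂) 0) := by
            rw [e1, e2, e4]
            ring
          exact_mod_cast this
  -- the choice of `L, σ₂`
  have hpow2 : ∀ k : ℕ, k < 2 ^ k := fun k => Nat.lt_two_pow_self
  by_cases hS₂ : hasS α₂
  · have hσ₂'pos : 0 < σ₂' := hσ₂'.2 hS₂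
    have hM₂pos : 4 ≤ M₂ := by omega
    have hσ₀pos : 0 < σ₀ := hσ₀.2 (hsβ.1 (Or.inr hS₂))
    by_cases hS₁ : hasS α₁
    · -- both have `s`
      set c₂ : ℕ := 1 + (iota α₂).natAbs with hc₂
      set K : ℕ := c₂ + (iota α₁).natAbs + 1 with hK
      set L : ℕ := B + B₂ + K with hL
      have hLB : L - B = B₂ + K := by omega
      have hbig' : K ≤ 2 ^ (L - B) := by
        rw [hLB]
        have := hpow2 (B₂ + K)
        omega
      have hbig'' : K ≤ 2 ^ (L - B) * σ₀ := by nlinarith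
      refine ⟨L, by omega, c₂, by omega, by omega, ⟨fun _ => hS₂, fun _ => by omega⟩,
        ⟨fun _ => hS₁, fun _ => by omega⟩, by omega, ?_, ?_⟩
      · have : (K : ℤ) ≤ 2 ^ (L - B) * σ₀ := by exact_mod_cast hbig''
        omega
      · intro _
        have e1 : L - B₂ = B + K := by omega
        have e2 : B + K < 2 ^ (B + K) := hpow2 _
        have e3 : 2 ^ (B + K) ≤ 4 ^ (B + K) := Nat.pow_le_pow_left (by norm_num) _
        rw [e1]
        calc 4 * c₂ ≤ 4 ^ (B + K) * 4 := by omega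
          _ ≤ 4 ^ (B + K) * M₂ := Nat.mul_le_mul_left _ hM₂pos
    · -- only the second part has `s`
      set K : ℕ := σ₀ + (iota α₂).natAbs + B₂ + 1 with hK
      set L : ℕ := B + B₂ + K with hL
      have hLB : L - B = B₂ + K := by omega
      have hbig' : K ≤ 2 ^ (L - B) := by
        rw [hLB]
        have := hpow2 (B₂ + K)
        omega
      have hbig'' : K ≤ 2 ^ (L - B) * σ₀ := by nlinarith
      refine ⟨L, by omega, 2 ^ (L - B) * σ₀, by omega, le_rfl,
        ⟨fun _ => hS₂, fun _ => by positivity⟩,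
        ⟨fun h => absurd h (by omega), fun h => absurd h hS₁⟩, ?_, ?_, ?_⟩
      · have : (K : ℤ) ≤ 2 ^ (L - B) * σ₀ := by exact_mod_cast hbig''
        push_cast
        omega
      · have e1 := iota_of_not_hasS hS₁
        push_cast
        rw [e1]
        simp
      · intro _
        have e1 : L - B₂ = B + K := by omega
        rw [e1, hLB]
        have e3 : 4 ^ K ≤ 4 ^ (B + K) := Nat.pow_le_pow_right (by norm_num) (by omega)
        have e5 : 4 ^ K = 2 ^ K * 2 ^ K := by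
          rw [← mul_pow]
          norm_num
        have e6 : 2 ^ (B₂ + σ₀) ≤ 2 ^ K := Nat.pow_le_pow_right (by norm_num) (by omega)
        have e7 : 2 ^ B₂ * σ₀ ≤ 2 ^ K := by
          rw [pow_add] at e6
          exact le_trans (Nat.mul_le_mul_left _ (hpow2 σ₀).le) e6
        calc 4 * (2 ^ (B₂ + K) * σ₀) = (2 ^ K * (2 ^ B₂ * σ₀)) * 4 := by ring
          _ ≤ (2 ^ K * 2 ^ K) * 4 := Nat.mul_le_mul_right _ (Nat.mul_le_mul_left _ e7)
          _ ≤ 4 ^ (B + K) * M₂ := by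
            rw [← e5]
            exact Nat.mul_le_mul e3 hM₂pos
  · -- the second part has no `s`
    have e2 := iota_of_not_hasS hS₂
    have ht₂ : t ∈ α₂ := h2.resolve_left hS₂
    by_cases hS₁ : hasS α₁
    · have hσ₀pos : 0 < σ₀ := hσ₀.2 (hsβ.1 (Or.inl hS₁))
      set K : ℕ := (iota α₁).natAbs + 1 with hK
      set L : ℕ := B + B₂ + K with hL
      have hLB : L - B = B₂ + K := by omega
      have hbig' : K ≤ 2 ^ (L - B) := by
        rw [hLB]
        have := hpow2 (B₂ + K)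
        omega
      have hbig'' : K ≤ 2 ^ (L - B) * σ₀ := by nlinarith
      refine ⟨L, by omega, 0, by omega, by omega,
        ⟨fun h => absurd h (by omega), fun h => absurd h hS₂⟩,
        ⟨fun _ => hS₁, fun _ => by omega⟩, by rw [e2]; simp, ?_, fun h => absurd ht₂ h⟩
      have : (K : ℤ) ≤ 2 ^ (L - B) * σ₀ := by exact_mod_cast hbig''
      push_cast
      omega
    · have e1 := iota_of_not_hasS hS₁
      have hσ₀z : σ₀ = 0 := by
        by_contra hne
        rcases hsβ.2 (hσ₀.1 (Nat.pos_of_ne_zero hne)) with h | h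
        · exact hS₁ h
        · exact hS₂ h
      refine ⟨B + B₂, by omega, 0, by omega, by omega,
        ⟨fun h => absurd h (by omega), fun h => absurd h hS₂⟩,
        ⟨fun h => absurd h (by simp [hσ₀z]), fun h => absurd h hS₁⟩, by rw [e2]; simp, ?_,
        fun h => absurd ht₂ h⟩
      rw [hσ₀z, e1]
      simp

theorem Rel_split {α₁ α₂ β : Multiset T} (h : Rel (α₁ + α₂) β) :
    ∃ β₁ β₂, Unf β (β₁ + β₂) ∧ Rel α₁ β₁ ∧ Rel α₂ β₂ := by
  have hsymm : (∃ β₂ β₁, Unf β (β₂ + β₁) ∧ Rel α₂ β₂ ∧ Rel α₁ β₁) →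
      ∃ β₁ β₂, Unf β (β₁ + β₂) ∧ Rel α₁ β₁ ∧ Rel α₂ β₂ := by
    rintro ⟨β₂, β₁, hu, h2, h1⟩
    exact ⟨β₁, β₂, by rwa [add_comm], h1, h2⟩
  have h' : Rel (α₂ + α₁) β := by rwa [add_comm]
  by_cases f1 : hasS α₁ ∨ t ∈ α₁
  · by_cases f2 : hasS α₂ ∨ t ∈ α₂
    · by_cases t1 : t ∈ α₁
      · exact Rel_split_t h t1 f2
      · by_cases t2 : t ∈ α₂
        · exact hsymm (Rel_split_t h' t2 f1)
        · exact Rel_split_ss h (f1.resolve_right t1) (f2.resolve_right t2) t1 t2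
    · rw [not_or] at f2
      exact Rel_split_one h f2.1 f2.2 f1
  · rw [not_or] at f1
    by_cases f2 : hasS α₂ ∨ t ∈ α₂
    · exact hsymm (Rel_split_one h' f1.1 f1.2 f2)
    · rw [not_or] at f2
      have hs : ¬ hasS (α₁ + α₂) := by
        rw [hasS_add, not_or]
        exact ⟨f1.1, f2.1⟩
      have ht : t ∉ α₁ + α₂ := by
        rw [Multiset.mem_add, not_or]
        exact ⟨f1.2, f2.2⟩
      obtain ⟨γ, g1, g2⟩ := h.2.2.1 hs ht
      obtain ⟨γ₁, γ₂, rfl, u1, u2⟩ := Unf_add_inv g1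
      exact ⟨γ₁, γ₂, g2, Rel_unf_rev (Rel_refl _) u1, Rel_unf_rev (Rel_refl _) u2⟩

end Ends72
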